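import Pool.Agent.H738R3.CP.GP

set_option autoImplicit false

open Real Set MeasureTheory Filter Topology
open scoped ContDiff
open Pool.Agent.H206R2 (Rot.Wall)
open Pool.Agent.H206R2.Rot2 (Veff well actW)

namespace H738CP.CF

/-- CF: critical Hopf circles. -/
theorem circleCP {L : ℝ} {f h : ℝ → ℝ} (hf : IsProfileCP L f h) {n : ℕ} (hn : 2 ≤ n) {r₀ : ℝ}
    (h0 : 0 < r₀) (hL : r₀ < L) (hd : deriv f r₀ = 0) :
    ∃ γ : ℝ → Submodule ℂ (ℂ × EuclideanSpace ℂ (Fin n)), IsGeodesicCP L f h 1 γ ∧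
      ∀ t, γ (t + 2 * π * f r₀) = γ t := by
  have hfp : 0 < f r₀ := hf.f_pos r₀ h0 hL
  have hder : ∀ (c : ℝ) (t : ℝ), deriv (fun t : ℝ => t * c) t = c := fun c t => by
    simpa using ((hasDerivAt_id t).mul_const c).deriv
  refine H738CP.GP.geodesic_of_planarCP hf hn (r := fun _ => r₀) (θ₁ := fun t => t * (1 / f r₀))
    (θ₂ := fun t => t * (f r₀ / f r₀ ^ 2 - (f r₀ + f r₀) / h r₀ ^ 2))
    (P := f r₀) (Q := 0) (J := f r₀) (T := 2 * π * f r₀) hfp le_rfl ?_ contDiff_const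
    (by fun_prop) (by fun_prop) (fun _ => ⟨h0, hL⟩) ?_ ?_ ?_ ?_ (fun _ => rfl) ?_ (Or.inl rfl)
  · rw [show f r₀ ^ 2 + 0 ^ 2 = f r₀ ^ 2 by ring, Real.sqrt_sq hfp.le]
  · intro t
    rw [hd]
    simp
  · intro t
    rw [hder]
    simp only [sub_self, zero_div, add_zero]
    field_simp
  · intro t
    rw [hder]
  · intro t
    unfold Veff
    simp [hfp.ne']
  · intro t
    field_simp

end H738CP.CF
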