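import Pool.Agent.H738R3.CP.Defs
import Pool.Agent.H206R2.Rot2.TF

/-! CL: first half of the critical point equations for a `Pair`, with a general target function `Γ`
(adapted from `Pool.Agent.H206R2.Rot2.TF`). -/

open Real Set MeasureTheory Filter Topology
open scoped ContDiff
open Pool.Agent.H206R2.Rot2 (Veff well actW)
open Pool.Agent.H206R2.Rot2.TF (well_ordConnected well_meas sqrt_sub_le deriv_neg deriv_pos
  veff_add1 veff_add2)

namespace H738CP.CL

/-- Abstract lower estimate, for a general constant `m`. -/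
lemma abs_le {L : ℝ} {V G : ℝ → ℝ} (hV : ContinuousOn V (Ioo 0 L)) (hG : ContinuousOn G (Ioo 0 L))
    (hG0 : ∀ x ∈ Ioo 0 L, 0 < G x) {p q s₀ : ℝ} (hp : 0 < p) (hps : p < s₀) (hsq : s₀ < q)
    (hq : q < L) (hVp : V p = 1) (hVq : V q = 1) (hin : ∀ x ∈ Ioo p q, V x < 1) {k m : ℝ}
    (hk : 0 < k) {σ : ℝ → ℝ} (hσ : Tendsto σ (𝓝[>] 0) (𝓝 s₀))
    (hmin : ∀ᶠ ε in 𝓝[>] (0 : ℝ), 2 * ∫ r in Ioo p q, √(1 - V r) ≤
      2 * (∫ r in well L (fun r => V r + ((k + ε) ^ 2 - k ^ 2) * G r) (σ ε),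
        √(1 - (V r + ((k + ε) ^ 2 - k ^ 2) * G r))) + m * ε)
    {x y : ℝ} (hx : p < x) (hxs : x < s₀) (hsy : s₀ < y) (hy : y < q) :
    2 * ∫ r in Icc x y, k * G r / √(1 - V r) ≤ m := by
  have hsub : Icc x y ⊆ Ioo p q := fun r hr => ⟨by linarith [hr.1], by linarith [hr.2]⟩
  have hsub2 : Icc p q ⊆ Ioo 0 L := fun r hr => ⟨by linarith [hr.1], by linarith [hr.2]⟩
  have hsub3 : Icc x y ⊆ Ioo 0 L := fun r hr => ⟨by linarith [hr.1], by linarith [hr.2]⟩
  have hne : (Icc x y).Nonempty := nonempty_Icc.mpr (by linarith)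
  obtain ⟨x1, hx1, hmax1⟩ := isCompact_Icc.exists_isMaxOn hne (hV.mono hsub3)
  obtain ⟨x2, hx2, hmax2⟩ := isCompact_Icc.exists_isMaxOn hne (hG.mono hsub3)
  have hδ : 0 < 1 - V x1 := by linarith [hin x1 (hsub hx1)]
  have e1 : ∀ᶠ ε in 𝓝[>] (0 : ℝ), ((k + ε) ^ 2 - k ^ 2) * G x2 < 1 - V x1 := by
    have hc : Continuous fun ε : ℝ => ((k + ε) ^ 2 - k ^ 2) * G x2 := by fun_prop
    have ht := hc.tendsto 0
    simp only [add_zero, sub_self, zero_mul] at ht
    exact (tendsto_nhdsWithin_of_tendsto_nhds ht).eventually_lt_const hδ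
  have e2 : ∀ᶠ ε in 𝓝[>] (0 : ℝ), σ ε ∈ Ioo x y := hσ (Ioo_mem_nhds hxs hsy)
  have e3 : ∀ᶠ ε in 𝓝[>] (0 : ℝ), ε ∈ Ioi (0 : ℝ) := self_mem_nhdsWithin
  obtain ⟨ε, hε1, hε2, hε3, hε4⟩ := (e1.and (e2.and (e3.and hmin))).exists
  rw [mem_Ioi] at hε3
  set κ : ℝ := (k + ε) ^ 2 - k ^ 2 with hκ
  have hκ1 : 2 * k * ε ≤ κ := by rw [hκ]; nlinarith [sq_nonneg ε]
  have hκ0 : 0 < κ := lt_of_lt_of_le (by positivity) hκ1
  set V' : ℝ → ℝ := fun r => V r + κ * G r with hV'
  set W := well L V' (σ ε) with hW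
  have hVV' : ∀ r ∈ Ioo 0 L, V r < V' r := fun r hr => by
    have := mul_pos hκ0 (hG0 r hr)
    simp only [hV']
    linarith
  have hIcc : ∀ r ∈ Icc x y, V' r < 1 := fun r hr => by
    have h1 := hmax1 hr
    have h2 := hmax2 hr
    have h1' : V r ≤ V x1 := h1
    have h2' : G r ≤ G x2 := h2
    have := mul_le_mul_of_nonneg_left h2' hκ0.le
    simp only [hV']
    linarith
  have hW1 : W ⊆ Ioo p q := by
    intro r hr
    constructor
    · by_contra hcon
      push Not at hcon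
      have hm : p ∈ uIcc (σ ε) r := by
        rw [mem_uIcc]; right; exact ⟨hcon, by linarith [hε2.1]⟩
      obtain ⟨h1, h2, h3⟩ := hr p hm
      have := hVV' p ⟨h1, h2⟩
      linarith
    · by_contra hcon
      push Not at hcon
      have hm : q ∈ uIcc (σ ε) r := by
        rw [mem_uIcc]; left; exact ⟨by linarith [hε2.2], hcon⟩
      obtain ⟨h1, h2, h3⟩ := hr q hm
      have := hVV' q ⟨h1, h2⟩
      linarith
  have hW2 : Icc x y ⊆ W := by
    intro r hr t ht
    have ht' : t ∈ Icc x y := by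
      have : uIcc (σ ε) r ⊆ Icc x y := by
        rw [← uIcc_of_le (by linarith : x ≤ y)] at hr ⊢
        apply uIcc_subset_uIcc _ hr
        rw [uIcc_of_le (by linarith : x ≤ y)]
        exact ⟨hε2.1.le, hε2.2.le⟩
      exact this ht
    exact ⟨(hsub3 ht').1, (hsub3 ht').2, hIcc t ht'⟩
  have hWm : MeasurableSet W := well_meas L V' (σ ε)
  -- integrability
  have hi1 : IntegrableOn (fun r => √(1 - V r)) (Ioo p q) := by
    refine (ContinuousOn.integrableOn_Icc ?_).mono_set Ioo_subset_Icc_self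
    exact (continuousOn_const.sub (hV.mono hsub2)).sqrt
  have hi2 : IntegrableOn (fun r => √(1 - V' r)) (Ioo p q) := by
    refine (ContinuousOn.integrableOn_Icc ?_).mono_set Ioo_subset_Icc_self
    exact (continuousOn_const.sub ((hV.mono hsub2).add (continuousOn_const.mul
      (hG.mono hsub2)))).sqrt
  have hi3 : IntegrableOn (fun r => k * G r / √(1 - V r)) (Icc x y) := by
    refine ContinuousOn.integrableOn_Icc ?_
    refine (continuousOn_const.mul (hG.mono hsub3)).div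
      (continuousOn_const.sub (hV.mono hsub3)).sqrt ?_
    intro r hr
    have := hin r (hsub hr)
    exact (Real.sqrt_pos.mpr (by linarith)).ne'
  have hi4 : IntegrableOn ((Icc x y).indicator fun r => ε * (k * G r / √(1 - V r))) (Ioo p q) := by
    rw [integrableOn_indicator_iff measurableSet_Icc, inter_eq_self_of_subset_left hsub]
    exact hi3.const_mul ε
  have key : ∫ r in W, √(1 - V' r) ≤ (∫ r in Ioo p q, √(1 - V r)) -
      ε * ∫ r in Icc x y, k * G r / √(1 - V r) := by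
    have c1 : ∫ r in W, √(1 - V' r) = ∫ r in Ioo p q, W.indicator (fun r => √(1 - V' r)) r := by
      rw [setIntegral_indicator hWm, inter_eq_self_of_subset_right hW1]
    have c2 : ε * ∫ r in Icc x y, k * G r / √(1 - V r) =
        ∫ r in Ioo p q, (Icc x y).indicator (fun r => ε * (k * G r / √(1 - V r))) r := by
      rw [setIntegral_indicator measurableSet_Icc, inter_eq_self_of_subset_right hsub,
        integral_const_mul]
    rw [c1, c2, ← integral_sub hi1 hi4]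
    apply setIntegral_mono_on _ (hi1.sub hi4) measurableSet_Ioo
    · intro r hr
      have hrV := hin r hr
      have hrL : r ∈ Ioo 0 L := hsub2 (Ioo_subset_Icc_self hr)
      have hlt := hVV' r hrL
      simp only [Pi.sub_apply]
      by_cases hrI : r ∈ Icc x y
      · rw [indicator_of_mem hrI, indicator_of_mem (hW2 hrI)]
        have h1 := sqrt_sub_le (a := 1 - V r) (b := 1 - V' r) (by linarith)
          (by linarith [hIcc r hrI])
        have hs : 0 < √(1 - V r) := Real.sqrt_pos.mpr (by linarith)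
        have h2 : (1 - V' r - (1 - V r)) / (2 * √(1 - V r)) = -(κ * G r / (2 * √(1 - V r))) := by
          simp only [hV']
          ring
        have h3 : ε * (k * G r / √(1 - V r)) ≤ κ * G r / (2 * √(1 - V r)) := by
          rw [← mul_div_assoc, div_le_div_iff₀ hs (by positivity)]
          have hG' := hG0 r hrL
          nlinarith [mul_pos hG' hs]
        rw [h2] at h1
        linarith
      · rw [indicator_of_notMem hrI, sub_zero]
        by_cases hrW : r ∈ W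
        · rw [indicator_of_mem hrW]
          exact Real.sqrt_le_sqrt (by linarith)
        · rw [indicator_of_notMem hrW]
          exact Real.sqrt_nonneg _
    · exact hi2.indicator hWm
  have hfin : 2 * (ε * ∫ r in Icc x y, k * G r / √(1 - V r)) ≤ m * ε := by linarith
  have : ε * (2 * ∫ r in Icc x y, k * G r / √(1 - V r)) ≤ ε * m := by linarith
  exact le_of_mul_le_mul_left this hε3

lemma abs_F {L : ℝ} {V G : ℝ → ℝ} (hV : ContinuousOn V (Ioo 0 L)) (hG : ContinuousOn G (Ioo 0 L))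
    (hG0 : ∀ x ∈ Ioo 0 L, 0 < G x) {p q s₀ : ℝ} (hp : 0 < p) (hps : p < s₀) (hsq : s₀ < q)
    (hq : q < L) (hVp : V p = 1) (hVq : V q = 1) (hin : ∀ x ∈ Ioo p q, V x < 1) {k m : ℝ}
    (hk : 0 < k) {σ : ℝ → ℝ} (hσ : Tendsto σ (𝓝[>] 0) (𝓝 s₀))
    (hmin : ∀ᶠ ε in 𝓝[>] (0 : ℝ), 2 * ∫ r in Ioo p q, √(1 - V r) ≤
      2 * (∫ r in well L (fun r => V r + ((k + ε) ^ 2 - k ^ 2) * G r) (σ ε),
        √(1 - (V r + ((k + ε) ^ 2 - k ^ 2) * G r))) + m * ε) :
    IntegrableOn (fun r => k * G r / √(1 - V r)) (Ioo p q) ∧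
      2 * ∫ r in Ioo p q, k * G r / √(1 - V r) ≤ m := by
  set a : ℕ → ℝ := fun n => p + (s₀ - p) / ((n : ℝ) + 2) with ha
  set b : ℕ → ℝ := fun n => q - (q - s₀) / ((n : ℝ) + 2) with hb
  have hlim : ∀ c : ℝ, Tendsto (fun n : ℕ => c / ((n : ℝ) + 2)) atTop (𝓝 0) := fun c =>
    tendsto_const_nhds.div_atTop (tendsto_atTop_add_const_right _ _ tendsto_natCast_atTop_atTop)
  have ha' : Tendsto a atTop (𝓝 p) := by
    simpa using (tendsto_const_nhds (x := p)).add (hlim (s₀ - p))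
  have hb' : Tendsto b atTop (𝓝 q) := by
    simpa using (tendsto_const_nhds (x := q)).sub (hlim (q - s₀))
  have hn2 : ∀ n : ℕ, (1 : ℝ) < (n : ℝ) + 2 := fun n => by
    have : (0 : ℝ) ≤ n := Nat.cast_nonneg n
    linarith
  have hbd : ∀ n, 2 * ∫ r in Icc (a n) (b n), k * G r / √(1 - V r) ≤ m := fun n => by
    have h1 : 0 < (s₀ - p) / ((n : ℝ) + 2) := div_pos (by linarith) (by linarith [hn2 n])
    have h2 : 0 < (q - s₀) / ((n : ℝ) + 2) := div_pos (by linarith) (by linarith [hn2 n])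
    have h3 : (s₀ - p) / ((n : ℝ) + 2) < s₀ - p := div_lt_self (by linarith) (hn2 n)
    have h4 : (q - s₀) / ((n : ℝ) + 2) < q - s₀ := div_lt_self (by linarith) (hn2 n)
    exact abs_le hV hG hG0 hp hps hsq hq hVp hVq hin hk hσ hmin (by simp only [ha]; linarith)
      (by simp only [ha]; linarith) (by simp only [hb]; linarith) (by simp only [hb]; linarith)
  have hcov : AECover (volume.restrict (Ioo p q)) atTop fun n => Icc (a n) (b n) :=
    aecover_Ioo_of_Icc ha' hb'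
  have hsubn : ∀ n, Icc (a n) (b n) ⊆ Ioo p q := fun n r hr => by
    have h1 : 0 < (s₀ - p) / ((n : ℝ) + 2) := div_pos (by linarith) (by linarith [hn2 n])
    have h2 : 0 < (q - s₀) / ((n : ℝ) + 2) := div_pos (by linarith) (by linarith [hn2 n])
    simp only [ha, hb, mem_Icc] at hr
    exact ⟨by linarith [hr.1], by linarith [hr.2]⟩
  have hrr : ∀ n, (volume.restrict (Ioo p q)).restrict (Icc (a n) (b n)) =
      volume.restrict (Icc (a n) (b n)) := fun n => by
    rw [Measure.restrict_restrict measurableSet_Icc, inter_eq_self_of_subset_left (hsubn n)]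
  have hsub4 : Ioo p q ⊆ Ioo 0 L := fun r hr => ⟨by linarith [hr.1], by linarith [hr.2]⟩
  have hint : Integrable (fun r => k * G r / √(1 - V r)) (volume.restrict (Ioo p q)) := by
    refine hcov.integrable_of_integral_bounded_of_nonneg_ae (m / 2) ?_ ?_ ?_
    · intro n
      unfold IntegrableOn
      rw [hrr n]
      refine ContinuousOn.integrableOn_Icc ?_
      refine (continuousOn_const.mul (hG.mono ((hsubn n).trans hsub4))).div
        (continuousOn_const.sub (hV.mono ((hsubn n).trans hsub4))).sqrt ?_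
      intro r hr
      have := hin r (hsubn n hr)
      exact (Real.sqrt_pos.mpr (by linarith)).ne'
    · refine (ae_restrict_iff' measurableSet_Ioo).mpr (ae_of_all _ fun r hr => ?_)
      have := hG0 r (hsub4 hr)
      positivity
    · refine Eventually.of_forall fun n => ?_
      rw [hrr n]
      linarith [hbd n]
  refine ⟨hint, ?_⟩
  have ht := hcov.integral_tendsto_of_countably_generated hint
  have : ∫ r in Ioo p q, k * G r / √(1 - V r) ≤ m / 2 := by
    refine le_of_tendsto' ht fun n => ?_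
    rw [hrr n]
    linarith [hbd n]
  linarith

/-- The upper estimate of the decrease of the target. -/
lemma gamma_le {g : ℝ → ℝ} {m x m' : ℝ} (hg : HasDerivAt g (-m) x) (hm : m < m') :
    ∀ᶠ ε in 𝓝[>] (0 : ℝ), g x - g (x + ε) ≤ m' * ε := by
  have h1 := hg.tendsto_slope_zero_right
  have h2 : ∀ᶠ ε in 𝓝[>] (0 : ℝ), -m' < ε⁻¹ • (g (x + ε) - g x) :=
    h1.eventually_const_lt (by linarith)
  filter_upwards [h2, self_mem_nhdsWithin] with ε hε hε0
  rw [mem_Ioi] at hε0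
  rw [smul_eq_mul, inv_mul_eq_div, lt_div_iff₀ hε0] at hε
  linarith

lemma f_ne {L : ℝ} {f h : ℝ → ℝ} (hf : Pair L f h) {r : ℝ} (hr : r ∈ Ioo 0 L) : f r ≠ 0 :=
  (hf.f_pos r hr.1 hr.2).ne'

lemma h_ne {L : ℝ} {f h : ℝ → ℝ} (hf : Pair L f h) {r : ℝ} (hr : r ∈ Ioo 0 L) : h r ≠ 0 :=
  (hf.h_pos r hr.1 hr.2).ne'

lemma veff_contDiffOn {L : ℝ} {f h : ℝ → ℝ} (hf : Pair L f h) (c₁ c₂ : ℝ) :
    ContDiffOn ℝ ∞ (Veff f h c₁ c₂) (Ioo 0 L) := by
  unfold Veff
  exact ((contDiffOn_const.div hf.smooth_f.contDiffOn fun r hr => f_ne hf hr).pow 2).add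
    ((contDiffOn_const.div hf.smooth_h.contDiffOn fun r hr => h_ne hf hr).pow 2)

lemma veff_reg {L : ℝ} {f h : ℝ → ℝ} (hf : Pair L f h) (c₁ c₂ : ℝ) {p : ℝ}
    (hp : p ∈ Ioo 0 L) : (∀ᶠ x in 𝓝 p, DifferentiableAt ℝ (Veff f h c₁ c₂) x) ∧
      DifferentiableAt ℝ (deriv (Veff f h c₁ c₂)) p := by
  have h1 := veff_contDiffOn hf c₁ c₂
  rw [contDiffOn_infty_iff_deriv_of_isOpen isOpen_Ioo] at h1
  constructor
  · filter_upwards [isOpen_Ioo.mem_nhds hp] with x hx
    exact h1.1.differentiableAt (isOpen_Ioo.mem_nhds hx)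
  · exact (h1.2.differentiableOn (by simp)).differentiableAt (isOpen_Ioo.mem_nhds hp)

lemma gf_cont {L : ℝ} {f h : ℝ → ℝ} (hf : Pair L f h) :
    ContinuousOn (fun r => 1 / f r ^ 2) (Ioo 0 L) :=
  continuousOn_const.div (hf.smooth_f.continuous.continuousOn.pow 2)
    fun r hr => pow_ne_zero 2 (f_ne hf hr)

lemma gh_cont {L : ℝ} {f h : ℝ → ℝ} (hf : Pair L f h) :
    ContinuousOn (fun r => 1 / h r ^ 2) (Ioo 0 L) :=
  continuousOn_const.div (hf.smooth_h.continuous.continuousOn.pow 2)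
    fun r hr => pow_ne_zero 2 (h_ne hf hr)

lemma gf_pos {L : ℝ} {f h : ℝ → ℝ} (hf : Pair L f h) : ∀ r ∈ Ioo 0 L, 0 < 1 / f r ^ 2 :=
  fun r hr => by have := f_ne hf hr; positivity

lemma gh_pos {L : ℝ} {f h : ℝ → ℝ} (hf : Pair L f h) : ∀ r ∈ Ioo 0 L, 0 < 1 / h r ^ 2 :=
  fun r hr => by have := h_ne hf hr; positivity

/-- CL: first half of the critical point equations, for a general target function `Γ`. -/
theorem crit_le {L : ℝ} {f h : ℝ → ℝ} (hf : Pair L f h) {s : ℝ × ℝ → ℝ} {Γ : ℝ × ℝ → ℝ}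
    {c : ℝ × ℝ} (hc1 : 0 < c.1) (hc2 : 0 < c.2) (hs : ContinuousAt s c) {m₁ m₂ : ℝ}
    (hΓ1 : HasDerivAt (fun x => Γ (x, c.2)) (-m₁) c.1)
    (hΓ2 : HasDerivAt (fun x => Γ (c.1, x)) (-m₂) c.2)
    (hmin : ∀ᶠ c' in 𝓝 c, actW L (Veff f h c.1 c.2) (s c) - Γ c ≤
      actW L (Veff f h c'.1 c'.2) (s c') - Γ c')
    {p q : ℝ} (hp : 0 < p) (hps : p < s c) (hsq : s c < q) (hq : q < L)
    (hVp : Veff f h c.1 c.2 p = 1) (hVq : Veff f h c.1 c.2 q = 1)
    (hw : well L (Veff f h c.1 c.2) (s c) = Ioo p q)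
    (hin : ∀ x ∈ Ioo p q, Veff f h c.1 c.2 x < 1) :
    IntegrableOn (fun r => 1 / √(1 - Veff f h c.1 c.2 r)) (Ioo p q) ∧
    2 * ∫ r in Ioo p q, c.1 / (f r ^ 2 * √(1 - Veff f h c.1 c.2 r)) ≤ m₁ ∧
    2 * ∫ r in Ioo p q, c.2 / (h r ^ 2 * √(1 - Veff f h c.1 c.2 r)) ≤ m₂ ∧
    deriv (Veff f h c.1 c.2) p < 0 ∧ 0 < deriv (Veff f h c.1 c.2) q := by
  obtain ⟨c₁, c₂⟩ := c
  simp only at hc1 hc2 hΓ1 hΓ2 hmin hVp hVq hw hin ⊢
  have hVc : ContinuousOn (Veff f h c₁ c₂) (Ioo 0 L) := (veff_contDiffOn hf c₁ c₂).continuousOn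
  have hpq : p < q := hps.trans hsq
  have ht1 : Tendsto (fun ε : ℝ => (c₁ + ε, c₂)) (𝓝[>] 0) (𝓝 (c₁, c₂)) := by
    have : Continuous fun ε : ℝ => (c₁ + ε, c₂) := by fun_prop
    have h2 := this.tendsto 0
    rw [add_zero] at h2
    exact tendsto_nhdsWithin_of_tendsto_nhds h2
  have ht2 : Tendsto (fun ε : ℝ => (c₁, c₂ + ε)) (𝓝[>] 0) (𝓝 (c₁, c₂)) := by
    have : Continuous fun ε : ℝ => (c₁, c₂ + ε) := by fun_prop
    have h2 := this.tendsto 0
    rw [add_zero] at h2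
    exact tendsto_nhdsWithin_of_tendsto_nhds h2
  -- first direction
  have F1 : ∀ m', m₁ < m' → _ := fun m' hm' =>
    abs_F (V := Veff f h c₁ c₂) (G := fun r => 1 / f r ^ 2) (m := m') hVc (gf_cont hf) (gf_pos hf)
    hp hps hsq hq hVp hVq hin hc1 (σ := fun ε => s (c₁ + ε, c₂)) (hs.tendsto.comp ht1) (by
      filter_upwards [ht1.eventually hmin, gamma_le hΓ1 hm'] with ε h2 h3
      simp only [actW] at h2
      rw [hw, veff_add1] at h2
      linarith)
  have F2 : ∀ m', m₂ < m' → _ := fun m' hm' =>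
    abs_F (V := Veff f h c₁ c₂) (G := fun r => 1 / h r ^ 2) (m := m') hVc (gh_cont hf) (gh_pos hf)
    hp hps hsq hq hVp hVq hin hc2 (σ := fun ε => s (c₁, c₂ + ε)) (hs.tendsto.comp ht2) (by
      filter_upwards [ht2.eventually hmin, gamma_le hΓ2 hm'] with ε h2 h3
      simp only [actW] at h2
      rw [hw, veff_add2] at h2
      linarith)
  have e1 : (fun r => c₁ / (f r ^ 2 * √(1 - Veff f h c₁ c₂ r))) =
      fun r => c₁ * (1 / f r ^ 2) / √(1 - Veff f h c₁ c₂ r) := by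
    funext r
    rw [div_mul_eq_div_div, mul_one_div]
  have e2 : (fun r => c₂ / (h r ^ 2 * √(1 - Veff f h c₁ c₂ r))) =
      fun r => c₂ * (1 / h r ^ 2) / √(1 - Veff f h c₁ c₂ r) := by
    funext r
    rw [div_mul_eq_div_div, mul_one_div]
  have hsub2 : Icc p q ⊆ Ioo 0 L := fun r hr => ⟨by linarith [hr.1], by linarith [hr.2]⟩
  have hsub3 : Ioo p q ⊆ Ioo 0 L := Ioo_subset_Icc_self.trans hsub2
  have hint : IntegrableOn (fun r => 1 / √(1 - Veff f h c₁ c₂ r)) (Ioo p q) := by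
    obtain ⟨x1, hx1, hmin1⟩ := isCompact_Icc.exists_isMinOn (nonempty_Icc.mpr hpq.le)
      ((gf_cont hf).mono hsub2)
    have hm : 0 < 1 / f x1 ^ 2 := gf_pos hf x1 (hsub2 hx1)
    set m := 1 / f x1 ^ 2 with hmdef
    have hI : IntegrableOn (fun r => 1 / (c₁ * m) *
      (c₁ * (1 / f r ^ 2) / √(1 - Veff f h c₁ c₂ r))) (Ioo p q) :=
      (F1 (m₁ + 1) (by linarith)).1.const_mul _
    refine hI.mono' ?_ ?_
    · apply ContinuousOn.aestronglyMeasurable _ measurableSet_Ioo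
      refine continuousOn_const.div (continuousOn_const.sub (hVc.mono hsub3)).sqrt ?_
      intro r hr
      exact (Real.sqrt_pos.mpr (by linarith [hin r hr])).ne'
    · refine (ae_restrict_iff' measurableSet_Ioo).mpr (ae_of_all _ fun r hr => ?_)
      have hs : 0 < √(1 - Veff f h c₁ c₂ r) := Real.sqrt_pos.mpr (by linarith [hin r hr])
      rw [Real.norm_eq_abs, abs_of_pos (by positivity)]
      have h1 : m ≤ 1 / f r ^ 2 := hmin1 (Ioo_subset_Icc_self hr)
      have h2 : 1 / (c₁ * m) * (c₁ * (1 / f r ^ 2) / √(1 - Veff f h c₁ c₂ r)) =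
          (1 / f r ^ 2 / m) * (1 / √(1 - Veff f h c₁ c₂ r)) := by
        field_simp
      rw [h2]
      have h3 : 1 ≤ 1 / f r ^ 2 / m := by rw [le_div_iff₀ hm, one_mul]; exact h1
      exact le_mul_of_one_le_left (by positivity) h3
  refine ⟨hint, ?_, ?_, ?_, ?_⟩
  · rw [e1]
    exact le_of_forall_gt_imp_ge_of_dense fun m' hm' => (F1 m' hm').2
  · rw [e2]
    exact le_of_forall_gt_imp_ge_of_dense fun m' hm' => (F2 m' hm').2
  · obtain ⟨r1, r2⟩ := veff_reg hf c₁ c₂ (hsub2 (left_mem_Icc.mpr hpq.le))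
    exact deriv_neg hpq r1 r2 hVp hin hint
  · obtain ⟨r1, r2⟩ := veff_reg hf c₁ c₂ (hsub2 (right_mem_Icc.mpr hpq.le))
    exact deriv_pos hpq r1 r2 hVq hin hint

end H738CP.CL
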