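import Pool.Agent.H206R2.Rot2.Main

/-!
# `U(n)`-invariant metrics on complex projective space: definitions

A `U(n)`-invariant metric of diagonal form on `ℂP^n` is `dr² + f(r)² θ² + h(r)² g_FS`, `0 ≤ r ≤ L`, where
`r` is the distance from a fixed point, `θ` is the contact form of the unit sphere `S^{2n-1} ⊂ ℂ^n` and
`g_FS` its horizontal metric (`θ² + g_FS` is the round metric), and `L` the distance of the fixed point
from the polar hyperplane `ℂP^{n-1}`.  It is smooth exactly when `f`, `h` extend to smooth functions on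
`ℝ`, odd about `0` with `f'(0) = h'(0) = 1`, with `f` odd and `h` even about `L`, `f'(L) = -1`,
`f > 0` on `(0, L)`, `h > 0` on `(0, L]`.
-/

open Real Set MeasureTheory
open scoped ContDiff

namespace H738CP

/-- The pairs of profile functions of smooth metrics `dr² + f(r)² θ² + h(r)² g_FS` on `ℂP^n`. -/
structure IsProfileCP (L : ℝ) (f h : ℝ → ℝ) : Prop where
  pos : 0 < L
  smooth_f : ContDiff ℝ ∞ f
  smooth_h : ContDiff ℝ ∞ h
  f_odd : ∀ r, f (-r) = -f r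
  f_odd_L : ∀ r, f (L + r) = -f (L - r)
  h_odd : ∀ r, h (-r) = -h r
  h_even_L : ∀ r, h (L + r) = h (L - r)
  f_pos : ∀ r, 0 < r → r < L → 0 < f r
  h_pos : ∀ r, 0 < r → r ≤ L → 0 < h r
  f_deriv : deriv f 0 = 1
  h_deriv : deriv h 0 = 1
  f_deriv_L : deriv f L = -1

/-- The point of `ℂP^n` (a complex line in `ℂ × ℂ^n`) at distance `r` from the point `[1 : 0]` in
direction `z ∈ S^{2n-1}`, for `0 ≤ r ≤ L`; for all real `r` by continuing the normal geodesic. -/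
noncomputable def cpt {n : ℕ} (L r : ℝ) (z : EuclideanSpace ℂ (Fin n)) :
    Submodule ℂ (ℂ × EuclideanSpace ℂ (Fin n)) :=
  Submodule.span ℂ {((Real.cos (π * r / (2 * L)) : ℂ), ((Real.sin (π * r / (2 * L)) : ℝ) : ℂ) • z)}

/-- The Hopf component `θ(z')` of the velocity of a curve in `S^{2n-1}`. -/
noncomputable def hopf {n : ℕ} (z : ℝ → EuclideanSpace ℂ (Fin n)) (t : ℝ) : ℝ :=
  (inner ℂ (z t) (deriv z t)).im

/-- The horizontal part of the velocity of a curve in `S^{2n-1}`. -/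
noncomputable def hor {n : ℕ} (z : ℝ → EuclideanSpace ℂ (Fin n)) (t : ℝ) : EuclideanSpace ℂ (Fin n) :=
  deriv z t - ((hopf z t : ℂ) * Complex.I) • z t

/-- `γ` is a geodesic of speed `v` of the metric `dr² + f(r)² θ² + h(r)² g_FS` on `ℂP^n`, written in
extended coordinates `(r, z)`, `z ∈ S^{2n-1} ⊂ ℂ^n`. -/
def IsGeodesicCP {n : ℕ} (L : ℝ) (f h : ℝ → ℝ) (v : ℝ)
    (γ : ℝ → Submodule ℂ (ℂ × EuclideanSpace ℂ (Fin n))) : Prop :=
  ∃ (r : ℝ → ℝ) (z : ℝ → EuclideanSpace ℂ (Fin n)),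
    ContDiff ℝ 2 r ∧ ContDiff ℝ 2 z ∧ (∀ t, ‖z t‖ = 1) ∧ (∀ t, γ t = cpt L (r t) (z t)) ∧
    (∀ t, deriv (deriv r) t = f (r t) * deriv f (r t) * hopf z t ^ 2
      + h (r t) * deriv h (r t) * ‖hor z t‖ ^ 2) ∧
    (∃ P : ℝ, ∀ t, f (r t) ^ 2 * hopf z t = P) ∧
    (∀ t, ((h (r t) ^ 2 : ℝ) : ℂ) • (deriv (hor z) t + ((‖hor z t‖ ^ 2 : ℝ) : ℂ) • z t)
      + ((2 * h (r t) * deriv h (r t) * deriv r t : ℝ) : ℂ) • hor z t
      + (((2 * f (r t) ^ 2 - h (r t) ^ 2) * hopf z t : ℝ) * Complex.I) • hor z t = 0) ∧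
    (∀ t, deriv r t ^ 2 + f (r t) ^ 2 * hopf z t ^ 2 + h (r t) ^ 2 * ‖hor z t‖ ^ 2 = v ^ 2)

/-- General pairs of positive functions on `(0, L)` with blow up of `Veff` at both ends. -/
structure Pair (L : ℝ) (f h : ℝ → ℝ) : Prop where
  pos : 0 < L
  smooth_f : ContDiff ℝ ∞ f
  smooth_h : ContDiff ℝ ∞ h
  f_pos : ∀ r, 0 < r → r < L → 0 < f r
  h_pos : ∀ r, 0 < r → r < L → 0 < h r
  zero : f 0 = 0 ∨ h 0 = 0
  last : f L = 0 ∨ h L = 0

/-- The region `P, Q > 0`, `P + √(P² + Q²) < R`. -/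
def Reg (R : ℝ) : Set (ℝ × ℝ) := {c | 0 < c.1 ∧ 0 < c.2 ∧ c.1 + √(c.1 ^ 2 + c.2 ^ 2) < R}

end H738CP
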