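import Pool.Agent.H738R3.CP.Defs

/-!
# Lower semicontinuity of the action
-/

open Real Set MeasureTheory Filter Topology
open scoped ContDiff
open Pool.Agent.H206R2.Rot2 (Veff well actW)
open Pool.Agent.H206R2.Rot2.TE (bd well_sub)

namespace H738CP.LS

section
variable {L : ℝ} {f h : ℝ → ℝ} (hf : Pair L f h)
include hf

theorem meas (c₁ c₂ : ℝ) : Measurable (fun r => √(1 - Veff f h c₁ c₂ r)) := by
  unfold Veff
  have m1 : Measurable f := hf.smooth_f.continuous.measurable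
  have m2 : Measurable h := hf.smooth_h.continuous.measurable
  exact (measurable_const.sub (((measurable_const.div m1).pow_const 2).add
    ((measurable_const.div m2).pow_const 2))).sqrt

end

theorem intOn {L : ℝ} {f h : ℝ → ℝ} (hf : Pair L f h) (c₁ c₂ : ℝ) {A : Set ℝ}
    (hA : volume A < ⊤) : IntegrableOn (fun r => √(1 - Veff f h c₁ c₂ r)) A := by
  refine Measure.integrableOn_of_bounded (M := 1) hA.ne (meas hf c₁ c₂).aestronglyMeasurable ?_
  refine Eventually.of_forall fun r => ?_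
  rw [Real.norm_of_nonneg (Real.sqrt_nonneg _)]
  exact bd c₁ c₂ r

/-- Contribution of a compact interval to the action. -/
theorem actW_ge {L : ℝ} {f h : ℝ → ℝ} (hf : Pair L f h) {c₁ c₂ x y s : ℝ}
    (hx : 0 < x) (hy : y < L) (hs : s ∈ Icc x y) (hV : ∀ r ∈ Icc x y, Veff f h c₁ c₂ r < 1) :
    2 * ∫ r in Icc x y, √(1 - Veff f h c₁ c₂ r) ≤ actW L (Veff f h c₁ c₂) s := by
  unfold actW
  have hsub : Icc x y ⊆ well L (Veff f h c₁ c₂) s := by
    intro r hr z hz
    have hz' : z ∈ Icc x y := (ordConnected_Icc.uIcc_subset hs hr) hz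
    exact ⟨lt_of_lt_of_le hx hz'.1, lt_of_le_of_lt hz'.2 hy, hV z hz'⟩
  have hfin : volume (well L (Veff f h c₁ c₂) s) < ⊤ :=
    lt_of_le_of_lt (measure_mono (well_sub L _ s)) measure_Ioo_lt_top
  have := setIntegral_mono_set (intOn hf c₁ c₂ hfin)
    (Eventually.of_forall fun r => Real.sqrt_nonneg _) hsub.eventuallyLE
  linarith

/-- The effective potential stays below `1` on compact intervals for nearby constants. -/
theorem ev_lt {L : ℝ} {f h : ℝ → ℝ} (hf : Pair L f h) {c₀ : ℝ × ℝ} {x y : ℝ}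
    (hx : 0 < x) (hy : y < L) (hV : ∀ r ∈ Icc x y, Veff f h c₀.1 c₀.2 r < 1) :
    ∀ᶠ c : ℝ × ℝ in 𝓝 c₀, ∀ r ∈ Icc x y, Veff f h c.1 c.2 r < 1 := by
  refine isCompact_Icc.eventually_forall_of_forall_eventually
    (P := fun (c : ℝ × ℝ) (r : ℝ) => Veff f h c.1 c.2 r < 1) ?_
  intro r hr
  have hr0 : 0 < r := lt_of_lt_of_le hx hr.1
  have hrL : r < L := lt_of_le_of_lt hr.2 hy
  have h1 : f r ≠ 0 := (hf.f_pos r hr0 hrL).ne'
  have h2 : h r ≠ 0 := (hf.h_pos r hr0 hrL).ne'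
  have e1 : ContinuousAt (fun z : (ℝ × ℝ) × ℝ => f z.2) (c₀, r) :=
    (hf.smooth_f.continuous.comp continuous_snd).continuousAt
  have e2 : ContinuousAt (fun z : (ℝ × ℝ) × ℝ => h z.2) (c₀, r) :=
    (hf.smooth_h.continuous.comp continuous_snd).continuousAt
  have e3 : ContinuousAt (fun z : (ℝ × ℝ) × ℝ => z.1.1) (c₀, r) :=
    (continuous_fst.comp continuous_fst).continuousAt
  have e4 : ContinuousAt (fun z : (ℝ × ℝ) × ℝ => z.1.2) (c₀, r) :=
    (continuous_snd.comp continuous_fst).continuousAt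
  have e5 : ContinuousAt (fun z : (ℝ × ℝ) × ℝ => Veff f h z.1.1 z.1.2 z.2) (c₀, r) := by
    unfold Veff
    exact ((e3.div e1 h1).pow 2).add ((e4.div e2 h2).pow 2)
  exact e5.eventually (eventually_lt_nhds (hV r hr))

theorem tendsto_int {L : ℝ} {f h : ℝ → ℝ} (hf : Pair L f h) {c₀ : ℝ × ℝ}
    {c : ℕ → ℝ × ℝ} (hc : Tendsto c atTop (𝓝 c₀)) (x y : ℝ) :
    Tendsto (fun n => ∫ r in Icc x y, √(1 - Veff f h (c n).1 (c n).2 r)) atTop
      (𝓝 (∫ r in Icc x y, √(1 - Veff f h c₀.1 c₀.2 r))) := by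
  refine tendsto_integral_of_dominated_convergence (fun _ => (1 : ℝ)) ?_ ?_ ?_ ?_
  · intro n; exact (meas hf _ _).aestronglyMeasurable
  · exact (integrableOn_const measure_Icc_lt_top.ne : IntegrableOn (fun _ => (1 : ℝ)) (Icc x y))
  · intro n
    refine Eventually.of_forall fun r => ?_
    rw [Real.norm_of_nonneg (Real.sqrt_nonneg _)]
    exact bd _ _ r
  · refine Eventually.of_forall fun r => ?_
    unfold Veff
    have e1 : Tendsto (fun n => (c n).1) atTop (𝓝 c₀.1) := (continuous_fst.tendsto c₀).comp hc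
    have e2 : Tendsto (fun n => (c n).2) atTop (𝓝 c₀.2) := (continuous_snd.tendsto c₀).comp hc
    exact (tendsto_const_nhds.sub (((e1.div_const _).pow 2).add ((e2.div_const _).pow 2))).sqrt

/-- Truncating the interval of integration changes the integral by at most the length. -/
theorem trunc {L : ℝ} {f h : ℝ → ℝ} (hf : Pair L f h) (c₁ c₂ : ℝ) {p x y q : ℝ}
    (hpx : p ≤ x) (hxy : x ≤ y) (hyq : y ≤ q) :
    ∫ r in Ioo p q, √(1 - Veff f h c₁ c₂ r) ≤
      (∫ r in Icc x y, √(1 - Veff f h c₁ c₂ r)) + (x - p) + (q - y) := by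
  rw [← integral_Ioc_eq_integral_Ioo, integral_Icc_eq_integral_Ioc,
    ← intervalIntegral.integral_of_le (hpx.trans (hxy.trans hyq)),
    ← intervalIntegral.integral_of_le hxy]
  have hi : ∀ u v : ℝ, IntervalIntegrable (fun r => √(1 - Veff f h c₁ c₂ r)) volume u v := by
    intro u v
    rw [intervalIntegrable_iff]
    exact intOn hf c₁ c₂ (by rw [uIoc]; exact measure_Ioc_lt_top)
  have hb : ∀ u v : ℝ, u ≤ v → ∫ r in u..v, √(1 - Veff f h c₁ c₂ r) ≤ v - u := by
    intro u v huv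
    have := intervalIntegral.integral_mono_on huv (hi u v)
      (intervalIntegrable_const (c := (1 : ℝ))) (fun r _ => bd c₁ c₂ r)
    simpa using this
  rw [← intervalIntegral.integral_add_adjacent_intervals (hi p y) (hi y q),
    ← intervalIntegral.integral_add_adjacent_intervals (hi p x) (hi x y)]
  have := hb p x hpx
  have := hb y q hyq
  linarith

/-- LS: lower semicontinuity of the action. -/
theorem lsc_act {L : ℝ} {f h : ℝ → ℝ} (hf : Pair L f h) {s : ℝ × ℝ → ℝ}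
    {c₀ : ℝ × ℝ} {c : ℕ → ℝ × ℝ} (hc : Tendsto c atTop (𝓝 c₀)) {m : ℝ}
    (hA : Tendsto (fun n => actW L (Veff f h (c n).1 (c n).2) (s (c n))) atTop (𝓝 m))
    {p q x' y' : ℝ} (hp : 0 ≤ p) (hq : q ≤ L)
    (hV : ∀ r ∈ Ioo p q, Veff f h c₀.1 c₀.2 r < 1) (hx : p < x') (hxy : x' ≤ y') (hy : y' < q)
    (hs : ∀ᶠ n in atTop, s (c n) ∈ Icc x' y') :
    2 * (∫ r in Ioo p q, √(1 - Veff f h c₀.1 c₀.2 r)) ≤ m := by
  refine le_of_forall_pos_le_add fun ε hε => ?_
  set x := min (p + ε / 4) x' with hxdef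
  set y := max (q - ε / 4) y' with hydef
  have hpx : p < x := lt_min (by linarith) hx
  have hyq : y < q := max_lt (by linarith) hy
  have hxx : x ≤ x' := min_le_right _ _
  have hyy : y' ≤ y := le_max_right _ _
  have hx4 : x ≤ p + ε / 4 := min_le_left _ _
  have hy4 : q - ε / 4 ≤ y := le_max_left _ _
  have hxy2 : x ≤ y := hxx.trans (hxy.trans hyy)
  have hV' : ∀ r ∈ Icc x y, Veff f h c₀.1 c₀.2 r < 1 := fun r hr =>
    hV r ⟨lt_of_lt_of_le hpx hr.1, lt_of_le_of_lt hr.2 hyq⟩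
  have hx0 : 0 < x := lt_of_le_of_lt hp hpx
  have hyL : y < L := lt_of_lt_of_le hyq hq
  have ev1 := hc.eventually (ev_lt hf hx0 hyL hV')
  have ev2 : ∀ᶠ n in atTop, 2 * (∫ r in Icc x y, √(1 - Veff f h (c n).1 (c n).2 r)) ≤
      actW L (Veff f h (c n).1 (c n).2) (s (c n)) := by
    filter_upwards [ev1, hs] with n hn hsn
    have hsn' : s (c n) ∈ Icc x y := ⟨hxx.trans hsn.1, hsn.2.trans hyy⟩
    exact actW_ge hf hx0 hyL hsn' hn
  have lim : Tendsto (fun n => 2 * (∫ r in Icc x y, √(1 - Veff f h (c n).1 (c n).2 r))) atTop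
      (𝓝 (2 * (∫ r in Icc x y, √(1 - Veff f h c₀.1 c₀.2 r)))) :=
    (tendsto_int hf hc x y).const_mul 2
  have key := le_of_tendsto_of_tendsto lim hA ev2
  have ht := trunc hf c₀.1 c₀.2 hpx.le hxy2 hyq.le
  linarith

end H738CP.LS
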