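import Pool.Agent.H738R3.CP.Defs
import Pool.Agent.H206R2.Rot2.TH

set_option autoImplicit false

open Real Set MeasureTheory Filter Topology
open scoped ContDiff
open Pool.Agent.H206R2 (Rot.Wall)
open Pool.Agent.H206R2.Rot2 (Veff well actW)

namespace H738CP.OS

open Pool.Agent.H206R2.Rot.TF Pool.Agent.H206R2.Rot2.TH

/-- OS: the periodic oscillation in a well, with the half period symmetry. -/
theorem oscillator_sym {M : ℝ} {V : ℝ → ℝ} {p : ℝ} (hp : 0 < p) (hpM : p < M / 2)
    (hV : ContDiffOn ℝ ∞ V (Ioo 0 M)) (hsym : ∀ x, V (M - x) = V x) (hVp : V p = 1)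
    (hp' : deriv V p < 0) (hin : ∀ x ∈ Ioo p (M - p), V x < 1) :
    ∃ (r : ℝ → ℝ) (T : ℝ), 0 < T ∧ T = 2 * ∫ x in Ioo p (M - p), 1 / √(1 - V x) ∧
      ContDiff ℝ 2 r ∧ (∀ t, p ≤ r t ∧ r t ≤ M - p) ∧
      (∀ t, deriv (deriv r) t = -deriv V (r t) / 2) ∧
      (∀ t, deriv r t ^ 2 = 1 - V (r t)) ∧ (∀ t, r (t + T / 2) = M - r t) ∧
      (∀ g : ℝ → ℝ, ContinuousOn g (Icc p (M - p)) →
        ∫ t in (0 : ℝ)..T, g (r t) = 2 * ∫ x in Ioo p (M - p), g x / √(1 - V x)) := by
  obtain ⟨q, hqM⟩ : ∃ q, q = M - p := ⟨_, rfl⟩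
  rw [← hqM] at hin ⊢
  have hpq : p < q := by linarith
  have hq : q < M := by linarith
  have hVq : V q = 1 := by rw [hqM, hsym, hVp]
  have hq' : 0 < deriv V q := by
    have h1 : (fun x => V (M - x)) = V := funext hsym
    have h2 : deriv (fun x => V (M - x)) q = -deriv V (M - q) := deriv_comp_const_sub (f := V) M q
    rw [h1] at h2
    have h3 : M - q = p := by rw [hqM]; ring
    rw [h2, h3]
    linarith
  obtain ⟨k, hkc, hk, hkpos⟩ := factor1 hp hpq hq hV hVp hVq hp' hq' hin
  have hsub : Icc p q ⊆ Ioo 0 M := fun x hx => ⟨by linarith [hx.1], by linarith [hx.2]⟩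
  have hVd : ∀ x ∈ Ioo 0 M, DifferentiableAt ℝ V x := fun x hx =>
    (hV.differentiableOn (by simp)).differentiableAt (isOpen_Ioo.mem_nhds hx)
  have hV'c : ContinuousOn (deriv V) (Ioo 0 M) :=
    hV.continuousOn_deriv_of_isOpen isOpen_Ioo (by simp)
  set X : ℝ → ℝ := fun φ => (p + q) / 2 + (q - p) / 2 * sin φ with hX
  have hXI : ∀ φ, X φ ∈ Icc p q := by
    intro φ
    have h1 := Real.neg_one_le_sin φ
    have h2 := Real.sin_le_one φ
    simp only [hX]
    constructor <;> nlinarith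
  have hXc : Continuous X := by fun_prop
  have hkX : ∀ φ, 0 < √(k (X φ)) := fun φ => Real.sqrt_pos.2 (hkpos _ (hXI φ))
  set W : ℝ → ℝ := fun φ => 1 / √(k (X φ)) with hWdef
  have hWc : Continuous W := by
    refine continuous_const.div (Real.continuous_sqrt.comp (hkc.comp hXc)) ?_
    intro φ
    exact (hkX φ).ne'
  have hWpos : ∀ φ, 0 < W φ := fun φ => div_pos one_pos (hkX φ)
  have hks : ∀ x ∈ Icc p q, k (M - x) = k x := by
    have h1 : ∀ x ∈ Ioo p q, k (M - x) = k x := by
      intro x hx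
      have h2 := hk x ⟨hx.1.le, hx.2.le⟩
      have h3 := hk (M - x) ⟨by linarith [hx.2], by linarith [hx.1]⟩
      rw [hsym, h2] at h3
      have h4 : (M - x - p) * (q - (M - x)) = (x - p) * (q - x) := by rw [hqM]; ring
      rw [h4] at h3
      have h5 : (x - p) * (q - x) ≠ 0 := (mul_pos (by linarith [hx.1]) (by linarith [hx.2])).ne'
      exact (mul_left_cancel₀ h5 h3).symm
    have h2 : Icc p q ⊆ {x | k (M - x) = k x} := by
      rw [← closure_Ioo hpq.ne]
      exact closure_minimal h1 (isClosed_eq (hkc.comp (continuous_const.sub continuous_id)) hkc)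
    exact h2
  have hXs : ∀ φ, X (φ + π) = M - X φ := by
    intro φ
    simp only [hX, Real.sin_add_pi]
    rw [hqM]; ring
  have hWper : ∀ φ, W (φ + π) = W φ := by
    intro φ
    simp only [hWdef]
    rw [hXs, hks _ (hXI φ)]
  obtain ⟨v₀, hv₀, hWv⟩ : ∃ v₀ : ℝ, 0 < v₀ ∧ ∀ φ, v₀ ≤ W φ := by
    have hcon : ContinuousOn (fun x => 1 / √(k x)) (Icc p q) := by
      refine ContinuousOn.div continuousOn_const (Real.continuous_sqrt.comp hkc).continuousOn ?_
      intro x hx
      exact (Real.sqrt_pos.2 (hkpos x hx)).ne'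
    obtain ⟨x₀, hx₀, hmin⟩ := isCompact_Icc.exists_isMinOn (nonempty_Icc.2 hpq.le) hcon
    refine ⟨1 / √(k x₀), div_pos one_pos (Real.sqrt_pos.2 (hkpos x₀ hx₀)), ?_⟩
    intro φ
    exact hmin (hXI φ)
  obtain ⟨τ, ϕ, hτd, hτ0, hϕτ, hτϕ, hϕd, hτs, hϕs⟩ := clock hWc hv₀ hWv hWper
  have hTT : ∫ y in (0 : ℝ)..(2 * π), W y = 2 * ∫ y in (0 : ℝ)..π, W y := by
    have hper : Function.Periodic W π := hWper
    have h1 := hper.intervalIntegral_add_eq 0 π
    rw [← intervalIntegral.integral_add_adjacent_intervals (b := π) (hWc.intervalIntegrable _ _)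
      (hWc.intervalIntegrable _ _)]
    rw [zero_add] at h1
    rw [show (2 * π : ℝ) = π + π by ring, ← h1]
    ring
  set T := ∫ y in (0 : ℝ)..(2 * π), W y with hT
  have hTpos : 0 < T := by
    have h1 : ∫ _ in (0 : ℝ)..(2 * π), v₀ ≤ ∫ y in (0 : ℝ)..(2 * π), W y :=
      intervalIntegral.integral_mono_on (by positivity) (by simp) (hWc.intervalIntegrable _ _)
        (fun y _ => hWv y)
    rw [intervalIntegral.integral_const, smul_eq_mul, sub_zero] at h1
    have : 0 < 2 * π * v₀ := by positivity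
    linarith
  have hϕc : Continuous ϕ := continuous_iff_continuousAt.2 fun t => (hϕd t).continuousAt
  -- the radial function
  set r : ℝ → ℝ := fun t => X (ϕ t) with hr
  set A := (q - p) / 2 with hA
  have hA0 : 0 < A := by rw [hA]; linarith
  set pt : ℝ → ℝ := fun t => A * cos (ϕ t) * (W (ϕ t))⁻¹ with hpt
  have hrc : Continuous r := hXc.comp hϕc
  have hptc : Continuous pt := by
    refine ((continuous_const.mul (Real.continuous_cos.comp hϕc))).mul ?_
    exact (hWc.comp hϕc).inv₀ (fun t => (hWpos _).ne')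
  have hrd : ∀ t, HasDerivAt r (pt t) t := by
    intro t
    have h1 := (((Real.hasDerivAt_sin (ϕ t)).comp t (hϕd t)).const_mul A).const_add ((p + q) / 2)
    have h2 : A * (cos (ϕ t) * (W (ϕ t))⁻¹) = pt t := by simp only [hpt]; ring
    rw [h2] at h1
    exact h1
  have hrI : ∀ t, r t ∈ Icc p q := fun t => hXI (ϕ t)
  have hrL : ∀ t, r t ∈ Ioo 0 M := fun t => hsub (hrI t)
  have hE : ∀ t, pt t ^ 2 = 1 - V (r t) := by
    intro t
    have h1 : 1 - V (X (ϕ t)) = (A * cos (ϕ t)) ^ 2 * k (X (ϕ t)) := by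
      rw [hk _ (hXI _)]
      congr 1
      simp only [hX, hA]
      have := Real.sin_sq_add_cos_sq (ϕ t)
      have h3 : cos (ϕ t) ^ 2 = 1 - sin (ϕ t) ^ 2 := by linarith
      rw [mul_pow, h3]
      ring
    have h2 : √(k (X (ϕ t))) ^ 2 = k (X (ϕ t)) := Real.sq_sqrt (hkpos _ (hXI _)).le
    have h4 : pt t = A * cos (ϕ t) * √(k (X (ϕ t))) := by
      simp only [hpt, hWdef]
      rw [one_div, inv_inv]
    rw [h4, mul_pow, h2]
    exact h1.symm
  set K : ℝ → ℝ := fun t => -deriv V (r t) / 2 with hK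
  have hKc : Continuous K :=
    ((hV'c.comp_continuous hrc hrL).neg).div_const 2
  have hEd : ∀ t, HasDerivAt (fun t => 1 - V (r t)) (-(deriv V (r t) * pt t)) t := by
    intro t
    exact ((hVd _ (hrL t)).hasDerivAt.comp t (hrd t)).const_sub 1
  have hptd0 : ∀ t, pt t ≠ 0 → HasDerivAt pt (K t) t := by
    intro t ht
    have h1 := hasDerivAt_root hptc hE (hEd t) ht
    have h2 : -(deriv V (r t) * pt t) / (2 * pt t) = K t := by
      simp only [hK]
      field_simp
    rw [h2] at h1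
    exact h1
  have hcount : {t | pt t = 0}.Countable := by
    have h1 : {t | pt t = 0} ⊆ ϕ ⁻¹' (range fun n : ℤ => (2 * (n : ℝ) + 1) * π / 2) := by
      intro t ht
      have ht' : A * cos (ϕ t) * (W (ϕ t))⁻¹ = 0 := ht
      have h2 : cos (ϕ t) = 0 := by
        rcases mul_eq_zero.1 ht' with h | h
        · rcases mul_eq_zero.1 h with h | h
          · exact absurd h hA0.ne'
          · exact h
        · exact absurd h (inv_ne_zero (hWpos _).ne')
      obtain ⟨n, hn⟩ := Real.cos_eq_zero_iff.1 h2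
      exact ⟨n, hn.symm⟩
    refine Set.Countable.mono h1 ?_
    refine (countable_range _).preimage_of_injOn ?_
    intro x _ y _ hxy
    rw [← hτϕ x, ← hτϕ y, hxy]
  have hFTC : ∀ t, ∫ s in (0 : ℝ)..t, K s = pt t - pt 0 := by
    intro t
    refine integral_eq_of_hasDerivAt_off_countable pt K hcount hptc.continuousOn ?_
      (hKc.intervalIntegrable _ _)
    intro x hx
    exact hptd0 x hx.2
  have hptd : ∀ t, HasDerivAt pt (K t) t := by
    intro t
    have h1 : HasDerivAt (fun t => pt 0 + ∫ s in (0 : ℝ)..t, K s) (K t) t :=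
      (intervalIntegral.integral_hasDerivAt_right (hKc.intervalIntegrable _ _)
        (hKc.stronglyMeasurableAtFilter _ _) hKc.continuousAt).const_add _
    refine h1.congr_of_eventuallyEq (Filter.Eventually.of_forall fun s => ?_)
    show pt s = pt 0 + ∫ s in (0 : ℝ)..s, K s
    rw [hFTC]
    ring
  have hr2 : ContDiff ℝ 2 r := contDiff_two_of hrd hptd hKc
  have er : deriv r = pt := funext fun t => (hrd t).deriv
  have ept : deriv pt = K := funext fun t => (hptd t).deriv
  -- periods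
  have hτP : τ (2 * π) = T := by
    have h1 := hτs 0
    rw [zero_add, hτ0, zero_add] at h1
    have h2 := hτs π
    rw [h1] at h2
    rw [show (2 * π : ℝ) = π + π by ring, h2, hTT]
    ring
  refine ⟨r, T, hTpos, ?_, hr2, ?_, ?_, ?_, ?_, ?_⟩
  · exact (cov1 hpq hkc hk hkpos (G := fun _ => 1) continuous_const).symm
  · intro t
    exact hrI t
  · intro t
    rw [er, ept]
  · intro t
    rw [er, hE]
  · intro t
    have h1 : T / 2 = ∫ y in (0 : ℝ)..π, W y := by rw [hTT]; ring
    simp only [hr]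
    rw [h1, hϕs, hXs]
  · intro g hg
    have hgX : Continuous fun φ : ℝ => g (X φ) := hg.comp_continuous hXc hXI
    have hgr : Continuous fun t : ℝ => g (r t) := hg.comp_continuous hrc hrI
    have h2 : ∫ φ in (0 : ℝ)..(2 * π), ((fun t => g (r t)) ∘ τ) φ * W φ =
        ∫ s in τ 0..τ (2 * π), g (r s) :=
      intervalIntegral.integral_comp_mul_deriv (fun x _ => hτd x) hWc.continuousOn hgr
    rw [hτ0, hτP] at h2
    rw [← h2, cov1 hpq hkc hk hkpos (G := g) hgX]
    refine intervalIntegral.integral_congr ?_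
    intro φ _
    simp only [Function.comp_apply, hr, hϕτ, hWdef]
    ring


end H738CP.OS
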