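import Pool.Agent.H738R3.CP.Defs

/-!
# WS: wells of the effective potential
-/

open Real Set MeasureTheory Filter Topology
open scoped ContDiff
open Pool.Agent.H206R2.Rot2 (Veff well actW)

namespace H738CP.WS

theorem cont_V {L : ℝ} {f h : ℝ → ℝ} (hf : Pair L f h) {c₁ c₂ : ℝ} :
    ContinuousOn (Veff f h c₁ c₂) (Ioo 0 L) := by
  unfold Veff
  intro r hr
  have h1 : f r ≠ 0 := (hf.f_pos r hr.1 hr.2).ne'
  have h2 : h r ≠ 0 := (hf.h_pos r hr.1 hr.2).ne'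
  have e1 : ContinuousAt f r := hf.smooth_f.continuous.continuousAt
  have e2 : ContinuousAt h r := hf.smooth_h.continuous.continuousAt
  exact (((continuousAt_const.div e1 h1).pow 2).add
    ((continuousAt_const.div e2 h2).pow 2)).continuousWithinAt

/-- a point near `0` where `(c/g)² ≥ 1` -/
theorem near_zero {g : ℝ → ℝ} {L c s : ℝ} (hg : Continuous g) (h0 : g 0 = 0) (hc : 0 < c)
    (hs0 : 0 < s) (hsL : s < L) (hpos : ∀ r, 0 < r → r < L → 0 < g r) :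
    ∃ u, 0 < u ∧ u < s ∧ 1 ≤ (c / g u) ^ 2 := by
  have e1 : Tendsto g (𝓝[>] 0) (𝓝 (g 0)) := hg.continuousAt.mono_left nhdsWithin_le_nhds
  rw [h0] at e1
  have e2 : ∀ᶠ x in 𝓝[>] (0 : ℝ), g x < c := e1.eventually_lt_const hc
  have e3 : ∀ᶠ x in 𝓝[>] (0 : ℝ), x ∈ Ioo 0 s := Ioo_mem_nhdsGT hs0
  obtain ⟨u, hu, hu'⟩ := (e2.and e3).exists
  refine ⟨u, hu'.1, hu'.2, ?_⟩
  have hfu : 0 < g u := hpos u hu'.1 (by linarith [hu'.2])
  have : 1 ≤ c / g u := by rw [le_div_iff₀ hfu]; linarith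
  nlinarith

/-- a point near `L` where `(c/g)² ≥ 1` -/
theorem near_L {g : ℝ → ℝ} {L c s : ℝ} (hg : Continuous g) (h0 : g L = 0) (hc : 0 < c)
    (hs0 : 0 < s) (hsL : s < L) (hpos : ∀ r, 0 < r → r < L → 0 < g r) :
    ∃ v, s < v ∧ v < L ∧ 1 ≤ (c / g v) ^ 2 := by
  have e1 : Tendsto g (𝓝[<] L) (𝓝 (g L)) := hg.continuousAt.mono_left nhdsWithin_le_nhds
  rw [h0] at e1
  have e2 : ∀ᶠ x in 𝓝[<] L, g x < c := e1.eventually_lt_const hc
  have e3 : ∀ᶠ x in 𝓝[<] L, x ∈ Ioo s L := Ioo_mem_nhdsLT hsL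
  obtain ⟨v, hv, hv'⟩ := (e2.and e3).exists
  refine ⟨v, hv'.1, hv'.2, ?_⟩
  have hhv : 0 < g v := hpos v (by linarith [hv'.1]) hv'.2
  have : 1 ≤ c / g v := by rw [le_div_iff₀ hhv]; linarith
  nlinarith

theorem well_spec {L : ℝ} {f h : ℝ → ℝ} (hf : Pair L f h) {c₁ c₂ : ℝ} (h1 : 0 < c₁)
    (h2 : 0 < c₂) {s : ℝ} (hs0 : 0 < s) (hsL : s < L) (hs : Veff f h c₁ c₂ s < 1) :
    ∃ p q, 0 < p ∧ p < s ∧ s < q ∧ q < L ∧ Veff f h c₁ c₂ p = 1 ∧ Veff f h c₁ c₂ q = 1 ∧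
      well L (Veff f h c₁ c₂) s = Ioo p q ∧ ∀ x ∈ Ioo p q, Veff f h c₁ c₂ x < 1 := by
  have hVc := cont_V hf (c₁ := c₁) (c₂ := c₂)
  -- a point near `0` with `V ≥ 1`
  obtain ⟨u, hu0, hus, hu1⟩ : ∃ u, 0 < u ∧ u < s ∧ 1 ≤ Veff f h c₁ c₂ u := by
    rcases hf.zero with h0 | h0
    · obtain ⟨u, a1, a2, a3⟩ := near_zero hf.smooth_f.continuous h0 h1 hs0 hsL hf.f_pos
      refine ⟨u, a1, a2, ?_⟩
      unfold Veff
      nlinarith [sq_nonneg (c₂ / h u)]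
    · obtain ⟨u, a1, a2, a3⟩ := near_zero hf.smooth_h.continuous h0 h2 hs0 hsL hf.h_pos
      refine ⟨u, a1, a2, ?_⟩
      unfold Veff
      nlinarith [sq_nonneg (c₁ / f u)]
  obtain ⟨v, hsv, hvL, hv1⟩ : ∃ v, s < v ∧ v < L ∧ 1 ≤ Veff f h c₁ c₂ v := by
    rcases hf.last with h0 | h0
    · obtain ⟨u, a1, a2, a3⟩ := near_L hf.smooth_f.continuous h0 h1 hs0 hsL hf.f_pos
      refine ⟨u, a1, a2, ?_⟩
      unfold Veff
      nlinarith [sq_nonneg (c₂ / h u)]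
    · obtain ⟨u, a1, a2, a3⟩ := near_L hf.smooth_h.continuous h0 h2 hs0 hsL hf.h_pos
      refine ⟨u, a1, a2, ?_⟩
      unfold Veff
      nlinarith [sq_nonneg (c₁ / f u)]
  obtain ⟨p, hup, hps, hp1, hplt⟩ := Pool.Agent.H206R2.Rot2.TE.exists_last hus.le
    (hVc.mono (fun x hx => ⟨lt_of_lt_of_le hu0 hx.1, lt_of_le_of_lt hx.2 hsL⟩)) hu1 hs
  obtain ⟨q, hsq, hqv, hq1, hqlt⟩ := Pool.Agent.H206R2.Rot2.TE.exists_first hsv.le
    (hVc.mono (fun x hx => ⟨lt_of_lt_of_le hs0 hx.1, lt_of_le_of_lt hx.2 hvL⟩)) hs hv1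
  have hp0 : 0 < p := lt_of_lt_of_le hu0 hup
  have hqL : q < L := lt_of_le_of_lt hqv hvL
  have hin : ∀ x ∈ Ioo p q, Veff f h c₁ c₂ x < 1 := by
    intro x hx
    rcases le_total x s with hxs | hxs
    · exact hplt x hx.1 hxs
    · exact hqlt x hxs hx.2
  refine ⟨p, q, hp0, hps, hsq, hqL, hp1, hq1, ?_, hin⟩
  ext r
  constructor
  · intro hr
    have hr' : ∀ x ∈ uIcc s r, 0 < x ∧ x < L ∧ Veff f h c₁ c₂ x < 1 := hr
    constructor
    · by_contra hcon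
      push Not at hcon
      have : p ∈ uIcc s r := by
        rw [uIcc_of_ge (by linarith)]; exact ⟨hcon, hps.le⟩
      have := (hr' p this).2.2
      linarith
    · by_contra hcon
      push Not at hcon
      have : q ∈ uIcc s r := by
        rw [uIcc_of_le (by linarith)]; exact ⟨hsq.le, hcon⟩
      have := (hr' q this).2.2
      linarith
  · intro hr x hx
    have hx' : x ∈ Ioo p q :=
      (ordConnected_Ioo.uIcc_subset ⟨hps, hsq⟩ hr) hx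
    exact ⟨hp0.trans hx'.1, hx'.2.trans hqL, hin x hx'⟩

end H738CP.WS
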