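import Pool.Agent.H738R3.CP.PR
import Pool.Agent.H738R3.CP.WS
import Pool.Agent.H738R3.CP.LS
import Pool.Agent.H738R3.CP.CL
import Pool.Agent.H738R3.CP.CG
import Pool.Agent.H738R3.CP.OS

/-!
# The edge `P = 0`: totally geodesic real projective planes
-/

open Real Set MeasureTheory Filter Topology
open scoped ContDiff
open Pool.Agent.H206R2.Rot2 (Veff well actW)

namespace H738CP.E0

/-- The potential of the real projective plane. -/
noncomputable def VJ (h : ℝ → ℝ) (J : ℝ) : ℝ → ℝ := fun r => (J / h r) ^ 2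

theorem Veff_abs (h : ℝ → ℝ) (c₁ c₂ : ℝ) : Veff h h c₁ c₂ = VJ h (√(c₁ ^ 2 + c₂ ^ 2)) := by
  funext r
  unfold Veff VJ
  rw [div_pow, div_pow, div_pow, Real.sq_sqrt (by positivity)]
  ring

theorem diag_abs {J : ℝ} (hJ : 0 ≤ J) : √((J / √2) ^ 2 + (J / √2) ^ 2) = J := by
  have h2 : (√2) ^ 2 = 2 := Real.sq_sqrt (by norm_num)
  rw [div_pow, h2, ← two_mul]
  rw [show 2 * (J ^ 2 / 2) = J ^ 2 by ring]
  exact Real.sqrt_sq hJ

theorem Veff_diag (h : ℝ → ℝ) {J : ℝ} (hJ : 0 ≤ J) : Veff h h (J / √2) (J / √2) = VJ h J := by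
  rw [Veff_abs, diag_abs hJ]

section
variable {L : ℝ} {f h : ℝ → ℝ} (hf : IsProfileCP L f h)
include hf

theorem h_sym (x : ℝ) : h (2 * L - x) = h x := by
  have := hf.h_even_L (L - x)
  rw [show L + (L - x) = 2 * L - x by ring, show L - (L - x) = x by ring] at this
  exact this

theorem V_sym (J x : ℝ) : VJ h J (2 * L - x) = VJ h J x := by
  unfold VJ
  rw [h_sym hf]

theorem h_pos' {x : ℝ} (h0 : 0 < x) (h1 : x < 2 * L) : 0 < h x := by
  rcases le_total x L with h2 | h2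
  · exact hf.h_pos x h0 h2
  · rw [← h_sym hf x]
    exact hf.h_pos _ (by linarith) (by linarith)

omit hf in
theorem V_lt {R J x : ℝ} (hJ : 0 < J) (hJR : J < R) (hx : R < h x) : VJ h J x < 1 := by
  unfold VJ
  have h1 : 0 < h x := by linarith
  have h2 : J / h x < 1 := by rw [div_lt_one h1]; linarith
  have h3 : 0 < J / h x := by positivity
  nlinarith

theorem well_sym {J : ℝ} (hJ : 0 < J) (hVL : VJ h J L < 1) :
    ∃ p, 0 < p ∧ p < L ∧ VJ h J p = 1 ∧ VJ h J (2 * L - p) = 1 ∧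
      well (2 * L) (VJ h J) L = Ioo p (2 * L - p) ∧ ∀ x ∈ Ioo p (2 * L - p), VJ h J x < 1 := by
  have hL := hf.pos
  have hJ2 : 0 < J / √2 := by positivity
  obtain ⟨p, q, hp, hps, hsq, hq, hVp, hVq, hw, hin⟩ :=
    WS.well_spec (PR.pair_double hf) hJ2 hJ2 (s := L) hL (by linarith)
      (by rw [Veff_diag h hJ.le]; exact hVL)
  rw [Veff_diag h hJ.le] at hVp hVq hw hin
  have h1 : q ≤ 2 * L - p := by
    by_contra hcon
    have := hin (2 * L - p) ⟨by linarith, not_le.1 hcon⟩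
    rw [V_sym hf, hVp] at this
    exact lt_irrefl _ this
  have h2 : 2 * L - p ≤ q := by
    by_contra hcon
    have := hin (2 * L - q) ⟨by linarith [not_le.1 hcon], by linarith⟩
    rw [V_sym hf, hVq] at this
    exact lt_irrefl _ this
  have h3 : q = 2 * L - p := le_antisymm h1 h2
  subst h3
  exact ⟨p, hp, hps, hVp, hVq, hw, hin⟩

theorem meas (J : ℝ) : Measurable (fun r => √(1 - VJ h J r)) := by
  unfold VJ
  have m2 : Measurable h := hf.smooth_h.continuous.measurable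
  exact (measurable_const.sub ((measurable_const.div m2).pow_const 2)).sqrt

omit hf in
theorem bd (J r : ℝ) : √(1 - VJ h J r) ≤ 1 := by
  rw [Real.sqrt_le_left zero_le_one]
  unfold VJ
  nlinarith [sq_nonneg (J / h r)]

theorem intg (J u v : ℝ) : IntervalIntegrable (fun r => √(1 - VJ h J r)) volume u v := by
  rw [intervalIntegrable_iff]
  refine Measure.integrableOn_of_bounded (M := 1) (by rw [uIoc]; exact measure_Ioc_lt_top.ne)
    (meas hf J).aestronglyMeasurable ?_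
  refine Eventually.of_forall fun r => ?_
  rw [Real.norm_of_nonneg (Real.sqrt_nonneg _)]
  exact bd J r

theorem act_double {R J s₁ : ℝ} (hJ : 0 < J) (hJR : J < R) (h1 : s₁ < L)
    (hs : ∀ x ∈ Icc s₁ L, R < h x) :
    actW (2 * L) (VJ h J) L = 2 * actW L (VJ h J) s₁ := by
  have hL := hf.pos
  obtain ⟨p, hp, hpL, hVp, -, hw, hin⟩ :=
    well_sym hf hJ (V_lt hJ hJR (hs L ⟨h1.le, le_rfl⟩))
  have hps : p < s₁ := by
    by_contra hcon
    have := V_lt hJ hJR (hs p ⟨not_lt.1 hcon, hpL.le⟩)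
    rw [hVp] at this
    exact lt_irrefl _ this
  have hw' : well L (VJ h J) s₁ = Ioo p L := by
    ext r
    constructor
    · intro hr
      have hr' : ∀ x ∈ uIcc s₁ r, 0 < x ∧ x < L ∧ VJ h J x < 1 := hr
      refine ⟨?_, (hr' r right_mem_uIcc).2.1⟩
      by_contra hcon
      push Not at hcon
      have : p ∈ uIcc s₁ r := by
        rw [uIcc_of_ge (by linarith)]; exact ⟨hcon, hps.le⟩
      have := (hr' p this).2.2
      rw [hVp] at this
      exact lt_irrefl _ this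
    · intro hr x hx
      have hx' : x ∈ Ioo p L := (ordConnected_Ioo.uIcc_subset ⟨hps, h1⟩ hr) hx
      exact ⟨hp.trans hx'.1, hx'.2, hin x ⟨hx'.1, by linarith [hx'.2]⟩⟩
  unfold actW
  rw [hw, hw', ← integral_Ioc_eq_integral_Ioo, ← integral_Ioc_eq_integral_Ioo,
    ← intervalIntegral.integral_of_le (by linarith), ← intervalIntegral.integral_of_le hpL.le,
    ← intervalIntegral.integral_add_adjacent_intervals (intg hf J p L) (intg hf J L (2 * L - p))]
  have e : ∫ x in L..(2 * L - p), √(1 - VJ h J x) = ∫ x in p..L, √(1 - VJ h J x) := by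
    have h2 := intervalIntegral.integral_comp_sub_left (a := p) (b := L)
      (fun r => √(1 - VJ h J r)) (2 * L)
    simp only [V_sym hf] at h2
    rw [h2]
    congr 1
    ring
  rw [e]
  ring

/-- The defect. -/
noncomputable def DD (L R : ℝ) (h : ℝ → ℝ) (J : ℝ) : ℝ :=
  actW (2 * L) (VJ h J) L - 2 * π * (R - J)

omit hf in
theorem act_nonneg (J : ℝ) : 0 ≤ actW (2 * L) (VJ h J) L := by
  unfold actW
  have : 0 ≤ ∫ r in well (2 * L) (VJ h J) L, √(1 - VJ h J r) :=
    integral_nonneg fun r => Real.sqrt_nonneg _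
  linarith

theorem exists_min0 {R : ℝ} (hhL : R < h L) (hmer : π * R < 2 * L)
    (hneg : ∃ J, 0 < J ∧ J < R ∧ DD L R h J < 0) :
    ∃ J, 0 < J ∧ J < R ∧ DD L R h J < 0 ∧ ∀ J', 0 < J' → J' < R → DD L R h J ≤ DD L R h J' := by
  have hπ := Real.pi_pos
  have hL := hf.pos
  have h2 : (0 : ℝ) < √2 := by positivity
  set E : Set ℝ := DD L R h '' Ioo 0 R with hE
  have hbdd : BddBelow E := by
    refine ⟨-(2 * π * R), ?_⟩
    rintro _ ⟨J, hJ, rfl⟩
    have h0 := act_nonneg (L := L) (h := h) J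
    have h1 : 0 ≤ 2 * π * J := by have := hJ.1; positivity
    unfold DD
    linarith
  obtain ⟨J₁, hJ₁, hJ₁R, hJ₁'⟩ := hneg
  have hne : E.Nonempty := ⟨_, J₁, ⟨hJ₁, hJ₁R⟩, rfl⟩
  set m := sInf E with hm
  have hmneg : m < 0 := lt_of_le_of_lt (csInf_le hbdd ⟨J₁, ⟨hJ₁, hJ₁R⟩, rfl⟩) hJ₁'
  obtain ⟨u, -, hu, huE⟩ := exists_seq_tendsto_sInf hne hbdd
  choose d hdT hdu using huE
  have hdK : ∀ n, d n ∈ Icc 0 R := fun n => ⟨(hdT n).1.le, (hdT n).2.le⟩
  obtain ⟨J₀, hJ₀, φ, hφ, hlim⟩ := isCompact_Icc.tendsto_subseq hdK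
  have hD : Tendsto (fun n => DD L R h (d (φ n))) atTop (𝓝 m) := by
    have : (fun n => DD L R h (d (φ n))) = u ∘ φ := by
      funext n; exact hdu (φ n)
    rw [this]
    exact hu.comp hφ.tendsto_atTop
  have hlim' : Tendsto (fun n => d (φ n)) atTop (𝓝 J₀) := hlim
  have hA : Tendsto (fun n => actW (2 * L) (VJ h (d (φ n))) L) atTop
      (𝓝 (m + 2 * π * (R - J₀))) := by
    have h3 := hD.add ((tendsto_const_nhds.sub hlim').const_mul (2 * π) :
      Tendsto (fun n => 2 * π * (R - d (φ n))) atTop (𝓝 (2 * π * (R - J₀))))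
    refine h3.congr fun n => ?_
    unfold DD
    ring
  have hJ₀R : J₀ < R := by
    rcases hJ₀.2.lt_or_eq with hh | hh
    · exact hh
    exfalso
    have h3 := ge_of_tendsto' hA fun n => act_nonneg (L := L) (h := h) (d (φ n))
    rw [hh, sub_self, mul_zero, add_zero] at h3
    linarith
  set c : ℕ → ℝ × ℝ := fun n => (d (φ n) / √2, d (φ n) / √2) with hc
  have hcl : Tendsto c atTop (𝓝 (J₀ / √2, J₀ / √2)) :=
    (hlim'.div_const _).prodMk_nhds (hlim'.div_const _)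
  have hA' : Tendsto (fun n => actW (2 * L) (Veff h h (c n).1 (c n).2)
      ((fun _ : ℝ × ℝ => L) (c n))) atTop (𝓝 (m + 2 * π * (R - J₀))) := by
    refine hA.congr fun n => ?_
    simp only [hc]
    rw [Veff_diag h (hdT (φ n)).1.le]
  have hV0 : Veff h h (J₀ / √2) (J₀ / √2) = VJ h J₀ := Veff_diag h hJ₀.1
  rcases hJ₀.1.eq_or_lt with h00 | h00
  · exfalso
    have key := LS.lsc_act (PR.pair_double hf) (s := fun _ => L) hcl hA' (p := 0)
      (q := 2 * L) (x' := L) (y' := L) le_rfl le_rfl (fun r _ => by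
        simp only [hV0]
        rw [← h00]
        unfold VJ
        simp) hL le_rfl (by linarith) (Eventually.of_forall fun n => ⟨le_rfl, le_rfl⟩)
    simp only [hV0] at key
    rw [← h00] at key
    have e : ∫ r in Ioo 0 (2 * L), √(1 - VJ h 0 r) = 2 * L := by
      have : ∀ r, √(1 - VJ h 0 r) = 1 := fun r => by unfold VJ; simp
      simp only [this]
      rw [← integral_Ioc_eq_integral_Ioo, ← intervalIntegral.integral_of_le (by linarith)]
      simp
    rw [e] at key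
    linarith
  · obtain ⟨p, hp, hpL, hVp, -, hw, hin⟩ :=
      well_sym hf h00 (V_lt h00 hJ₀R hhL)
    have key := LS.lsc_act (PR.pair_double hf) (s := fun _ => L) hcl hA' (p := p)
      (q := 2 * L - p) (x' := L) (y' := L) hp.le (by linarith) (fun r hr => by
        simp only [hV0]
        exact hin r hr) hpL le_rfl (by linarith) (Eventually.of_forall fun n => ⟨le_rfl, le_rfl⟩)
    simp only [hV0] at key
    have hle : DD L R h J₀ ≤ m := by
      unfold DD actW
      rw [hw]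
      linarith
    exact ⟨J₀, h00, hJ₀R, lt_of_le_of_lt hle hmneg, fun J' h1 h2 =>
      hle.trans (csInf_le hbdd ⟨J', ⟨h1, h2⟩, rfl⟩)⟩

omit hf in
theorem gam_deriv {R J : ℝ} (hJ : 0 < J) :
    HasDerivAt (fun x => 2 * π * (R - √(x ^ 2 + (J / √2) ^ 2))) (-(2 * π / √2)) (J / √2) := by
  have h2 : (0 : ℝ) < √2 := by positivity
  have e := diag_abs hJ.le
  have hpos : (J / √2) ^ 2 + (J / √2) ^ 2 ≠ 0 := by positivity
  have h1 : HasDerivAt (fun x : ℝ => x ^ 2 + (J / √2) ^ 2) (2 * (J / √2)) (J / √2) := by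
    have := (hasDerivAt_pow 2 (J / √2)).add_const ((J / √2) ^ 2)
    simpa using this
  have h3 := ((h1.sqrt hpos).const_sub R).const_mul (2 * π)
  have e5 : 2 * π * -(2 * (J / √2) / (2 * √((J / √2) ^ 2 + (J / √2) ^ 2))) = -(2 * π / √2) := by
    rw [e]
    field_simp
  rw [e5] at h3
  exact h3

/-- The critical point equation. -/
theorem crit {R : ℝ} {J : ℝ} (hJ : 0 < J) (hJR : J < R)
    (hmin : ∀ J', 0 < J' → J' < R → DD L R h J ≤ DD L R h J')
    {p : ℝ} (hp : 0 < p) (hpL : p < L) (hVp : VJ h J p = 1) (hVq : VJ h J (2 * L - p) = 1)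
    (hw : well (2 * L) (VJ h J) L = Ioo p (2 * L - p))
    (hin : ∀ x ∈ Ioo p (2 * L - p), VJ h J x < 1) :
    IntegrableOn (fun r => 1 / √(1 - VJ h J r)) (Ioo p (2 * L - p)) ∧
    ∫ r in Ioo p (2 * L - p), J / (h r ^ 2 * √(1 - VJ h J r)) = π ∧
    deriv (VJ h J) p < 0 := by
  have h2 : (0 : ℝ) < √2 := by positivity
  have hJ2 : 0 < J / √2 := by positivity
  have hVe : Veff h h (J / √2) (J / √2) = VJ h J := Veff_diag h hJ.le
  set Γ : ℝ × ℝ → ℝ := fun c => 2 * π * (R - √(c.1 ^ 2 + c.2 ^ 2)) with hΓ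
  set c : ℝ × ℝ := (J / √2, J / √2) with hc
  have hΓ1 : HasDerivAt (fun x => Γ (x, c.2)) (-(2 * π / √2)) c.1 := gam_deriv hJ
  have hΓ2 : HasDerivAt (fun x => Γ (c.1, x)) (-(2 * π / √2)) c.2 := by
    have := gam_deriv (R := R) hJ
    simp only [hΓ, hc]
    simp only [add_comm ((J / √2) ^ 2)]
    exact this
  have hDc : ∀ c' : ℝ × ℝ, actW (2 * L) (Veff h h c'.1 c'.2) ((fun _ : ℝ × ℝ => L) c') - Γ c' =
      DD L R h (√(c'.1 ^ 2 + c'.2 ^ 2)) := fun c' => by
    rw [Veff_abs]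
    rfl
  have hmin' : ∀ᶠ c' in 𝓝 c, actW (2 * L) (Veff h h c.1 c.2) ((fun _ : ℝ × ℝ => L) c) - Γ c ≤
      actW (2 * L) (Veff h h c'.1 c'.2) ((fun _ : ℝ × ℝ => L) c') - Γ c' := by
    have hcont : ContinuousAt (fun c' : ℝ × ℝ => √(c'.1 ^ 2 + c'.2 ^ 2)) c := by
      fun_prop
    have hcv : √(c.1 ^ 2 + c.2 ^ 2) = J := diag_abs hJ.le
    have h3 : Ioo 0 R ∈ 𝓝 (√(c.1 ^ 2 + c.2 ^ 2)) := by
      rw [hcv]
      exact Ioo_mem_nhds hJ hJR
    filter_upwards [hcont.preimage_mem_nhds h3] with c' hc'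
    rw [hDc, hDc, hcv]
    exact hmin _ hc'.1 hc'.2
  obtain ⟨hint, hΦ1, -, hp', hq'⟩ := CL.crit_le (PR.pair_double hf) (s := fun _ => L)
    (Γ := Γ) (c := c) hJ2 hJ2 continuousAt_const hΓ1 hΓ2 hmin' (p := p) (q := 2 * L - p) hp hpL
    (by linarith) (by linarith) (by simp only [hc, hVe]; exact hVp)
    (by simp only [hc, hVe]; exact hVq) (by simp only [hc, hVe]; exact hw)
    (by simp only [hc, hVe]; exact hin)
  obtain ⟨hΨ1, -⟩ := CG.crit_ge (PR.pair_double hf) (s := fun _ => L)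
    (Γ := Γ) (c := c) hJ2 hJ2 continuousAt_const hΓ1 hΓ2 hmin' (p := p) (q := 2 * L - p) hp hpL
    (by linarith) (by linarith) (by simp only [hc, hVe]; exact hVp)
    (by simp only [hc, hVe]; exact hVq) (by simp only [hc, hVe]; exact hw)
    (by simp only [hc, hVe]; exact hin) hint hp' hq'
  simp only [hc, hVe] at hint hΦ1 hΨ1 hp'
  refine ⟨hint, ?_, hp'⟩
  have h3 := le_antisymm hΦ1 hΨ1
  have e : ∀ r, J / √2 / (h r ^ 2 * √(1 - VJ h J r)) =
      (√2)⁻¹ * (J / (h r ^ 2 * √(1 - VJ h J r))) := fun r => by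
    rw [div_div, mul_comm (√2), ← div_div, div_eq_inv_mul _ (√2)]
  simp only [e] at h3
  rw [integral_const_mul] at h3
  field_simp at h3
  linarith

/-- The angle function. -/
theorem angle {r : ℝ → ℝ} {p T J : ℝ} (hr : ContDiff ℝ 2 r) (hp : 0 < p)
    (hrI : ∀ t, p ≤ r t ∧ r t ≤ 2 * L - p) (hrT : ∀ t, r (t + T) = 2 * L - r t) :
    ∃ θ : ℝ → ℝ, ContDiff ℝ 2 θ ∧ (∀ t, deriv θ t = J / h (r t) ^ 2) ∧
      (∀ t, θ (t + T) = θ t + ∫ s in (0 : ℝ)..T, J / h (r s) ^ 2) ∧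
      ∫ s in (0 : ℝ)..(2 * T), J / h (r s) ^ 2 = 2 * ∫ s in (0 : ℝ)..T, J / h (r s) ^ 2 := by
  set F : ℝ → ℝ := fun t => J / h (r t) ^ 2 with hF
  have hne : ∀ t, h (r t) ^ 2 ≠ 0 := fun t => pow_ne_zero 2
    (h_pos' hf (by linarith [(hrI t).1]) (by linarith [(hrI t).2])).ne'
  have hF1 : ContDiff ℝ 1 F := by
    have hgr : ContDiff ℝ 1 fun t => h (r t) :=
      (hf.smooth_h.of_le (by exact_mod_cast le_top)).comp (hr.of_le (by norm_num))
    exact contDiff_const.div (hgr.pow 2) hne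
  have hFc : Continuous F := hF1.continuous
  have hd : ∀ t, HasDerivAt (fun t => ∫ s in (0 : ℝ)..t, F s) (F t) t := fun t =>
    intervalIntegral.integral_hasDerivAt_right (hFc.intervalIntegrable _ _)
      (hFc.stronglyMeasurableAtFilter _ _) hFc.continuousAt
  have hder : deriv (fun t => ∫ s in (0 : ℝ)..t, F s) = F := funext fun t => (hd t).deriv
  have hper : Function.Periodic F T := fun t => by simp only [hF, hrT, h_sym hf]
  refine ⟨fun t => ∫ s in (0 : ℝ)..t, F s, ?_, fun t => (hd t).deriv, fun t => ?_, ?_⟩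
  · rw [show (2 : WithTop ℕ∞) = 1 + 1 by norm_num, contDiff_succ_iff_deriv]
    refine ⟨fun t => (hd t).differentiableAt, by simp, ?_⟩
    rw [hder]; exact hF1
  · have h1 := hper.intervalIntegral_add_eq t 0
    simp only [zero_add] at h1
    change ∫ s in (0 : ℝ)..(t + T), F s = (∫ s in (0 : ℝ)..t, F s) + ∫ s in (0 : ℝ)..T, F s
    rw [← h1, intervalIntegral.integral_add_adjacent_intervals (hFc.intervalIntegrable _ _)
      (hFc.intervalIntegrable _ _)]
  · have h1 := hper.intervalIntegral_add_eq T 0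
    simp only [zero_add] at h1
    rw [two_mul T, ← intervalIntegral.integral_add_adjacent_intervals (b := T)
      (hFc.intervalIntegrable _ _) (hFc.intervalIntegrable _ _), h1, two_mul]

theorem V_hasDerivAt (J : ℝ) {x : ℝ} (h0 : 0 < x) (h1 : x < 2 * L) :
    HasDerivAt (VJ h J) (-2 * (h x * deriv h x * (J / h x ^ 2) ^ 2)) x := by
  have hne := (h_pos' hf h0 h1).ne'
  have hd : HasDerivAt h (deriv h x) x :=
    (hf.smooth_h.differentiable (by simp)).differentiableAt.hasDerivAt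
  have h2 : HasDerivAt (fun y => (J / h y) ^ 2)
      (((2 : ℕ) : ℝ) * (J / h x) ^ (2 - 1) * ((0 * h x - J * deriv h x) / h x ^ 2)) x :=
    ((hasDerivAt_const x J).div hd hne).pow 2
  have e : ((2 : ℕ) : ℝ) * (J / h x) ^ (2 - 1) * ((0 * h x - J * deriv h x) / h x ^ 2) =
      -2 * (h x * deriv h x * (J / h x ^ 2) ^ 2) := by
    push_cast
    field_simp
    ring
  rw [e] at h2
  exact h2

theorem V_contDiffOn (J : ℝ) : ContDiffOn ℝ ∞ (VJ h J) (Ioo 0 (2 * L)) := by
  unfold VJ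
  exact (contDiffOn_const.div hf.smooth_h.contDiffOn
    fun x hx => (h_pos' hf hx.1 hx.2).ne').pow 2

/-- The length of the oscillation. -/
theorem length_lt {R J p : ℝ} (hp : 0 < p)
    (hneg : DD L R h J < 0) (hw : well (2 * L) (VJ h J) L = Ioo p (2 * L - p))
    (hin : ∀ x ∈ Ioo p (2 * L - p), VJ h J x < 1)
    (hint : IntegrableOn (fun r => 1 / √(1 - VJ h J r)) (Ioo p (2 * L - p)))
    (hcr : ∫ r in Ioo p (2 * L - p), J / (h r ^ 2 * √(1 - VJ h J r)) = π) :
    2 * ∫ x in Ioo p (2 * L - p), 1 / √(1 - VJ h J x) < 2 * π * R := by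
  have hhne : ∀ x ∈ Icc p (2 * L - p), h x ≠ 0 := fun x hx =>
    (h_pos' hf (by linarith [hx.1]) (by linarith [hx.2])).ne'
  have e : ∀ x ∈ Ioo p (2 * L - p), 1 / √(1 - VJ h J x) = √(1 - VJ h J x)
      + J * (J / (h x ^ 2 * √(1 - VJ h J x))) := by
    intro x hx
    have hx1 : 0 < 1 - VJ h J x := by linarith [hin x hx]
    have hsq := Real.sq_sqrt hx1.le
    have hsp := Real.sqrt_pos.2 hx1
    have hhx := hhne x ⟨hx.1.le, hx.2.le⟩
    have hVx : VJ h J x = (J / h x) ^ 2 := rfl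
    set y := √(1 - VJ h J x) with hy
    have h3 : y ^ 2 = 1 - (J / h x) ^ 2 := by rw [hsq, hVx]
    have h4 : 1 = y ^ 2 + J ^ 2 / h x ^ 2 := by
      rw [h3, div_pow]; ring
    have h5 : 1 / y = (y ^ 2 + J ^ 2 / h x ^ 2) / y := by rw [← h4]
    rw [h5]
    field_simp
  have i1 : IntegrableOn (fun x => J / (h x ^ 2 * √(1 - VJ h J x))) (Ioo p (2 * L - p)) := by
    have hcont : ContinuousOn (fun x => J / h x ^ 2) (Icc p (2 * L - p)) :=
      continuousOn_const.div (hf.smooth_h.continuous.continuousOn.pow 2)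
        fun x hx => pow_ne_zero 2 (hhne x hx)
    obtain ⟨M, hM⟩ := isCompact_Icc.exists_bound_of_continuousOn hcont
    have h1 : IntegrableOn (fun x => (J / h x ^ 2) * (1 / √(1 - VJ h J x)))
        (Ioo p (2 * L - p)) := by
      refine Integrable.bdd_mul (c := M) hint
        ((hcont.mono Ioo_subset_Icc_self).aestronglyMeasurable measurableSet_Ioo) ?_
      exact (ae_restrict_iff' measurableSet_Ioo).2 (Filter.Eventually.of_forall fun x hx =>
        hM x (Ioo_subset_Icc_self hx))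
    refine h1.congr_fun (fun x _ => ?_) measurableSet_Ioo
    simp only [mul_one_div, div_div]
  have i0 : IntegrableOn (fun x => √(1 - VJ h J x)) (Ioo p (2 * L - p)) := by
    have h1 := hint.sub (i1.const_mul J)
    refine h1.congr_fun (fun x hx => ?_) measurableSet_Ioo
    simp only [Pi.sub_apply]
    linarith [e x hx]
  have h1 : ∫ x in Ioo p (2 * L - p), 1 / √(1 - VJ h J x) =
      (∫ x in Ioo p (2 * L - p), √(1 - VJ h J x)) + J * π := by
    rw [setIntegral_congr_fun measurableSet_Ioo e, integral_add i0 (i1.const_mul J),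
      integral_const_mul, hcr]
  have h2 : actW (2 * L) (VJ h J) L = 2 * ∫ x in Ioo p (2 * L - p), √(1 - VJ h J x) := by
    rw [actW, hw]
  unfold DD at hneg
  rw [h2] at hneg
  rw [h1]
  linarith

end

/-- E0: the edge `P = 0`. -/
theorem edge_zero {L : ℝ} {f h : ℝ → ℝ} (hf : IsProfileCP L f h) {R : ℝ} (hR : 0 < R)
    (hL : R < h L) (hmer : π * R < 2 * L)
    (hno : ∀ (r θ : ℝ → ℝ) (J T : ℝ), 0 < T → ContDiff ℝ 2 r → ContDiff ℝ 2 θ →
      (∀ t, 0 < r t ∧ r t < 2 * L) →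
      (∀ t, deriv (deriv r) t = h (r t) * deriv h (r t) * deriv θ t ^ 2) →
      (∀ t, h (r t) ^ 2 * deriv θ t = J) →
      (∀ t, deriv r t ^ 2 + h (r t) ^ 2 * deriv θ t ^ 2 = 1) →
      (∀ t, r (t + T) = 2 * L - r t) → (∀ t, θ (t + T) = θ t + π) → π * R < T)
    {s₁ : ℝ} (h0 : 0 < s₁) (h1 : s₁ < L) (hs : ∀ x ∈ Icc s₁ L, R < h x) :
    ∀ J, 0 < J → J < R → π * (R - J) ≤ actW L (fun r => (J / h r) ^ 2) s₁ := by
  intro J' hJ' hJR'
  change π * (R - J') ≤ actW L (VJ h J') s₁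
  by_contra hcon
  push Not at hcon
  have hdb := act_double hf hJ' hJR' h1 hs
  obtain ⟨J, hJ, hJR, hneg, hmin⟩ := exists_min0 hf hL hmer ⟨J', hJ', hJR', by
    unfold DD
    rw [hdb]
    linarith⟩
  obtain ⟨p, hp, hpL, hVp, hVq, hw, hin⟩ := well_sym hf hJ (V_lt hJ hJR hL)
  obtain ⟨hint, hcr, hp'⟩ := crit hf hJ hJR hmin hp hpL hVp hVq hw hin
  obtain ⟨r, T, hT, hTeq, hr, hrI, hr2, hr1, hrT, hrint⟩ :=
    OS.oscillator_sym (M := 2 * L) hp (by linarith) (V_contDiffOn hf J) (V_sym hf J) hVp hp' hin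
  have hrpos : ∀ t, 0 < r t ∧ r t < 2 * L := fun t =>
    ⟨by linarith [(hrI t).1], by linarith [(hrI t).2]⟩
  have hhne : ∀ x ∈ Icc p (2 * L - p), h x ≠ 0 := fun x hx =>
    (h_pos' hf (by linarith [hx.1]) (by linarith [hx.2])).ne'
  obtain ⟨θ, hθ, hθd, hθT, hθ2⟩ := angle hf (J := J) hr hp hrI hrT
  have hA : ∫ s in (0 : ℝ)..(T / 2), J / h (r s) ^ 2 = π := by
    have h2 := hrint (fun x => J / h x ^ 2)
      (continuousOn_const.div (hf.smooth_h.continuous.continuousOn.pow 2)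
        fun x hx => pow_ne_zero 2 (hhne x hx))
    simp only [div_div] at h2
    rw [hcr] at h2
    rw [show 2 * (T / 2) = T by ring, h2] at hθ2
    linarith
  have hlt := length_lt hf hp hneg hw hin hint hcr
  have hfin := hno r θ J (T / 2) (by linarith) hr hθ hrpos
    (fun t => by
      rw [hr2, (V_hasDerivAt hf J (hrpos t).1 (hrpos t).2).deriv, hθd]
      ring)
    (fun t => by
      rw [hθd]
      have := hhne (r t) ⟨(hrI t).1, (hrI t).2⟩
      field_simp)
    (fun t => by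
      rw [hr1, hθd]
      have h1 := hhne (r t) ⟨(hrI t).1, (hrI t).2⟩
      unfold VJ
      field_simp
      ring)
    hrT (fun t => by rw [hθT, hA])
  rw [← hTeq] at hlt
  linarith

end H738CP.E0
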