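import Pool.Agent.H738R3.CP.Defs

/-!
# Existence of the minimum of the action defect (adapted from helper206's `Rot2/TE.lean`)
-/

open Real Set MeasureTheory Filter Topology
open scoped ContDiff
open Pool.Agent.H206R2 (Rot.Wall)
open Pool.Agent.H206R2.Rot2 (Veff well actW)
open Pool.Agent.H206R2.Rot2.TE (bd well_sub exists_last exists_first)

namespace H738CP.EM

/-- The action defect. -/
noncomputable def Df (L R : ℝ) (f h : ℝ → ℝ) (s : ℝ × ℝ → ℝ) (c : ℝ × ℝ) : ℝ :=
  actW L (Veff f h c.1 c.2) (s c) - π * (R - c.1 - √(c.1 ^ 2 + c.2 ^ 2))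

theorem actW_nonneg (L : ℝ) (V : ℝ → ℝ) (s : ℝ) : 0 ≤ actW L V s := by
  unfold actW
  have : 0 ≤ ∫ r in well L V s, √(1 - V r) := integral_nonneg fun r => Real.sqrt_nonneg _
  linarith

theorem meas {L : ℝ} {f h : ℝ → ℝ} (hf : Pair L f h) (c₁ c₂ : ℝ) : Measurable (fun r => √(1 - Veff f h c₁ c₂ r)) := by
  unfold Veff
  have m1 : Measurable f := hf.smooth_f.continuous.measurable
  have m2 : Measurable h := hf.smooth_h.continuous.measurable
  exact (measurable_const.sub (((measurable_const.div m1).pow_const 2).add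
    ((measurable_const.div m2).pow_const 2))).sqrt


theorem intOn {L : ℝ} {f h : ℝ → ℝ} (hf : Pair L f h) (c₁ c₂ : ℝ) {A : Set ℝ}
    (hA : volume A < ⊤) : IntegrableOn (fun r => √(1 - Veff f h c₁ c₂ r)) A := by
  refine Measure.integrableOn_of_bounded (M := 1) hA.ne (meas hf c₁ c₂).aestronglyMeasurable ?_
  refine Eventually.of_forall fun r => ?_
  rw [Real.norm_of_nonneg (Real.sqrt_nonneg _)]
  exact bd c₁ c₂ r

/-- Contribution of a compact interval to the action. -/
theorem actW_ge {L : ℝ} {f h : ℝ → ℝ} (hf : Pair L f h) {c₁ c₂ x y s : ℝ}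
    (hx : 0 < x) (hy : y < L) (hs : s ∈ Icc x y) (hV : ∀ r ∈ Icc x y, Veff f h c₁ c₂ r < 1) :
    2 * ∫ r in Icc x y, √(1 - Veff f h c₁ c₂ r) ≤ actW L (Veff f h c₁ c₂) s := by
  unfold actW
  have hsub : Icc x y ⊆ well L (Veff f h c₁ c₂) s := by
    intro r hr z hz
    have hz' : z ∈ Icc x y := (ordConnected_Icc.uIcc_subset hs hr) hz
    exact ⟨lt_of_lt_of_le hx hz'.1, lt_of_le_of_lt hz'.2 hy, hV z hz'⟩
  have hfin : volume (well L (Veff f h c₁ c₂) s) < ⊤ :=
    lt_of_le_of_lt (measure_mono (well_sub L _ s)) measure_Ioo_lt_top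
  have := setIntegral_mono_set (intOn hf c₁ c₂ hfin)
    (Eventually.of_forall fun r => Real.sqrt_nonneg _) hsub.eventuallyLE
  linarith

/-- The effective potential stays below `1` on compact intervals for nearby constants. -/
theorem ev_lt {L : ℝ} {f h : ℝ → ℝ} (hf : Pair L f h) {c₀ : ℝ × ℝ} {x y : ℝ}
    (hx : 0 < x) (hy : y < L) (hV : ∀ r ∈ Icc x y, Veff f h c₀.1 c₀.2 r < 1) :
    ∀ᶠ c : ℝ × ℝ in 𝓝 c₀, ∀ r ∈ Icc x y, Veff f h c.1 c.2 r < 1 := by
  refine isCompact_Icc.eventually_forall_of_forall_eventually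
    (P := fun (c : ℝ × ℝ) (r : ℝ) => Veff f h c.1 c.2 r < 1) ?_
  intro r hr
  have h1 : f r ≠ 0 := (hf.f_pos r (lt_of_lt_of_le hx hr.1) (lt_of_le_of_lt hr.2 hy)).ne'
  have h2 : h r ≠ 0 :=
    (hf.h_pos r (lt_of_lt_of_le hx hr.1) (lt_of_le_of_lt hr.2 hy)).ne'
  have e1 : ContinuousAt (fun z : (ℝ × ℝ) × ℝ => f z.2) (c₀, r) :=
    (hf.smooth_f.continuous.comp continuous_snd).continuousAt
  have e2 : ContinuousAt (fun z : (ℝ × ℝ) × ℝ => h z.2) (c₀, r) :=
    (hf.smooth_h.continuous.comp continuous_snd).continuousAt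
  have e3 : ContinuousAt (fun z : (ℝ × ℝ) × ℝ => z.1.1) (c₀, r) :=
    (continuous_fst.comp continuous_fst).continuousAt
  have e4 : ContinuousAt (fun z : (ℝ × ℝ) × ℝ => z.1.2) (c₀, r) :=
    (continuous_snd.comp continuous_fst).continuousAt
  have e5 : ContinuousAt (fun z : (ℝ × ℝ) × ℝ => Veff f h z.1.1 z.1.2 z.2) (c₀, r) := by
    unfold Veff
    exact ((e3.div e1 h1).pow 2).add ((e4.div e2 h2).pow 2)
  exact e5.eventually (eventually_lt_nhds (hV r hr))

theorem tendsto_int {L : ℝ} {f h : ℝ → ℝ} (hf : Pair L f h) {c₀ : ℝ × ℝ}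
    {c : ℕ → ℝ × ℝ} (hc : Tendsto c atTop (𝓝 c₀)) (x y : ℝ) :
    Tendsto (fun n => ∫ r in Icc x y, √(1 - Veff f h (c n).1 (c n).2 r)) atTop
      (𝓝 (∫ r in Icc x y, √(1 - Veff f h c₀.1 c₀.2 r))) := by
  refine tendsto_integral_of_dominated_convergence (fun _ => (1 : ℝ)) ?_ ?_ ?_ ?_
  · intro n; exact (meas hf _ _).aestronglyMeasurable
  · exact (integrableOn_const measure_Icc_lt_top.ne : IntegrableOn (fun _ => (1 : ℝ)) (Icc x y))
  · intro n
    refine Eventually.of_forall fun r => ?_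
    rw [Real.norm_of_nonneg (Real.sqrt_nonneg _)]
    exact bd _ _ r
  · refine Eventually.of_forall fun r => ?_
    unfold Veff
    have e1 : Tendsto (fun n => (c n).1) atTop (𝓝 c₀.1) := (continuous_fst.tendsto c₀).comp hc
    have e2 : Tendsto (fun n => (c n).2) atTop (𝓝 c₀.2) := (continuous_snd.tendsto c₀).comp hc
    exact (tendsto_const_nhds.sub (((e1.div_const _).pow 2).add ((e2.div_const _).pow 2))).sqrt

/-- Truncating the interval of integration changes the integral by at most the length. -/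
theorem trunc {L : ℝ} {f h : ℝ → ℝ} (hf : Pair L f h) (c₁ c₂ : ℝ) {p x y q : ℝ}
    (hpx : p ≤ x) (hxy : x ≤ y) (hyq : y ≤ q) :
    ∫ r in Ioo p q, √(1 - Veff f h c₁ c₂ r) ≤
      (∫ r in Icc x y, √(1 - Veff f h c₁ c₂ r)) + (x - p) + (q - y) := by
  rw [← integral_Ioc_eq_integral_Ioo, integral_Icc_eq_integral_Ioc,
    ← intervalIntegral.integral_of_le (hpx.trans (hxy.trans hyq)),
    ← intervalIntegral.integral_of_le hxy]
  have hi : ∀ u v : ℝ, IntervalIntegrable (fun r => √(1 - Veff f h c₁ c₂ r)) volume u v := by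
    intro u v
    rw [intervalIntegrable_iff]
    exact intOn hf c₁ c₂ (by rw [uIoc]; exact measure_Ioc_lt_top)
  have hb : ∀ u v : ℝ, u ≤ v → ∫ r in u..v, √(1 - Veff f h c₁ c₂ r) ≤ v - u := by
    intro u v huv
    have := intervalIntegral.integral_mono_on huv (hi u v)
      (intervalIntegrable_const (c := (1 : ℝ))) (fun r _ => bd c₁ c₂ r)
    simpa using this
  rw [← intervalIntegral.integral_add_adjacent_intervals (hi p y) (hi y q),
    ← intervalIntegral.integral_add_adjacent_intervals (hi p x) (hi x y)]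
  have := hb p x hpx
  have := hb y q hyq
  linarith


/-- Lower semicontinuity of the action. -/
theorem lsc_act {L : ℝ} {f h : ℝ → ℝ} (hf : Pair L f h) {s : ℝ × ℝ → ℝ}
    {c₀ : ℝ × ℝ} {c : ℕ → ℝ × ℝ} (hc : Tendsto c atTop (𝓝 c₀)) {m : ℝ}
    (hA : Tendsto (fun n => actW L (Veff f h (c n).1 (c n).2) (s (c n))) atTop (𝓝 m))
    {p q x' y' : ℝ} (hp : 0 ≤ p) (hq : q ≤ L)
    (hV : ∀ r ∈ Ioo p q, Veff f h c₀.1 c₀.2 r < 1) (hx : p < x') (hxy : x' ≤ y') (hy : y' < q)
    (hs : ∀ᶠ n in atTop, s (c n) ∈ Icc x' y') :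
    2 * (∫ r in Ioo p q, √(1 - Veff f h c₀.1 c₀.2 r)) ≤ m := by
  refine le_of_forall_pos_le_add fun ε hε => ?_
  set x := min (p + ε / 4) x' with hxdef
  set y := max (q - ε / 4) y' with hydef
  have hpx : p < x := lt_min (by linarith) hx
  have hyq : y < q := max_lt (by linarith) hy
  have hxx : x ≤ x' := min_le_right _ _
  have hyy : y' ≤ y := le_max_right _ _
  have hx4 : x ≤ p + ε / 4 := min_le_left _ _
  have hy4 : q - ε / 4 ≤ y := le_max_left _ _
  have hxy2 : x ≤ y := hxx.trans (hxy.trans hyy)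
  have hV' : ∀ r ∈ Icc x y, Veff f h c₀.1 c₀.2 r < 1 := fun r hr =>
    hV r ⟨lt_of_lt_of_le hpx hr.1, lt_of_le_of_lt hr.2 hyq⟩
  have hx0 : 0 < x := lt_of_le_of_lt hp hpx
  have hyL : y < L := lt_of_lt_of_le hyq hq
  have ev1 := hc.eventually (ev_lt hf hx0 hyL hV')
  have ev2 : ∀ᶠ n in atTop, 2 * (∫ r in Icc x y, √(1 - Veff f h (c n).1 (c n).2 r)) ≤
      actW L (Veff f h (c n).1 (c n).2) (s (c n)) := by
    filter_upwards [ev1, hs] with n hn hsn
    have hsn' : s (c n) ∈ Icc x y := ⟨hxx.trans hsn.1, hsn.2.trans hyy⟩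
    exact actW_ge hf hx0 hyL hsn' hn
  have lim : Tendsto (fun n => 2 * (∫ r in Icc x y, √(1 - Veff f h (c n).1 (c n).2 r))) atTop
      (𝓝 (2 * (∫ r in Icc x y, √(1 - Veff f h c₀.1 c₀.2 r)))) :=
    (tendsto_int hf hc x y).const_mul 2
  have key := le_of_tendsto_of_tendsto lim hA ev2
  have ht := trunc hf c₀.1 c₀.2 hpx.le hxy2 hyq.le
  linarith

/-- Profiles are pairs. -/
theorem pair_of_profile {L : ℝ} {f h : ℝ → ℝ} (hf : IsProfileCP L f h) : Pair L f h where
  pos := hf.pos
  smooth_f := hf.smooth_f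
  smooth_h := hf.smooth_h
  f_pos := hf.f_pos
  h_pos := fun r h0 h1 => hf.h_pos r h0 h1.le
  zero := by
    left
    have := hf.f_odd 0
    simp at this
    linarith
  last := by
    left
    have := hf.f_odd_L 0
    simp at this
    linarith

theorem cont_V {L : ℝ} {f h : ℝ → ℝ} (hf : Pair L f h) {c₁ c₂ : ℝ} :
    ContinuousOn (Veff f h c₁ c₂) (Ioo 0 L) := by
  unfold Veff
  intro r hr
  have h1 : f r ≠ 0 := (hf.f_pos r hr.1 hr.2).ne'
  have h2 : h r ≠ 0 := (hf.h_pos r hr.1 hr.2).ne'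
  have e1 : ContinuousAt f r := hf.smooth_f.continuous.continuousAt
  have e2 : ContinuousAt h r := hf.smooth_h.continuous.continuousAt
  exact (((continuousAt_const.div e1 h1).pow 2).add
    ((continuousAt_const.div e2 h2).pow 2)).continuousWithinAt

theorem well_spec {L : ℝ} {f h : ℝ → ℝ} (hf : Pair L f h) {c₁ c₂ : ℝ} (h1 : 0 < c₁)
    (h2 : 0 < c₂) {s : ℝ} (hs0 : 0 < s) (hsL : s < L) (hs : Veff f h c₁ c₂ s < 1) :
    ∃ p q, 0 < p ∧ p < s ∧ s < q ∧ q < L ∧
      well L (Veff f h c₁ c₂) s = Ioo p q ∧ ∀ x ∈ Ioo p q, Veff f h c₁ c₂ x < 1 := by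
  have hVc := cont_V hf (c₁ := c₁) (c₂ := c₂)
  -- a point near `0` with `V ≥ 1`
  obtain ⟨u, hu0, hus, hu1⟩ : ∃ u, 0 < u ∧ u < s ∧ 1 ≤ Veff f h c₁ c₂ u := by
    have e3 : ∀ᶠ x in 𝓝[>] (0 : ℝ), x ∈ Ioo 0 s := Ioo_mem_nhdsGT hs0
    rcases hf.zero with hz | hz
    · have e1 : Tendsto f (𝓝[>] 0) (𝓝 (f 0)) := hf.smooth_f.continuous.continuousAt.mono_left
        nhdsWithin_le_nhds
      rw [hz] at e1
      have e2 : ∀ᶠ x in 𝓝[>] (0 : ℝ), f x < c₁ := e1.eventually_lt_const h1
      obtain ⟨u, hu, hu'⟩ := (e2.and e3).exists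
      refine ⟨u, hu'.1, hu'.2, ?_⟩
      have hfu : 0 < f u := hf.f_pos u hu'.1 (by linarith [hu'.2])
      have : 1 ≤ c₁ / f u := by rw [le_div_iff₀ hfu]; linarith
      unfold Veff
      nlinarith [sq_nonneg (c₂ / h u)]
    · have e1 : Tendsto h (𝓝[>] 0) (𝓝 (h 0)) := hf.smooth_h.continuous.continuousAt.mono_left
        nhdsWithin_le_nhds
      rw [hz] at e1
      have e2 : ∀ᶠ x in 𝓝[>] (0 : ℝ), h x < c₂ := e1.eventually_lt_const h2
      obtain ⟨u, hu, hu'⟩ := (e2.and e3).exists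
      refine ⟨u, hu'.1, hu'.2, ?_⟩
      have hfu : 0 < h u := hf.h_pos u hu'.1 (by linarith [hu'.2])
      have : 1 ≤ c₂ / h u := by rw [le_div_iff₀ hfu]; linarith
      unfold Veff
      nlinarith [sq_nonneg (c₁ / f u)]
  obtain ⟨v, hsv, hvL, hv1⟩ : ∃ v, s < v ∧ v < L ∧ 1 ≤ Veff f h c₁ c₂ v := by
    have e3 : ∀ᶠ x in 𝓝[<] L, x ∈ Ioo s L := Ioo_mem_nhdsLT hsL
    rcases hf.last with hz | hz
    · have e1 : Tendsto f (𝓝[<] L) (𝓝 (f L)) := hf.smooth_f.continuous.continuousAt.mono_left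
        nhdsWithin_le_nhds
      rw [hz] at e1
      have e2 : ∀ᶠ x in 𝓝[<] L, f x < c₁ := e1.eventually_lt_const h1
      obtain ⟨v, hv, hv'⟩ := (e2.and e3).exists
      refine ⟨v, hv'.1, hv'.2, ?_⟩
      have hhv : 0 < f v := hf.f_pos v (by linarith [hv'.1]) hv'.2
      have : 1 ≤ c₁ / f v := by rw [le_div_iff₀ hhv]; linarith
      unfold Veff
      nlinarith [sq_nonneg (c₂ / h v)]
    · have e1 : Tendsto h (𝓝[<] L) (𝓝 (h L)) := hf.smooth_h.continuous.continuousAt.mono_left
        nhdsWithin_le_nhds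
      rw [hz] at e1
      have e2 : ∀ᶠ x in 𝓝[<] L, h x < c₂ := e1.eventually_lt_const h2
      obtain ⟨v, hv, hv'⟩ := (e2.and e3).exists
      refine ⟨v, hv'.1, hv'.2, ?_⟩
      have hhv : 0 < h v := hf.h_pos v (by linarith [hv'.1]) hv'.2
      have : 1 ≤ c₂ / h v := by rw [le_div_iff₀ hhv]; linarith
      unfold Veff
      nlinarith [sq_nonneg (c₁ / f v)]
  obtain ⟨p, hup, hps, hp1, hplt⟩ := exists_last hus.le
    (hVc.mono (fun x hx => ⟨lt_of_lt_of_le hu0 hx.1, lt_of_le_of_lt hx.2 hsL⟩)) hu1 hs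
  obtain ⟨q, hsq, hqv, hq1, hqlt⟩ := exists_first hsv.le
    (hVc.mono (fun x hx => ⟨lt_of_lt_of_le hs0 hx.1, lt_of_le_of_lt hx.2 hvL⟩)) hs hv1
  have hp0 : 0 < p := lt_of_lt_of_le hu0 hup
  have hqL : q < L := lt_of_le_of_lt hqv hvL
  have hin : ∀ x ∈ Ioo p q, Veff f h c₁ c₂ x < 1 := by
    intro x hx
    rcases le_total x s with hxs | hxs
    · exact hplt x hx.1 hxs
    · exact hqlt x hxs hx.2
  refine ⟨p, q, hp0, hps, hsq, hqL, ?_, hin⟩
  ext r
  constructor
  · intro hr
    have hr' : ∀ x ∈ uIcc s r, 0 < x ∧ x < L ∧ Veff f h c₁ c₂ x < 1 := hr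
    constructor
    · by_contra hcon
      push Not at hcon
      have : p ∈ uIcc s r := by
        rw [uIcc_of_ge (by linarith)]; exact ⟨hcon, hps.le⟩
      have := (hr' p this).2.2
      linarith
    · by_contra hcon
      push Not at hcon
      have : q ∈ uIcc s r := by
        rw [uIcc_of_le (by linarith)]; exact ⟨hsq.le, hcon⟩
      have := (hr' q this).2.2
      linarith
  · intro hr x hx
    have hx' : x ∈ Ioo p q :=
      (ordConnected_Ioo.uIcc_subset ⟨hps, hsq⟩ hr) hx
    exact ⟨hp0.trans hx'.1, hx'.2.trans hqL, hin x hx'⟩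

/-- EM: existence of the minimum of the action defect. -/
theorem exists_minCP {L : ℝ} {f h : ℝ → ℝ} (hf : IsProfileCP L f h) {R S a b : ℝ} (hR : 0 < R)
    (hRS : R < S) (hwall : Pool.Agent.H206R2.Rot.Wall L f (S / 2) a b)
    {s : ℝ × ℝ → ℝ} {ρ lo hi η b₂ : ℝ} (hρ : ρ < 1) (hlo : 0 < lo) (hhi : hi < L) (hη : 0 < η)
    (hs : ContinuousOn s {c | 0 < c.1 ∧ 0 < c.2})
    (hsI : ∀ c : ℝ × ℝ, 0 < c.1 → 0 < c.2 → lo ≤ s c ∧ s c ≤ hi)
    (hsρ : ∀ c ∈ Reg R, Veff f h c.1 c.2 (s c) ≤ ρ)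
    (hhi' : ∀ x ∈ Icc hi L, R < h x)
    (hsη : ∀ c : ℝ × ℝ, 0 < c.1 → 0 < c.2 → c.1 ≤ η * c.2 → s c = hi)
    (hb₂ : b ≤ b₂) (hb₂L : b₂ < L) (hfb₂ : R < 2 * f b₂)
    (hsb : ∀ c : ℝ × ℝ, 0 < c.1 → 0 < c.2 → c.2 ≤ η * c.1 → b ≤ s c ∧ s c ≤ b₂)
    (hEd : ∀ c, 0 ≤ c → 2 * c ≤ R → π * (R - 2 * c) ≤ 2 * ∫ r in Ioo 0 L, √(1 - (c / f r) ^ 2))
    (hE0 : ∀ J, 0 < J → J < R → π * (R - J) ≤ actW L (fun r => (J / h r) ^ 2) hi)
    (hneg : ∃ c ∈ Reg R, actW L (Veff f h c.1 c.2) (s c) <
      π * (R - c.1 - √(c.1 ^ 2 + c.2 ^ 2))) :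
    ∃ c ∈ Reg R, actW L (Veff f h c.1 c.2) (s c) < π * (R - c.1 - √(c.1 ^ 2 + c.2 ^ 2)) ∧
      ∀ c' ∈ Reg R, actW L (Veff f h c.1 c.2) (s c) - π * (R - c.1 - √(c.1 ^ 2 + c.2 ^ 2)) ≤
        actW L (Veff f h c'.1 c'.2) (s c') - π * (R - c'.1 - √(c'.1 ^ 2 + c'.2 ^ 2)) := by
  have hπ := Real.pi_pos
  have hP := pair_of_profile hf
  have hh0 : h 0 = 0 := by
    have := hf.h_odd 0
    simp at this
    linarith
  have hf0 : f 0 = 0 := by
    have := hf.f_odd 0
    simp at this
    linarith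
  have hfL : f L = 0 := by
    have := hf.f_odd_L 0
    simp at this
    linarith
  -- the infimum
  set E : Set ℝ := Df L R f h s '' Reg R with hE
  have hbdd : BddBelow E := by
    refine ⟨-(π * R), ?_⟩
    rintro _ ⟨c, hc, rfl⟩
    have h0 := actW_nonneg L (Veff f h c.1 c.2) (s c)
    obtain ⟨h1, h2, h3⟩ := hc
    have h4 := Real.sqrt_nonneg (c.1 ^ 2 + c.2 ^ 2)
    unfold Df
    nlinarith
  obtain ⟨c₁, hc₁, hc₁'⟩ := hneg
  have hne : E.Nonempty := ⟨_, c₁, hc₁, rfl⟩
  set m := sInf E with hm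
  have hmneg : m < 0 := by
    have : m ≤ Df L R f h s c₁ := csInf_le hbdd ⟨c₁, hc₁, rfl⟩
    unfold Df at this
    linarith
  obtain ⟨u, -, hu, huE⟩ := exists_seq_tendsto_sInf hne hbdd
  choose d hdT hdu using huE
  -- subsequence
  have hle1 : ∀ c : ℝ × ℝ, |c.1| ≤ √(c.1 ^ 2 + c.2 ^ 2) := fun c =>
    Real.abs_le_sqrt (by nlinarith [sq_nonneg c.2])
  have hle2 : ∀ c : ℝ × ℝ, |c.2| ≤ √(c.1 ^ 2 + c.2 ^ 2) := fun c =>
    Real.abs_le_sqrt (by nlinarith [sq_nonneg c.1])
  have hdK : ∀ n, d n ∈ Icc ((0 : ℝ), (0 : ℝ)) (R, R) := by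
    intro n
    obtain ⟨h1, h2, h3⟩ := hdT n
    have h4 := (abs_le.mp (hle1 (d n))).2
    have h5 := (abs_le.mp (hle2 (d n))).2
    exact ⟨⟨h1.le, h2.le⟩, ⟨by simp only; linarith, by simp only; linarith⟩⟩
  obtain ⟨c₀, hc₀, φ, hφ, hlim⟩ := isCompact_Icc.tendsto_subseq hdK
  set c : ℕ → ℝ × ℝ := d ∘ φ with hcdef
  have hcT : ∀ n, c n ∈ Reg R := fun n => hdT (φ n)
  have hD : Tendsto (fun n => Df L R f h s (c n)) atTop (𝓝 m) := by
    have : (fun n => Df L R f h s (c n)) = u ∘ φ := by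
      funext n; exact hdu (φ n)
    rw [this]
    exact hu.comp hφ.tendsto_atTop
  have e1 : Tendsto (fun n => (c n).1) atTop (𝓝 c₀.1) := (continuous_fst.tendsto c₀).comp hlim
  have e2 : Tendsto (fun n => (c n).2) atTop (𝓝 c₀.2) := (continuous_snd.tendsto c₀).comp hlim
  have eJ : Tendsto (fun n => √((c n).1 ^ 2 + (c n).2 ^ 2)) atTop
      (𝓝 (√(c₀.1 ^ 2 + c₀.2 ^ 2))) := ((e1.pow 2).add (e2.pow 2)).sqrt
  have hA : Tendsto (fun n => actW L (Veff f h (c n).1 (c n).2) (s (c n))) atTop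
      (𝓝 (m + π * (R - c₀.1 - √(c₀.1 ^ 2 + c₀.2 ^ 2)))) := by
    have e := hD.add (((tendsto_const_nhds (x := R)).sub e1).sub eJ |>.const_mul π)
    refine e.congr fun n => ?_
    unfold Df
    ring
  have h01 : 0 ≤ c₀.1 := hc₀.1.1
  have h02 : 0 ≤ c₀.2 := hc₀.1.2
  have hsum : c₀.1 + √(c₀.1 ^ 2 + c₀.2 ^ 2) ≤ R :=
    le_of_tendsto (e1.add eJ) (Eventually.of_forall fun n => (hcT n).2.2.le)
  -- the hypotenuse
  have hsum' : c₀.1 + √(c₀.1 ^ 2 + c₀.2 ^ 2) < R := by
    rcases lt_or_eq_of_le hsum with hh | hh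
    · exact hh
    exfalso
    have := ge_of_tendsto hA (Eventually.of_forall fun n =>
      actW_nonneg L (Veff f h (c n).1 (c n).2) (s (c n)))
    have e : R - c₀.1 - √(c₀.1 ^ 2 + c₀.2 ^ 2) = 0 := by linarith
    rw [e] at this
    simp at this
    linarith
  rcases eq_or_lt_of_le h01 with h01' | h01'
  · rcases eq_or_lt_of_le h02 with h02' | h02'
    · -- the origin
      exfalso
      have h10 : c₀.1 = 0 := h01'.symm
      have h20 : c₀.2 = 0 := h02'.symm
      have hlohi : lo ≤ hi := by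
        have := hsI (c 0) (hcT 0).1 (hcT 0).2.1
        exact this.1.trans this.2
      have key := lsc_act (s := s) hP hlim hA (p := 0) (q := L) (x' := lo) (y' := hi)
        le_rfl le_rfl (fun r _ => by rw [h10, h20]; unfold Veff; simp) hlo hlohi hhi
        (Eventually.of_forall fun n => hsI (c n) (hcT n).1 (hcT n).2.1)
      have hE0' := hEd 0 le_rfl (by linarith)
      rw [h10, h20] at key
      unfold Veff at key
      simp only [zero_div, ne_eq, OfNat.ofNat_ne_zero, not_false_eq_true, zero_pow, add_zero,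
        sub_zero, mul_zero, Real.sqrt_zero] at key hE0'
      linarith
    · -- the edge `c₁ = 0`
      exfalso
      have h10 : c₀.1 = 0 := h01'.symm
      set J := c₀.2 with hJ
      have hJs : √(c₀.1 ^ 2 + J ^ 2) = J := by
        rw [h10]
        simp only [ne_eq, OfNat.ofNat_ne_zero, not_false_eq_true, zero_pow, zero_add]
        exact Real.sqrt_sq h02
      have hJR : J < R := by rw [hJs, h10] at hsum'; linarith
      have hlohi : lo ≤ hi := by
        have := hsI (c 0) (hcT 0).1 (hcT 0).2.1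
        exact this.1.trans this.2
      have hhi0 : 0 < hi := lt_of_lt_of_le hlo hlohi
      have hhhi := hhi' hi ⟨le_rfl, hhi.le⟩
      -- the last point where `h = J`
      obtain ⟨p, hp0, hphi, hpJ, hpl⟩ := exists_last
        (g := fun x => 1 + J - h x) hhi0.le
        ((continuous_const.sub hf.smooth_h.continuous).continuousOn)
        (by simp only [hh0]; linarith) (by linarith)
      have hpJ' : h p = J := by linarith
      have hp0' : 0 < p := by
        rcases eq_or_lt_of_le hp0 with hh | hh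
        · rw [← hh, hh0] at hpJ'; linarith
        · exact hh
      have hgt : ∀ r ∈ Ioo p L, J < h r := by
        intro r hr
        rcases le_total r hi with hrb | hrb
        · have := hpl r hr.1 hrb
          linarith
        · have := hhi' r ⟨hrb, hr.2.le⟩
          linarith
      have hlt : ∀ r ∈ Ioo p L, (J / h r) ^ 2 < 1 := by
        intro r hr
        have h1 := hgt r hr
        have h2 : J / h r < 1 := by rw [div_lt_one (by linarith)]; exact h1
        have h3 : 0 < J / h r := div_pos h02' (by linarith)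
        nlinarith
      have hVt : ∀ r ∈ Ioo p L, Veff f h c₀.1 c₀.2 r < 1 := by
        intro r hr
        unfold Veff
        rw [h10, ← hJ, zero_div]
        have := hlt r hr
        simpa using this
      have hev : ∀ᶠ n in atTop, s (c n) ∈ Icc hi hi := by
        have e3 : Tendsto (fun n => η * (c n).2 - (c n).1) atTop (𝓝 (η * J - 0)) := by
          rw [← h10]; exact (e2.const_mul η).sub e1
        have e4 : (0 : ℝ) < η * J - 0 := by rw [sub_zero]; exact mul_pos hη h02'
        filter_upwards [e3.eventually (lt_mem_nhds e4)] with n hn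
        have hn1 := (hcT n).1
        have hn2 := (hcT n).2.1
        rw [hsη _ hn1 hn2 (by linarith)]
        exact ⟨le_rfl, le_rfl⟩
      have key := lsc_act (s := s) hP hlim hA (p := p) (q := L) (x' := hi)
        (y' := hi) hp0 le_rfl hVt hphi le_rfl hhi hev
      have hE0' := hE0 J h02' hJR
      have hw : well L (fun r => (J / h r) ^ 2) hi = Ioo p L := by
        ext r
        constructor
        · intro hr
          have hr' : ∀ x ∈ uIcc hi r, 0 < x ∧ x < L ∧ (J / h x) ^ 2 < 1 := hr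
          constructor
          · by_contra hcon
            push Not at hcon
            have : p ∈ uIcc hi r := by
              rw [uIcc_of_ge (by linarith)]; exact ⟨hcon, hphi.le⟩
            have h5 := (hr' p this).2.2
            rw [hpJ', div_self h02'.ne'] at h5
            norm_num at h5
          · exact (hr' r right_mem_uIcc).2.1
        · intro hr x hx
          have hx' : x ∈ Ioo p L :=
            (ordConnected_Ioo.uIcc_subset ⟨hphi, hhi⟩ hr) hx
          exact ⟨hp0'.trans hx'.1, hx'.2, hlt x hx'⟩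
      unfold actW at hE0'
      rw [hw] at hE0'
      have e : (fun r => √(1 - (J / h r) ^ 2)) = fun r => √(1 - Veff f h c₀.1 c₀.2 r) := by
        funext r; unfold Veff; rw [h10, ← hJ]; simp
      rw [e] at hE0'
      rw [← hJ, hJs] at key
      rw [← hJ] at hE0'
      have e5 : c₀.1 = 0 := h10
      rw [e5] at key hE0'
      have : R - 0 - J = R - J := by ring
      rw [this] at key
      linarith
  · rcases eq_or_lt_of_le h02 with h02' | h02'
    · -- the edge `c₂ = 0`
      exfalso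
      have h20 : c₀.2 = 0 := h02'.symm
      set t := c₀.1 with ht
      have hts : √(t ^ 2 + c₀.2 ^ 2) = t := by
        rw [h20]
        simp only [ne_eq, OfNat.ofNat_ne_zero, not_false_eq_true, zero_pow, add_zero]
        exact Real.sqrt_sq h01
      have htR : 2 * t < R := by rw [hts] at hsum'; linarith
      have hmono : StrictMonoOn f (Icc 0 a) := by
        refine strictMonoOn_of_deriv_pos (convex_Icc 0 a) hf.smooth_f.continuous.continuousOn ?_
        intro r hr
        rw [interior_Icc] at hr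
        exact hwall.inc r hr.1.le hr.2.le
      have hanti : StrictAntiOn f (Icc b L) := by
        refine strictAntiOn_of_deriv_neg (convex_Icc b L) hf.smooth_f.continuous.continuousOn ?_
        intro r hr
        rw [interior_Icc] at hr
        exact hwall.dec r hr.1.le hr.2.le
      have hfa := hwall.fa
      have hfb := hwall.fb
      have ha := hwall.apos
      have hab := hwall.ab
      have hbL := hwall.bL
      obtain ⟨x₀, hx₀, hx₀t⟩ : t ∈ f '' Icc 0 a :=
        intermediate_value_Icc ha.le hf.smooth_f.continuous.continuousOn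
          ⟨by rw [hf0]; exact h01'.le, by linarith⟩
      have hxa : x₀ < a := by
        rcases eq_or_lt_of_le hx₀.2 with h | h
        · rw [h] at hx₀t; linarith
        · exact h
      have hx0 : 0 < x₀ := by
        rcases eq_or_lt_of_le hx₀.1 with h | h
        · rw [← h, hf0] at hx₀t; linarith
        · exact h
      obtain ⟨y₀, hy₀, hy₀t⟩ : t ∈ f '' Icc b₂ L :=
        intermediate_value_Icc' hb₂L.le hf.smooth_f.continuous.continuousOn
          ⟨by rw [hfL]; exact h01'.le, by linarith⟩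
      have hby : b₂ < y₀ := by
        rcases eq_or_lt_of_le hy₀.1 with h | h
        · rw [← h] at hy₀t; linarith
        · exact h
      have hyL : y₀ < L := by
        rcases eq_or_lt_of_le hy₀.2 with h | h
        · rw [h, hfL] at hy₀t; linarith
        · exact h
      have hy₀b : y₀ ∈ Icc b L := ⟨hb₂.trans hy₀.1, hy₀.2⟩
      have hgt : ∀ r ∈ Ioo x₀ y₀, t < f r := by
        intro r hr
        rcases le_total r a with hra | hra
        · rw [← hx₀t]
          exact hmono hx₀ ⟨hx0.le.trans hr.1.le, hra⟩ hr.1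
        rcases le_total r b with hrb | hrb
        · have := hwall.mid r hra hrb
          linarith
        · rw [← hy₀t]
          exact hanti ⟨hrb, hr.2.le.trans hyL.le⟩ hy₀b hr.2
      have hVt : ∀ r ∈ Ioo x₀ y₀, Veff f h c₀.1 c₀.2 r < 1 := by
        intro r hr
        have h1 := hgt r hr
        have h2 : t / f r < 1 := by rw [div_lt_one (by linarith)]; exact h1
        have h3 : 0 < t / f r := div_pos h01' (by linarith)
        unfold Veff
        rw [h20, ← ht, zero_div]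
        nlinarith
      have e3 : Tendsto (fun n => η * (c n).1 - (c n).2) atTop (𝓝 (η * t - 0)) := by
        rw [← h20]; exact (e1.const_mul η).sub e2
      have e4 : (0 : ℝ) < η * t - 0 := by rw [sub_zero]; exact mul_pos hη h01'
      have hev : ∀ᶠ n in atTop, s (c n) ∈ Icc b b₂ := by
        filter_upwards [e3.eventually (lt_mem_nhds e4)] with n hn
        have hn1 := (hcT n).1
        have hn2 := (hcT n).2.1
        exact hsb _ hn1 hn2 (by linarith)
      have key := lsc_act (s := s) hP hlim hA (p := x₀) (q := y₀) (x' := b)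
        (y' := b₂) hx0.le hyL.le hVt (lt_of_lt_of_le hxa hab) hb₂ hby hev
      have hE0' := hEd t h01 htR.le
      have hsplit : ∫ r in Ioo 0 L, √(1 - (t / f r) ^ 2) =
          ∫ r in Ioo x₀ y₀, √(1 - Veff f h c₀.1 c₀.2 r) := by
        have e : (fun r => √(1 - (t / f r) ^ 2)) = fun r => √(1 - Veff f h c₀.1 c₀.2 r) := by
          funext r; unfold Veff; rw [h20, ← ht]; simp
        rw [e]
        refine setIntegral_eq_of_subset_of_forall_sdiff_eq_zero measurableSet_Ioo
          (Ioo_subset_Ioo hx0.le hyL.le) ?_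
        intro r hr
        have hr2 : f r ≤ t := by
          rcases le_or_gt r x₀ with hr1 | hr1
          · rw [← hx₀t]
            exact hmono.monotoneOn ⟨hr.1.1.le, hr1.trans hxa.le⟩ hx₀ hr1
          · have hr1' : y₀ ≤ r := by
              by_contra hcon
              exact hr.2 ⟨hr1, not_le.mp hcon⟩
            rw [← hy₀t]
            exact hanti.antitoneOn hy₀b ⟨hy₀b.1.trans hr1', hr.1.2.le⟩ hr1'
        have hr3 : 0 < f r := hf.f_pos r hr.1.1 hr.1.2
        have hr4 : 1 ≤ t / f r := by rw [le_div_iff₀ hr3]; linarith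
        refine Real.sqrt_eq_zero_of_nonpos ?_
        unfold Veff
        rw [← ht]
        nlinarith [sq_nonneg (c₀.2 / h r)]
      rw [hsplit] at hE0'
      rw [← ht, hts] at key
      have : R - t - t = R - 2 * t := by ring
      rw [this] at key
      rw [← ht] at hE0'
      linarith
    · -- an interior point: the minimum
      have hc₀T : c₀ ∈ Reg R := ⟨h01', h02', hsum'⟩
      have hopen : IsOpen {c : ℝ × ℝ | 0 < c.1 ∧ 0 < c.2} :=
        (isOpen_lt continuous_const continuous_fst).inter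
          (isOpen_lt continuous_const continuous_snd)
      have hscont : ContinuousAt s c₀ := hs.continuousAt (hopen.mem_nhds ⟨h01', h02'⟩)
      have hslim : Tendsto (fun n => s (c n)) atTop (𝓝 (s c₀)) := hscont.tendsto.comp hlim
      have hsI0 := hsI c₀ h01' h02'
      obtain ⟨p, q, hp, hps, hsq, hq, hw, hin⟩ := well_spec hP h01' h02'
        (lt_of_lt_of_le hlo hsI0.1) (lt_of_le_of_lt hsI0.2 hhi)
        (lt_of_le_of_lt (hsρ c₀ hc₀T) hρ)
      have hev : ∀ᶠ n in atTop, s (c n) ∈ Icc ((p + s c₀) / 2) ((s c₀ + q) / 2) :=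
        hslim.eventually (Icc_mem_nhds (by linarith) (by linarith))
      have key := lsc_act (s := s) hP hlim hA (p := p) (q := q) hp.le hq.le hin
        (by linarith) (by linarith) (by linarith) hev
      have hle : Df L R f h s c₀ ≤ m := by
        unfold Df actW
        rw [hw]
        linarith
      refine ⟨c₀, hc₀T, ?_, ?_⟩
      · have := lt_of_le_of_lt hle hmneg
        unfold Df at this
        linarith
      · intro c' hc'
        exact hle.trans (csInf_le hbdd ⟨c', hc', rfl⟩)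

end H738CP.EM
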