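import Pool.Agent.H738R3.CP.GR

/-! EQ: the closed geodesic in `ℂP^{n-1}`. -/

open Real Set MeasureTheory
open scoped ContDiff
open H738CP

namespace H738CP.EQ

theorem deriv_h_L {L : ℝ} {f h : ℝ → ℝ} (hf : IsProfileCP L f h) : deriv h L = 0 := by
  have hd : Differentiable ℝ h := hf.smooth_h.differentiable (by simp)
  have h1 : HasDerivAt (fun r => h (L + r)) (deriv h L) 0 := by
    have h0 : HasDerivAt (fun r : ℝ => L + r) 1 0 := (hasDerivAt_id (0 : ℝ)).const_add L
    have h1 : HasDerivAt h (deriv h L) (L + 0) := by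
      rw [add_zero]; exact (hd L).hasDerivAt
    have := HasDerivAt.comp (0 : ℝ) h1 h0
    rw [mul_one] at this
    exact this
  have h2 : HasDerivAt (fun r => h (L - r)) (-deriv h L) 0 := by
    have h0 : HasDerivAt (fun r : ℝ => L - r) (-1) 0 := (hasDerivAt_id (0 : ℝ)).const_sub L
    have h1 : HasDerivAt h (deriv h L) (L - 0) := by
      rw [sub_zero]; exact (hd L).hasDerivAt
    have := HasDerivAt.comp (0 : ℝ) h1 h0
    rw [mul_neg, mul_one] at this
    exact this
  have h3 : (fun r => h (L + r)) = fun r => h (L - r) := funext hf.h_even_L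
  rw [h3] at h1
  have h4 := h1.unique h2
  linarith

/-- EQ: the closed geodesic in `ℂP^{n-1}`. -/
theorem equatorCP {L : ℝ} {f h : ℝ → ℝ} (hf : IsProfileCP L f h) {n : ℕ} (hn : 2 ≤ n) :
    ∃ γ : ℝ → Submodule ℂ (ℂ × EuclideanSpace ℂ (Fin n)), IsGeodesicCP L f h 1 γ ∧
      ∀ t, γ (t + π * h L) = γ t := by
  have hL := hf.pos
  have hhL : 0 < h L := hf.h_pos L hL le_rfl
  have hne : h L ≠ 0 := hhL.ne'
  have hdθ : ∀ t, deriv (fun t : ℝ => t / h L) t = 1 / h L := by
    intro t
    exact ((hasDerivAt_id t).div_const (h L)).deriv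
  refine H738CP.GR.geodesic_of_real hf hn (r := fun _ => L) (θ := fun t => t / h L)
    (T := π * h L) contDiff_const (contDiff_id.div_const _) ?_ ?_ (J := h L) ?_ ?_ ?_ ?_
  · intro t
    exact ⟨hL, by linarith⟩
  · intro t
    have h1 : deriv (fun _ : ℝ => L) = fun _ => 0 := by
      funext x
      simp
    rw [h1, deriv_h_L hf]
    simp
  · intro t
    rw [hdθ]
    field_simp
  · intro t
    rw [hdθ, deriv_const]
    field_simp
    ring
  · intro t
    ring
  · intro t
    field_simp

end H738CP.EQ
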