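import Pool.Agent.H738R3.CP.Defs

open Real Set MeasureTheory Filter Topology
open scoped ContDiff

namespace H738CP.FL

theorem iso {E : Type} [NormedAddCommGroup E] [NormedSpace ℝ E] {F : ℝ → ℝ} {X : ℝ → E}
    {D t : ℝ} (hF : HasDerivAt F D t) (hX : Continuous X) (h : ∀ t, F t • X t = 0)
    (hD : F t = 0 → D = 0 → X t = 0) : X t = 0 := by
  by_cases hF0 : F t = 0
  · by_cases hD0 : D = 0
    · exact hD hF0 hD0
    · have h1 : ∀ᶠ s in 𝓝[≠] t, F s ≠ 0 := hF.eventually_ne hD0
      have h2 : Tendsto X (𝓝[≠] t) (𝓝 (X t)) := (hX.tendsto t).mono_left nhdsWithin_le_nhds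
      have h3 : Tendsto X (𝓝[≠] t) (𝓝 0) := by
        refine tendsto_const_nhds.congr' ?_
        filter_upwards [h1] with s hs
        exact ((smul_eq_zero.1 (h s)).resolve_left hs).symm
      exact tendsto_nhds_unique h2 h3
  · exact (smul_eq_zero.1 (h t)).resolve_left hF0

theorem osc {E : Type} [NormedAddCommGroup E] [NormedSpace ℝ E] {Z V : ℝ → E} {v : ℝ}
    (hv : 0 < v) (h1 : ∀ t, HasDerivAt Z (V t) t) (h2 : ∀ t, HasDerivAt V (-(v ^ 2) • Z t) t)
    (T : ℝ) : Real.cos (v * T) • Z T - (Real.sin (v * T) / v) • V T = Z 0 := by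
  have h3 : ∀ t, HasDerivAt (fun t => Real.cos (v * t) • Z t - (Real.sin (v * t) / v) • V t) 0 t := by
    intro t
    have hm : HasDerivAt (fun t : ℝ => v * t) v t := by
      simpa using (hasDerivAt_id t).const_mul v
    have hc : HasDerivAt (fun t => Real.cos (v * t)) (-Real.sin (v * t) * v) t := hm.cos
    have hs : HasDerivAt (fun t => Real.sin (v * t) / v) (Real.cos (v * t) * v / v) t :=
      (hm.sin).div_const v
    have h4 := (hc.smul (h1 t)).sub (hs.smul (h2 t))
    refine h4.congr_deriv ?_
    rw [mul_div_assoc, div_self hv.ne', mul_one, smul_smul]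
    have h5 : Real.sin (v * t) / v * -(v ^ 2) = -Real.sin (v * t) * v := by
      field_simp
    rw [h5]
    abel
  have h4 := is_const_of_deriv_eq_zero (fun t => (h3 t).differentiableAt)
    (fun t => (h3 t).deriv) T 0
  simpa using h4

theorem length_FS {n : ℕ} {v T : ℝ} (hv : 0 < v) (hT : 0 < T)
    {γ : ℝ → Submodule ℂ (ℂ × EuclideanSpace ℂ (Fin n))}
    (hγ : IsGeodesicCP (π / 2) (fun r => Real.sin r * Real.cos r) Real.sin v γ)
    (hper : ∀ t, γ (t + T) = γ t) : π ≤ v * T := by
  obtain ⟨r, z, hr, hz, hn, hγ', h1, ⟨P, h2⟩, h3, h4⟩ := hγ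
  -- basic derivatives
  have hr1 : ∀ t, HasDerivAt r (deriv r t) t := fun t =>
    (hr.differentiable (by norm_num)).differentiableAt.hasDerivAt
  have hrd : ContDiff ℝ 1 (deriv r) := (contDiff_succ_iff_deriv.1 (by exact_mod_cast hr)).2.2
  have hr2 : ∀ t, HasDerivAt (deriv r) (deriv (deriv r) t) t := fun t =>
    (hrd.differentiable (by norm_num)).differentiableAt.hasDerivAt
  have hz1 : ∀ t, HasDerivAt z (deriv z t) t := fun t =>
    (hz.differentiable (by norm_num)).differentiableAt.hasDerivAt
  have hzd : ContDiff ℝ 1 (deriv z) := (contDiff_succ_iff_deriv.1 (by exact_mod_cast hz)).2.2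
  have hzc : ContDiff ℝ 1 z := hz.of_le (by norm_num)
  have had : ContDiff ℝ 1 (hopf z) := by
    unfold hopf
    exact Complex.imCLM.contDiff.comp (ContDiff.inner ℂ hzc hzd)
  have ha1 : ∀ t, HasDerivAt (hopf z) (deriv (hopf z) t) t := fun t =>
    (had.differentiable (by norm_num)).differentiableAt.hasDerivAt
  have haC : ContDiff ℝ 1 (fun t => ((hopf z t : ℝ) : ℂ)) := Complex.ofRealCLM.contDiff.comp had
  have hwd : ContDiff ℝ 1 (hor z) := by
    unfold hor
    exact hzd.sub ((haC.mul contDiff_const).smul hzc)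
  have hw1 : ∀ t, HasDerivAt (hor z) (deriv (hor z) t) t := fun t =>
    (hwd.differentiable (by norm_num)).differentiableAt.hasDerivAt
  have hwc : Continuous (hor z) := hwd.continuous
  have hwc' : Continuous (deriv (hor z)) := (contDiff_one_iff_deriv.1 hwd).2
  have hac : Continuous (hopf z) := had.continuous
  have hac' : Continuous (deriv (hopf z)) := (contDiff_one_iff_deriv.1 had).2
  have hrc : Continuous r := hr.continuous
  have hrc' : Continuous (deriv r) := hrd.continuous
  have hzw : ∀ t, deriv z t = (((hopf z t : ℝ) : ℂ) * Complex.I) • z t + hor z t := by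
    intro t
    unfold hor
    abel
  -- orthogonality
  have horth : ∀ t, inner ℂ (z t) (hor z t) = 0 := by
    intro t
    have h5 : ∀ t, inner ℂ (z t) (z t) = (1 : ℂ) := by
      intro t
      rw [inner_self_eq_norm_sq_to_K, hn t]
      simp
    have h6 : HasDerivAt (fun t => inner ℂ (z t) (z t))
        (inner ℂ (z t) (deriv z t) + inner ℂ (deriv z t) (z t)) t := (hz1 t).inner ℂ (hz1 t)
    have h7 : HasDerivAt (fun t => inner ℂ (z t) (z t)) (0 : ℂ) t := by
      rw [show (fun t => inner ℂ (z t) (z t)) = fun _ => (1 : ℂ) from funext h5]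
      exact hasDerivAt_const t 1
    have h8 := h6.unique h7
    rw [← inner_conj_symm (deriv z t) (z t)] at h8
    have h9 : (inner ℂ (z t) (deriv z t)).re = 0 := by
      have := congrArg Complex.re h8
      simp only [Complex.add_re, Complex.conj_re, Complex.zero_re] at this
      linarith
    unfold hor
    rw [inner_sub_right, inner_smul_right, h5 t]
    apply Complex.ext
    · simp [h9]
    · simp [hopf]
  -- derivative of the profile
  have hdf : ∀ x, deriv (fun r => Real.sin r * Real.cos r) x = Real.cos x ^ 2 - Real.sin x ^ 2 := by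
    intro x
    have h5 : HasDerivAt (fun r => Real.sin r * Real.cos r)
        (Real.cos x * Real.cos x + Real.sin x * -Real.sin x) x :=
      (Real.hasDerivAt_sin x).mul (Real.hasDerivAt_cos x)
    rw [h5.deriv]
    ring
  simp only [hdf, Real.deriv_sin] at h1 h3
  have hsr : ∀ t, HasDerivAt (fun t => Real.sin (r t)) (Real.cos (r t) * deriv r t) t :=
    fun t => (hr1 t).sin
  have hcr : ∀ t, HasDerivAt (fun t => Real.cos (r t)) (-Real.sin (r t) * deriv r t) t :=
    fun t => (hr1 t).cos
  have hF : ∀ t, HasDerivAt (fun t => Real.sin (r t) * Real.cos (r t))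
      ((Real.cos (r t) ^ 2 - Real.sin (r t) ^ 2) * deriv r t) t := by
    intro t
    refine ((hsr t).mul (hcr t)).congr_deriv ?_
    ring
  -- the derivative of f a
  have hE0 : ∀ t, 2 * ((Real.cos (r t) ^ 2 - Real.sin (r t) ^ 2) * deriv r t) * hopf z t +
      Real.sin (r t) * Real.cos (r t) * deriv (hopf z) t = 0 := by
    intro t
    refine iso (X := fun t => 2 * ((Real.cos (r t) ^ 2 - Real.sin (r t) ^ 2) * deriv r t) *
      hopf z t + Real.sin (r t) * Real.cos (r t) * deriv (hopf z) t) (hF t) (by fun_prop) ?_ ?_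
    · intro t
      have h5 := ((hF t).pow 2).mul (ha1 t)
      have h6 : HasDerivAt (fun t => (Real.sin (r t) * Real.cos (r t)) ^ 2 * hopf z t) 0 t := by
        rw [show (fun t => (Real.sin (r t) * Real.cos (r t)) ^ 2 * hopf z t) = fun _ => P from
          funext h2]
        exact hasDerivAt_const t P
      have h7 := h5.unique h6
      simp only [smul_eq_mul]
      norm_num at h7
      linear_combination h7
    · intro h5 h6
      simp only [h5, h6]
      ring
  have hfa : ∀ t, HasDerivAt (fun t => Real.sin (r t) * Real.cos (r t) * hopf z t)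
      (-((Real.cos (r t) ^ 2 - Real.sin (r t) ^ 2) * deriv r t * hopf z t)) t := by
    intro t
    refine ((hF t).mul (ha1 t)).congr_deriv ?_
    linear_combination hE0 t
  -- the equation for the horizontal part
  have hE1 : ∀ t, ((Real.sin (r t) : ℝ) : ℂ) • deriv (hor z) t +
      ((Real.sin (r t) * ‖hor z t‖ ^ 2 : ℝ) : ℂ) • z t +
      ((2 * Real.cos (r t) * deriv r t : ℝ) : ℂ) • hor z t +
      (((Real.sin (r t) * (2 * Real.cos (r t) ^ 2 - 1) * hopf z t : ℝ) : ℂ) * Complex.I) •
        hor z t = 0 := by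
    intro t
    refine iso (X := fun t => ((Real.sin (r t) : ℝ) : ℂ) • deriv (hor z) t +
      ((Real.sin (r t) * ‖hor z t‖ ^ 2 : ℝ) : ℂ) • z t +
      ((2 * Real.cos (r t) * deriv r t : ℝ) : ℂ) • hor z t +
      (((Real.sin (r t) * (2 * Real.cos (r t) ^ 2 - 1) * hopf z t : ℝ) : ℂ) * Complex.I) •
        hor z t) (hsr t) ?_ ?_ ?_
    · have hzc0 : Continuous z := hzc.continuous
      fun_prop
    · intro t
      have h5 := h3 t
      rw [← h5]
      rw [← Complex.coe_smul]
      simp only [smul_add, smul_smul]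
      push_cast
      congr 1
      · congr 1
        · congr 1
          · ring_nf
          · ring_nf
        · ring_nf
      · ring_nf
    · intro h5 h6
      exfalso
      have h7 := h4 t
      simp only [h5] at h7
      have h8 : Real.cos (r t) ^ 2 = 1 := by
        have := Real.sin_sq_add_cos_sq (r t)
        rw [h5] at this
        linarith
      have h9 : (Real.cos (r t) * deriv r t) ^ 2 = v ^ 2 := by
        rw [mul_pow, h8]
        linarith
      rw [h6] at h9
      have : 0 < v ^ 2 := by positivity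
      linarith
  -- the integrating factor
  obtain ⟨ψ, hψ⟩ : ∃ ψ : ℝ → ℝ, ∀ t, HasDerivAt ψ (-(Real.sin (r t) ^ 2) * hopf z t) t :=
    ⟨fun t => ∫ x in (0 : ℝ)..t, -(Real.sin (r x) ^ 2) * hopf z x, fun t =>
      (Continuous.integral_hasStrictDerivAt (by fun_prop) 0 t).hasDerivAt⟩
  set e : ℝ → ℂ := fun t => Complex.exp (((ψ t : ℝ) : ℂ) * Complex.I) with he
  set s : ℝ → ℂ := fun t => ((Real.sin (r t) : ℝ) : ℂ) with hs
  set c : ℝ → ℂ := fun t => ((Real.cos (r t) : ℝ) : ℂ) with hc
  set ρ : ℝ → ℂ := fun t => ((deriv r t : ℝ) : ℂ) with hρ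
  set a : ℝ → ℂ := fun t => ((hopf z t : ℝ) : ℂ) with ha
  set W : ℝ → ℂ := fun t => ((‖hor z t‖ ^ 2 : ℝ) : ℂ) with hW
  set q : ℝ → ℂ := fun t => ρ t + s t * c t * a t * Complex.I with hq
  have hI : Complex.I ^ 2 = -1 := Complex.I_sq
  have hsc : ∀ t, s t ^ 2 + c t ^ 2 = 1 := by
    intro t
    have := Real.sin_sq_add_cos_sq (r t)
    simp only [hs, hc]
    exact_mod_cast this
  have h4C : ∀ t, ρ t ^ 2 + (s t * c t) ^ 2 * a t ^ 2 + s t ^ 2 * W t = (v : ℂ) ^ 2 := by
    intro t
    have := h4 t
    simp only [hs, hc, hρ, ha, hW]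
    exact_mod_cast this
  have he1 : ∀ t, HasDerivAt e (e t * (-(s t ^ 2) * a t * Complex.I)) t := by
    intro t
    have := (((hψ t).ofReal_comp).mul_const Complex.I).cexp
    refine this.congr_deriv ?_
    simp only [he, hs, ha]
    push_cast
    ring
  have hs1 : ∀ t, HasDerivAt s (c t * ρ t) t := by
    intro t
    refine ((hsr t).ofReal_comp).congr_deriv ?_
    simp only [hc, hρ]
    push_cast
    ring
  have hc1 : ∀ t, HasDerivAt c (-(s t) * ρ t) t := by
    intro t
    refine ((hcr t).ofReal_comp).congr_deriv ?_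
    simp only [hs, hρ]
    push_cast
    ring
  have hq1 : ∀ t, HasDerivAt q (s t * c t * (c t ^ 2 - s t ^ 2) * a t ^ 2 + s t * c t * W t -
      (c t ^ 2 - s t ^ 2) * ρ t * a t * Complex.I) t := by
    intro t
    have h5 := ((hr2 t).ofReal_comp).add (((hfa t).ofReal_comp).mul_const Complex.I)
    have h6 : q = fun t => ((deriv r t : ℝ) : ℂ) +
        ((Real.sin (r t) * Real.cos (r t) * hopf z t : ℝ) : ℂ) * Complex.I := by
      funext t
      simp only [hq, hρ, hs, hc, ha]
      push_cast
      ring
    rw [h6]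
    refine h5.congr_deriv ?_
    rw [h1 t]
    simp only [hs, hc, hρ, ha, hW]
    push_cast
    ring
  have hZ1 : ∀ t, HasDerivAt (fun t => e t * c t) (e t * (-(s t) * q t)) t := by
    intro t
    refine ((he1 t).mul (hc1 t)).congr_deriv ?_
    simp only [hq]
    ring
  have hV1 : ∀ t, HasDerivAt (fun t => e t * (-(s t) * q t)) (-(v ^ 2) • (e t * c t)) t := by
    intro t
    refine ((he1 t).mul ((hs1 t).neg.mul (hq1 t))).congr_deriv ?_
    rw [Complex.real_smul]
    push_cast
    simp only [hq, Pi.mul_apply, Pi.neg_apply]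
    linear_combination (e t * s t ^ 4 * c t * a t ^ 2) * hI - (e t * c t) * h4C t
  have hZ2 : ∀ t, HasDerivAt (fun t => (e t * s t) • z t)
      ((e t * c t * q t) • z t + (e t * s t) • hor z t) t := by
    intro t
    refine (((he1 t).mul (hs1 t)).smul (hz1 t)).congr_deriv ?_
    have h5 : e t * c t * q t = e t * s t * (a t * Complex.I) +
        (e t * (-(s t ^ 2) * a t * Complex.I) * s t + e t * (c t * ρ t)) := by
      simp only [hq]
      linear_combination (e t * s t * a t * Complex.I) * hsc t
    rw [hzw t, h5]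
    show (e t * s t) • ((a t * Complex.I) • z t + hor z t) + _ = _
    module
  have hV2 : ∀ t, HasDerivAt (fun t => (e t * c t * q t) • z t + (e t * s t) • hor z t)
      (-(v ^ 2) • ((e t * s t) • z t)) t := by
    intro t
    refine (((((he1 t).mul (hc1 t)).mul (hq1 t)).smul (hz1 t)).add
      (((he1 t).mul (hs1 t)).smul (hw1 t))).congr_deriv ?_
    have h5 : s t • deriv (hor z) t + (s t * W t) • z t + (2 * c t * ρ t) • hor z t +
        (s t * (2 * c t ^ 2 - 1) * a t * Complex.I) • hor z t = 0 := by
      have := hE1 t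
      simp only [hs, hc, hρ, ha, hW]
      rw [← this]
      push_cast
      rfl
    have hα : e t * c t * q t * (a t * Complex.I) +
        ((e t * (-(s t ^ 2) * a t * Complex.I) * c t + e t * (-(s t) * ρ t)) * q t +
          e t * c t * (s t * c t * (c t ^ 2 - s t ^ 2) * a t ^ 2 + s t * c t * W t -
            (c t ^ 2 - s t ^ 2) * ρ t * a t * Complex.I)) - e t * (s t * W t) =
        -((v : ℂ) ^ 2) * (e t * s t) := by
      simp only [hq]
      linear_combination (e t * (-(ρ t * a t * c t * Complex.I) + s t * c t ^ 2 * a t ^ 2 +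
        s t * W t)) * hsc t + (e t * (s t * c t ^ 2 * a t ^ 2 - s t ^ 3 * c t ^ 2 * a t ^ 2)) * hI -
        (e t * s t) * h4C t
    have hβ : e t * c t * q t + (e t * (-(s t ^ 2) * a t * Complex.I) * s t +
        e t * (c t * ρ t)) - e t * (2 * c t * ρ t) -
        e t * (s t * (2 * c t ^ 2 - 1) * a t * Complex.I) = 0 := by
      simp only [hq]
      linear_combination (-(e t * s t * a t * Complex.I)) * hsc t
    have h6 : -(v ^ 2) • ((e t * s t) • z t) = (-((v : ℂ) ^ 2) * (e t * s t)) • z t := by
      rw [← Complex.coe_smul, smul_smul]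
      push_cast
      rfl
    rw [h6, hzw t, ← hα]
    have h7 : (e t * c t * q t + (e t * (-(s t ^ 2) * a t * Complex.I) * s t +
        e t * (c t * ρ t)) - e t * (2 * c t * ρ t) -
        e t * (s t * (2 * c t ^ 2 - 1) * a t * Complex.I)) • hor z t = 0 := by
      rw [hβ, zero_smul]
    have h8 := congrArg (fun y => e t • y) h5
    simp only [smul_zero] at h8
    simp only [Pi.mul_apply]
    show (e t * c t * q t) • ((a t * Complex.I) • z t + hor z t) + _ + _ = _
    linear_combination (norm := module) h7 + h8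
  -- the solution at the time T
  have hA := osc hv hZ1 hV1 T
  have hB := osc hv hZ2 hV2 T
  have h5 : γ 0 = γ T := by
    have := hper 0
    rw [zero_add] at this
    exact this.symm
  have harg : ∀ x : ℝ, π * x / (2 * (π / 2)) = x := by
    intro x
    have := Real.pi_ne_zero
    field_simp
  have h6 : (c 0, s 0 • z 0) ∈ γ T := by
    rw [← h5, hγ' 0]
    unfold cpt
    rw [harg]
    exact Submodule.mem_span_singleton_self _
  rw [hγ' T] at h6
  unfold cpt at h6
  rw [harg, Submodule.mem_span_singleton] at h6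
  obtain ⟨l, hl⟩ := h6
  have hl1 : l * c T = c 0 := congrArg Prod.fst hl
  have hl2 : l • (s T • z T) = s 0 • z 0 := congrArg Prod.snd hl
  set κ : ℂ := ((Real.sin (v * T) / v : ℝ) : ℂ) with hκ
  set C : ℂ := ((Real.cos (v * T) : ℝ) : ℂ) with hC
  have hA' : C * (e T * c T) - κ * (e T * (-(s T) * q T)) = e 0 * (l * c T) := by
    rw [hl1]
    have := hA
    rw [Complex.real_smul, Complex.real_smul] at this
    exact this
  have hB' : (C * (e T * s T)) • z T - κ • ((e T * c T * q T) • z T + (e T * s T) • hor z T) =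
      (e 0 * (l * s T)) • z T := by
    have h7 : (e 0 * (l * s T)) • z T = (e 0 * s 0) • z 0 := by
      rw [mul_smul, mul_smul, hl2, smul_smul]
    rw [h7]
    have := hB
    rw [← Complex.coe_smul, ← Complex.coe_smul, smul_smul] at this
    exact this
  have hB2 : C * (e T * s T) - κ * (e T * c T * q T) = e 0 * (l * s T) := by
    have h7 := congrArg (fun y => inner ℂ (z T) y) hB'
    have h8 : inner ℂ (z T) (z T) = (1 : ℂ) := by
      rw [inner_self_eq_norm_sq_to_K, hn T]
      simp
    simp only [inner_sub_right, inner_add_right, inner_smul_right, horth T, h8, mul_one,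
      mul_zero, add_zero] at h7
    exact h7
  have heT : e T ≠ 0 := Complex.exp_ne_zero _
  have hκq : κ * q T = 0 := by
    have h7 : e T * (κ * q T) = 0 := by
      linear_combination (s T) * hA' - (c T) * hB2 - (e T * κ * q T) * hsc T
    exact (mul_eq_zero.1 h7).resolve_left heT
  have hκw : (κ * (e T * s T)) • hor z T = 0 := by
    have h7 : (C * (e T * s T) - κ * (e T * c T * q T) - e 0 * (l * s T)) • z T = 0 := by
      rw [hB2, sub_self, zero_smul]
    linear_combination (norm := module) h7 - hB'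
  by_contra hlt
  push Not at hlt
  have hvT : 0 < v * T := mul_pos hv hT
  have hsin : 0 < Real.sin (v * T) := Real.sin_pos_of_pos_of_lt_pi hvT hlt
  have hκ0 : κ ≠ 0 := by
    rw [hκ]
    exact_mod_cast (div_pos hsin hv).ne'
  have hq0 : q T = 0 := (mul_eq_zero.1 hκq).resolve_left hκ0
  have hqr : deriv r T = 0 := by
    have := congrArg Complex.re hq0
    simpa [hq, hρ, hs, hc, ha, ← Complex.ofReal_sin, ← Complex.ofReal_cos] using this
  have hqi : Real.sin (r T) * Real.cos (r T) * hopf z T = 0 := by
    have := congrArg Complex.im hq0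
    simpa [hq, hρ, hs, hc, ha, ← Complex.ofReal_sin, ← Complex.ofReal_cos] using this
  have hsw : Real.sin (r T) * ‖hor z T‖ = 0 := by
    rcases smul_eq_zero.1 hκw with h7 | h7
    · have h8 : s T = 0 := by
        rcases mul_eq_zero.1 h7 with h8 | h8
        · exact absurd h8 hκ0
        · exact (mul_eq_zero.1 h8).resolve_left heT
      have h9 : Real.sin (r T) = 0 := by
        have : ((Real.sin (r T) : ℝ) : ℂ) = 0 := h8
        exact_mod_cast this
      rw [h9, zero_mul]
    · rw [h7, norm_zero, mul_zero]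
  have h7 := h4 T
  have h8 : v ^ 2 = 0 := by
    rw [← h7]
    simp only
    rw [hqr]
    have e1 : (Real.sin (r T) * Real.cos (r T)) ^ 2 * hopf z T ^ 2 = 0 := by
      rw [← mul_pow, hqi]
      simp
    have e2 : Real.sin (r T) ^ 2 * ‖hor z T‖ ^ 2 = 0 := by
      rw [← mul_pow, hsw]
      simp
    rw [e1, e2]
    simp
  exact absurd h8 (by positivity)

end H738CP.FL
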