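import Pool.Agent.H738R3.CP.Defs

/-! The Fubini-Study metric (helper406). -/

set_option autoImplicit false

open Real Set MeasureTheory
open scoped ContDiff

namespace H738CP.FP

theorem hasDeriv_sc (r : ℝ) :
    HasDerivAt (fun r => Real.sin r * Real.cos r) (Real.cos r ^ 2 - Real.sin r ^ 2) r := by
  refine ((Real.hasDerivAt_sin r).mul (Real.hasDerivAt_cos r)).congr_deriv ?_
  ring

theorem profile_FS : IsProfileCP (π / 2) (fun r => Real.sin r * Real.cos r) Real.sin where
  pos := by positivity
  smooth_f := Real.contDiff_sin.mul Real.contDiff_cos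
  smooth_h := Real.contDiff_sin
  f_odd := fun r => by simp only [Real.sin_neg, Real.cos_neg]; ring
  f_odd_L := fun r => by
    simp only [Real.sin_add, Real.cos_add, Real.sin_sub, Real.cos_sub, Real.sin_pi_div_two,
      Real.cos_pi_div_two]
    ring
  h_odd := fun r => Real.sin_neg r
  h_even_L := fun r => by
    simp only [Real.sin_add, Real.sin_sub, Real.sin_pi_div_two, Real.cos_pi_div_two]
    ring
  f_pos := fun r h0 h1 => mul_pos (Real.sin_pos_of_pos_of_lt_pi h0 (by linarith [Real.pi_pos]))
    (Real.cos_pos_of_mem_Ioo ⟨by linarith, h1⟩)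
  h_pos := fun r h0 h1 => Real.sin_pos_of_pos_of_lt_pi h0 (by linarith [Real.pi_pos])
  f_deriv := by rw [(hasDeriv_sc 0).deriv]; simp
  h_deriv := by rw [Real.deriv_sin]; simp
  f_deriv_L := by rw [(hasDeriv_sc _).deriv]; simp

end H738CP.FP

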