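import Pool.Agent.H738R3.CP.Defs

open Real Set MeasureTheory Filter Topology
open scoped ContDiff
open H738CP

namespace H738CP.GR

section aux

variable {F : Type*} [NormedAddCommGroup F] [InnerProductSpace ℂ F]

theorem inner_lin {a b : F} (haa : inner ℂ a a = 1) (hbb : inner ℂ b b = 1)
    (hab : inner ℂ a b = 0) (hba : inner ℂ b a = 0) (x y x' y' : ℝ) :
    inner ℂ ((x : ℂ) • a + (y : ℂ) • b) ((x' : ℂ) • a + (y' : ℂ) • b) =
      ((x * x' + y * y' : ℝ) : ℂ) := by
  rw [inner_add_left, inner_add_right, inner_add_right, inner_smul_left, inner_smul_left,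
    inner_smul_left, inner_smul_left, inner_smul_right, inner_smul_right, inner_smul_right,
    inner_smul_right, haa, hbb, hab, hba, Complex.conj_ofReal, Complex.conj_ofReal]
  push_cast
  ring

theorem norm_lin {a b : F} (haa : inner ℂ a a = 1) (hbb : inner ℂ b b = 1)
    (hab : inner ℂ a b = 0) (hba : inner ℂ b a = 0) (x y : ℝ) :
    ‖(x : ℂ) • a + (y : ℂ) • b‖ ^ 2 = x ^ 2 + y ^ 2 := by
  have h := inner_lin haa hbb hab hba x y x y
  rw [inner_self_eq_norm_sq_to_K] at h
  have h2 : ((‖(x : ℂ) • a + (y : ℂ) • b‖ ^ 2 : ℝ) : ℂ) = ((x * x + y * y : ℝ) : ℂ) := by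
    rw [← h]
    push_cast
    rfl
  have h3 := Complex.ofReal_injective h2
  rw [h3]
  ring

end aux

/-- GR: closed geodesics in the totally geodesic real projective planes. -/
theorem geodesic_of_real {L : ℝ} {f h : ℝ → ℝ} (hf : IsProfileCP L f h) {n : ℕ} (hn : 2 ≤ n)
    {r θ : ℝ → ℝ} {T : ℝ} (hr : ContDiff ℝ 2 r) (hθ : ContDiff ℝ 2 θ)
    (hpos : ∀ t, 0 < r t ∧ r t < 2 * L)
    (h1 : ∀ t, deriv (deriv r) t = h (r t) * deriv h (r t) * deriv θ t ^ 2)
    {J : ℝ} (h2 : ∀ t, h (r t) ^ 2 * deriv θ t = J)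
    (h3 : ∀ t, deriv r t ^ 2 + h (r t) ^ 2 * deriv θ t ^ 2 = 1)
    (hrT : ∀ t, r (t + T) = 2 * L - r t) (hθT : ∀ t, θ (t + T) = θ t + π) :
    ∃ γ : ℝ → Submodule ℂ (ℂ × EuclideanSpace ℂ (Fin n)), IsGeodesicCP L f h 1 γ ∧
      ∀ t, γ (t + T) = γ t := by
  have hL := hf.pos
  obtain ⟨a, b, haa, hbb, hab, hba⟩ : ∃ a b : EuclideanSpace ℂ (Fin n), inner ℂ a a = 1 ∧
      inner ℂ b b = 1 ∧ inner ℂ a b = 0 ∧ inner ℂ b a = 0 := by
    refine ⟨EuclideanSpace.single ⟨0, by omega⟩ 1, EuclideanSpace.single ⟨1, by omega⟩ 1,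
      ?_, ?_, ?_, ?_⟩
    · rw [EuclideanSpace.inner_single_left]; simp
    · rw [EuclideanSpace.inner_single_left]; simp
    · rw [EuclideanSpace.inner_single_left]; simp
    · rw [EuclideanSpace.inner_single_left]; simp
  have hθ1 : ContDiff ℝ 1 (deriv θ) := ((contDiff_succ_iff_deriv (n := 1)).1 hθ).2.2
  have hθd : ∀ t, HasDerivAt θ (deriv θ t) t := fun t =>
    (hθ.differentiable (by norm_num) t).hasDerivAt
  have hθdd : ∀ t, HasDerivAt (deriv θ) (deriv (deriv θ) t) t := fun t =>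
    (hθ1.differentiable (by norm_num) t).hasDerivAt
  have hrd : ∀ t, HasDerivAt r (deriv r t) t := fun t =>
    (hr.differentiable (by norm_num) t).hasDerivAt
  -- general derivative
  have key : ∀ (x y : ℝ → ℝ) (x' y' t : ℝ), HasDerivAt x x' t → HasDerivAt y y' t →
      HasDerivAt (fun t => ((x t : ℝ) : ℂ) • a + ((y t : ℝ) : ℂ) • b)
        ((x' : ℂ) • a + (y' : ℂ) • b) t := by
    intro x y x' y' t hx hy
    exact (hx.ofReal_comp.smul_const a).add (hy.ofReal_comp.smul_const b)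
  set z : ℝ → EuclideanSpace ℂ (Fin n) := fun t =>
    ((Real.cos (θ t) : ℝ) : ℂ) • a + ((Real.sin (θ t) : ℝ) : ℂ) • b with hz
  have hzd : ∀ t, HasDerivAt z (((-Real.sin (θ t) * deriv θ t : ℝ) : ℂ) • a +
      ((Real.cos (θ t) * deriv θ t : ℝ) : ℂ) • b) t := fun t =>
    key _ _ _ _ t (hθd t).cos (hθd t).sin
  have hzd' : deriv z = fun t => (((-Real.sin (θ t) * deriv θ t : ℝ) : ℂ) • a +
      ((Real.cos (θ t) * deriv θ t : ℝ) : ℂ) • b) := funext fun t => (hzd t).deriv
  have hhopf : ∀ t, hopf z t = 0 := by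
    intro t
    unfold hopf
    rw [hzd', hz, inner_lin haa hbb hab hba, Complex.ofReal_im]
  have hhor : hor z = deriv z := by
    funext t
    unfold hor
    rw [hhopf t]
    simp
  have hnor : ∀ t, ‖hor z t‖ ^ 2 = deriv θ t ^ 2 := by
    intro t
    rw [hhor, hzd', norm_lin haa hbb hab hba]
    have := Real.sin_sq_add_cos_sq (θ t)
    linear_combination (deriv θ t) ^ 2 * this
  have hzdd : ∀ t, deriv (hor z) t =
      ((-(Real.cos (θ t) * deriv θ t * deriv θ t) - Real.sin (θ t) * deriv (deriv θ) t : ℝ) : ℂ) • a +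
      ((-Real.sin (θ t) * deriv θ t * deriv θ t + Real.cos (θ t) * deriv (deriv θ) t : ℝ) : ℂ) • b := by
    intro t
    rw [hhor, hzd']
    refine (key _ _ _ _ t ?_ ?_).deriv
    · have := ((hθd t).sin.neg).mul (hθdd t)
      refine this.congr_deriv ?_
      simp only [Pi.neg_apply]
      ring
    · have := ((hθd t).cos).mul (hθdd t)
      exact this
  have hode : ∀ t, 2 * h (r t) * deriv h (r t) * deriv r t * deriv θ t +
      h (r t) ^ 2 * deriv (deriv θ) t = 0 := by
    intro t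
    have e1 : HasDerivAt h (deriv h (r t)) (r t) :=
      (hf.smooth_h.differentiable (by norm_num) (r t)).hasDerivAt
    have e2 : HasDerivAt (fun t => h (r t)) (deriv h (r t) * deriv r t) t := e1.comp t (hrd t)
    have e3 := (e2.pow 2).mul (hθdd t)
    have e4 : HasDerivAt (fun t => h (r t) ^ 2 * deriv θ t) 0 t := by
      have : (fun t => h (r t) ^ 2 * deriv θ t) = fun _ => J := funext h2
      rw [this]
      exact hasDerivAt_const _ _
    have e5 := e3.unique e4
    simp only [Nat.cast_ofNat, Nat.add_one_sub_one, pow_one, Pi.pow_apply] at e5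
    linear_combination e5
  refine ⟨fun t => cpt L (r t) (z t), ⟨r, z, hr, ?_, ?_, fun t => rfl, ?_, ⟨0, ?_⟩, ?_, ?_⟩, ?_⟩
  · have e1 : ContDiff ℝ 2 (fun t => ((Real.cos (θ t) : ℝ) : ℂ)) :=
      Complex.ofRealCLM.contDiff.comp (Real.contDiff_cos.comp hθ)
    have e2 : ContDiff ℝ 2 (fun t => ((Real.sin (θ t) : ℝ) : ℂ)) :=
      Complex.ofRealCLM.contDiff.comp (Real.contDiff_sin.comp hθ)
    exact (e1.smul contDiff_const).add (e2.smul contDiff_const)
  · intro t
    have e1 := norm_lin haa hbb hab hba (Real.cos (θ t)) (Real.sin (θ t))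
    rw [Real.cos_sq_add_sin_sq] at e1
    exact (pow_eq_one_iff_of_nonneg (norm_nonneg _) two_ne_zero).1 e1
  · intro t
    rw [hhopf, hnor, h1]
    ring
  · intro t
    rw [hhopf, mul_zero]
  · intro t
    rw [hhopf, hnor, hzdd, hhor, hzd']
    simp only [hz]
    have e := hode t
    have e' : h (r t) ^ 2 * deriv (deriv θ) t =
      -(2 * h (r t) * deriv h (r t) * deriv r t * deriv θ t) := by linarith
    rw [mul_zero, Complex.ofReal_zero, zero_mul, zero_smul, add_zero]
    have g2 : ∀ c d k x y x1 y1 x2 y2 : ℝ,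
        c * (x + d * x1) + k * x2 = 0 → c * (y + d * y1) + k * y2 = 0 →
        (c : ℂ) • (((x : ℂ) • a + (y : ℂ) • b) + (d : ℂ) • ((x1 : ℂ) • a + (y1 : ℂ) • b)) +
        (k : ℂ) • ((x2 : ℂ) • a + (y2 : ℂ) • b) = (0 : EuclideanSpace ℂ (Fin n)) := by
      intro c d k x y x1 y1 x2 y2 ha hb
      have ha' : (c : ℂ) * (x + d * x1) + k * x2 = 0 := by exact_mod_cast congrArg ((↑) : ℝ → ℂ) ha
      have hb' : (c : ℂ) * (y + d * y1) + k * y2 = 0 := by exact_mod_cast congrArg ((↑) : ℝ → ℂ) hb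
      have : (c : ℂ) • (((x : ℂ) • a + (y : ℂ) • b) + (d : ℂ) • ((x1 : ℂ) • a + (y1 : ℂ) • b)) +
        (k : ℂ) • ((x2 : ℂ) • a + (y2 : ℂ) • b) =
        ((c : ℂ) * (x + d * x1) + k * x2) • a + ((c : ℂ) * (y + d * y1) + k * y2) • b := by
        module
      rw [this, ha', hb', zero_smul, zero_smul, add_zero]
    apply g2
    · linear_combination -Real.sin (θ t) * e
    · linear_combination Real.cos (θ t) * e
  · intro t
    rw [hhopf, hnor]
    have := h3 t
    linear_combination this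
  · intro t
    change cpt L (r (t + T)) (z (t + T)) = cpt L (r t) (z t)
    have e1 : z (t + T) = - z t := by
      simp only [hz]
      rw [hθT, Real.cos_add_pi, Real.sin_add_pi, Complex.ofReal_neg, Complex.ofReal_neg]
      module
    have e2 : π * (2 * L - r t) / (2 * L) = π - π * r t / (2 * L) := by
      field_simp
    rw [e1, hrT]
    unfold cpt
    rw [e2, Real.cos_pi_sub, Real.sin_pi_sub]
    have e3 : (((-Real.cos (π * r t / (2 * L)) : ℝ) : ℂ),
        ((Real.sin (π * r t / (2 * L)) : ℝ) : ℂ) • -z t) =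
        (-1 : ℂ) • (((Real.cos (π * r t / (2 * L)) : ℝ) : ℂ),
          ((Real.sin (π * r t / (2 * L)) : ℝ) : ℂ) • z t) := by
      rw [Prod.smul_mk]
      ext1
      · simp
      · simp
    rw [e3]
    exact Submodule.span_singleton_smul_eq (by simp) _

end H738CP.GR
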