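import Pool.Agent.H738R3.CP.Defs

/-!
# `Sp(n)Sp(1)`-invariant metrics on quaternionic projective space: definitions

Metrics `dr² + f(r)² |θ|² + h(r)² g_hor`, `0 ≤ r ≤ L`, on `ℍP^n`, where `r` is the distance from a fixed
point, `θ` is the `Im ℍ`-valued connection form of the quaternionic Hopf fibration
`S^{4n-1} → ℍP^{n-1}` and `g_hor` the horizontal part of the round metric of `S^{4n-1} ⊂ ℍ^n`.  The
conditions for a smooth metric on `ℍP^n` are the same as for `ℂP^n` (`H738CP.IsProfileCP`).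
-/

open Real Set MeasureTheory Quaternion
open scoped ContDiff

namespace H738CP

/-- The quaternionic Hermitian product `∑ z̄ᵢ wᵢ`. -/
noncomputable def qdot {n : ℕ} (z w : Fin n → ℍ[ℝ]) : ℍ[ℝ] := ∑ i, star (z i) * w i

/-- The squared norm of a vector of `ℍ^n`. -/
noncomputable def nsq {n : ℕ} (z : Fin n → ℍ[ℝ]) : ℝ := ∑ i, ‖z i‖ ^ 2

/-- The point of `ℍP^n` (a right quaternionic line in `ℍ × ℍ^n`) at distance `r` from `[1 : 0]` in
direction `z ∈ S^{4n-1}`, for `0 ≤ r ≤ L`; for all real `r` by continuing the normal geodesic. -/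
noncomputable def hpt {n : ℕ} (L r : ℝ) (z : Fin n → ℍ[ℝ]) : Set (ℍ[ℝ] × (Fin n → ℍ[ℝ])) :=
  {p | ∃ a : ℍ[ℝ], p = (Real.cos (π * r / (2 * L)) • a,
    fun i => Real.sin (π * r / (2 * L)) • (z i * a))}

/-- The vertical component `θ(z') ∈ Im ℍ` of the velocity of a curve in `S^{4n-1}`. -/
noncomputable def qvert {n : ℕ} (z : ℝ → Fin n → ℍ[ℝ]) (t : ℝ) : ℍ[ℝ] :=
  (qdot (z t) (deriv z t)).im

/-- The horizontal part of the velocity of a curve in `S^{4n-1}`. -/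
noncomputable def qhor {n : ℕ} (z : ℝ → Fin n → ℍ[ℝ]) (t : ℝ) : Fin n → ℍ[ℝ] :=
  fun i => deriv z t i - z t i * qvert z t

/-- `γ` is a geodesic of speed `v` of the metric `dr² + f(r)² |θ|² + h(r)² g_hor` on `ℍP^n`, written in
extended coordinates `(r, z)`, `z ∈ S^{4n-1} ⊂ ℍ^n`. -/
def IsGeodesicHP {n : ℕ} (L : ℝ) (f h : ℝ → ℝ) (v : ℝ)
    (γ : ℝ → Set (ℍ[ℝ] × (Fin n → ℍ[ℝ]))) : Prop :=
  ∃ (r : ℝ → ℝ) (z : ℝ → Fin n → ℍ[ℝ]),
    ContDiff ℝ 2 r ∧ ContDiff ℝ 2 z ∧ (∀ t, nsq (z t) = 1) ∧ (∀ t, γ t = hpt L (r t) (z t)) ∧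
    (∀ t, deriv (deriv r) t = f (r t) * deriv f (r t) * ‖qvert z t‖ ^ 2
      + h (r t) * deriv h (r t) * nsq (qhor z t)) ∧
    (∃ P : ℍ[ℝ], ∀ t, f (r t) ^ 2 • qvert z t = P) ∧
    (∀ t i, h (r t) ^ 2 • (deriv (qhor z) t i + nsq (qhor z t) • z t i)
      + (2 * h (r t) * deriv h (r t) * deriv r t) • qhor z t i
      + (2 * f (r t) ^ 2 - h (r t) ^ 2) • (qhor z t i * qvert z t) = 0) ∧
    (∀ t, deriv r t ^ 2 + f (r t) ^ 2 * ‖qvert z t‖ ^ 2 + h (r t) ^ 2 * nsq (qhor z t) = v ^ 2)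

end H738CP
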