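import Pool.Agent.H738R3.CP.HDefs

/-!
# Geodesics of the totally geodesic `ℂP²` in `ℍP^n` (task HE, helper121)
-/

open Real Set MeasureTheory Filter Topology Quaternion
open scoped ContDiff

namespace H738CP.HE

/-- complex numbers as quaternions -/
noncomputable def K : ℂ →L[ℝ] ℍ[ℝ] :=
  LinearMap.toContinuousLinearMap (Quaternion.ofComplex.toLinearMap)

theorem K_apply (w : ℂ) : K w = (w : ℍ[ℝ]) := rfl

theorem K_mul (a b : ℂ) : K (a * b) = K a * K b := by
  rw [K_apply, K_apply, K_apply]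
  exact Quaternion.coeComplex_mul a b

theorem K_star (w : ℂ) : star (K w) = K (starRingEnd ℂ w) := by
  rw [K_apply, K_apply]
  ext <;> simp

theorem K_im (w : ℂ) : (K w).im = K ((w.im : ℂ) * Complex.I) := by
  rw [K_apply, K_apply]
  ext <;> simp

theorem K_real (c : ℝ) (w : ℂ) : K ((c : ℂ) * w) = c • K w := by
  rw [← map_smul, Complex.real_smul]

theorem K_norm (w : ℂ) : ‖K w‖ = ‖w‖ := by
  have h : ‖K w‖ * ‖K w‖ = ‖w‖ * ‖w‖ := by
    rw [← Quaternion.normSq_eq_norm_mul_self, Quaternion.normSq_def', ← pow_two,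
      ← Complex.normSq_eq_norm_sq, Complex.normSq_apply, K_apply]
    simp
    ring
  exact (mul_self_inj_of_nonneg (norm_nonneg _) (norm_nonneg _)).1 h

/-- the coordinates -/
noncomputable def PR (j : Fin 2) : EuclideanSpace ℂ (Fin 2) →L[ℝ] ℂ :=
  (EuclideanSpace.proj j : EuclideanSpace ℂ (Fin 2) →L[ℂ] ℂ).restrictScalars ℝ

/-- `ℂ² ⊂ ℍ^n` -/
noncomputable def E (m : ℕ) : EuclideanSpace ℂ (Fin 2) →L[ℝ] (Fin (m + 2) → ℍ[ℝ]) :=
  ContinuousLinearMap.pi (fun i => if i = 0 then K.comp (PR 0) else if i = 1 then K.comp (PR 1) else 0)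

theorem E_apply (m : ℕ) (w : EuclideanSpace ℂ (Fin 2)) (i : Fin (m + 2)) :
    E m w i = if i = 0 then K (w 0) else if i = 1 then K (w 1) else 0 := by
  unfold E
  simp only [ContinuousLinearMap.coe_pi']
  split_ifs <;> rfl

theorem E_zero (m : ℕ) (w : EuclideanSpace ℂ (Fin 2)) : E m w 0 = K (w 0) := by
  rw [E_apply, if_pos rfl]

theorem E_one (m : ℕ) (w : EuclideanSpace ℂ (Fin 2)) : E m w (Fin.succ 0) = K (w 1) := by
  rw [E_apply, if_neg (Fin.succ_ne_zero _), if_pos (by rfl)]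

/-- multiplication by a complex number -/
theorem E_smul (m : ℕ) (c : ℂ) (w : EuclideanSpace ℂ (Fin 2)) (i : Fin (m + 2)) :
    E m (c • w) i = E m w i * K c := by
  rw [E_apply, E_apply]
  split_ifs
  · rw [← K_mul]; congr 1; simp [mul_comm]
  · rw [← K_mul]; congr 1; simp [mul_comm]
  · rw [zero_mul]

theorem E_rsmul (m : ℕ) (c : ℝ) (w : EuclideanSpace ℂ (Fin 2)) (i : Fin (m + 2)) :
    E m ((c : ℂ) • w) i = c • E m w i := by
  have h : ((c : ℂ) • w : EuclideanSpace ℂ (Fin 2)) = c • w := by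
    ext j; simp
  rw [h, map_smul, Pi.smul_apply]

theorem qdot_E (m : ℕ) (a b : EuclideanSpace ℂ (Fin 2)) :
    qdot (E m a) (E m b) = K (inner ℂ a b) := by
  unfold qdot
  rw [Fin.sum_univ_succ, Fin.sum_univ_succ]
  have h0 : ∑ i : Fin m, star (E m a i.succ.succ) * E m b i.succ.succ = 0 := by
    apply Finset.sum_eq_zero
    intro i _
    rw [E_apply m b, if_neg (Fin.succ_ne_zero _), if_neg, mul_zero]
    intro h
    have h2 : (Fin.succ i) = 0 := by
      apply Fin.succ_injective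
      rw [h]; rfl
    exact Fin.succ_ne_zero _ h2
  rw [h0, add_zero, E_zero, E_zero, E_one, E_one, K_star, K_star, ← K_mul, ← K_mul, ← map_add]
  congr 1
  rw [PiLp.inner_apply, Fin.sum_univ_two]
  simp [mul_comm]

theorem nsq_E (m : ℕ) (a : EuclideanSpace ℂ (Fin 2)) : nsq (E m a) = ‖a‖ ^ 2 := by
  unfold nsq
  rw [Fin.sum_univ_succ, Fin.sum_univ_succ]
  have h0 : ∑ i : Fin m, ‖E m a i.succ.succ‖ ^ 2 = 0 := by
    apply Finset.sum_eq_zero
    intro i _
    rw [E_apply m a, if_neg (Fin.succ_ne_zero _), if_neg, norm_zero]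
    · simp
    intro h
    have h2 : (Fin.succ i) = 0 := by
      apply Fin.succ_injective
      rw [h]; rfl
    exact Fin.succ_ne_zero _ h2
  rw [h0, add_zero, E_zero, E_one, K_norm, K_norm, EuclideanSpace.norm_sq_eq, Fin.sum_univ_two]

theorem deriv_E (m : ℕ) {z : ℝ → EuclideanSpace ℂ (Fin 2)} {t : ℝ} (hz : DifferentiableAt ℝ z t) :
    deriv (fun s => E m (z s)) t = E m (deriv z t) :=
  ((E m).hasFDerivAt.comp_hasDerivAt t hz.hasDerivAt).deriv

theorem qvert_E (m : ℕ) {z : ℝ → EuclideanSpace ℂ (Fin 2)} {t : ℝ} (hz : DifferentiableAt ℝ z t) :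
    qvert (fun s => E m (z s)) t = K ((hopf z t : ℂ) * Complex.I) := by
  unfold qvert hopf
  rw [deriv_E m hz, qdot_E, K_im]

theorem qhor_E (m : ℕ) {z : ℝ → EuclideanSpace ℂ (Fin 2)} {t : ℝ} (hz : DifferentiableAt ℝ z t) :
    qhor (fun s => E m (z s)) t = E m (hor z t) := by
  funext i
  show deriv (fun s => E m (z s)) t i - E m (z t) i * qvert (fun s => E m (z s)) t = _
  rw [deriv_E m hz, qvert_E m hz, ← E_smul]
  unfold hor
  rw [map_sub, Pi.sub_apply]

theorem K_hopf_norm (x : ℝ) : ‖K ((x : ℂ) * Complex.I)‖ ^ 2 = x ^ 2 := by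
  rw [K_norm, norm_mul, Complex.norm_I, mul_one, Complex.norm_real, Real.norm_eq_abs, sq_abs]

/-- the points of `ℍP^n` and of `ℂP²` -/
theorem hpt_sub (m : ℕ) (L r r' : ℝ) (z z' : EuclideanSpace ℂ (Fin 2))
    (h : (((Real.cos (π * r' / (2 * L)) : ℂ), ((Real.sin (π * r' / (2 * L)) : ℝ) : ℂ) • z') :
      ℂ × EuclideanSpace ℂ (Fin 2)) ∈ cpt L r z) :
    hpt L r' (E m z') ⊆ hpt L r (E m z) := by
  rintro p ⟨a, rfl⟩
  unfold cpt at h
  rw [Submodule.mem_span_singleton] at h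
  obtain ⟨l, hl⟩ := h
  have h1 := congrArg Prod.fst hl
  have h2 := congrArg Prod.snd hl
  simp only [Prod.smul_fst, Prod.smul_snd, smul_eq_mul] at h1 h2
  refine ⟨K l * a, ?_⟩
  have k1 : Real.cos (π * r' / (2 * L)) • a = Real.cos (π * r / (2 * L)) • (K l * a) := by
    have e1 : K ((Real.cos (π * r' / (2 * L)) : ℂ) * 1) =
        K ((Real.cos (π * r / (2 * L)) : ℂ) * l) := by
      rw [mul_one, ← h1, mul_comm]
    rw [K_real, K_real] at e1
    have hK1 : K 1 = 1 := by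
      rw [K_apply]; exact Quaternion.coeComplex_one
    rw [hK1] at e1
    calc Real.cos (π * r' / (2 * L)) • a = (Real.cos (π * r' / (2 * L)) • (1 : ℍ[ℝ])) * a := by
          rw [smul_mul_assoc, one_mul]
      _ = (Real.cos (π * r / (2 * L)) • K l) * a := by rw [e1]
      _ = _ := by rw [smul_mul_assoc]
  have k2 : ∀ i, Real.sin (π * r' / (2 * L)) • (E m z' i * a) =
      Real.sin (π * r / (2 * L)) • (E m z i * (K l * a)) := by
    intro i
    have e1 : E m (((Real.sin (π * r' / (2 * L)) : ℝ) : ℂ) • z') i =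
        E m (l • (((Real.sin (π * r / (2 * L)) : ℝ) : ℂ) • z)) i := by rw [h2]
    rw [E_rsmul, E_smul, E_rsmul] at e1
    rw [← smul_mul_assoc, e1, smul_mul_assoc, smul_mul_assoc, mul_assoc]
  rw [k1]
  congr 1
  funext i
  exact k2 i

theorem hpt_eq (m : ℕ) (L r r' : ℝ) (z z' : EuclideanSpace ℂ (Fin 2))
    (h : cpt L r z = cpt L r' z') : hpt L r (E m z) = hpt L r' (E m z') := by
  apply Set.Subset.antisymm
  · apply hpt_sub
    rw [← h]
    exact Submodule.mem_span_singleton_self _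
  · apply hpt_sub
    rw [h]
    exact Submodule.mem_span_singleton_self _

/-- HE: geodesics of the totally geodesic `ℂP²`. -/
theorem embedHP {L : ℝ} {f h : ℝ → ℝ} (hf : IsProfileCP L f h) {n : ℕ} (hn : 2 ≤ n) {v : ℝ}
    {γ : ℝ → Submodule ℂ (ℂ × EuclideanSpace ℂ (Fin 2))} (hγ : IsGeodesicCP L f h v γ) :
    ∃ γ' : ℝ → Set (ℍ[ℝ] × (Fin n → ℍ[ℝ])), IsGeodesicHP L f h v γ' ∧
      ∀ T, (∀ t, γ (t + T) = γ t) → ∀ t, γ' (t + T) = γ' t := by
  have _ := hf
  obtain ⟨m, rfl⟩ : ∃ m, n = m + 2 := ⟨n - 2, by omega⟩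
  obtain ⟨r, z, hr, hz, hz1, hpt', e1, ⟨P, e2⟩, e3, e4⟩ := hγ
  have hzd : ∀ t, DifferentiableAt ℝ z t := fun t => (hz.differentiable (by norm_num)) t
  have hqv : ∀ t, qvert (fun s => E m (z s)) t = K ((hopf z t : ℂ) * Complex.I) :=
    fun t => qvert_E m (hzd t)
  have hqh : ∀ t, qhor (fun s => E m (z s)) t = E m (hor z t) := fun t => qhor_E m (hzd t)
  have hqh' : qhor (fun s => E m (z s)) = fun t => E m (hor z t) := funext hqh
  have hn1 : ∀ t, ‖qvert (fun s => E m (z s)) t‖ ^ 2 = hopf z t ^ 2 := by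
    intro t; rw [hqv, K_hopf_norm]
  have hn2 : ∀ t, nsq (qhor (fun s => E m (z s)) t) = ‖hor z t‖ ^ 2 := by
    intro t; rw [hqh, nsq_E]
  have hdz : ContDiff ℝ 1 (deriv z) := by
    have : ContDiff ℝ (1 + 1) z := by norm_num; exact hz
    exact (contDiff_succ_iff_deriv.1 this).2.2
  have hhor : ∀ t, DifferentiableAt ℝ (hor z) t := by
    intro t
    have hd : DifferentiableAt ℝ (deriv z) t := (hdz.differentiable one_ne_zero) t
    have hi : DifferentiableAt ℝ (fun s => (inner ℂ (z s) (deriv z s) : ℂ)) t :=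
      (hzd t).inner ℂ hd
    have hh : DifferentiableAt ℝ (fun s => hopf z s) t := by
      unfold hopf
      exact (Complex.imCLM.differentiableAt).comp t hi
    have hc : DifferentiableAt ℝ (fun s => ((hopf z s : ℂ) * Complex.I)) t := by
      have : DifferentiableAt ℝ (fun s => ((hopf z s : ℝ) : ℂ)) t :=
        (Complex.ofRealCLM.differentiableAt).comp t hh
      exact this.mul_const _
    show DifferentiableAt ℝ (fun s => deriv z s - ((hopf z s : ℂ) * Complex.I) • z s) t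
    exact hd.sub (hc.smul (hzd t))
  refine ⟨fun t => hpt L (r t) (E m (z t)), ⟨r, fun t => E m (z t), hr, (E m).contDiff.comp hz,
    ?_, fun t => rfl, ?_, ⟨K ((P : ℂ) * Complex.I), ?_⟩, ?_, ?_⟩, ?_⟩
  · intro t; rw [nsq_E, hz1]; norm_num
  · intro t; rw [hn1, hn2]; exact e1 t
  · intro t
    rw [hqv, ← K_real, ← e2 t]
    congr 1
    push_cast
    ring
  · intro t i
    have h3 := congrArg (fun w => E m w i) (e3 t)
    simp only [map_add, Pi.add_apply, map_zero, Pi.zero_apply] at h3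
    rw [E_rsmul, map_add, Pi.add_apply, E_rsmul, E_rsmul, E_smul] at h3
    rw [hn2, hqv, hqh']
    rw [deriv_E m (hhor t)]
    simp only
    rw [← h3]
    congr 1
    rw [← mul_smul_comm, ← K_real]
    congr 2
    push_cast
    ring
  · intro t; rw [hn1, hn2]; exact e4 t
  · intro T hT t
    apply hpt_eq
    rw [← hpt', ← hpt', hT]

end H738CP.HE
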