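import Pool.Agent.H738R3.CP.HDefs

/-! HL: closed geodesics of the symmetric metric of `ℍP^n` have length at least `π` (helper329). -/

open Real Set MeasureTheory Filter Topology Quaternion
open scoped ContDiff

namespace H738CP.HL

theorem iso {E : Type} [NormedAddCommGroup E] [NormedSpace ℝ E] {F : ℝ → ℝ} {X : ℝ → E}
    {D t : ℝ} (hF : HasDerivAt F D t) (hX : Continuous X) (h : ∀ t, F t • X t = 0)
    (hD : F t = 0 → D = 0 → X t = 0) : X t = 0 := by
  by_cases hF0 : F t = 0
  · by_cases hD0 : D = 0
    · exact hD hF0 hD0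
    · have h1 : ∀ᶠ s in 𝓝[≠] t, F s ≠ 0 := hF.eventually_ne hD0
      have h2 : Tendsto X (𝓝[≠] t) (𝓝 (X t)) := (hX.tendsto t).mono_left nhdsWithin_le_nhds
      have h3 : Tendsto X (𝓝[≠] t) (𝓝 0) := by
        refine tendsto_const_nhds.congr' ?_
        filter_upwards [h1] with s hs
        exact ((smul_eq_zero.1 (h s)).resolve_left hs).symm
      exact tendsto_nhds_unique h2 h3
  · exact (smul_eq_zero.1 (h t)).resolve_left hF0

theorem osc {E : Type} [NormedAddCommGroup E] [NormedSpace ℝ E] {Z V : ℝ → E} {v : ℝ}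
    (hv : 0 < v) (h1 : ∀ t, HasDerivAt Z (V t) t) (h2 : ∀ t, HasDerivAt V (-(v ^ 2) • Z t) t)
    (T : ℝ) : Real.cos (v * T) • Z T - (Real.sin (v * T) / v) • V T = Z 0 := by
  have h3 : ∀ t, HasDerivAt (fun t => Real.cos (v * t) • Z t - (Real.sin (v * t) / v) • V t) 0 t := by
    intro t
    have hm : HasDerivAt (fun t : ℝ => v * t) v t := by
      simpa using (hasDerivAt_id t).const_mul v
    have hc : HasDerivAt (fun t => Real.cos (v * t)) (-Real.sin (v * t) * v) t := hm.cos
    have hs : HasDerivAt (fun t => Real.sin (v * t) / v) (Real.cos (v * t) * v / v) t :=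
      (hm.sin).div_const v
    have h4 := (hc.smul (h1 t)).sub (hs.smul (h2 t))
    refine h4.congr_deriv ?_
    rw [mul_div_assoc, div_self hv.ne', mul_one, smul_smul]
    have h5 : Real.sin (v * t) / v * -(v ^ 2) = -Real.sin (v * t) * v := by
      field_simp
    rw [h5]
    abel
  have h4 := is_const_of_deriv_eq_zero (fun t => (h3 t).differentiableAt)
    (fun t => (h3 t).deriv) T 0
  simpa using h4

theorem starModule_quat : StarModule ℝ ℍ[ℝ] :=
  ⟨fun r a => by rw [Quaternion.star_smul, star_trivial r]⟩

attribute [local instance] starModule_quat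

/-- product rule for gauged quaternionic functions -/
theorem dprod {X Y : ℝ → ℍ[ℝ]} {X' Y' b : ℍ[ℝ]} {k t : ℝ} (hb : star b = -b)
    (hX : HasDerivAt X (X' + k • (X t * b)) t) (hY : HasDerivAt Y (Y' + k • (Y t * b)) t) :
    HasDerivAt (fun t => X t * star (Y t)) (X' * star (Y t) + X t * star Y') t := by
  refine (hX.mul hY.star).congr_deriv ?_
  rw [star_add, Quaternion.star_smul, star_mul, hb]
  simp only [add_mul, mul_add, smul_mul_assoc, mul_smul_comm, neg_mul, mul_neg, smul_neg,
    mul_assoc]
  abel

theorem abs_part {ι : Type} [Fintype ι] {X Y : ι → ℝ → ℍ[ℝ]} {b : ℝ → ℍ[ℝ]} {k : ℝ → ℝ}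
    {v T : ℝ} (hv : 0 < v) (hT : 0 < T) (hb : ∀ t, star (b t) = - b t)
    (hX : ∀ α t, HasDerivAt (X α) (Y α t + k t • (X α t * b t)) t)
    (hY : ∀ α t, HasDerivAt (Y α) (-(v ^ 2) • X α t + k t • (Y α t * b t)) t)
    (h1 : ∀ t, ∑ α, star (X α t) * X α t = 1)
    (h2 : ∀ t, ∑ α, star (Y α t) * X α t = 0)
    (h3 : ∃ α, Y α 0 ≠ 0)
    (hper : ∀ t α β, X α (t + T) * star (X β (t + T)) = X α t * star (X β t)) :
    π ≤ v * T := by
  by_contra hlt
  push Not at hlt
  obtain ⟨α, hα⟩ := h3
  apply hα
  have hA0 : ∀ β, Y α 0 * star (X β 0) + X α 0 * star (Y β 0) = 0 := by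
    intro β
    have hM : ∀ t, HasDerivAt (fun t => X α t * star (X β t))
        (Y α t * star (X β t) + X α t * star (Y β t)) t := fun t => dprod (hb t) (hX α t) (hX β t)
    set A : ℝ → ℍ[ℝ] := fun t => Y α t * star (X β t) + X α t * star (Y β t) with hA
    set B : ℝ → ℍ[ℝ] := fun t => (-(2 * v ^ 2)) • (X α t * star (X β t)) +
      (2 : ℝ) • (Y α t * star (Y β t)) with hB
    have hAB : ∀ t, HasDerivAt A (B t) t := by
      intro t
      have h4 := (dprod (hb t) (hY α t) (hX β t)).add (dprod (hb t) (hX α t) (hY β t))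
      refine h4.congr_deriv ?_
      simp only [hB, Quaternion.star_smul, smul_mul_assoc, mul_smul_comm]
      module
    have hBA : ∀ t, HasDerivAt B (-((2 * v) ^ 2) • A t) t := by
      intro t
      have h4 := ((dprod (hb t) (hX α t) (hX β t)).const_smul (-(2 * v ^ 2))).add
        ((dprod (hb t) (hY α t) (hY β t)).const_smul (2 : ℝ))
      refine h4.congr_deriv ?_
      simp only [hA, Quaternion.star_smul, smul_mul_assoc, mul_smul_comm]
      module
    have hv2 : 0 < 2 * v := by linarith
    have e1 := osc hv2 hAB hBA T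
    have e2 := osc (V := fun t => -((2 * v) ^ 2) • A t) hv2 hBA
      (fun t => (hAB t).const_smul (-((2 * v) ^ 2))) T
    have hAp : ∀ t, A (t + T) = A t := by
      intro t
      have h4 : HasDerivAt (fun t => X α (t + T) * star (X β (t + T))) (A (t + T)) t :=
        (hM (t + T)).comp_add_const t T
      have h5 : (fun t => X α (t + T) * star (X β (t + T))) = fun t => X α t * star (X β t) :=
        funext fun t => hper t α β
      rw [h5] at h4
      exact h4.unique (hM t)
    have hBp : ∀ t, B (t + T) = B t := by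
      intro t
      have h4 : HasDerivAt (fun t => A (t + T)) (B (t + T)) t :=
        (hAB (t + T)).comp_add_const t T
      have h5 : (fun t => A (t + T)) = A := funext hAp
      rw [h5] at h4
      exact h4.unique (hAB t)
    have hAT : A T = A 0 := by simpa using hAp 0
    have hBT : B T = B 0 := by simpa using hBp 0
    have hvT : 0 < v * T := mul_pos hv hT
    have hcos : Real.cos (2 * v * T) ≠ 1 := by
      intro h
      rw [Real.cos_eq_one_iff_of_lt_of_lt (by nlinarith [Real.pi_pos]) (by linarith)] at h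
      nlinarith
    simp only [hAT, hBT] at e1 e2
    set C := Real.cos (2 * v * T)
    set S := Real.sin (2 * v * T)
    have hv0 : v ≠ 0 := hv.ne'
    have hne : (C - 1) ^ 2 + S ^ 2 ≠ 0 := by
      have : C - 1 ≠ 0 := sub_ne_zero.2 hcos
      positivity
    have e3 : ((C - 1) ^ 2 + S ^ 2) • A 0 = 0 := by
      have e4 : (C - 1) • A 0 = (S / (2 * v)) • B 0 := by
        linear_combination (norm := module) e1
      have e5 : (C - 1) • B 0 = -((S / (2 * v)) * (2 * v) ^ 2) • A 0 := by
        linear_combination (norm := module) e2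
      have e6 : (C - 1) ^ 2 • A 0 = (S / (2 * v)) • ((C - 1) • B 0) := by
        rw [pow_two, mul_smul, e4, smul_comm]
      rw [add_smul, e6, e5, smul_smul, ← add_smul]
      have : S / (2 * v) * -(S / (2 * v) * (2 * v) ^ 2) + S ^ 2 = 0 := by
        field_simp
        ring
      rw [this, zero_smul]
    exact (smul_eq_zero.1 e3).resolve_left hne
  have h4 : ∑ β, (Y α 0 * star (X β 0) + X α 0 * star (Y β 0)) * X β 0 = Y α 0 := by
    have : ∀ β, (Y α 0 * star (X β 0) + X α 0 * star (Y β 0)) * X β 0 =
        Y α 0 * (star (X β 0) * X β 0) + X α 0 * (star (Y β 0) * X β 0) := by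
      intro β
      rw [add_mul, mul_assoc, mul_assoc]
    simp only [this]
    rw [Finset.sum_add_distrib, ← Finset.mul_sum, ← Finset.mul_sum, h1, h2]
    simp
  rw [← h4]
  simp [hA0]

set_option maxHeartbeats 1000000 in
theorem length_HP {n : ℕ} {v T : ℝ} (hv : 0 < v) (hT : 0 < T)
    {γ : ℝ → Set (ℍ[ℝ] × (Fin n → ℍ[ℝ]))}
    (hγ : IsGeodesicHP (π / 2) (fun r => Real.sin r * Real.cos r) Real.sin v γ)
    (hper : ∀ t, γ (t + T) = γ t) : π ≤ v * T := by
  obtain ⟨r, z, hr, hz, hn, hγ', h1, ⟨P, h2⟩, h3, h4⟩ := hγ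
  -- basic derivatives
  have hr1 : ∀ t, HasDerivAt r (deriv r t) t := fun t =>
    (hr.differentiable (by norm_num)).differentiableAt.hasDerivAt
  have hrd : ContDiff ℝ 1 (deriv r) := (contDiff_succ_iff_deriv.1 (by exact_mod_cast hr)).2.2
  have hr2 : ∀ t, HasDerivAt (deriv r) (deriv (deriv r) t) t := fun t =>
    (hrd.differentiable (by norm_num)).differentiableAt.hasDerivAt
  have hz1 : ∀ t, HasDerivAt z (deriv z t) t := fun t =>
    (hz.differentiable (by norm_num)).differentiableAt.hasDerivAt
  have hzd : ContDiff ℝ 1 (deriv z) := (contDiff_succ_iff_deriv.1 (by exact_mod_cast hz)).2.2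
  have hz2 : ∀ t, HasDerivAt (deriv z) (deriv (deriv z) t) t := fun t =>
    (hzd.differentiable (by norm_num)).differentiableAt.hasDerivAt
  have hzc0 : Continuous z := hz.continuous
  have hzc1 : Continuous (deriv z) := hzd.continuous
  have hzc2 : Continuous (deriv (deriv z)) := (contDiff_one_iff_deriv.1 hzd).2
  have hz1' : ∀ i t, HasDerivAt (fun t => z t i) (deriv z t i) t := fun i t =>
    (hasDerivAt_pi.1 (hz1 t)) i
  have hz2' : ∀ i t, HasDerivAt (fun t => deriv z t i) (deriv (deriv z) t i) t := fun i t =>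
    (hasDerivAt_pi.1 (hz2 t)) i
  have hci0 : ∀ i, Continuous (fun t => z t i) := fun i => (continuous_apply i).comp hzc0
  have hci1 : ∀ i, Continuous (fun t => deriv z t i) := fun i => (continuous_apply i).comp hzc1
  have hci2 : ∀ i, Continuous (fun t => deriv (deriv z) t i) := fun i =>
    (continuous_apply i).comp hzc2
  -- norm squares
  have hns : ∀ y : ℍ[ℝ], star y * y = (‖y‖ ^ 2) • (1 : ℍ[ℝ]) := by
    intro y
    rw [Quaternion.star_mul_self, Quaternion.normSq_eq_norm_mul_self, pow_two]
    ext <;> simp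
  have hqn : ∀ y : Fin n → ℍ[ℝ], qdot y y = nsq y • (1 : ℍ[ℝ]) := by
    intro y
    unfold qdot nsq
    rw [Finset.sum_smul]
    exact Finset.sum_congr rfl fun i _ => hns _
  have hzz : ∀ t, qdot (z t) (z t) = 1 := by
    intro t
    rw [hqn, hn, one_smul]
  -- the vertical part is purely imaginary
  have hstar : ∀ t, star (qdot (z t) (deriv z t)) = -qdot (z t) (deriv z t) := by
    intro t
    have h5 : HasDerivAt (fun t => qdot (z t) (z t))
        (∑ i, (star (deriv z t i) * z t i + star (z t i) * deriv z t i)) t := by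
      unfold qdot
      exact HasDerivAt.fun_sum fun i _ => ((hz1' i t).star).mul (hz1' i t)
    have h6 : HasDerivAt (fun t => qdot (z t) (z t)) 0 t := by
      rw [show (fun t => qdot (z t) (z t)) = fun _ => (1 : ℍ[ℝ]) from funext hzz]
      exact hasDerivAt_const t 1
    have h7 := h5.unique h6
    rw [Finset.sum_add_distrib] at h7
    have h8 : star (qdot (z t) (deriv z t)) = ∑ i, star (deriv z t i) * z t i := by
      unfold qdot
      rw [star_sum]
      exact Finset.sum_congr rfl fun i _ => by rw [star_mul, star_star]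
    rw [h8]
    exact eq_neg_of_add_eq_zero_left h7
  have hb0 : ∀ t, qvert z t = qdot (z t) (deriv z t) := by
    intro t
    have h5 := congrArg (fun q : ℍ[ℝ] => q.re) (hstar t)
    have h6 : (qdot (z t) (deriv z t)).re = 0 := by
      simp at h5
      linarith
    unfold qvert
    ext <;> simp [h6]
  have hbs : ∀ t, star (qvert z t) = -qvert z t := by
    intro t
    rw [hb0 t, hstar t]
  have hbb : ∀ t, qvert z t * qvert z t = -(‖qvert z t‖ ^ 2) • (1 : ℍ[ℝ]) := by
    intro t
    have h5 := hns (qvert z t)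
    rw [hbs t] at h5
    rw [neg_smul, ← h5, neg_mul, neg_neg]
  set b : ℝ → ℍ[ℝ] := qvert z with hb
  have hbe : b = fun t => ∑ i, star (z t i) * deriv z t i := funext fun t => hb0 t
  obtain ⟨b', hb1, hbc'⟩ : ∃ b' : ℝ → ℍ[ℝ], (∀ t, HasDerivAt b (b' t) t) ∧ Continuous b' := by
    refine ⟨fun t => ∑ i, (star (deriv z t i) * deriv z t i + star (z t i) * deriv (deriv z) t i),
      fun t => ?_, ?_⟩
    · rw [hbe]
      exact HasDerivAt.fun_sum fun i _ => ((hz1' i t).star).mul (hz2' i t)
    · refine continuous_finsetSum _ fun i _ => ?_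
      exact (((hci1 i).star).mul (hci1 i)).add (((hci0 i).star).mul (hci2 i))
  have hbc : Continuous b := continuous_iff_continuousAt.2 fun t => (hb1 t).continuousAt
  have hrc : Continuous r := hr.continuous
  have hrc' : Continuous (deriv r) := hrd.continuous
  -- the horizontal part
  have hw1 : ∀ i t, HasDerivAt (fun t => qhor z t i)
      (deriv (deriv z) t i - (deriv z t i * b t + z t i * b' t)) t := fun i t =>
    (hz2' i t).sub ((hz1' i t).mul (hb1 t))
  have hwd : ∀ i t, deriv (qhor z) t i =
      deriv (deriv z) t i - (deriv z t i * b t + z t i * b' t) := by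
    intro i t
    have h5 : HasDerivAt (qhor z)
        (fun i => deriv (deriv z) t i - (deriv z t i * b t + z t i * b' t)) t :=
      hasDerivAt_pi.2 fun i => hw1 i t
    rw [h5.deriv]
  have hw1' : ∀ i t, HasDerivAt (fun t => qhor z t i) (deriv (qhor z) t i) t := by
    intro i t
    rw [hwd i t]
    exact hw1 i t
  have hwc : ∀ i, Continuous (fun t => qhor z t i) := fun i =>
    continuous_iff_continuousAt.2 fun t => (hw1' i t).continuousAt
  have hwc' : ∀ i, Continuous (fun t => deriv (qhor z) t i) := by
    intro i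
    have h5 : (fun t => deriv (qhor z) t i) =
        fun t => deriv (deriv z) t i - (deriv z t i * b t + z t i * b' t) :=
      funext fun t => hwd i t
    rw [h5]
    exact (hci2 i).sub (((hci1 i).mul hbc).add ((hci0 i).mul hbc'))
  have hWc : Continuous (fun t => nsq (qhor z t)) := by
    unfold nsq
    exact continuous_finsetSum _ fun i _ => ((hwc i).norm).pow 2
  have hzw : ∀ i t, deriv z t i = z t i * b t + qhor z t i := by
    intro i t
    show deriv z t i = z t i * b t + (deriv z t i - z t i * b t)
    abel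
  have horth : ∀ t, ∑ i, star (z t i) * qhor z t i = 0 := by
    intro t
    have h5 : ∀ i, star (z t i) * qhor z t i =
        star (z t i) * deriv z t i - star (z t i) * z t i * b t := by
      intro i
      show star (z t i) * (deriv z t i - z t i * b t) = _
      rw [mul_sub, mul_assoc]
    simp only [h5]
    rw [Finset.sum_sub_distrib, ← Finset.sum_mul]
    have h6 : ∑ i, star (z t i) * z t i = 1 := hzz t
    have h7 : ∑ i, star (z t i) * deriv z t i = b t := (hb0 t).symm
    rw [h6, h7, one_mul, sub_self]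
  -- derivative of the profile
  have hdf : ∀ x, deriv (fun r => Real.sin r * Real.cos r) x = Real.cos x ^ 2 - Real.sin x ^ 2 := by
    intro x
    have h5 : HasDerivAt (fun r => Real.sin r * Real.cos r)
        (Real.cos x * Real.cos x + Real.sin x * -Real.sin x) x :=
      (Real.hasDerivAt_sin x).mul (Real.hasDerivAt_cos x)
    rw [h5.deriv]
    ring
  simp only [hdf, Real.deriv_sin] at h1 h3
  have hsr : ∀ t, HasDerivAt (fun t => Real.sin (r t)) (Real.cos (r t) * deriv r t) t :=
    fun t => (hr1 t).sin
  have hcr : ∀ t, HasDerivAt (fun t => Real.cos (r t)) (-Real.sin (r t) * deriv r t) t :=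
    fun t => (hr1 t).cos
  have hF : ∀ t, HasDerivAt (fun t => Real.sin (r t) * Real.cos (r t))
      ((Real.cos (r t) ^ 2 - Real.sin (r t) ^ 2) * deriv r t) t := by
    intro t
    refine ((hsr t).mul (hcr t)).congr_deriv ?_
    ring
  -- the derivative of f b
  have hE0 : ∀ t, (2 * ((Real.cos (r t) ^ 2 - Real.sin (r t) ^ 2) * deriv r t)) • b t +
      (Real.sin (r t) * Real.cos (r t)) • b' t = 0 := by
    intro t
    refine iso (X := fun t => (2 * ((Real.cos (r t) ^ 2 - Real.sin (r t) ^ 2) * deriv r t)) • b t +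
      (Real.sin (r t) * Real.cos (r t)) • b' t) (hF t) (by fun_prop) ?_ ?_
    · intro t
      have h5 := ((hF t).pow 2).smul (hb1 t)
      have h6 : HasDerivAt (fun t => (Real.sin (r t) * Real.cos (r t)) ^ 2 • b t) 0 t := by
        rw [show (fun t => (Real.sin (r t) * Real.cos (r t)) ^ 2 • b t) = fun _ => P from
          funext h2]
        exact hasDerivAt_const t P
      have h7 := h5.unique h6
      rw [← h7]
      simp only [Nat.cast_ofNat, Nat.reduceSub, pow_one, Pi.pow_apply]
      module
    · intro h5 h6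
      simp only [h5, h6]
      simp
  have hG : ∀ t, HasDerivAt (fun t => (Real.sin (r t) * Real.cos (r t)) • b t)
      (-(((Real.cos (r t) ^ 2 - Real.sin (r t) ^ 2) * deriv r t)) • b t) t := by
    intro t
    refine ((hF t).smul (hb1 t)).congr_deriv ?_
    linear_combination (norm := module) hE0 t
  -- the equation for the horizontal part
  have hE1 : ∀ i t, Real.sin (r t) • deriv (qhor z) t i +
      (Real.sin (r t) * nsq (qhor z t)) • z t i +
      (2 * Real.cos (r t) * deriv r t) • qhor z t i +
      (Real.sin (r t) * (2 * Real.cos (r t) ^ 2 - 1)) • (qhor z t i * b t) = 0 := by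
    intro i t
    refine iso (X := fun t => Real.sin (r t) • deriv (qhor z) t i +
      (Real.sin (r t) * nsq (qhor z t)) • z t i +
      (2 * Real.cos (r t) * deriv r t) • qhor z t i +
      (Real.sin (r t) * (2 * Real.cos (r t) ^ 2 - 1)) • (qhor z t i * b t)) (hsr t) ?_ ?_ ?_
    · have c1 := hwc' i
      have c2 := hwc i
      have c3 := hci0 i
      have s0 : Continuous (fun t => Real.sin (r t)) := Real.continuous_sin.comp hrc
      have c0 : Continuous (fun t => Real.cos (r t)) := Real.continuous_cos.comp hrc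
      exact (((s0.smul c1).add ((s0.mul hWc).smul c3)).add
        (((continuous_const.mul c0).mul hrc').smul c2)).add
        ((s0.mul ((continuous_const.mul (c0.pow 2)).sub continuous_const)).smul (c2.mul hbc))
    · intro t
      rw [← h3 t i]
      module
    · intro h5 h6
      exfalso
      have h7 := h4 t
      simp only [h5] at h7
      have h8 : Real.cos (r t) ^ 2 = 1 := by
        have := Real.sin_sq_add_cos_sq (r t)
        rw [h5] at this
        linarith
      have h9 : (Real.cos (r t) * deriv r t) ^ 2 = v ^ 2 := by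
        rw [mul_pow, h8]
        linarith
      rw [h6] at h9
      have : 0 < v ^ 2 := by positivity
      linarith
  -- the lift
  set q : ℝ → ℍ[ℝ] := fun t => deriv r t • (1 : ℍ[ℝ]) + (Real.sin (r t) * Real.cos (r t)) • b t
    with hq
  have hq1 : ∀ t, HasDerivAt q (deriv (deriv r) t • (1 : ℍ[ℝ]) +
      -(((Real.cos (r t) ^ 2 - Real.sin (r t) ^ 2) * deriv r t)) • b t) t := fun t =>
    ((hr2 t).smul_const (1 : ℍ[ℝ])).add (hG t)
  let X : Option (Fin n) → ℝ → ℍ[ℝ] := fun α =>
    match α with
    | none => fun t => Real.cos (r t) • (1 : ℍ[ℝ])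
    | some i => fun t => Real.sin (r t) • z t i
  let Y : Option (Fin n) → ℝ → ℍ[ℝ] := fun α =>
    match α with
    | none => fun t => -(Real.sin (r t)) • q t
    | some i => fun t => Real.cos (r t) • (z t i * q t) + Real.sin (r t) • qhor z t i
  have hsc : ∀ t, Real.sin (r t) ^ 2 + Real.cos (r t) ^ 2 = 1 := fun t =>
    Real.sin_sq_add_cos_sq (r t)
  have hzb : ∀ t (y : ℍ[ℝ]), y * b t * b t = -(‖b t‖ ^ 2) • y := by
    intro t y
    rw [mul_assoc, hbb t, mul_smul_comm, mul_one]
  refine abs_part (X := X) (Y := Y) (b := b) (k := fun t => Real.sin (r t) ^ 2) hv hT hbs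
    ?_ ?_ ?_ ?_ ?_ ?_
  · rintro (_ | i) t
    · refine ((hcr t).smul_const (1 : ℍ[ℝ])).congr_deriv ?_
      show _ = -(Real.sin (r t)) • (deriv r t • (1 : ℍ[ℝ]) +
        (Real.sin (r t) * Real.cos (r t)) • b t) +
        Real.sin (r t) ^ 2 • ((Real.cos (r t) • (1 : ℍ[ℝ])) * b t)
      rw [smul_mul_assoc, one_mul]
      module
    · refine ((hsr t).smul (hz1' i t)).congr_deriv ?_
      show _ = Real.cos (r t) • (z t i * (deriv r t • (1 : ℍ[ℝ]) +
        (Real.sin (r t) * Real.cos (r t)) • b t)) + Real.sin (r t) • qhor z t i +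
        Real.sin (r t) ^ 2 • ((Real.sin (r t) • z t i) * b t)
      rw [hzw i t]
      simp only [mul_add, mul_smul_comm, smul_mul_assoc, mul_one]
      have h5 : (Real.sin (r t) ^ 2 + Real.cos (r t) ^ 2) • (Real.sin (r t) • (z t i * b t)) =
        (1 : ℝ) • (Real.sin (r t) • (z t i * b t)) := by rw [hsc t]
      linear_combination (norm := module) -h5
  · rintro (_ | i) t
    · refine (((hsr t).neg).smul (hq1 t)).congr_deriv ?_
      show _ = -(v ^ 2) • (Real.cos (r t) • (1 : ℍ[ℝ])) +
        Real.sin (r t) ^ 2 • ((-(Real.sin (r t)) • (deriv r t • (1 : ℍ[ℝ]) +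
        (Real.sin (r t) * Real.cos (r t)) • b t)) * b t)
      rw [h1 t]
      simp only [add_mul, smul_mul_assoc, one_mul, hbb t, hq, Pi.neg_apply]
      have h5 : (deriv r t ^ 2 + (Real.sin (r t) * Real.cos (r t)) ^ 2 * ‖b t‖ ^ 2 +
        Real.sin (r t) ^ 2 * nsq (qhor z t)) • (Real.cos (r t) • (1 : ℍ[ℝ])) =
        (v ^ 2) • (Real.cos (r t) • (1 : ℍ[ℝ])) := by rw [← h4 t]
      linear_combination (norm := module) -h5
    · refine (((hcr t).smul ((hz1' i t).mul (hq1 t))).add ((hsr t).smul (hw1' i t))).congr_deriv ?_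
      show _ = -(v ^ 2) • (Real.sin (r t) • z t i) +
        Real.sin (r t) ^ 2 • ((Real.cos (r t) • (z t i * (deriv r t • (1 : ℍ[ℝ]) +
        (Real.sin (r t) * Real.cos (r t)) • b t)) + Real.sin (r t) • qhor z t i) * b t)
      have h6 := hE1 i t
      rw [h1 t, hzw i t]
      simp only [Pi.mul_apply, mul_add, add_mul, smul_mul_assoc, mul_smul_comm, mul_one, hzb t, hq]
      have h5 : (deriv r t ^ 2 + (Real.sin (r t) * Real.cos (r t)) ^ 2 * ‖b t‖ ^ 2 +
        Real.sin (r t) ^ 2 * nsq (qhor z t)) • (Real.sin (r t) • z t i) =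
        (v ^ 2) • (Real.sin (r t) • z t i) := by rw [← h4 t]
      have h7 : (Real.sin (r t) ^ 2 + Real.cos (r t) ^ 2) •
        ((Real.sin (r t) * Real.cos (r t) ^ 2 * ‖b t‖ ^ 2 + Real.sin (r t) * nsq (qhor z t)) •
          z t i - (Real.cos (r t) * deriv r t) • (z t i * b t) -
          Real.sin (r t) • (qhor z t i * b t)) =
        (1 : ℝ) • ((Real.sin (r t) * Real.cos (r t) ^ 2 * ‖b t‖ ^ 2 +
          Real.sin (r t) * nsq (qhor z t)) •
          z t i - (Real.cos (r t) * deriv r t) • (z t i * b t) -
          Real.sin (r t) • (qhor z t i * b t)) := by rw [hsc t]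
      linear_combination (norm := module) h6 - h5 + h7
  · intro t
    rw [Fintype.sum_option]
    show star (Real.cos (r t) • (1 : ℍ[ℝ])) * (Real.cos (r t) • (1 : ℍ[ℝ])) +
      ∑ i, star (Real.sin (r t) • z t i) * (Real.sin (r t) • z t i) = 1
    have h5 : ∀ i, star (Real.sin (r t) • z t i) * (Real.sin (r t) • z t i) =
        Real.sin (r t) ^ 2 • (star (z t i) * z t i) := by
      intro i
      rw [Quaternion.star_smul, smul_mul_smul_comm, pow_two]
    simp only [h5]
    rw [← Finset.smul_sum, show ∑ i, star (z t i) * z t i = 1 from hzz t, Quaternion.star_smul,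
      star_one, smul_mul_smul_comm, mul_one, ← add_smul, ← pow_two, add_comm, hsc t, one_smul]
  · intro t
    rw [Fintype.sum_option]
    show star (-(Real.sin (r t)) • q t) * (Real.cos (r t) • (1 : ℍ[ℝ])) +
      ∑ i, star (Real.cos (r t) • (z t i * q t) + Real.sin (r t) • qhor z t i) *
        (Real.sin (r t) • z t i) = 0
    have h5 : ∀ i, star (Real.cos (r t) • (z t i * q t) + Real.sin (r t) • qhor z t i) *
        (Real.sin (r t) • z t i) =
        (Real.cos (r t) * Real.sin (r t)) • (star (q t) * (star (z t i) * z t i)) +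
          (Real.sin (r t) ^ 2) • star (star (z t i) * qhor z t i) := by
      intro i
      rw [star_add, Quaternion.star_smul, Quaternion.star_smul, add_mul, smul_mul_smul_comm,
        smul_mul_smul_comm, star_mul, star_mul, star_star, pow_two, mul_assoc]
    simp only [h5]
    rw [Finset.sum_add_distrib, ← Finset.smul_sum, ← Finset.smul_sum, ← Finset.mul_sum,
      ← star_sum, show ∑ i, star (z t i) * z t i = 1 from hzz t, horth t, star_zero, smul_zero,
      add_zero, mul_one, Quaternion.star_smul, smul_mul_smul_comm, mul_one]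
    module
  · by_contra hcon
    push Not at hcon
    have h5 : -(Real.sin (r 0)) • q 0 = 0 := hcon none
    have h6 : ∀ i, Real.cos (r 0) • (z 0 i * q 0) + Real.sin (r 0) • qhor z 0 i = 0 := fun i =>
      hcon (some i)
    have h7 : Real.cos (r 0) • q 0 = 0 := by
      have h8 : ∑ i, star (z 0 i) * (Real.cos (r 0) • (z 0 i * q 0) +
          Real.sin (r 0) • qhor z 0 i) = 0 := by
        simp [h6]
      have h9 : ∀ i, star (z 0 i) * (Real.cos (r 0) • (z 0 i * q 0) +
          Real.sin (r 0) • qhor z 0 i) = Real.cos (r 0) • ((star (z 0 i) * z 0 i) * q 0) +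
          Real.sin (r 0) • (star (z 0 i) * qhor z 0 i) := by
        intro i
        rw [mul_add, mul_smul_comm, mul_smul_comm, mul_assoc]
      simp only [h9] at h8
      rw [Finset.sum_add_distrib, ← Finset.smul_sum, ← Finset.smul_sum, ← Finset.sum_mul,
        show ∑ i, star (z 0 i) * z 0 i = 1 from hzz 0, horth 0, smul_zero, add_zero, one_mul] at h8
      exact h8
    have h8 : q 0 = 0 := by
      have h9 : (Real.sin (r 0) ^ 2 + Real.cos (r 0) ^ 2) • q 0 = 0 := by
        rw [add_smul, pow_two, pow_two, mul_smul, mul_smul, h7, smul_zero, add_zero]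
        have h10 : Real.sin (r 0) • q 0 = 0 := by
          rw [neg_smul] at h5
          exact neg_eq_zero.1 h5
        rw [h10, smul_zero]
      rwa [hsc 0, one_smul] at h9
    have h9 : ∀ i, Real.sin (r 0) • qhor z 0 i = 0 := by
      intro i
      have := h6 i
      rwa [h8, mul_zero, smul_zero, zero_add] at this
    have hbre : (b 0).re = 0 := by
      have := congrArg (fun q : ℍ[ℝ] => q.re) (hbs 0)
      simp at this
      linarith
    have h10 : deriv r 0 = 0 := by
      have := congrArg (fun q : ℍ[ℝ] => q.re) h8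
      simpa [hq, hbre] using this
    have h11 : (Real.sin (r 0) * Real.cos (r 0)) • b 0 = 0 := by
      have := h8
      simp only [hq] at this
      rwa [h10, zero_smul, zero_add] at this
    have h12 : (Real.sin (r 0) * Real.cos (r 0)) ^ 2 * ‖b 0‖ ^ 2 = 0 := by
      have := congrArg norm h11
      rw [norm_smul, norm_zero, Real.norm_eq_abs] at this
      rw [← sq_abs, ← mul_pow, this]
      simp
    have h13 : Real.sin (r 0) ^ 2 * nsq (qhor z 0) = 0 := by
      unfold nsq
      rw [Finset.mul_sum]
      refine Finset.sum_eq_zero fun i _ => ?_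
      have := congrArg norm (h9 i)
      rw [norm_smul, norm_zero, Real.norm_eq_abs] at this
      rw [← sq_abs, ← mul_pow, this]
      simp
    have h14 := h4 0
    simp only at h14
    rw [h10, h12, h13] at h14
    have : 0 < v ^ 2 := by positivity
    linarith
  · intro t
    have harg : ∀ x : ℝ, π * x / (2 * (π / 2)) = x := by
      intro x
      have := Real.pi_ne_zero
      field_simp
    have h5 : ((Real.cos (r t) • (1 : ℍ[ℝ]), fun i => Real.sin (r t) • z t i) :
        ℍ[ℝ] × (Fin n → ℍ[ℝ])) ∈ γ (t + T) := by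
      rw [hper t, hγ' t]
      unfold hpt
      rw [harg]
      exact ⟨1, by simp⟩
    rw [hγ' (t + T)] at h5
    unfold hpt at h5
    rw [harg] at h5
    obtain ⟨a, ha⟩ := h5
    have hXa : ∀ α, X α t = X α (t + T) * a := by
      rintro (_ | i)
      · have := congrArg Prod.fst ha
        show Real.cos (r t) • (1 : ℍ[ℝ]) = (Real.cos (r (t + T)) • (1 : ℍ[ℝ])) * a
        rw [smul_mul_assoc, one_mul]
        exact this
      · have := congrFun (congrArg Prod.snd ha) i
        show Real.sin (r t) • z t i = (Real.sin (r (t + T)) • z (t + T) i) * a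
        rw [smul_mul_assoc]
        exact this
    have hsum : ∀ t, ∑ α, star (X α t) * X α t = 1 := by
      intro t
      rw [Fintype.sum_option]
      show star (Real.cos (r t) • (1 : ℍ[ℝ])) * (Real.cos (r t) • (1 : ℍ[ℝ])) +
        ∑ i, star (Real.sin (r t) • z t i) * (Real.sin (r t) • z t i) = 1
      have h5 : ∀ i, star (Real.sin (r t) • z t i) * (Real.sin (r t) • z t i) =
          Real.sin (r t) ^ 2 • (star (z t i) * z t i) := by
        intro i
        rw [Quaternion.star_smul, smul_mul_smul_comm, pow_two]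
      simp only [h5]
      rw [← Finset.smul_sum, show ∑ i, star (z t i) * z t i = 1 from hzz t, Quaternion.star_smul,
        star_one, smul_mul_smul_comm, mul_one, ← add_smul, ← pow_two, add_comm, hsc t, one_smul]
    have haa : star a * a = 1 := by
      have h6 := hsum t
      have h7 : ∀ α, star (X α t) * X α t = star a * (star (X α (t + T)) * X α (t + T)) * a := by
        intro α
        rw [hXa α, star_mul]
        simp only [mul_assoc]
      simp only [h7] at h6
      rw [← Finset.sum_mul, ← Finset.mul_sum, hsum (t + T), mul_one] at h6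
      exact h6
    have haa' : a * star a = 1 := by
      rw [Quaternion.self_mul_star, ← Quaternion.star_mul_self]
      exact haa
    intro α β
    rw [hXa α, hXa β, star_mul, mul_assoc, ← mul_assoc a, haa', one_mul]

end H738CP.HL
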