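import Pool.Agent.H738R3.CP.VB

/-!
# The volume bound on quaternionic projective space (task HV)
-/

open Real Set MeasureTheory
open scoped ContDiff
open Pool.Agent.H206R2.Rot2 (Veff)
open Pool.Agent.H206R2.Rot2.TI (gg gg_measurable gg_nonneg gg_bound gg_integrable gg_integral SC)
open H738CP.VB (Reg_measurable Reg_subset snd_le Reg_subset_Ioc key_iff gg_le gg_lt)

namespace H738CP.HV

/-- the integrand of the layer cake formula -/
noncomputable def AA (b : ℕ) (c : ℝ × ℝ) (t : ℝ) : ℝ :=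
  (if c.1 + √(c.1 ^ 2 + c.2 ^ 2) < t then 1 else 0) * (c.1 ^ 2 * c.2 ^ b)

lemma AA_meas (b : ℕ) : Measurable (fun p : (ℝ × ℝ) × ℝ => AA b p.1 p.2) := by
  unfold AA
  apply Measurable.mul
  · exact Measurable.ite (measurableSet_lt (by fun_prop) (by fun_prop)) measurable_const
      measurable_const
  · fun_prop

lemma AA_bound {R : ℝ} (b : ℕ) {c : ℝ × ℝ} (t : ℝ) (h01 : 0 < c.1) (h02 : c.1 ≤ R)
    (h1 : 0 < c.2) (h2 : c.2 ≤ R) :
    ‖AA b c t‖ ≤ R ^ 2 * R ^ b := by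
  have h3 : c.2 ^ b ≤ R ^ b := pow_le_pow_left₀ h1.le h2 b
  have h4 : c.1 ^ 2 ≤ R ^ 2 := pow_le_pow_left₀ h01.le h02 2
  have hR : 0 < R := lt_of_lt_of_le h01 h02
  have h5 : c.1 ^ 2 * c.2 ^ b ≤ R ^ 2 * R ^ b :=
    mul_le_mul h4 h3 (pow_pos h1 b).le (by positivity)
  have h6 : 0 < c.1 ^ 2 * c.2 ^ b := mul_pos (pow_pos h01 2) (pow_pos h1 b)
  unfold AA
  rw [Real.norm_eq_abs, abs_mul, abs_of_pos h6]
  split_ifs
  · rw [abs_one, one_mul]; exact h5
  · rw [abs_zero, zero_mul]; exact h6.le.trans h5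

lemma step1 {R : ℝ} (b : ℕ) {c : ℝ × ℝ} (h1 : 0 < c.1) :
    ∫ t in Ioc 0 R, AA b c t =
      max (R - c.1 - √(c.1 ^ 2 + c.2 ^ 2)) 0 * (c.1 ^ 2 * c.2 ^ b) := by
  unfold AA
  rw [integral_mul_const]
  congr 1
  set s := c.1 + √(c.1 ^ 2 + c.2 ^ 2) with hs
  have hs0 : 0 < s := by
    have := Real.sqrt_nonneg (c.1 ^ 2 + c.2 ^ 2)
    linarith
  have e : (fun t : ℝ => if s < t then (1 : ℝ) else 0) = indicator (Ioi s) (fun _ => (1 : ℝ)) := by
    ext t
    simp [indicator]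
  rw [e, setIntegral_indicator measurableSet_Ioi, Ioc_inter_Ioi, setIntegral_const,
    Real.volume_real_Ioc, max_eq_right hs0.le, smul_eq_mul, mul_one, hs, sub_add_eq_sub_sub]

lemma inner {R t : ℝ} (ht : 0 < t) (htR : t ≤ R) (b : ℕ) (y : ℝ) :
    ∫ x in Ioc 0 R, AA b (x, y) t = max ((t ^ 2 - y ^ 2) / (2 * t)) 0 ^ 3 / 3 * y ^ b := by
  unfold AA
  change ∫ x in Ioc 0 R, (if x + √(x ^ 2 + y ^ 2) < t then (1 : ℝ) else 0) * (x ^ 2 * y ^ b) = _
  have e0 : (fun x : ℝ => (if x + √(x ^ 2 + y ^ 2) < t then (1 : ℝ) else 0) * (x ^ 2 * y ^ b)) =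
      fun x : ℝ => ((if x + √(x ^ 2 + y ^ 2) < t then (1 : ℝ) else 0) * x ^ 2) * y ^ b := by
    funext x
    ring
  rw [e0, integral_mul_const]
  congr 1
  set X := (t ^ 2 - y ^ 2) / (2 * t) with hX
  have hXt : X ≤ t / 2 := by
    rw [hX, div_le_div_iff₀ (by positivity) (by positivity)]
    nlinarith [sq_nonneg y]
  have e : ∫ x in Ioc 0 R, (if x + √(x ^ 2 + y ^ 2) < t then (1 : ℝ) else 0) * x ^ 2 =
      ∫ x in Ioc 0 R, indicator (Iio X) (fun x => x ^ 2) x := by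
    apply setIntegral_congr_fun measurableSet_Ioc
    intro x hx
    simp only [indicator, mem_Iio, key_iff hx.1 ht, ← hX]
    split_ifs <;> simp
  rw [e, setIntegral_indicator measurableSet_Iio]
  have e2 : Ioc 0 R ∩ Iio X = Ioo 0 X := by
    ext x
    simp only [mem_inter_iff, mem_Ioc, mem_Iio, mem_Ioo]
    constructor
    · rintro ⟨⟨a1, a2⟩, a3⟩
      exact ⟨a1, a3⟩
    · rintro ⟨a1, a3⟩
      exact ⟨⟨a1, by linarith⟩, a3⟩
  rw [e2]
  rcases le_or_gt X 0 with hX0 | hX0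
  · rw [Ioo_eq_empty (not_lt.2 hX0), max_eq_right hX0]
    simp
  · rw [max_eq_left hX0.le, ← integral_Ioc_eq_integral_Ioo,
      ← intervalIntegral.integral_of_le hX0.le, integral_pow]
    norm_num

lemma AA_int_box {R : ℝ} (b : ℕ) (t : ℝ) :
    IntegrableOn (fun c : ℝ × ℝ => AA b c t) (Ioc 0 R ×ˢ Ioc 0 R) := by
  refine Measure.integrableOn_of_bounded (M := R ^ 2 * R ^ b) ?_ ?_ ?_
  · rw [Measure.volume_eq_prod, Measure.prod_prod]
    simp [ENNReal.mul_eq_top]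
  · exact ((AA_meas b).comp (measurable_id.prodMk measurable_const)).aestronglyMeasurable
  · filter_upwards [ae_restrict_mem (measurableSet_Ioc.prod measurableSet_Ioc)] with c hc
    exact AA_bound b t hc.1.1 hc.1.2 hc.2.1 hc.2.2

lemma step2 {R t : ℝ} (ht : 0 < t) (htR : t ≤ R) (b : ℕ) :
    ∫ c in Ioc 0 R ×ˢ Ioc 0 R, AA b c t =
      2 * t ^ (b + 4) / (((b : ℝ) + 1) * ((b : ℝ) + 3) * ((b : ℝ) + 5) * ((b : ℝ) + 7)) := by
  have hi := AA_int_box (R := R) b t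
  unfold IntegrableOn at hi
  rw [Measure.volume_eq_prod, ← Measure.prod_restrict] at hi ⊢
  rw [integral_prod_symm _ hi]
  simp_rw [inner ht htR b]
  have e1 : ∫ y in Ioc 0 R, max ((t ^ 2 - y ^ 2) / (2 * t)) 0 ^ 3 / 3 * y ^ b =
      ∫ y in Ioc 0 t, max ((t ^ 2 - y ^ 2) / (2 * t)) 0 ^ 3 / 3 * y ^ b := by
    apply setIntegral_eq_of_subset_of_forall_sdiff_eq_zero measurableSet_Ioc
      (Ioc_subset_Ioc_right htR)
    intro y hy
    have h1 : t < y := by
      by_contra h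
      exact hy.2 ⟨hy.1.1, not_lt.1 h⟩
    have h2 : (t ^ 2 - y ^ 2) / (2 * t) ≤ 0 :=
      div_nonpos_of_nonpos_of_nonneg (by nlinarith) (by positivity)
    rw [max_eq_right h2]
    ring
  have e2 : ∫ y in Ioc 0 t, max ((t ^ 2 - y ^ 2) / (2 * t)) 0 ^ 3 / 3 * y ^ b =
      ∫ y in Ioc 0 t, (t ^ 3 / 24 * y ^ b - t / 8 * y ^ (b + 2) + 1 / (8 * t) * y ^ (b + 4)
        - 1 / (24 * t ^ 3) * y ^ (b + 6)) := by
    apply setIntegral_congr_fun measurableSet_Ioc
    intro y hy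
    have h2 : 0 ≤ (t ^ 2 - y ^ 2) / (2 * t) :=
      div_nonneg (by nlinarith [hy.1, hy.2]) (by positivity)
    simp only
    rw [max_eq_left h2]
    field_simp
    ring
  have c1 : IntervalIntegrable (fun y : ℝ => t ^ 3 / 24 * y ^ b) volume 0 t :=
    Continuous.intervalIntegrable (by fun_prop) _ _
  have c2 : IntervalIntegrable (fun y : ℝ => t / 8 * y ^ (b + 2)) volume 0 t :=
    Continuous.intervalIntegrable (by fun_prop) _ _
  have c3 : IntervalIntegrable (fun y : ℝ => 1 / (8 * t) * y ^ (b + 4)) volume 0 t :=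
    Continuous.intervalIntegrable (by fun_prop) _ _
  have c4 : IntervalIntegrable (fun y : ℝ => 1 / (24 * t ^ 3) * y ^ (b + 6)) volume 0 t :=
    Continuous.intervalIntegrable (by fun_prop) _ _
  rw [e1, e2, ← intervalIntegral.integral_of_le ht.le,
    intervalIntegral.integral_sub ((c1.sub c2).add c3) c4,
    intervalIntegral.integral_add (c1.sub c2) c3, intervalIntegral.integral_sub c1 c2,
    intervalIntegral.integral_const_mul, intervalIntegral.integral_const_mul,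
    intervalIntegral.integral_const_mul, intervalIntegral.integral_const_mul, integral_pow,
    integral_pow, integral_pow, integral_pow]
  have h1 : (b : ℝ) + 1 ≠ 0 := by positivity
  have h3 : (b : ℝ) + 3 ≠ 0 := by positivity
  have h5 : (b : ℝ) + 5 ≠ 0 := by positivity
  have h7 : (b : ℝ) + 7 ≠ 0 := by positivity
  have h3' : (b : ℝ) + 2 + 1 = b + 3 := by ring
  have h5' : (b : ℝ) + 4 + 1 = b + 5 := by ring
  have h7' : (b : ℝ) + 6 + 1 = b + 7 := by ring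
  push_cast
  rw [h3', h5', h7']
  simp only [ne_eq, Nat.add_eq_zero_iff, one_ne_zero, and_false, not_false_eq_true, zero_pow,
    sub_zero]
  rw [show b + 2 + 1 = b + 3 by ring, show b + 4 + 1 = b + 5 by ring,
    show b + 6 + 1 = b + 7 by ring]
  have ht0 : t ≠ 0 := ht.ne'
  field_simp
  ring

lemma lower_int {R : ℝ} (hR : 0 < R) (b : ℕ) :
    ∫ c in Reg R, π * (R - c.1 - √(c.1 ^ 2 + c.2 ^ 2)) * (c.1 ^ 2 * c.2 ^ b) =
      π * (2 * R ^ (b + 5) /
        (((b : ℝ) + 1) * ((b : ℝ) + 3) * ((b : ℝ) + 5) ^ 2 * ((b : ℝ) + 7))) := by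
  set S : Set (ℝ × ℝ) := Ioc (0 : ℝ) R ×ˢ Ioc (0 : ℝ) R with hS
  have hSm : MeasurableSet S := measurableSet_Ioc.prod measurableSet_Ioc
  have e0 : ∫ c in Reg R, π * (R - c.1 - √(c.1 ^ 2 + c.2 ^ 2)) * (c.1 ^ 2 * c.2 ^ b) =
      ∫ c in Reg R, π * (max (R - c.1 - √(c.1 ^ 2 + c.2 ^ 2)) 0 * (c.1 ^ 2 * c.2 ^ b)) := by
    apply setIntegral_congr_fun (Reg_measurable R)
    intro c hc
    simp only
    rw [max_eq_left (by linarith [hc.2.2])]
    ring
  have e1 : ∫ c in Reg R, π * (max (R - c.1 - √(c.1 ^ 2 + c.2 ^ 2)) 0 * (c.1 ^ 2 * c.2 ^ b)) =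
      ∫ c in S, π * (max (R - c.1 - √(c.1 ^ 2 + c.2 ^ 2)) 0 * (c.1 ^ 2 * c.2 ^ b)) := by
    symm
    apply setIntegral_eq_of_subset_of_forall_sdiff_eq_zero hSm (Reg_subset_Ioc R)
    intro c hc
    have : R ≤ c.1 + √(c.1 ^ 2 + c.2 ^ 2) := by
      by_contra h
      exact hc.2 ⟨hc.1.1.1, hc.1.2.1, not_le.1 h⟩
    rw [max_eq_right (by linarith)]
    ring
  rw [e0, e1, integral_const_mul]
  congr 1
  have e2 : ∫ c in S, max (R - c.1 - √(c.1 ^ 2 + c.2 ^ 2)) 0 * (c.1 ^ 2 * c.2 ^ b) =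
      ∫ c in S, ∫ t in Ioc 0 R, AA b c t := by
    apply setIntegral_congr_fun hSm
    intro c hc
    exact (step1 b hc.1.1).symm
  rw [e2]
  have hSfin : volume S ≠ ⊤ := by
    rw [hS, Measure.volume_eq_prod, Measure.prod_prod]
    simp [ENNReal.mul_eq_top]
  have : IsFiniteMeasure (volume.restrict S) :=
    ⟨by rw [Measure.restrict_apply_univ]; exact lt_top_iff_ne_top.2 hSfin⟩
  have hint : Integrable (fun p : (ℝ × ℝ) × ℝ => AA b p.1 p.2)
      ((volume.restrict S).prod (volume.restrict (Ioc (0 : ℝ) R))) := by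
    refine Integrable.of_bound (AA_meas b).aestronglyMeasurable (R ^ 2 * R ^ b) ?_
    rw [Measure.prod_restrict]
    filter_upwards [ae_restrict_mem (hSm.prod measurableSet_Ioc)] with p hp
    exact AA_bound b p.2 hp.1.1.1 hp.1.1.2 hp.1.2.1 hp.1.2.2
  rw [integral_integral_swap hint]
  have e3 : ∫ t in Ioc 0 R, ∫ c in S, AA b c t =
      ∫ t in Ioc 0 R,
        2 / (((b : ℝ) + 1) * ((b : ℝ) + 3) * ((b : ℝ) + 5) * ((b : ℝ) + 7)) * t ^ (b + 4) := by
    apply setIntegral_congr_fun measurableSet_Ioc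
    intro t ht
    simp only
    rw [hS, step2 ht.1 ht.2 b]
    ring
  rw [e3, ← intervalIntegral.integral_of_le hR.le, intervalIntegral.integral_const_mul,
    integral_pow]
  have h1 : (b : ℝ) + 1 ≠ 0 := by positivity
  have h3 : (b : ℝ) + 3 ≠ 0 := by positivity
  have h5 : (b : ℝ) + 5 ≠ 0 := by positivity
  have h7 : (b : ℝ) + 7 ≠ 0 := by positivity
  have h5' : (b : ℝ) + 4 + 1 = b + 5 := by ring
  push_cast
  rw [h5', show b + 4 + 1 = b + 5 by ring]
  simp only [ne_eq, Nat.add_eq_zero_iff, OfNat.ofNat_ne_zero, and_false, not_false_eq_true,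
    zero_pow, sub_zero]
  field_simp

/-! ### The theorem -/

theorem volume_boundHP {L : ℝ} {f h : ℝ → ℝ} (hf : IsProfileCP L f h) {n : ℕ} (hn : 2 ≤ n)
    {R : ℝ} (hR : 0 < R)
    (hA : ∀ c ∈ Reg R, π * (R - c.1 - √(c.1 ^ 2 + c.2 ^ 2)) ≤
      2 * ∫ r in Ioo 0 L, √(1 - Veff f h c.1 c.2 r))
    (hbig : ∃ r, 0 < r ∧ r < L ∧ R < 2 * f r) :
    R ^ (4 * n) < 4 * n * (2 * n + 1) * ∫ r in (0 : ℝ)..L, f r ^ 3 * h r ^ (4 * n - 4) := by
  obtain ⟨b, hb⟩ : ∃ b, 4 * n = b + 5 := ⟨4 * n - 5, by omega⟩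
  have hnb : (4 * n : ℝ) = (b : ℝ) + 5 := by exact_mod_cast hb
  have hnb2 : (2 * n + 1 : ℝ) = ((b : ℝ) + 7) / 2 := by linarith
  rw [hnb, hnb2, hb, show b + 5 - 4 = b + 1 by omega]
  have hfc : Continuous f := hf.smooth_f.continuous
  have hhc : Continuous h := hf.smooth_h.continuous
  have hfm : Measurable f := hfc.measurable
  have hhm : Measurable h := hhc.measurable
  set J1 := ∫ x in (0 : ℝ)..1, √(1 - x ^ 2) * x ^ b with hJ1
  set K := J1 * SC 2 (b + 3) with hK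
  set μ : Measure ℝ := volume.restrict (Ioo 0 L) with hμ
  set ν : Measure (ℝ × ℝ) := volume.restrict (Reg R) with hν
  have hTfin : volume (Reg R) ≠ ⊤ := by
    have h1 : volume (Icc (0 : ℝ) R ×ˢ Icc (0 : ℝ) R) < ⊤ :=
      (isCompact_Icc.prod isCompact_Icc).measure_lt_top
    exact ((measure_mono ((Reg_subset_Ioc R).trans
      (prod_mono Ioc_subset_Icc_self Ioc_subset_Icc_self))).trans_lt h1).ne
  have : IsFiniteMeasure ν := ⟨by rw [hν, Measure.restrict_apply_univ]; exact lt_top_iff_ne_top.2 hTfin⟩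
  have : IsFiniteMeasure μ := ⟨by rw [hμ, Measure.restrict_apply_univ]; simp⟩
  -- Fubini
  have hmeas : Measurable (fun p : ℝ × (ℝ × ℝ) => gg (f p.1) (h p.1) 2 b p.2) := by
    unfold gg
    fun_prop
  have hint : Integrable (fun p : ℝ × (ℝ × ℝ) => gg (f p.1) (h p.1) 2 b p.2) (μ.prod ν) := by
    have hb : ∀ᵐ p ∂(μ.prod ν), ‖gg (f p.1) (h p.1) 2 b p.2‖ ≤ R ^ 2 * R ^ b := by
      have e : μ.prod ν = (volume.prod volume).restrict (Ioo 0 L ×ˢ Reg R) := by
        rw [hμ, hν, Measure.prod_restrict]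
      rw [e]
      filter_upwards [ae_restrict_mem (measurableSet_Ioo.prod (Reg_measurable R))] with p hp
      have h1 := (Reg_subset_Ioc R) hp.2
      exact gg_bound 2 b hp.2.1 hp.2.2.1 h1.1.2 h1.2.2
    exact Integrable.of_bound hmeas.aestronglyMeasurable _ hb
  have hswap := integral_integral_swap (f := fun r c => gg (f r) (h r) 2 b c) (μ := μ) (ν := ν) hint
  -- lower bound
  have hact : ∀ c : ℝ × ℝ, (2 * ∫ r in Ioo 0 L, √(1 - Veff f h c.1 c.2 r)) * (c.1 ^ 2 * c.2 ^ b) =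
      2 * ∫ r, gg (f r) (h r) 2 b c ∂μ := by
    intro c
    rw [mul_assoc, ← integral_mul_const]
    rfl
  have h1 : π * (2 * R ^ (b + 5) /
        (((b : ℝ) + 1) * ((b : ℝ) + 3) * ((b : ℝ) + 5) ^ 2 * ((b : ℝ) + 7))) ≤
      2 * ∫ c, ∫ r, gg (f r) (h r) 2 b c ∂μ ∂ν := by
    rw [← lower_int hR, ← integral_const_mul]
    apply setIntegral_mono_on _ _ (Reg_measurable R)
    · intro c hc
      rw [← hact]
      apply mul_le_mul_of_nonneg_right (hA c hc)
      have := hc.1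
      have := hc.2.1
      positivity
    · have h2 : IntegrableOn (fun c : ℝ × ℝ =>
          π * (R - c.1 - √(c.1 ^ 2 + c.2 ^ 2)) * (c.1 ^ 2 * c.2 ^ b))
          (Icc (0 : ℝ) R ×ˢ Icc (0 : ℝ) R) :=
        (Continuous.continuousOn (by fun_prop)).integrableOn_compact (isCompact_Icc.prod isCompact_Icc)
      exact h2.mono_set ((Reg_subset_Ioc R).trans
        (prod_mono Ioc_subset_Icc_self Ioc_subset_Icc_self))
    · exact (hint.integral_prod_right).const_mul 2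
  rw [← hswap] at h1
  -- comparison
  have hIm : Integrable (fun r => ∫ c, gg (f r) (h r) 2 b c ∂ν) μ := hint.integral_prod_left
  have hfi : Integrable (fun r => f r ^ (2 + 1) * h r ^ (b + 1) * K) μ := by
    have h3 : IntegrableOn (fun r => f r ^ (2 + 1) * h r ^ (b + 1) * K) (Icc 0 L) :=
      (Continuous.continuousOn (by fun_prop)).integrableOn_Icc
    exact h3.mono_set Ioo_subset_Icc_self
  have h3 : ∫ r, ∫ c, gg (f r) (h r) 2 b c ∂ν ∂μ < ∫ r, f r ^ (2 + 1) * h r ^ (b + 1) * K ∂μ := by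
    rw [← sub_pos, ← integral_sub hfi hIm]
    rw [integral_pos_iff_support_of_nonneg_ae]
    · obtain ⟨r₀, hr0, hrL, hrR⟩ := hbig
      have hopen : IsOpen (Ioo 0 L ∩ {r | R < 2 * f r}) :=
        isOpen_Ioo.inter (isOpen_lt continuous_const (by fun_prop))
      have hpos : 0 < volume (Ioo 0 L ∩ {r | R < 2 * f r}) :=
        hopen.measure_pos volume ⟨r₀, ⟨hr0, hrL⟩, hrR⟩
      have hμpos : 0 < μ (Ioo 0 L ∩ {r | R < 2 * f r}) := by
        rw [hμ, Measure.restrict_apply hopen.measurableSet]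
        have : Ioo 0 L ∩ {r | R < 2 * f r} ∩ Ioo 0 L = Ioo 0 L ∩ {r | R < 2 * f r} := by
          ext x; simp; tauto
        rwa [this]
      refine hμpos.trans_le (measure_mono ?_)
      intro r hr
      rw [Function.mem_support]
      have h5 := gg_lt (hf.f_pos r hr.1.1 hr.1.2) (hf.h_pos r hr.1.1 hr.1.2.le) hR hr.2 2 b
      exact (sub_pos.mpr h5).ne'
    · have hae : ∀ᵐ r ∂μ, r ∈ Ioo 0 L := ae_restrict_mem measurableSet_Ioo
      filter_upwards [hae] with r hr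
      have h5 := gg_le (R := R) (hf.f_pos r hr.1 hr.2) (hf.h_pos r hr.1 hr.2.le) 2 b
      simp only [Pi.zero_apply]
      exact sub_nonneg.2 h5
    · exact hfi.sub hIm
  have h4 : ∫ r, f r ^ (2 + 1) * h r ^ (b + 1) * K ∂μ =
      K * ∫ r in (0 : ℝ)..L, f r ^ 3 * h r ^ (b + 1) := by
    rw [integral_mul_const, intervalIntegral.integral_of_le hf.pos.le, hμ,
      integral_Ioc_eq_integral_Ioo, mul_comm]
  -- constants
  have hB : J1 = (1 / ((b : ℝ) + 2)) * ∫ x in (0 : ℝ)..(π / 2), Real.sin x ^ b :=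
    Pool.Agent.H206R2.Rot.TE.B_eq b
  have hKv : K = π / (2 * (((b : ℝ) + 1) * ((b : ℝ) + 3) * ((b : ℝ) + 5))) := by
    have s1 := Pool.Agent.H206R2.Rot2.TI.SC_left 0 (b + 3)
    have s2 := Pool.Agent.H206R2.Rot2.TI.SC_right 0 (b + 1)
    have s3 := Pool.Agent.H206R2.Rot2.TI.SC_zero_pair b
    rw [show b + 1 + 2 = b + 3 by ring] at s2
    rw [show 0 + 2 = 2 by ring] at s1
    push_cast at s1 s2
    have q1 : (b : ℝ) + 1 ≠ 0 := by positivity
    have q2 : (b : ℝ) + 2 ≠ 0 := by positivity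
    have q3 : (b : ℝ) + 3 ≠ 0 := by positivity
    have q5 : (b : ℝ) + 5 ≠ 0 := by positivity
    have t1 : SC 2 (b + 3) = SC 0 (b + 3) / ((b : ℝ) + 5) := by
      rw [eq_div_iff q5]
      linarith
    have t2 : SC 0 (b + 3) = ((b : ℝ) + 2) * SC 0 (b + 1) / ((b : ℝ) + 3) := by
      rw [eq_div_iff q3]
      linarith
    rw [hK, hB, t1, t2]
    calc (1 / ((b : ℝ) + 2) * ∫ x in (0 : ℝ)..(π / 2), Real.sin x ^ b) *
          (((b : ℝ) + 2) * SC 0 (b + 1) / ((b : ℝ) + 3) / ((b : ℝ) + 5)) =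
          ((∫ x in (0 : ℝ)..(π / 2), Real.sin x ^ b) * SC 0 (b + 1)) /
            (((b : ℝ) + 3) * ((b : ℝ) + 5)) := by
          field_simp
      _ = _ := by
          rw [s3]
          field_simp
  rw [h4] at h3
  have h6 : π * (2 * R ^ (b + 5) /
        (((b : ℝ) + 1) * ((b : ℝ) + 3) * ((b : ℝ) + 5) ^ 2 * ((b : ℝ) + 7))) =
      4 * K / (((b : ℝ) + 5) * ((b : ℝ) + 7)) * R ^ (b + 5) := by
    rw [hKv]
    field_simp
    ring
  rw [h6] at h1
  have hKpos : 0 < K := by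
    rw [hKv]
    positivity
  have h7 : 4 * K / (((b : ℝ) + 5) * ((b : ℝ) + 7)) * R ^ (b + 5) <
      4 * K / (((b : ℝ) + 5) * ((b : ℝ) + 7)) *
        (((b : ℝ) + 5) * (((b : ℝ) + 7) / 2) * ∫ r in (0 : ℝ)..L, f r ^ 3 * h r ^ (b + 1)) := by
    calc _ ≤ _ := h1
      _ < 2 * (K * ∫ r in (0 : ℝ)..L, f r ^ 3 * h r ^ (b + 1)) := by linarith
      _ = _ := by
        field_simp
        ring
  exact lt_of_mul_lt_mul_left h7 (by positivity)

end H738CP.HV
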