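import Pool.Agent.H738R3.CP.Main
import Pool.Agent.H738R3.CP.HE
import Pool.Agent.H738R3.CP.HV

/-!
# Short periodic geodesics for `Sp(n)Sp(1)`-invariant metrics on `ℍP^n`
-/

open Real Set MeasureTheory Filter Topology Quaternion
open scoped ContDiff
open Pool.Agent.H206R2.Rot2 (Veff well actW)

namespace H738CP.HMain

theorem short_geodesicHP {L : ℝ} {f h : ℝ → ℝ} (hf : IsProfileCP L f h) {n : ℕ} (hn : 2 ≤ n) :
    ∃ (γ : ℝ → Set (ℍ[ℝ] × (Fin n → ℍ[ℝ]))) (T : ℝ), 0 < T ∧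
      IsGeodesicHP L f h 1 γ ∧ (∀ t, γ (t + T) = γ t) ∧
      T ^ (4 * n) ≤ 4 * n * (2 * n + 1) * π ^ (4 * n) *
        ∫ r in (0 : ℝ)..L, f r ^ 3 * h r ^ (4 * n - 4) := by
  have hfc : Continuous f := hf.smooth_f.continuous
  have hhc : Continuous h := hf.smooth_h.continuous
  have hLpos := hf.pos
  have hpi := Real.pi_pos
  have hn0 : 4 * n ≠ 0 := by omega
  have hnpos : (0 : ℝ) < n := by exact_mod_cast (by omega : 0 < n)
  set V : ℝ := ∫ r in (0 : ℝ)..L, f r ^ 3 * h r ^ (4 * n - 4) with hVdef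
  have hV : 0 < V := by
    refine intervalIntegral.intervalIntegral_pos_of_pos_on
      (((hfc.pow _).mul (hhc.pow _)).intervalIntegrable _ _) (fun x hx => ?_) hLpos
    exact mul_pos (pow_pos (hf.f_pos x hx.1 hx.2) _) (pow_pos (hf.h_pos x hx.1 hx.2.le) _)
  obtain ⟨R, hR, hRn⟩ : ∃ R : ℝ, 0 < R ∧ R ^ (4 * n) = 4 * n * (2 * n + 1) * V := by
    refine ⟨(4 * n * (2 * n + 1) * V) ^ (((4 * n : ℕ) : ℝ)⁻¹),
      Real.rpow_pos_of_pos (by positivity) _, ?_⟩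
    rw [Real.rpow_inv_natCast_pow (by positivity) hn0]
  suffices hmain : ∃ (γ : ℝ → Set (ℍ[ℝ] × (Fin n → ℍ[ℝ]))) (T : ℝ),
      0 < T ∧ IsGeodesicHP L f h 1 γ ∧ (∀ t, γ (t + T) = γ t) ∧ T ≤ π * R by
    obtain ⟨γ, T, hT, hγ, hper, hle⟩ := hmain
    refine ⟨γ, T, hT, hγ, hper, ?_⟩
    have h1 : T ^ (4 * n) ≤ (π * R) ^ (4 * n) := pow_le_pow_left₀ hT.le hle _
    calc T ^ (4 * n) ≤ (π * R) ^ (4 * n) := h1
      _ = π ^ (4 * n) * R ^ (4 * n) := mul_pow _ _ _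
      _ = 4 * n * (2 * n + 1) * π ^ (4 * n) * V := by rw [hRn]; ring
  by_contra hcon
  have hno : ∀ (γ : ℝ → Submodule ℂ (ℂ × EuclideanSpace ℂ (Fin 2))) (T : ℝ), 0 < T →
      IsGeodesicCP L f h 1 γ → (∀ t, γ (t + T) = γ t) → π * R < T := by
    intro γ T hT hγ hper
    by_contra hle
    obtain ⟨γ', hγ', hper'⟩ := HE.embedHP hf hn hγ
    exact hcon ⟨γ', T, hT, hγ', hper' T hper, not_lt.1 hle⟩
  obtain ⟨hA, hbig⟩ := Main.action_bound hf le_rfl hR hno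
  have h1 := HV.volume_boundHP hf hn hR hA hbig
  rw [← hVdef, hRn] at h1
  exact lt_irrefl _ h1

end H738CP.HMain
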