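import Pool.Agent.H738R3.CP.HDefs

open Real Set MeasureTheory Filter Topology Quaternion
open scoped ContDiff
open Pool.Agent.H206R2.Rot2 (Veff well actW)

namespace H738CP.HStubs

/-- HE: geodesics of the totally geodesic `ℂP²`. -/
theorem embedHP {L : ℝ} {f h : ℝ → ℝ} (hf : IsProfileCP L f h) {n : ℕ} (hn : 2 ≤ n) {v : ℝ}
    {γ : ℝ → Submodule ℂ (ℂ × EuclideanSpace ℂ (Fin 2))} (hγ : IsGeodesicCP L f h v γ) :
    ∃ γ' : ℝ → Set (ℍ[ℝ] × (Fin n → ℍ[ℝ])), IsGeodesicHP L f h v γ' ∧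
      ∀ T, (∀ t, γ (t + T) = γ t) → ∀ t, γ' (t + T) = γ' t := by
  sorry

/-- HV: the volume bound. -/
theorem volume_boundHP {L : ℝ} {f h : ℝ → ℝ} (hf : IsProfileCP L f h) {n : ℕ} (hn : 2 ≤ n)
    {R : ℝ} (hR : 0 < R)
    (hA : ∀ c ∈ Reg R, π * (R - c.1 - √(c.1 ^ 2 + c.2 ^ 2)) ≤
      2 * ∫ r in Ioo 0 L, √(1 - Veff f h c.1 c.2 r))
    (hbig : ∃ r, 0 < r ∧ r < L ∧ R < 2 * f r) :
    R ^ (4 * n) < 4 * n * (2 * n + 1) * ∫ r in (0 : ℝ)..L, f r ^ 3 * h r ^ (4 * n - 4) := by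
  sorry

/-- HL: closed geodesics of the symmetric metric of `ℍP^n` have length at least `π`. -/
theorem length_HP {n : ℕ} {v T : ℝ} (hv : 0 < v) (hT : 0 < T)
    {γ : ℝ → Set (ℍ[ℝ] × (Fin n → ℍ[ℝ]))}
    (hγ : IsGeodesicHP (π / 2) (fun r => Real.sin r * Real.cos r) Real.sin v γ)
    (hper : ∀ t, γ (t + T) = γ t) : π ≤ v * T := by
  sorry

end H738CP.HStubs
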