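import Pool.Agent.H738R3.CP.Defs

/-!
# LI: geodesics of the totally geodesic `ℂP¹`
-/

open Real Set MeasureTheory Filter Topology
open scoped ContDiff
open Pool.Agent.H206R2.Rot2 (Veff well actW)

namespace H738CP.LI

theorem norm2 (x : EuclideanSpace ℝ (Fin 2)) : ‖x‖ ^ 2 = x 0 ^ 2 + x 1 ^ 2 := by
  rw [EuclideanSpace.norm_sq_eq]
  simp [Fin.sum_univ_two]

theorem comp_deriv {u : ℝ → EuclideanSpace ℝ (Fin 2)} {u' : EuclideanSpace ℝ (Fin 2)} {t : ℝ}
    (h : HasDerivAt u u' t) (i : Fin 2) : HasDerivAt (fun t => u t i) (u' i) t :=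
  (EuclideanSpace.proj (𝕜 := ℝ) i).hasFDerivAt.comp_hasDerivAt t h

/-- the complex number of a point of the plane -/
noncomputable def zt (x : EuclideanSpace ℝ (Fin 2)) : ℂ := (x 0 : ℂ) + (x 1 : ℂ) * Complex.I

theorem zt_norm (x : EuclideanSpace ℝ (Fin 2)) : ‖zt x‖ ^ 2 = ‖x‖ ^ 2 := by
  rw [norm2, ← Complex.normSq_eq_norm_sq, Complex.normSq_apply]
  unfold zt
  simp
  ring

theorem zt_deriv {u : ℝ → EuclideanSpace ℝ (Fin 2)} {u' : EuclideanSpace ℝ (Fin 2)} {t : ℝ}
    (h : HasDerivAt u u' t) : HasDerivAt (fun t => zt (u t)) (zt u') t := by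
  unfold zt
  exact ((comp_deriv h 0).ofReal_comp).add (((comp_deriv h 1).ofReal_comp).mul_const _)

theorem zt_smooth {u : ℝ → EuclideanSpace ℝ (Fin 2)} (h : ContDiff ℝ 2 u) :
    ContDiff ℝ 2 (fun t => zt (u t)) := by
  unfold zt
  have h0 : ContDiff ℝ 2 (fun t => u t 0) := (EuclideanSpace.proj (𝕜 := ℝ) (0 : Fin 2)).contDiff.comp h
  have h1 : ContDiff ℝ 2 (fun t => u t 1) := (EuclideanSpace.proj (𝕜 := ℝ) (1 : Fin 2)).contDiff.comp h
  exact (Complex.ofRealCLM.contDiff.comp h0).add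
    ((Complex.ofRealCLM.contDiff.comp h1).mul contDiff_const)

theorem zt_smul (c : ℝ) (x : EuclideanSpace ℝ (Fin 2)) : zt (c • x) = (c : ℂ) * zt x := by
  unfold zt
  simp
  ring

/-- equal points give equal lines -/
theorem line_eq {n : ℕ} (e : EuclideanSpace ℂ (Fin n)) {φ ψ : ℝ} {ζ η : ℂ} (hζ : ζ ≠ 0)
    (hη : η ≠ 0) (h1 : ((Real.sin (2 * φ) : ℝ) : ℂ) * ζ = ((Real.sin (2 * ψ) : ℝ) : ℂ) * η)
    (h2 : Real.cos (2 * φ) = Real.cos (2 * ψ)) :
    Submodule.span ℂ {(((Real.cos φ : ℂ), ((Real.sin φ : ℝ) : ℂ) • (ζ • e)) :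
      ℂ × EuclideanSpace ℂ (Fin n))} =
    Submodule.span ℂ {((Real.cos ψ : ℂ), ((Real.sin ψ : ℝ) : ℂ) • (η • e))} := by
  have hc : Real.cos φ ^ 2 = Real.cos ψ ^ 2 := by
    rw [Real.cos_two_mul, Real.cos_two_mul] at h2
    linarith
  have hs : Real.sin φ ^ 2 = Real.sin ψ ^ 2 := by
    have a := Real.sin_sq_add_cos_sq φ
    have b := Real.sin_sq_add_cos_sq ψ
    linarith
  have key : ∃ c : ℂ, c ≠ 0 ∧ c * (Real.cos φ : ℂ) = (Real.cos ψ : ℂ) ∧
      c * ((Real.sin φ : ℂ) * ζ) = (Real.sin ψ : ℂ) * η := by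
    by_cases h0 : Real.cos φ = 0
    · have h0' : Real.cos ψ = 0 := by
        rw [h0] at hc
        have : Real.cos ψ ^ 2 = 0 := by rw [← hc]; norm_num
        exact pow_eq_zero_iff (two_ne_zero) |>.1 this
      have hsφ : Real.sin φ ≠ 0 := by
        intro h
        have := Real.sin_sq_add_cos_sq φ
        rw [h, h0] at this
        norm_num at this
      have hsψ : Real.sin ψ ≠ 0 := by
        intro h
        have := Real.sin_sq_add_cos_sq ψ
        rw [h, h0'] at this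
        norm_num at this
      have a1 : ((Real.sin φ : ℝ) : ℂ) ≠ 0 := Complex.ofReal_ne_zero.2 hsφ
      have a2 : ((Real.sin ψ : ℝ) : ℂ) ≠ 0 := Complex.ofReal_ne_zero.2 hsψ
      refine ⟨(Real.sin ψ : ℂ) * η / ((Real.sin φ : ℂ) * ζ),
        div_ne_zero (mul_ne_zero a2 hη) (mul_ne_zero a1 hζ), ?_, ?_⟩
      · rw [h0, h0']
        simp
      · exact div_mul_cancel₀ _ (mul_ne_zero a1 hζ)
    · have h0' : Real.cos ψ ≠ 0 := by
        intro h
        rw [h] at hc
        apply h0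
        have : Real.cos φ ^ 2 = 0 := by rw [hc]; norm_num
        exact pow_eq_zero_iff (two_ne_zero) |>.1 this
      have a1 : ((Real.cos φ : ℝ) : ℂ) ≠ 0 := Complex.ofReal_ne_zero.2 h0
      have a2 : ((Real.cos ψ : ℝ) : ℂ) ≠ 0 := Complex.ofReal_ne_zero.2 h0'
      refine ⟨(Real.cos ψ : ℂ) / (Real.cos φ : ℂ), div_ne_zero a2 a1, div_mul_cancel₀ _ a1, ?_⟩
      have hcC : (Real.cos φ : ℂ) ^ 2 = (Real.cos ψ : ℂ) ^ 2 := by
        rw [← Complex.ofReal_pow, ← Complex.ofReal_pow, hc]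
      rw [Real.sin_two_mul, Real.sin_two_mul] at h1
      rw [div_mul_eq_mul_div, div_eq_iff a1]
      apply mul_left_cancel₀ a2
      push_cast at h1 hcC ⊢
      linear_combination (1 / 2) * Complex.cos φ * h1 - Complex.sin φ * ζ * hcC
  obtain ⟨c, c0, c1, c2⟩ := key
  rw [Submodule.span_singleton_eq_span_singleton]
  refine ⟨Units.mk0 c c0, ?_⟩
  rw [Units.smul_def, Units.val_mk0, Prod.smul_mk, smul_eq_mul, c1, smul_smul, smul_smul,
    smul_smul, mul_assoc, c2]

theorem lift_line {L : ℝ} {f h : ℝ → ℝ} (hf : IsProfileCP L f h) {n : ℕ} (hn : 2 ≤ n) {v : ℝ}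
    {γ : ℝ → EuclideanSpace ℝ (Fin 2) × ℝ} (hγ : Pool.Agent.H206R2.Rot.IsGeodesic L f v γ) :
    ∃ γ' : ℝ → Submodule ℂ (ℂ × EuclideanSpace ℂ (Fin n)), IsGeodesicCP L f h v γ' ∧
      ∀ T, (∀ t, γ (t + T) = γ t) → ∀ t, γ' (t + T) = γ' t := by
  obtain ⟨r, u, hr, hu, hu1, hγ', hr2, hu2, hsp⟩ := hγ
  have hL := hf.pos
  obtain ⟨e, he⟩ : ∃ e : EuclideanSpace ℂ (Fin n), ‖e‖ = 1 :=
    ⟨EuclideanSpace.single ⟨0, by omega⟩ 1, by simp⟩
  have hC2 : ContDiff ℝ (1 + 1) u := by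
    have e2 : (1 + 1 : WithTop ℕ∞) = 2 := by norm_num
    rw [e2]
    exact hu
  have hdu : ∀ t, HasDerivAt u (deriv u t) t := fun t =>
    (hu.differentiable (by norm_num)).differentiableAt.hasDerivAt
  have hCr : ContDiff ℝ 1 (deriv u) := (contDiff_succ_iff_deriv.1 hC2).2.2
  have hddu : ∀ t, HasDerivAt (deriv u) (deriv (deriv u) t) t := fun t =>
    (hCr.differentiable (by norm_num)).differentiableAt.hasDerivAt
  have hdr : ∀ t, HasDerivAt r (deriv r t) t := fun t =>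
    (hr.differentiable (by norm_num)).differentiableAt.hasDerivAt
  -- components
  have hn1 : ∀ t, u t 0 ^ 2 + u t 1 ^ 2 = 1 := fun t => by
    rw [← norm2, hu1 t]; norm_num
  have horth : ∀ t, u t 0 * deriv u t 0 + u t 1 * deriv u t 1 = 0 := by
    intro t
    have d0 := comp_deriv (hdu t) 0
    have d1 := comp_deriv (hdu t) 1
    have d2 : HasDerivAt (fun t => u t 0 ^ 2 + u t 1 ^ 2)
        (2 * u t 0 * deriv u t 0 + 2 * u t 1 * deriv u t 1) t := by
      have := (d0.pow 2).add (d1.pow 2)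
      refine this.congr_deriv ?_
      simp
    have d3 : HasDerivAt (fun t => u t 0 ^ 2 + u t 1 ^ 2) 0 t := by
      have : (fun t => u t 0 ^ 2 + u t 1 ^ 2) = fun _ => (1 : ℝ) := funext hn1
      rw [this]
      exact hasDerivAt_const t 1
    have := d2.unique d3
    linarith
  obtain ⟨a, ha⟩ : ∃ a : ℝ → ℝ, a = fun t => u t 0 * deriv u t 1 - u t 1 * deriv u t 0 := ⟨_, rfl⟩
  have hat : ∀ t, a t = u t 0 * deriv u t 1 - u t 1 * deriv u t 0 := fun t => by rw [ha]
  have hu'0 : ∀ t, deriv u t 0 = - a t * u t 1 := by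
    intro t
    rw [hat]
    linear_combination (- deriv u t 0) * hn1 t + u t 0 * horth t
  have hu'1 : ∀ t, deriv u t 1 = a t * u t 0 := by
    intro t
    rw [hat]
    linear_combination (- deriv u t 1) * hn1 t + u t 1 * horth t
  have hnu : ∀ t, ‖deriv u t‖ ^ 2 = a t ^ 2 := by
    intro t
    rw [norm2, hu'0, hu'1]
    linear_combination a t ^ 2 * hn1 t
  have had : ∀ t, HasDerivAt a (u t 0 * deriv (deriv u) t 1 - u t 1 * deriv (deriv u) t 0) t := by
    intro t
    have d0 := comp_deriv (hdu t) 0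
    have d1 := comp_deriv (hdu t) 1
    have d2 := comp_deriv (hddu t) 0
    have d3 := comp_deriv (hddu t) 1
    rw [ha]
    refine ((d0.mul d3).sub (d1.mul d2)).congr_deriv ?_
    ring
  have hode : ∀ t, f (r t) * (u t 0 * deriv (deriv u) t 1 - u t 1 * deriv (deriv u) t 0) +
      2 * deriv f (r t) * deriv r t * a t = 0 := by
    intro t
    have q0 := congrArg (fun x : EuclideanSpace ℝ (Fin 2) => x 0) (hu2 t)
    have q1 := congrArg (fun x : EuclideanSpace ℝ (Fin 2) => x 1) (hu2 t)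
    simp only [PiLp.add_apply, PiLp.smul_apply, smul_eq_mul, PiLp.zero_apply] at q0 q1
    rw [hat]
    linear_combination u t 0 * q1 - u t 1 * q0
  have hdf : ∀ t, HasDerivAt (fun t => f (r t)) (deriv f (r t) * deriv r t) t := fun t =>
    ((hf.smooth_f.differentiable (by simp)).differentiableAt.hasDerivAt).comp t (hdr t)
  have hP : ∃ P : ℝ, ∀ t, f (r t) ^ 2 * a t = P := by
    refine ⟨f (r 0) ^ 2 * a 0, fun t => ?_⟩
    have hd : ∀ t, HasDerivAt (fun t => f (r t) ^ 2 * a t) 0 t := by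
      intro t
      refine (((hdf t).pow 2).mul (had t)).congr_deriv ?_
      have := hode t
      simp only [Pi.pow_apply, Nat.cast_ofNat, Nat.add_one_sub_one, pow_one]
      linear_combination f (r t) * this
    exact is_const_of_deriv_eq_zero (fun t => (hd t).differentiableAt) (fun t => (hd t).deriv) t 0
  -- the curve
  obtain ⟨z, hz⟩ : ∃ z : ℝ → EuclideanSpace ℂ (Fin n), z = fun t => zt (u t) • e := ⟨_, rfl⟩
  have hzt : ∀ t, z t = zt (u t) • e := fun t => by rw [hz]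
  have hζ1 : ∀ t, ‖zt (u t)‖ = 1 := by
    intro t
    have h1 := zt_norm (u t)
    rw [hu1 t] at h1
    have h2 := norm_nonneg (zt (u t))
    nlinarith
  have hdz : ∀ t, HasDerivAt z (zt (deriv u t) • e) t := by
    intro t
    rw [hz]
    exact (zt_deriv (hdu t)).smul_const e
  have hzd : ∀ t, zt (deriv u t) = ((a t : ℂ) * Complex.I) * zt (u t) := by
    intro t
    unfold zt
    rw [hu'0, hu'1]
    push_cast
    linear_combination (-(a t : ℂ) * (u t 1 : ℂ)) * Complex.I_sq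
  have hzd' : ∀ t, deriv z t = ((a t : ℂ) * Complex.I) • z t := by
    intro t
    rw [(hdz t).deriv, hzd, hzt, smul_smul]
  have hz1 : ∀ t, ‖z t‖ = 1 := fun t => by rw [hzt, norm_smul, hζ1, he, one_mul]
  have hhopf : ∀ t, hopf z t = a t := by
    intro t
    unfold hopf
    rw [hzd', inner_smul_right, inner_self_eq_norm_sq_to_K, hz1]
    simp
  have hhor : ∀ t, hor z t = 0 := by
    intro t
    unfold hor
    rw [hhopf, hzd', sub_self]
  have hhor' : hor z = fun _ => 0 := funext hhor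
  refine ⟨fun t => cpt L (r t) (z t), ⟨r, z, hr, ?_, hz1, fun t => rfl, ?_, ?_, ?_, ?_⟩, ?_⟩
  · rw [hz]
    exact (zt_smooth hu).smul contDiff_const
  · intro t
    rw [hr2 t, hhopf, hhor, hnu]
    simp
  · obtain ⟨P, hP⟩ := hP
    exact ⟨P, fun t => by rw [hhopf]; exact hP t⟩
  · intro t
    have e1 : deriv (hor z) t = 0 := by
      rw [hhor']
      simp
    rw [e1, hhor]
    simp
  · intro t
    rw [hhopf, hhor, ← hsp t, hnu]
    simp
  · intro T hT t
    have h1 := hT t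
    rw [hγ' (t + T), hγ' t] at h1
    unfold Pool.Agent.H206R2.Rot.polar at h1
    have h2 := congrArg Prod.fst h1
    have h3 := congrArg Prod.snd h1
    simp only at h2 h3
    have e2 : ∀ s, π * r s / L = 2 * (π * r s / (2 * L)) := by
      intro s
      field_simp
    rw [e2, e2] at h2 h3
    have h4 := congrArg zt h2
    rw [zt_smul, zt_smul] at h4
    have z0 : ∀ s, zt (u s) ≠ 0 := by
      intro s h0
      have := hζ1 s
      rw [h0, norm_zero] at this
      norm_num at this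
    show cpt L (r (t + T)) (z (t + T)) = cpt L (r t) (z t)
    unfold cpt
    rw [hzt, hzt]
    exact line_eq e (z0 _) (z0 _) h4 h3

end H738CP.LI
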