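import Pool.Agent.H738R3.CP.Defs

open Real Set MeasureTheory Filter Topology
open scoped ContDiff

namespace H738CP.ME

/-- ME: the closed geodesics through the fixed point. -/
theorem meridianCP {L : ℝ} {f h : ℝ → ℝ} (hf : IsProfileCP L f h) {n : ℕ} (hn : 2 ≤ n) :
    ∃ γ : ℝ → Submodule ℂ (ℂ × EuclideanSpace ℂ (Fin n)), IsGeodesicCP L f h 1 γ ∧
      ∀ t, γ (t + 2 * L) = γ t := by
  obtain ⟨e, he⟩ : ∃ e : EuclideanSpace ℂ (Fin n), ‖e‖ = 1 :=
    ⟨EuclideanSpace.single ⟨0, by omega⟩ 1, by simp⟩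
  have hz : deriv (fun _ : ℝ => e) = fun _ => 0 := by
    funext t
    simp
  have hhopf : ∀ t, hopf (fun _ : ℝ => e) t = 0 := by
    intro t
    simp [hopf]
  have hhor : hor (fun _ : ℝ => e) = fun _ => 0 := by
    funext t
    simp [hor, hhopf]
  refine ⟨fun t => cpt L t e, ⟨fun t => t, fun _ => e, contDiff_id, contDiff_const, fun _ => he,
    fun _ => rfl, ?_, ⟨0, ?_⟩, ?_, ?_⟩, ?_⟩
  · intro t
    rw [hhopf, hhor]
    simp
  · intro t
    rw [hhopf, mul_zero]
  · intro t
    rw [hhor]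
    simp
  · intro t
    rw [hhopf, hhor]
    simp
  · intro t
    have hL : L ≠ 0 := hf.pos.ne'
    have e1 : π * (t + 2 * L) / (2 * L) = π * t / (2 * L) + π := by
      field_simp
    show cpt L (t + 2 * L) e = cpt L t e
    unfold cpt
    rw [e1, Real.cos_add_pi, Real.sin_add_pi]
    have e2 : ((((-Real.cos (π * t / (2 * L)) : ℝ)) : ℂ),
        (((-Real.sin (π * t / (2 * L)) : ℝ) : ℂ)) • e) =
        (-1 : ℂ) • ((((Real.cos (π * t / (2 * L)) : ℝ)) : ℂ),
        (((Real.sin (π * t / (2 * L)) : ℝ) : ℂ)) • e) := by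
      rw [Prod.smul_mk, smul_smul]
      congr 1
      · push_cast
        simp
      · congr 1
        push_cast
        simp
    rw [e2]
    exact Submodule.span_singleton_smul_eq (by simp) _

end H738CP.ME
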