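import Pool.Agent.H738R3.CP.Defs

/-!
# The continuous selection of a point deep in a well (task SE)
-/

open Real Set MeasureTheory Filter Topology
open scoped ContDiff
open Pool.Agent.H206R2 (Rot.Wall)
open Pool.Agent.H206R2.Rot2 (Veff well actW)

namespace H738CP.SE

/-- The continuous inverse of a strictly decreasing function on an interval. -/
theorem inv_exists {f : ℝ → ℝ} {b L : ℝ} (hab : b ≤ L) (hc : ContinuousOn f (Icc b L))
    (hm : StrictAntiOn f (Icc b L)) :
    ∃ g : ℝ → ℝ, Continuous g ∧ (∀ y, g y ∈ Icc b L) ∧ ∀ y ∈ Icc (f L) (f b), f (g y) = y := by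
  set G : ℝ → ℝ := fun x => -f x with hG
  have hGm : StrictMonoOn G (Icc b L) := fun x hx y hy hxy => neg_lt_neg (hm hx hy hxy)
  have hGc : ContinuousOn G (Icc b L) := hc.neg
  set cl : ℝ → ℝ := fun x => max b (min L x) with hcl
  have hclI : ∀ x, cl x ∈ Icc b L := fun x =>
    ⟨le_max_left _ _, max_le hab (min_le_left _ _)⟩
  have hclc : Continuous cl := continuous_const.max (continuous_const.min continuous_id)
  have hclm : Monotone cl := fun x y hxy => max_le_max le_rfl (min_le_min le_rfl hxy)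
  have hclid : ∀ x, b ≤ x → x ≤ L → cl x = x := by
    intro x h1 h2
    simp only [hcl]
    rw [min_eq_right h2, max_eq_right h1]
  set E : ℝ → ℝ := fun x => G (cl x) + (x - cl x) with hE
  have hEc : Continuous E := by
    refine Continuous.add ?_ (continuous_id.sub hclc)
    exact hGc.comp_continuous hclc hclI
  have hclsub : ∀ x y, x ≤ y → x - cl x ≤ y - cl y := by
    intro x y hxy
    simp only [hcl]
    rcases le_total L x with h1 | h1 <;> rcases le_total L y with h2 | h2 <;>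
      rcases le_total b x with h3 | h3 <;> rcases le_total b y with h4 | h4 <;>
      simp only [min_eq_left, min_eq_right, max_eq_right, max_eq_left, h1, h2, h3, h4, hab] <;>
      linarith
  have hEm : StrictMono E := by
    intro x y hxy
    have h1 := hclm hxy.le
    have h2 := hclsub x y hxy.le
    simp only [hE]
    rcases h1.eq_or_lt with h3 | h3
    · rw [h3] at h2 ⊢
      linarith
    · have h4 := hGm (hclI x) (hclI y) h3
      linarith
  have hEs : Function.Surjective E := by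
    refine hEc.surjective ?_ ?_
    · refine Filter.tendsto_atTop_mono (f := fun x => x + (G b - L)) (fun x => ?_)
        (Filter.tendsto_atTop_add_const_right _ _ Filter.tendsto_id)
      have h1 : G b ≤ G (cl x) := hGm.monotoneOn ⟨le_rfl, hab⟩ (hclI x) (hclI x).1
      have h2 := (hclI x).2
      simp only [hE]
      linarith
    · refine Filter.tendsto_atBot_mono (f := fun x : ℝ => x + (G L - b)) (g := E) (fun x => ?_)
        (Filter.tendsto_atBot_add_const_right _ _ Filter.tendsto_id)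
      have h1 : G (cl x) ≤ G L := hGm.monotoneOn (hclI x) ⟨hab, le_rfl⟩ (hclI x).2
      have h2 := (hclI x).1
      simp only [hE]
      linarith
  set e := hEm.orderIsoOfSurjective E hEs with he
  have hec : Continuous e.symm := e.symm.continuous
  have hes : ∀ y, E (e.symm y) = y := fun y =>
    hEm.orderIsoOfSurjective_self_symm_apply E hEs y
  have hEb : E b = G b := by
    simp only [hE]
    rw [hclid b le_rfl hab]
    ring
  have hEL : E L = G L := by
    simp only [hE]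
    rw [hclid L hab le_rfl]
    ring
  refine ⟨fun y => cl (e.symm (-y)), hclc.comp (hec.comp continuous_neg), fun y => hclI _, ?_⟩
  intro y hy
  have h1 : b ≤ e.symm (-y) := by
    refine hEm.le_iff_le.mp ?_
    rw [hes, hEb]
    exact neg_le_neg hy.2
  have h2 : e.symm (-y) ≤ L := by
    refine hEm.le_iff_le.mp ?_
    rw [hes, hEL]
    exact neg_le_neg hy.1
  have h3 := hclid _ h1 h2
  have h4 := hes (-y)
  simp only [hE] at h4
  rw [h3] at h4
  show f (cl (e.symm (-y))) = y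
  rw [h3]
  simp only [hG] at h4
  linarith

/-- The algebraic heart. -/
theorem key {F H P J S : ℝ} (hP : 0 < P) (hPJ : P < J) (hS : 0 < S)
    (hF : F * (P + J) ^ 2 = S ^ 2 * (P * J)) (h1 : 2 * F ≤ H) (h2 : S ^ 2 * (H - F) ≤ H ^ 2) :
    S ^ 2 * J ≤ H * (P + J) := by
  by_contra hcon
  push Not at hcon
  have hJ : 0 < J := hP.trans hPJ
  have hid : (H * (P + J) - S ^ 2 * P) * (H * (P + J) - S ^ 2 * J) =
      (P + J) ^ 2 * (H ^ 2 - S ^ 2 * (H - F)) := by
    linear_combination (-S ^ 2) * hF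
  have hnn : 0 ≤ (H * (P + J) - S ^ 2 * P) * (H * (P + J) - S ^ 2 * J) := by
    rw [hid]
    have : 0 ≤ H ^ 2 - S ^ 2 * (H - F) := by linarith
    positivity
  have h3 : H * (P + J) ≤ S ^ 2 * P := by
    by_contra h4
    push Not at h4
    have : (H * (P + J) - S ^ 2 * P) * (H * (P + J) - S ^ 2 * J) < 0 :=
      mul_neg_of_pos_of_neg (by linarith) (by linarith)
    linarith
  have h4 : 2 * (S ^ 2 * (P * J)) ≤ H * (P + J) * (P + J) := by
    have : 2 * F * (P + J) ^ 2 ≤ H * (P + J) ^ 2 := by gcongr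
    nlinarith
  have h5 : H * (P + J) * (P + J) ≤ S ^ 2 * P * (P + J) := by
    have : 0 < P + J := by linarith
    gcongr
  have h6 : 0 < S ^ 2 * P := by positivity
  nlinarith

/-- SE: the continuous selection of a point deep in a well. -/
theorem selectionCP {L : ℝ} {f h : ℝ → ℝ} (hf : IsProfileCP L f h) {R S a b : ℝ} (hR : 0 < R)
    (hRS : R < S) (hwall : Pool.Agent.H206R2.Rot.Wall L f (S / 2) a b)
    (hS : ∀ r ∈ Icc b L, 2 * f r ^ 2 ≤ h r ^ 2 ∧ S ^ 2 * (h r ^ 2 - f r ^ 2) ≤ h r ^ 4) :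
    ∃ (s : ℝ × ℝ → ℝ) (ρ lo hi η b₂ : ℝ), ρ < 1 ∧ 0 < lo ∧ hi < L ∧ 0 < η ∧
      ContinuousOn s {c | 0 < c.1 ∧ 0 < c.2} ∧
      (∀ c : ℝ × ℝ, 0 < c.1 → 0 < c.2 → lo ≤ s c ∧ s c ≤ hi) ∧
      (∀ c ∈ Reg R, Veff f h c.1 c.2 (s c) ≤ ρ) ∧
      (∀ x ∈ Icc hi L, R < h x) ∧
      (∀ c : ℝ × ℝ, 0 < c.1 → 0 < c.2 → c.1 ≤ η * c.2 → s c = hi) ∧
      b ≤ b₂ ∧ b₂ < L ∧ R < 2 * f b₂ ∧
      (∀ c : ℝ × ℝ, 0 < c.1 → 0 < c.2 → c.2 ≤ η * c.1 → b ≤ s c ∧ s c ≤ b₂) := by
  have hL := hf.pos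
  have hS0 : 0 < S := hR.trans hRS
  have hb : 0 < b := hwall.apos.trans_le hwall.ab
  have hbL : b < L := hwall.bL
  have hfc : Continuous f := hf.smooth_f.continuous
  have hhc : Continuous h := hf.smooth_h.continuous
  have hfL : f L = 0 := by
    have := hf.f_odd_L 0
    rw [add_zero, sub_zero] at this
    linarith
  have hhL : 0 < h L := hf.h_pos L hL le_rfl
  have hShL : S ≤ h L := by
    have h1 := (hS L ⟨hbL.le, le_rfl⟩).2
    rw [hfL] at h1
    have h2 : S ^ 2 * h L ^ 2 ≤ h L ^ 2 * h L ^ 2 := by nlinarith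
    have h3 : S ^ 2 ≤ h L ^ 2 := le_of_mul_le_mul_right h2 (by positivity)
    exact (pow_le_pow_iff_left₀ hS0.le hhL.le two_ne_zero).mp h3
  have hfm : StrictAntiOn f (Icc b L) := by
    refine strictAntiOn_of_deriv_neg (convex_Icc b L) hfc.continuousOn ?_
    intro x hx
    rw [interior_Icc] at hx
    exact hwall.dec x hx.1.le hx.2.le
  obtain ⟨g, hgc, hgI, hg⟩ := inv_exists hbL.le hfc.continuousOn hfm
  rw [hfL, hwall.fb] at hg
  -- the number `S'`
  obtain ⟨S', hS'⟩ : ∃ S' : ℝ, S' = (R + S) / 2 := ⟨_, rfl⟩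
  have hRS' : R < S' := by rw [hS']; linarith
  have hS'S : S' < S := by rw [hS']; linarith
  have hS'0 : 0 < S' := hR.trans hRS'
  -- the point `s₁`
  obtain ⟨s₁, hbs, hsL, hs⟩ : ∃ s₁, b < s₁ ∧ s₁ < L ∧ ∀ x ∈ Icc s₁ L, S' ≤ h x := by
    have h1 : ∀ᶠ x in 𝓝 L, S' < h x := hhc.continuousAt.eventually (lt_mem_nhds (hS'S.trans_le hShL))
    obtain ⟨δ, hδ, h2⟩ := Metric.eventually_nhds_iff.mp h1
    refine ⟨max ((b + L) / 2) (L - δ / 2), lt_max_of_lt_left (by linarith),
      max_lt (by linarith) (by linarith), fun x hx => (h2 ?_).le⟩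
    have h3 := (le_max_right ((b + L) / 2) (L - δ / 2)).trans hx.1
    rw [Real.dist_eq, abs_lt]
    constructor <;> linarith [hx.2]
  have hs₁I : s₁ ∈ Icc b L := ⟨hbs.le, hsL.le⟩
  have hfs₁ : 0 < f s₁ := hf.f_pos s₁ (hb.trans hbs) hsL
  -- the radius
  set J : ℝ × ℝ → ℝ := fun c => √(c.1 ^ 2 + c.2 ^ 2) with hJ
  have hJsq : ∀ c : ℝ × ℝ, J c ^ 2 = c.1 ^ 2 + c.2 ^ 2 := fun c => Real.sq_sqrt (by positivity)
  have hJ0 : ∀ c : ℝ × ℝ, 0 < c.1 → 0 < c.2 → 0 < J c := fun c h1 h2 =>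
    Real.sqrt_pos.mpr (by positivity)
  have hJ1 : ∀ c : ℝ × ℝ, 0 < c.1 → 0 < c.2 → c.1 < J c := by
    intro c h1 h2
    have h3 := hJsq c
    have h4 := hJ0 c h1 h2
    have h5 : c.1 ^ 2 < J c ^ 2 := by
      rw [h3]
      have : 0 < c.2 ^ 2 := by positivity
      linarith
    exact (pow_lt_pow_iff_left₀ h1.le h4.le two_ne_zero).mp h5
  have hJ2 : ∀ c : ℝ × ℝ, 0 < c.1 → 0 < c.2 → c.2 < J c := by
    intro c h1 h2
    have h3 := hJsq c
    have h4 := hJ0 c h1 h2
    have h5 : c.2 ^ 2 < J c ^ 2 := by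
      rw [h3]
      have : 0 < c.1 ^ 2 := by positivity
      linarith
    exact (pow_lt_pow_iff_left₀ h2.le h4.le two_ne_zero).mp h5
  -- the argument
  set A : ℝ × ℝ → ℝ := fun c => S * √(c.1 * J c) / (c.1 + J c) with hA
  have hA0 : ∀ c : ℝ × ℝ, 0 < c.1 → 0 < c.2 → 0 < A c := by
    intro c h1 h2
    have h4 := hJ0 c h1 h2
    simp only [hA]
    positivity
  have hAsq : ∀ c : ℝ × ℝ, 0 < c.1 → 0 < c.2 →
      A c ^ 2 * (c.1 + J c) ^ 2 = S ^ 2 * (c.1 * J c) := by
    intro c h1 h2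
    have h4 := hJ0 c h1 h2
    simp only [hA]
    rw [div_pow, mul_pow, Real.sq_sqrt (by positivity)]
    field_simp
  have hA2 : ∀ c : ℝ × ℝ, 0 < c.1 → 0 < c.2 → A c ≤ S / 2 := by
    intro c h1 h2
    have h4 := hJ0 c h1 h2
    have h5 := hAsq c h1 h2
    have h6 := hA0 c h1 h2
    have h7 : A c ^ 2 * (c.1 + J c) ^ 2 ≤ (S / 2) ^ 2 * (c.1 + J c) ^ 2 := by
      rw [h5]
      nlinarith [sq_nonneg (S * (c.1 - J c))]
    have h8 : A c ^ 2 ≤ (S / 2) ^ 2 := le_of_mul_le_mul_right h7 (by positivity)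
    exact (pow_le_pow_iff_left₀ h6.le (by positivity) two_ne_zero).mp h8
  have hfg : ∀ c : ℝ × ℝ, 0 < c.1 → 0 < c.2 → f (g (A c)) = A c := fun c h1 h2 =>
    hg _ ⟨(hA0 c h1 h2).le, hA2 c h1 h2⟩
  have hρS : R ^ 2 / S ^ 2 ≤ R ^ 2 / S' ^ 2 := by gcongr
  set η : ℝ := min ((f s₁ / S) ^ 2) ((S - R) / R) with hη
  have hη0 : 0 < η := lt_min (by positivity) (div_pos (by linarith) hR)
  have hη1 : S ^ 2 * η ≤ f s₁ ^ 2 := by
    have : η ≤ (f s₁ / S) ^ 2 := min_le_left _ _
    calc S ^ 2 * η ≤ S ^ 2 * (f s₁ / S) ^ 2 := by gcongr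
      _ = f s₁ ^ 2 := by field_simp
  have hη2 : R * η ≤ S - R := by
    have : η ≤ (S - R) / R := min_le_right _ _
    calc R * η ≤ R * ((S - R) / R) := by gcongr
      _ = S - R := by field_simp
  have hB : f (g (S / (2 + η))) = S / (2 + η) := by
    refine hg _ ⟨by positivity, ?_⟩
    gcongr
    linarith
  refine ⟨fun c => min (g (A c)) s₁, R ^ 2 / S' ^ 2, b, s₁, η, g (S / (2 + η)), ?_, hb, hsL, hη0,
    ?_, ?_, ?_, ?_, ?_, (hgI _).1, ?_, ?_, ?_⟩
  · rw [div_lt_one (by positivity)]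
    exact pow_lt_pow_left₀ hRS' hR.le two_ne_zero
  · refine ((hgc.min continuous_const).comp_continuousOn (g := fun y => min (g y) s₁) ?_)
    have hJc : Continuous J := by
      simp only [hJ]
      fun_prop
    refine ContinuousOn.div (by fun_prop) (by fun_prop) fun c hc => ?_
    have h1 := hJ0 c hc.1 hc.2
    have h2 := hc.1
    exact (add_pos h2 h1).ne'
  · intro c h1 h2
    exact ⟨le_min (hgI _).1 hbs.le, min_le_right _ _⟩
  · -- the bound for the potential
    intro c hc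
    obtain ⟨h1, h2, h3⟩ := hc
    have hJc0 := hJ0 c h1 h2
    have hJc1 := hJ1 c h1 h2
    have hJcs := hJsq c
    have hAc0 := hA0 c h1 h2
    have hAcs := hAsq c h1 h2
    have hfe := hfg c h1 h2
    have h3' : c.1 + J c < R := h3
    have hbd : (c.1 + J c) ^ 2 / S' ^ 2 ≤ R ^ 2 / S' ^ 2 := by gcongr
    -- the first summand at `e(c)`
    have hX : (c.1 / A c) ^ 2 = c.1 * (c.1 + J c) ^ 2 / (J c * S ^ 2) := by
      rw [div_pow, div_eq_div_iff (by positivity) (by positivity)]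
      linear_combination (-c.1) * hAcs
    rcases le_or_gt (g (A c)) s₁ with h4 | h4
    · simp only [Veff, min_eq_left h4]
      set r := g (A c) with hr
      have hrI : r ∈ Icc b L := hgI _
      have hrL : r < L := h4.trans_lt hsL
      have hhr : 0 < h r := hf.h_pos r (hb.trans_le hrI.1) hrI.2
      obtain ⟨h5, h6⟩ := hS r hrI
      rw [hfe] at h5 h6 ⊢
      have h7 := key (F := A c ^ 2) (H := h r ^ 2) h1 hJc1 hS0 hAcs h5 (by
        rw [← pow_mul]; exact h6)
      rw [hX]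
      have h8 : (c.2 / h r) ^ 2 ≤ (J c - c.1) * (c.1 + J c) ^ 2 / (J c * S ^ 2) := by
        rw [div_pow, div_le_div_iff₀ (by positivity) (by positivity)]
        have h9 : c.2 ^ 2 = (J c - c.1) * (c.1 + J c) := by linear_combination -hJcs
        rw [h9]
        have h10 : 0 ≤ (J c - c.1) * (c.1 + J c) := mul_nonneg (by linarith) (by linarith)
        calc (J c - c.1) * (c.1 + J c) * (J c * S ^ 2)
            = (J c - c.1) * (c.1 + J c) * (S ^ 2 * J c) := by ring
          _ ≤ (J c - c.1) * (c.1 + J c) * (h r ^ 2 * (c.1 + J c)) := by gcongr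
          _ = (J c - c.1) * (c.1 + J c) ^ 2 * h r ^ 2 := by ring
      have h9 : c.1 * (c.1 + J c) ^ 2 / (J c * S ^ 2) +
          (J c - c.1) * (c.1 + J c) ^ 2 / (J c * S ^ 2) = (c.1 + J c) ^ 2 / S ^ 2 := by
        field_simp
        ring
      have h10 : (c.1 + J c) ^ 2 / S ^ 2 ≤ R ^ 2 / S ^ 2 := by gcongr
      linarith
    · simp only [Veff, min_eq_right h4.le]
      have h5 : A c < f s₁ := by
        rw [← hfe]
        exact hfm hs₁I (hgI _) h4
      have h6 : (c.1 / f s₁) ^ 2 ≤ (c.1 / A c) ^ 2 := by gcongr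
      have h7 : S' ≤ h s₁ := hs s₁ ⟨le_rfl, hsL.le⟩
      have hh0 : 0 < h s₁ := hS'0.trans_le h7
      have h8 : (c.2 / h s₁) ^ 2 ≤ (c.2 / S') ^ 2 := by gcongr
      have h9 : c.1 * (c.1 + J c) ^ 2 / (J c * S ^ 2) ≤
          c.1 * (c.1 + J c) ^ 2 / (J c * S' ^ 2) := by gcongr
      have h10 : c.1 * (c.1 + J c) ^ 2 / (J c * S' ^ 2) + (c.2 / S') ^ 2 ≤
          (c.1 + J c) ^ 2 / S' ^ 2 := by
        have h11 : c.2 ^ 2 = (J c - c.1) * (c.1 + J c) := by linear_combination -hJcs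
        rw [div_pow, h11]
        have h12 : (c.1 + J c) ^ 2 / S' ^ 2 -
            (c.1 * (c.1 + J c) ^ 2 / (J c * S' ^ 2) + (J c - c.1) * (c.1 + J c) / S' ^ 2) =
            (c.1 + J c) * (c.1 * (J c - c.1)) / (J c * S' ^ 2) := by
          field_simp
          ring
        have h13 : 0 ≤ (c.1 + J c) * (c.1 * (J c - c.1)) / (J c * S' ^ 2) := by
          have : 0 < J c - c.1 := by linarith
          positivity
        linarith
      rw [hX] at h6
      linarith
  · intro x hx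
    exact hRS'.trans_le (hs x hx)
  · intro c h1 h2 h3
    have hJc0 := hJ0 c h1 h2
    have hJc2 := hJ2 c h1 h2
    have hAc0 := hA0 c h1 h2
    have hAcs := hAsq c h1 h2
    have h4 : A c ^ 2 ≤ f s₁ ^ 2 := by
      refine le_trans ?_ hη1
      have h5 : A c ^ 2 * (c.1 + J c) ^ 2 ≤ S ^ 2 * η * (c.1 + J c) ^ 2 := by
        rw [hAcs]
        have h6 : c.1 ≤ η * J c := h3.trans (by gcongr)
        have h7 : c.1 * J c ≤ η * (c.1 + J c) ^ 2 := by
          have h8 : c.1 * J c ≤ η * J c * J c := by gcongr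
          have h9 : η * J c * J c ≤ η * (c.1 + J c) ^ 2 := by
            have : J c * J c ≤ (c.1 + J c) ^ 2 := by nlinarith
            calc η * J c * J c = η * (J c * J c) := by ring
              _ ≤ _ := by gcongr
          exact h8.trans h9
        calc S ^ 2 * (c.1 * J c) ≤ S ^ 2 * (η * (c.1 + J c) ^ 2) := by gcongr
          _ = _ := by ring
      exact le_of_mul_le_mul_right h5 (by positivity)
    have h5 : A c ≤ f s₁ := (pow_le_pow_iff_left₀ hAc0.le hfs₁.le two_ne_zero).mp h4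
    rw [← hfg c h1 h2] at h5
    have h6 : s₁ ≤ g (A c) := (hfm.le_iff_ge (hgI _) hs₁I).mp h5
    exact min_eq_right h6
  · refine lt_of_le_of_ne (hgI _).2 fun heq => ?_
    rw [heq, hfL] at hB
    have : 0 < S / (2 + η) := by positivity
    linarith
  · rw [hB]
    rw [← mul_div_assoc, lt_div_iff₀ (by positivity)]
    nlinarith
  · intro c h1 h2 h3
    refine ⟨le_min (hgI _).1 hbs.le, (min_le_left _ _).trans ?_⟩
    refine (hfm.le_iff_ge (hgI _) (hgI _)).mp ?_
    rw [hB, hfg c h1 h2]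
    have hJc0 := hJ0 c h1 h2
    have hJc1 := hJ1 c h1 h2
    have h4 : J c ≤ (1 + η) * c.1 := by
      have h5 : J c ^ 2 ≤ ((1 + η) * c.1) ^ 2 := by
        rw [hJsq]
        have h6 : c.2 ^ 2 ≤ (η * c.1) ^ 2 := by gcongr
        nlinarith [mul_pos hη0 (mul_pos h1 h1)]
      exact (pow_le_pow_iff_left₀ hJc0.le (by positivity) two_ne_zero).mp h5
    have h5 : c.1 ≤ √(c.1 * J c) := by
      refine Real.le_sqrt_of_sq_le ?_
      rw [sq]
      exact mul_le_mul_of_nonneg_left hJc1.le h1.le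
    show S / (2 + η) ≤ S * √(c.1 * J c) / (c.1 + J c)
    rw [div_le_div_iff₀ (by positivity) (by positivity)]
    have h6 : c.1 + J c ≤ √(c.1 * J c) * (2 + η) := by
      have : c.1 * (2 + η) ≤ √(c.1 * J c) * (2 + η) := by gcongr
      linarith
    calc S * (c.1 + J c) ≤ S * (√(c.1 * J c) * (2 + η)) := by gcongr
      _ = _ := by ring

end H738CP.SE
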