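import Pool.Agent.H738R3.CP.Defs
import Pool.Agent.H206R2.Rot.TA

open Real Set MeasureTheory Filter Topology
open scoped ContDiff
open Pool.Agent.H206R2 (Rot.Wall)

namespace H738CP.ST

/-- the function to be minimised -/
noncomputable def Lam (f h : ℝ → ℝ) (r : ℝ) : ℝ :=
  max (h r ^ 2) (2 * f r ^ 2) ^ 2 / (max (h r ^ 2) (2 * f r ^ 2) - f r ^ 2)

theorem den_pos {x y : ℝ} (_hx : 0 ≤ x) (hy : 0 < y) : 0 < max y (2 * x) - x := by
  rcases le_total y (2 * x) with h | h
  · rw [max_eq_right h]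
    linarith
  · rw [max_eq_left h]
    linarith

theorem Lam_ge {f h : ℝ → ℝ} {r : ℝ} (hh : 0 < h r) : 4 * f r ^ 2 ≤ Lam f h r := by
  have h1 := den_pos (x := f r ^ 2) (y := h r ^ 2) (sq_nonneg _) (by positivity)
  unfold Lam
  rw [le_div_iff₀ h1]
  nlinarith [sq_nonneg (max (h r ^ 2) (2 * f r ^ 2) - 2 * f r ^ 2)]

theorem structureCP {L : ℝ} {f h : ℝ → ℝ} (hf : IsProfileCP L f h) {R : ℝ} (hR : 0 < R)
    (hcf : ∀ r, 0 < r → r < L → deriv f r = 0 → R < 2 * f r)
    (hct : ∀ r, 0 < r → r < L → 2 * f r ^ 2 ≤ h r ^ 2 →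
      h r * f r * deriv f r + deriv h r * (h r ^ 2 - 2 * f r ^ 2) = 0 →
      R ^ 2 * (h r ^ 2 - f r ^ 2) < h r ^ 4)
    (hL : R < h L) :
    ∃ S a b, R < S ∧ Pool.Agent.H206R2.Rot.Wall L f (S / 2) a b ∧
      ∀ r ∈ Icc b L, 2 * f r ^ 2 ≤ h r ^ 2 ∧ S ^ 2 * (h r ^ 2 - f r ^ 2) ≤ h r ^ 4 := by
  have hprof : Pool.Agent.H206R2.Rot.IsProfile L f :=
    ⟨hf.pos, hf.smooth_f, hf.f_odd, hf.f_odd_L, hf.f_pos, hf.f_deriv, hf.f_deriv_L⟩
  obtain ⟨S₁, a₁, b₁, hRS, hw⟩ := Pool.Agent.H206R2.Rot.TA.exists_wall hprof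
    (R₀ := R / 2) (by positivity) (fun r h0 h1 h2 => by linarith [hcf r h0 h1 h2])
  have hfc : Continuous f := hf.smooth_f.continuous
  have hhc : Continuous h := hf.smooth_h.continuous
  have hfd : Differentiable ℝ f := hf.smooth_f.differentiable (by simp)
  have hhd : Differentiable ℝ h := hf.smooth_h.differentiable (by simp)
  have hf0 : f 0 = 0 := by
    have := hf.f_odd 0
    simp only [neg_zero] at this
    linarith
  have hfL : f L = 0 := by
    have := hf.f_odd_L 0
    simp only [add_zero, sub_zero] at this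
    linarith
  have ha1 := hw.apos
  have hab1 := hw.ab
  have hbL1 := hw.bL
  have hb1 : 0 < b₁ := lt_of_lt_of_le ha1 hab1
  -- monotonicity
  have hmono : StrictMonoOn f (Icc 0 a₁) := by
    apply strictMonoOn_of_deriv_pos (convex_Icc _ _) hfc.continuousOn
    intro x hx
    rw [interior_Icc] at hx
    exact hw.inc x hx.1.le hx.2.le
  have hanti : StrictAntiOn f (Icc b₁ L) := by
    apply strictAntiOn_of_deriv_neg (convex_Icc _ _) hfc.continuousOn
    intro x hx
    rw [interior_Icc] at hx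
    exact hw.dec x hx.1.le hx.2.le
  -- the minimum of Lam
  have hden : ∀ r ∈ Icc b₁ L, 0 < max (h r ^ 2) (2 * f r ^ 2) - f r ^ 2 := by
    intro r hr
    have := hf.h_pos r (lt_of_lt_of_le hb1 hr.1) hr.2
    exact den_pos (sq_nonneg _) (by positivity)
  have hnum : Continuous fun r => max (h r ^ 2) (2 * f r ^ 2) :=
    (hhc.pow 2).max (continuous_const.mul (hfc.pow 2))
  have hcont : ContinuousOn (Lam f h) (Icc b₁ L) := by
    unfold Lam
    exact (hnum.pow 2).continuousOn.div (hnum.sub (hfc.pow 2)).continuousOn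
      fun r hr => (hden r hr).ne'
  obtain ⟨r₀, hr₀, hmin⟩ := isCompact_Icc.exists_isMinOn
    (⟨b₁, le_rfl, hbL1.le⟩ : (Icc b₁ L).Nonempty) hcont
  have hh0 : 0 < h r₀ := hf.h_pos r₀ (lt_of_lt_of_le hb1 hr₀.1) hr₀.2
  have hLam : R ^ 2 < Lam f h r₀ := by
    rcases eq_or_lt_of_le hr₀.1 with hb | hb
    · -- r₀ = b₁
      have h1 := Lam_ge (f := f) hh0
      rw [← hb, hw.fb] at h1
      rw [← hb]
      nlinarith [hRS, hR]
    rcases eq_or_lt_of_le hr₀.2 with hl | hl
    · -- r₀ = L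
      have h1 : Lam f h r₀ = h r₀ ^ 2 := by
        unfold Lam
        rw [hl, hfL]
        have h2 : (0 : ℝ) < h L ^ 2 := by rw [← hl]; positivity
        have h3 : max (h L ^ 2) (2 * (0 : ℝ) ^ 2) = h L ^ 2 := by
          apply max_eq_left
          nlinarith
        rw [h3, zero_pow two_ne_zero, sub_zero, pow_two (h L ^ 2), mul_div_assoc,
          div_self h2.ne', mul_one]
      rw [h1, hl]
      nlinarith
    -- interior
    have hf0' : 0 < f r₀ := hf.f_pos r₀ (hb1.trans hb) hl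
    have hfneg : deriv f r₀ < 0 := hw.dec r₀ hb.le hl.le
    have hnhds : Icc b₁ L ∈ 𝓝 r₀ := Icc_mem_nhds hb hl
    have hloc : IsLocalMin (Lam f h) r₀ := hmin.isLocalMin hnhds
    have hdf : HasDerivAt f (deriv f r₀) r₀ := (hfd r₀).hasDerivAt
    have hdh : HasDerivAt h (deriv h r₀) r₀ := (hhd r₀).hasDerivAt
    have hdF : HasDerivAt (fun r => 4 * f r ^ 2) (8 * f r₀ * deriv f r₀) r₀ := by
      have := (hdf.pow 2).const_mul 4
      refine this.congr_deriv ?_
      push_cast
      ring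
    have hFneg : 8 * f r₀ * deriv f r₀ < 0 := by
      have : 0 < 8 * f r₀ := by positivity
      exact mul_neg_of_pos_of_neg this hfneg
    rcases lt_or_ge (h r₀ ^ 2) (2 * f r₀ ^ 2) with hc | hc
    · -- (c)
      exfalso
      have h1 : ∀ᶠ r in 𝓝 r₀, h r ^ 2 < 2 * f r ^ 2 :=
        (hhc.pow 2).continuousAt.eventually_lt (continuous_const.mul (hfc.pow 2)).continuousAt hc
      have h2 : Lam f h =ᶠ[𝓝 r₀] fun r => 4 * f r ^ 2 := by
        have h1' : ∀ᶠ r in 𝓝 r₀, 0 < f r := (hfc.tendsto r₀).eventually_const_lt hf0'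
        filter_upwards [h1, h1'] with r hr hr'
        unfold Lam
        rw [max_eq_right hr.le]
        have : f r ^ 2 ≠ 0 := by positivity
        have h3 : 2 * f r ^ 2 - f r ^ 2 = f r ^ 2 := by ring
        rw [h3]
        field_simp
        ring
      have h3 := (hloc.congr h2).hasDerivAt_eq_zero hdF
      linarith
    · -- the derivative of `G`
      have hd0 : 0 < h r₀ ^ 2 - f r₀ ^ 2 := by nlinarith
      have hdG : HasDerivAt (fun r => h r ^ 4 / (h r ^ 2 - f r ^ 2))
          (2 * h r₀ ^ 3 * (h r₀ * f r₀ * deriv f r₀ + deriv h r₀ * (h r₀ ^ 2 - 2 * f r₀ ^ 2)) /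
            (h r₀ ^ 2 - f r₀ ^ 2) ^ 2) r₀ := by
        have := (hdh.pow 4).div ((hdh.pow 2).sub (hdf.pow 2)) hd0.ne'
        refine this.congr_deriv ?_
        simp only [Pi.pow_apply, Pi.sub_apply]
        push_cast
        congr 1
        ring
      rcases eq_or_lt_of_le hc with hc' | hc'
      · -- (d)
        exfalso
        have hG : 2 * h r₀ ^ 3 * (h r₀ * f r₀ * deriv f r₀ +
            deriv h r₀ * (h r₀ ^ 2 - 2 * f r₀ ^ 2)) / (h r₀ ^ 2 - f r₀ ^ 2) ^ 2 < 0 := by
          have e1 : h r₀ ^ 2 - 2 * f r₀ ^ 2 = 0 := by linarith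
          rw [e1, mul_zero, add_zero]
          apply div_neg_of_neg_of_pos
          · have : 0 < 2 * h r₀ ^ 3 * (h r₀ * f r₀) := by positivity
            nlinarith
          · positivity
        have hev : ∀ (F : ℝ → ℝ) (F' : ℝ), HasDerivAt F F' r₀ → F' < 0 →
            ∀ᶠ r in 𝓝[>] r₀, F r < F r₀ := by
          intro F F' hF hF'
          have h1 := (hasDerivAt_iff_tendsto_slope.1 hF).mono_left
            (nhdsWithin_mono r₀ (fun x (hx : x ∈ Ioi r₀) => ne_of_gt hx))
          have h2 := h1.eventually_lt_const hF'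
          filter_upwards [h2, self_mem_nhdsWithin] with r hr hr'
          rw [slope_def_field] at hr
          have h3 : 0 < r - r₀ := sub_pos.2 hr'
          rw [div_neg_iff] at hr
          rcases hr with hr | hr
          · linarith [hr.2]
          · linarith [hr.1]
        have h1 := hev _ _ hdF hFneg
        have h2 := hev _ _ hdG hG
        have h3 : ∀ᶠ r in 𝓝[>] r₀, Lam f h r₀ ≤ Lam f h r := hloc.filter_mono nhdsWithin_le_nhds
        have h4 : ∀ᶠ r in 𝓝[>] r₀, 0 < f r := 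
          ((hfc.tendsto r₀).eventually_const_lt hf0').filter_mono nhdsWithin_le_nhds
        obtain ⟨r, hr1, hr2, hr3, hr4⟩ := (h1.and (h2.and (h3.and h4))).exists
        have e0 : Lam f h r₀ = 4 * f r₀ ^ 2 := by
          unfold Lam
          rw [← hc', max_self]
          have h3 : 2 * f r₀ ^ 2 - f r₀ ^ 2 = f r₀ ^ 2 := by ring
          rw [h3]
          field_simp
          ring
        have e1 : h r₀ ^ 4 / (h r₀ ^ 2 - f r₀ ^ 2) = 4 * f r₀ ^ 2 := by
          have h3 : h r₀ ^ 4 = (2 * f r₀ ^ 2) ^ 2 := by rw [hc']; ring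
          rw [h3, ← hc']
          have h3 : 2 * f r₀ ^ 2 - f r₀ ^ 2 = f r₀ ^ 2 := by ring
          rw [h3]
          field_simp
          ring
        rcases le_total (h r ^ 2) (2 * f r ^ 2) with hh | hh
        · have e2 : Lam f h r = 4 * f r ^ 2 := by
            unfold Lam
            rw [max_eq_right hh]
            have h3 : 2 * f r ^ 2 - f r ^ 2 = f r ^ 2 := by ring
            rw [h3]
            field_simp
            ring
          linarith
        · have e2 : Lam f h r = h r ^ 4 / (h r ^ 2 - f r ^ 2) := by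
            unfold Lam
            rw [max_eq_left hh]
            ring
          linarith
      · -- (e)
        have h1 : ∀ᶠ r in 𝓝 r₀, 2 * f r ^ 2 < h r ^ 2 :=
          (continuous_const.mul (hfc.pow 2)).continuousAt.eventually_lt (hhc.pow 2).continuousAt hc'
        have h2 : Lam f h =ᶠ[𝓝 r₀] fun r => h r ^ 4 / (h r ^ 2 - f r ^ 2) := by
          filter_upwards [h1] with r hr
          unfold Lam
          rw [max_eq_left hr.le]
          ring
        have h3 := (hloc.congr h2).hasDerivAt_eq_zero hdG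
        rw [div_eq_zero_iff] at h3
        have h4 : h r₀ * f r₀ * deriv f r₀ + deriv h r₀ * (h r₀ ^ 2 - 2 * f r₀ ^ 2) = 0 := by
          rcases h3 with h3 | h3
          · have : 2 * h r₀ ^ 3 ≠ 0 := by positivity
            exact (mul_eq_zero.1 h3).resolve_left this
          · exfalso
            have : (h r₀ ^ 2 - f r₀ ^ 2) ^ 2 ≠ 0 := by positivity
            exact this h3
        have h5 := hct r₀ (hb1.trans hb) hl hc h4
        rw [h2.eq_of_nhds, lt_div_iff₀ hd0]
        exact h5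
  -- the wall
  have hS1 : 0 < S₁ := hw.Spos
  set S : ℝ := min (√(Lam f h r₀)) (2 * S₁) with hS
  have hRlt : R < S := by
    apply lt_min
    · exact Real.lt_sqrt_of_sq_lt hLam
    · linarith
  have hSle : S / 2 ≤ S₁ := by
    have : S ≤ 2 * S₁ := min_le_right _ _
    linarith
  have hSpos : 0 < S := hR.trans hRlt
  have hSsq : S ^ 2 ≤ Lam f h r₀ := by
    have h1 : S ≤ √(Lam f h r₀) := min_le_left _ _
    have h2 : 0 ≤ Lam f h r₀ := (sq_nonneg R).trans hLam.le
    calc S ^ 2 ≤ √(Lam f h r₀) ^ 2 := pow_le_pow_left₀ hSpos.le h1 2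
      _ = _ := Real.sq_sqrt h2
  obtain ⟨a, ha, hfa⟩ : ∃ a ∈ Icc 0 a₁, f a = S / 2 := by
    have := intermediate_value_Icc ha1.le (hfc.continuousOn (s := Icc 0 a₁))
    exact this ⟨by rw [hf0]; positivity, by rw [hw.fa]; exact hSle⟩
  obtain ⟨b, hb, hfb⟩ : ∃ b ∈ Icc b₁ L, f b = S / 2 := by
    have := intermediate_value_Icc' hbL1.le (hfc.continuousOn (s := Icc b₁ L))
    exact this ⟨by rw [hfL]; positivity, by rw [hw.fb]; exact hSle⟩
  have ha0 : 0 < a := by
    rcases eq_or_lt_of_le ha.1 with h0 | h0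
    · exfalso
      rw [← h0, hf0] at hfa
      linarith
    · exact h0
  have hbL : b < L := by
    rcases eq_or_lt_of_le hb.2 with h0 | h0
    · exfalso
      rw [h0, hfL] at hfb
      linarith
    · exact h0
  refine ⟨S, a, b, hRlt, ⟨by positivity, ha0, ha.2.trans (hab1.trans hb.1), hbL, hfa, hfb,
    fun r h0 h1 => hw.inc r h0 (h1.trans ha.2), fun r h0 h1 => hw.dec r (hb.1.trans h0) h1,
    fun r h0 h1 => ?_⟩, ?_⟩
  · rcases le_total r a₁ with h2 | h2
    · rw [← hfa]
      exact hmono.monotoneOn ha ⟨ha0.le.trans h0, h2⟩ h0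
    · rcases le_total r b₁ with h3 | h3
      · exact hSle.trans (hw.mid r h2 h3)
      · rw [← hfb]
        exact hanti.antitoneOn ⟨h3, h1.trans hbL.le⟩ hb h1
  · have hcl : IsClosed {r : ℝ | 2 * f r ^ 2 ≤ h r ^ 2 ∧
        S ^ 2 * (h r ^ 2 - f r ^ 2) ≤ h r ^ 4} := by
      apply IsClosed.and
      · exact isClosed_le (continuous_const.mul (hfc.pow 2)) (hhc.pow 2)
      · exact isClosed_le (continuous_const.mul ((hhc.pow 2).sub (hfc.pow 2))) (hhc.pow 4)
    have hsub : Ioc b L ⊆ {r : ℝ | 2 * f r ^ 2 ≤ h r ^ 2 ∧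
        S ^ 2 * (h r ^ 2 - f r ^ 2) ≤ h r ^ 4} := by
      intro r hr
      have hr' : r ∈ Icc b₁ L := ⟨hb.1.trans hr.1.le, hr.2⟩
      have h1 : S ^ 2 ≤ Lam f h r := hSsq.trans (hmin hr')
      have h2 : f r < S / 2 := by
        rw [← hfb]
        exact hanti hb hr' hr.1
      have h3 : 0 ≤ f r := by
        rw [← hfL]
        exact hanti.antitoneOn hr' ⟨hbL1.le, le_rfl⟩ hr.2
      have h4 : 4 * f r ^ 2 < S ^ 2 := by nlinarith
      have h5 : 2 * f r ^ 2 ≤ h r ^ 2 := by
        by_contra hcon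
        push Not at hcon
        have h6 : Lam f h r = 4 * f r ^ 2 := by
          have hfr : f r ^ 2 ≠ 0 := by nlinarith [sq_nonneg (h r)]
          unfold Lam
          rw [max_eq_right hcon.le]
          have h3 : 2 * f r ^ 2 - f r ^ 2 = f r ^ 2 := by ring
          rw [h3]
          field_simp
          ring
        linarith
      refine ⟨h5, ?_⟩
      unfold Lam at h1
      rw [max_eq_left h5] at h1
      have h6 := hden r hr'
      rw [max_eq_left h5] at h6
      rw [le_div_iff₀ h6] at h1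
      calc S ^ 2 * (h r ^ 2 - f r ^ 2) ≤ (h r ^ 2) ^ 2 := h1
        _ = h r ^ 4 := by ring
    intro r hr
    have := closure_Ioc hbL.ne
    exact (closure_minimal hsub hcl) (by rw [this]; exact hr)

end H738CP.ST
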