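import Pool.Agent.H738R3.CP.Defs

/-!
# The volume bound on complex projective space (task VB)
-/

open Real Set MeasureTheory
open scoped ContDiff
open Pool.Agent.H206R2.Rot2 (Veff)
open Pool.Agent.H206R2.Rot2.TI (gg gg_measurable gg_nonneg gg_bound gg_integrable gg_integral SC)

namespace H738CP.VB

lemma Reg_measurable (R : ℝ) : MeasurableSet (Reg R) := by
  unfold Reg
  apply IsOpen.measurableSet
  have h1 : IsOpen {c : ℝ × ℝ | 0 < c.1} := isOpen_lt continuous_const continuous_fst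
  have h2 : IsOpen {c : ℝ × ℝ | 0 < c.2} := isOpen_lt continuous_const continuous_snd
  have h3 : IsOpen {c : ℝ × ℝ | c.1 + √(c.1 ^ 2 + c.2 ^ 2) < R} :=
    isOpen_lt (by fun_prop) continuous_const
  exact h1.inter (h2.inter h3)

lemma Reg_subset (R : ℝ) : Reg R ⊆ Ioi (0 : ℝ) ×ˢ Ioi (0 : ℝ) := fun _ hc => ⟨hc.1, hc.2.1⟩

lemma snd_le (c : ℝ × ℝ) : c.2 ≤ √(c.1 ^ 2 + c.2 ^ 2) := by
  apply Real.le_sqrt_of_sq_le
  nlinarith [sq_nonneg c.1]

lemma Reg_subset_Ioc (R : ℝ) : Reg R ⊆ Ioc (0 : ℝ) R ×ˢ Ioc (0 : ℝ) R := fun c hc =>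
  ⟨⟨hc.1, by linarith [hc.2.2, Real.sqrt_nonneg (c.1 ^ 2 + c.2 ^ 2)]⟩,
    ⟨hc.2.1, by linarith [hc.1, hc.2.2, snd_le c]⟩⟩

/-- the integrand of the layer cake formula -/
noncomputable def AA (b : ℕ) (c : ℝ × ℝ) (t : ℝ) : ℝ :=
  (if c.1 + √(c.1 ^ 2 + c.2 ^ 2) < t then 1 else 0) * c.2 ^ b

lemma AA_meas (b : ℕ) : Measurable (fun p : (ℝ × ℝ) × ℝ => AA b p.1 p.2) := by
  unfold AA
  apply Measurable.mul
  · exact Measurable.ite (measurableSet_lt (by fun_prop) (by fun_prop)) measurable_const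
      measurable_const
  · fun_prop

lemma AA_bound {R : ℝ} (b : ℕ) {c : ℝ × ℝ} (t : ℝ) (h1 : 0 < c.2) (h2 : c.2 ≤ R) :
    ‖AA b c t‖ ≤ R ^ b := by
  have h3 : c.2 ^ b ≤ R ^ b := pow_le_pow_left₀ h1.le h2 b
  unfold AA
  rw [Real.norm_eq_abs, abs_mul, abs_of_pos (pow_pos h1 b)]
  split_ifs
  · rw [abs_one, one_mul]; exact h3
  · rw [abs_zero, zero_mul]; exact (pow_pos h1 b).le.trans h3

lemma step1 {R : ℝ} (b : ℕ) {c : ℝ × ℝ} (h1 : 0 < c.1) :
    ∫ t in Ioc 0 R, AA b c t = max (R - c.1 - √(c.1 ^ 2 + c.2 ^ 2)) 0 * c.2 ^ b := by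
  unfold AA
  rw [integral_mul_const]
  congr 1
  set s := c.1 + √(c.1 ^ 2 + c.2 ^ 2) with hs
  have hs0 : 0 < s := by
    have := Real.sqrt_nonneg (c.1 ^ 2 + c.2 ^ 2)
    linarith
  have e : (fun t : ℝ => if s < t then (1 : ℝ) else 0) = indicator (Ioi s) (fun _ => (1 : ℝ)) := by
    ext t
    simp [indicator]
  rw [e, setIntegral_indicator measurableSet_Ioi, Ioc_inter_Ioi, setIntegral_const,
    Real.volume_real_Ioc, max_eq_right hs0.le, smul_eq_mul, mul_one, hs, sub_add_eq_sub_sub]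

lemma key_iff {x y t : ℝ} (hx : 0 < x) (ht : 0 < t) :
    x + √(x ^ 2 + y ^ 2) < t ↔ x < (t ^ 2 - y ^ 2) / (2 * t) := by
  rw [lt_div_iff₀ (by positivity)]
  constructor
  · intro h
    have h1 : √(x ^ 2 + y ^ 2) < t - x := by linarith
    have h2 : 0 < t - x := lt_of_le_of_lt (Real.sqrt_nonneg _) h1
    rw [Real.sqrt_lt' h2] at h1
    nlinarith
  · intro h
    have h2 : 0 < t - x := by
      have h3 : x * (2 * t) < t ^ 2 := by nlinarith [sq_nonneg y]
      have h4 : 2 * x < t := by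
        by_contra h5
        rw [not_lt] at h5
        nlinarith
      linarith
    have h1 : √(x ^ 2 + y ^ 2) < t - x := by
      rw [Real.sqrt_lt' h2]
      nlinarith
    linarith

lemma inner {R t : ℝ} (ht : 0 < t) (htR : t ≤ R) (b : ℕ) (y : ℝ) :
    ∫ x in Ioc 0 R, AA b (x, y) t = max ((t ^ 2 - y ^ 2) / (2 * t)) 0 * y ^ b := by
  unfold AA
  change ∫ x in Ioc 0 R, (if x + √(x ^ 2 + y ^ 2) < t then (1 : ℝ) else 0) * y ^ b = _
  rw [integral_mul_const]
  congr 1
  set X := (t ^ 2 - y ^ 2) / (2 * t) with hX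
  have hXt : X ≤ t / 2 := by
    rw [hX, div_le_div_iff₀ (by positivity) (by positivity)]
    nlinarith [sq_nonneg y]
  have e : ∫ x in Ioc 0 R, (if x + √(x ^ 2 + y ^ 2) < t then (1 : ℝ) else 0) =
      ∫ x in Ioc 0 R, indicator (Iio X) (fun _ => (1 : ℝ)) x := by
    apply setIntegral_congr_fun measurableSet_Ioc
    intro x hx
    simp only [indicator, mem_Iio, key_iff hx.1 ht, ← hX]
  rw [e, setIntegral_indicator measurableSet_Iio]
  have e2 : Ioc 0 R ∩ Iio X = Ioo 0 X := by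
    ext x
    simp only [mem_inter_iff, mem_Ioc, mem_Iio, mem_Ioo]
    constructor
    · rintro ⟨⟨a1, a2⟩, a3⟩
      exact ⟨a1, a3⟩
    · rintro ⟨a1, a3⟩
      exact ⟨⟨a1, by linarith⟩, a3⟩
  rw [e2, setIntegral_const, Real.volume_real_Ioo, smul_eq_mul, mul_one, sub_zero]

lemma AA_int_box {R : ℝ} (b : ℕ) (t : ℝ) :
    IntegrableOn (fun c : ℝ × ℝ => AA b c t) (Ioc 0 R ×ˢ Ioc 0 R) := by
  apply Measure.integrableOn_of_bounded (M := R ^ b)
  · rw [Measure.volume_eq_prod, Measure.prod_prod]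
    simp [ENNReal.mul_eq_top]
  · exact ((AA_meas b).comp (measurable_id.prodMk measurable_const)).aestronglyMeasurable
  · filter_upwards [ae_restrict_mem (measurableSet_Ioc.prod measurableSet_Ioc)] with c hc
    exact AA_bound b t hc.2.1 hc.2.2

lemma step2 {R t : ℝ} (ht : 0 < t) (htR : t ≤ R) (b : ℕ) :
    ∫ c in Ioc 0 R ×ˢ Ioc 0 R, AA b c t = t ^ (b + 2) / (((b : ℝ) + 1) * ((b : ℝ) + 3)) := by
  have hi := AA_int_box (R := R) b t
  unfold IntegrableOn at hi
  rw [Measure.volume_eq_prod, ← Measure.prod_restrict] at hi ⊢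
  rw [integral_prod_symm _ hi]
  simp_rw [inner ht htR b]
  have e1 : ∫ y in Ioc 0 R, max ((t ^ 2 - y ^ 2) / (2 * t)) 0 * y ^ b =
      ∫ y in Ioc 0 t, max ((t ^ 2 - y ^ 2) / (2 * t)) 0 * y ^ b := by
    apply setIntegral_eq_of_subset_of_forall_sdiff_eq_zero measurableSet_Ioc
      (Ioc_subset_Ioc_right htR)
    intro y hy
    have h1 : t < y := by
      by_contra h
      exact hy.2 ⟨hy.1.1, not_lt.1 h⟩
    have h2 : (t ^ 2 - y ^ 2) / (2 * t) ≤ 0 :=
      div_nonpos_of_nonpos_of_nonneg (by nlinarith) (by positivity)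
    rw [max_eq_right h2, zero_mul]
  have e2 : ∫ y in Ioc 0 t, max ((t ^ 2 - y ^ 2) / (2 * t)) 0 * y ^ b =
      ∫ y in Ioc 0 t, (t / 2 * y ^ b - 1 / (2 * t) * y ^ (b + 2)) := by
    apply setIntegral_congr_fun measurableSet_Ioc
    intro y hy
    have h2 : 0 ≤ (t ^ 2 - y ^ 2) / (2 * t) :=
      div_nonneg (by nlinarith [hy.1, hy.2]) (by positivity)
    simp only
    rw [max_eq_left h2]
    field_simp
    ring
  rw [e1, e2, ← intervalIntegral.integral_of_le ht.le, intervalIntegral.integral_sub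
    (Continuous.intervalIntegrable (by fun_prop) _ _) (Continuous.intervalIntegrable (by fun_prop) _ _),
    intervalIntegral.integral_const_mul, intervalIntegral.integral_const_mul, integral_pow,
    integral_pow]
  have h1 : (b : ℝ) + 1 ≠ 0 := by positivity
  have h3 : (b : ℝ) + 3 ≠ 0 := by positivity
  have h4 : (b : ℝ) + 2 + 1 ≠ 0 := by positivity
  push_cast
  field_simp
  ring

lemma lower_int {R : ℝ} (hR : 0 < R) (b : ℕ) :
    ∫ c in Reg R, π * (R - c.1 - √(c.1 ^ 2 + c.2 ^ 2)) * (c.1 ^ 0 * c.2 ^ b) =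
      π * (R ^ (b + 3) / (((b : ℝ) + 1) * ((b : ℝ) + 3) ^ 2)) := by
  set S : Set (ℝ × ℝ) := Ioc (0 : ℝ) R ×ˢ Ioc (0 : ℝ) R with hS
  have hSm : MeasurableSet S := measurableSet_Ioc.prod measurableSet_Ioc
  have e0 : ∫ c in Reg R, π * (R - c.1 - √(c.1 ^ 2 + c.2 ^ 2)) * (c.1 ^ 0 * c.2 ^ b) =
      ∫ c in Reg R, π * (max (R - c.1 - √(c.1 ^ 2 + c.2 ^ 2)) 0 * c.2 ^ b) := by
    apply setIntegral_congr_fun (Reg_measurable R)
    intro c hc
    simp only
    rw [max_eq_left (by linarith [hc.2.2])]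
    ring
  have e1 : ∫ c in Reg R, π * (max (R - c.1 - √(c.1 ^ 2 + c.2 ^ 2)) 0 * c.2 ^ b) =
      ∫ c in S, π * (max (R - c.1 - √(c.1 ^ 2 + c.2 ^ 2)) 0 * c.2 ^ b) := by
    symm
    apply setIntegral_eq_of_subset_of_forall_sdiff_eq_zero hSm (Reg_subset_Ioc R)
    intro c hc
    have : R ≤ c.1 + √(c.1 ^ 2 + c.2 ^ 2) := by
      by_contra h
      exact hc.2 ⟨hc.1.1.1, hc.1.2.1, not_le.1 h⟩
    rw [max_eq_right (by linarith)]
    ring
  rw [e0, e1, integral_const_mul]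
  congr 1
  have e2 : ∫ c in S, max (R - c.1 - √(c.1 ^ 2 + c.2 ^ 2)) 0 * c.2 ^ b =
      ∫ c in S, ∫ t in Ioc 0 R, AA b c t := by
    apply setIntegral_congr_fun hSm
    intro c hc
    exact (step1 b hc.1.1).symm
  rw [e2]
  have hSfin : volume S ≠ ⊤ := by
    rw [hS, Measure.volume_eq_prod, Measure.prod_prod]
    simp [ENNReal.mul_eq_top]
  have : IsFiniteMeasure (volume.restrict S) :=
    ⟨by rw [Measure.restrict_apply_univ]; exact lt_top_iff_ne_top.2 hSfin⟩
  have hint : Integrable (fun p : (ℝ × ℝ) × ℝ => AA b p.1 p.2)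
      ((volume.restrict S).prod (volume.restrict (Ioc (0 : ℝ) R))) := by
    refine Integrable.of_bound (AA_meas b).aestronglyMeasurable (R ^ b) ?_
    rw [Measure.prod_restrict]
    filter_upwards [ae_restrict_mem (hSm.prod measurableSet_Ioc)] with p hp
    exact AA_bound b p.2 hp.1.2.1 hp.1.2.2
  rw [integral_integral_swap hint]
  have e3 : ∫ t in Ioc 0 R, ∫ c in S, AA b c t =
      ∫ t in Ioc 0 R, 1 / (((b : ℝ) + 1) * ((b : ℝ) + 3)) * t ^ (b + 2) := by
    apply setIntegral_congr_fun measurableSet_Ioc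
    intro t ht
    simp only
    rw [hS, step2 ht.1 ht.2 b]
    ring
  rw [e3, ← intervalIntegral.integral_of_le hR.le, intervalIntegral.integral_const_mul,
    integral_pow]
  have h1 : (b : ℝ) + 1 ≠ 0 := by positivity
  have h3 : (b : ℝ) + 3 ≠ 0 := by positivity
  have h4 : (b : ℝ) + 2 + 1 ≠ 0 := by positivity
  push_cast
  field_simp
  ring


/-! ### Upper bounds -/

lemma gg_le {F H R : ℝ} (hF : 0 < F) (hH : 0 < H) (a b : ℕ) :
    ∫ c in Reg R, gg F H a b c ≤
      F ^ (a + 1) * H ^ (b + 1) * ((∫ x in (0 : ℝ)..1, √(1 - x ^ 2) * x ^ b) * SC a (b + 3)) := by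
  rw [← gg_integral hF hH]
  apply setIntegral_mono_set (gg_integrable hF hH a b)
  · filter_upwards [ae_restrict_mem (measurableSet_Ioi.prod measurableSet_Ioi)] with c hc
    exact gg_nonneg a b hc.1 hc.2
  · exact (Reg_subset R).eventuallyLE

lemma gg_lt {F H R : ℝ} (hF : 0 < F) (hH : 0 < H) (hR : 0 < R) (hRF : R < 2 * F) (a b : ℕ) :
    ∫ c in Reg R, gg F H a b c <
      F ^ (a + 1) * H ^ (b + 1) * ((∫ x in (0 : ℝ)..1, √(1 - x ^ 2) * x ^ b) * SC a (b + 3)) := by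
  rw [← gg_integral hF hH]
  set Q : Set (ℝ × ℝ) := Ioi (0 : ℝ) ×ˢ Ioi (0 : ℝ) with hQ
  have hi := gg_integrable hF hH a b
  have hQm : MeasurableSet Q := measurableSet_Ioi.prod measurableSet_Ioi
  have h1 : ∫ c in Q, gg F H a b c = (∫ c in Q \ Reg R, gg F H a b c) + ∫ c in Reg R, gg F H a b c := by
    rw [← setIntegral_union disjoint_sdiff_left (Reg_measurable R) (hi.mono_set sdiff_subset)
      (hi.mono_set (Reg_subset R)), sdiff_union_of_subset (Reg_subset R)]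
  rw [h1]
  have h2 : 0 < ∫ c in Q \ Reg R, gg F H a b c := by
    rw [setIntegral_pos_iff_support_of_nonneg_ae]
    · -- an open set in the support
      set U : Set (ℝ × ℝ) := {c | R < 2 * c.1 ∧ 0 < c.2 ∧ (c.1 / F) ^ 2 + (c.2 / H) ^ 2 < 1} with hU
      have hUo : IsOpen U := by
        have o1 : IsOpen {c : ℝ × ℝ | R < 2 * c.1} := isOpen_lt continuous_const (by fun_prop)
        have o2 : IsOpen {c : ℝ × ℝ | 0 < c.2} := isOpen_lt continuous_const continuous_snd
        have o3 : IsOpen {c : ℝ × ℝ | (c.1 / F) ^ 2 + (c.2 / H) ^ 2 < 1} :=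
          isOpen_lt (by fun_prop) continuous_const
        exact o1.inter (o2.inter o3)
      have hUn : U.Nonempty := by
        -- c.1 = (R/2+F)/2, c.2 small
        set x := (R / 2 + F) / 2 with hx
        have hx1 : R / 2 < x := by rw [hx]; linarith
        have hx2 : x < F := by rw [hx]; linarith
        have hx0 : 0 < x := by linarith
        have hxF : (x / F) ^ 2 < 1 := by
          have h3 : x / F < 1 := by rwa [div_lt_one hF]
          have h4 : 0 < x / F := by positivity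
          nlinarith
        set δ := 1 - (x / F) ^ 2 with hδ
        have hδ0 : 0 < δ := by rw [hδ]; linarith
        have hδ1 : δ ≤ 1 := by rw [hδ]; nlinarith [sq_nonneg (x / F)]
        refine ⟨(x, H * (δ / 2)), by simp only; linarith, by positivity, ?_⟩
        simp only
        have h5 : H * (δ / 2) / H = δ / 2 := by field_simp
        rw [h5]
        nlinarith
      refine (hUo.measure_pos volume hUn).trans_le (measure_mono ?_)
      intro c hc
      have hc1 : 0 < c.1 := by linarith [hc.1]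
      refine ⟨?_, ⟨⟨hc1, hc.2.1⟩, fun h => ?_⟩⟩
      · rw [Function.mem_support]
        unfold gg
        have h6 : 0 < √(1 - ((c.1 / F) ^ 2 + (c.2 / H) ^ 2)) := Real.sqrt_pos.2 (by linarith [hc.2.2])
        have h7 : 0 < c.1 ^ a * c.2 ^ b := mul_pos (pow_pos hc1 a) (pow_pos hc.2.1 b)
        positivity
      · have h8 := h.2.2
        have h9 : c.1 ≤ √(c.1 ^ 2 + c.2 ^ 2) := by
          apply Real.le_sqrt_of_sq_le
          nlinarith [sq_nonneg c.2]
        linarith [hc.1]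
    · filter_upwards [ae_restrict_mem (hQm.diff (Reg_measurable R))] with c hc
      exact gg_nonneg a b hc.1.1 hc.1.2
    · exact hi.mono_set sdiff_subset
  linarith

/-! ### The theorem -/

theorem volume_boundCP {L : ℝ} {f h : ℝ → ℝ} (hf : IsProfileCP L f h) {n : ℕ} (hn : 2 ≤ n)
    {R : ℝ} (hR : 0 < R)
    (hA : ∀ c ∈ Reg R, π * (R - c.1 - √(c.1 ^ 2 + c.2 ^ 2)) ≤
      2 * ∫ r in Ioo 0 L, √(1 - Veff f h c.1 c.2 r))
    (hbig : ∃ r, 0 < r ∧ r < L ∧ R < 2 * f r) :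
    R ^ (2 * n) < 2 * n * ∫ r in (0 : ℝ)..L, f r * h r ^ (2 * n - 2) := by
  obtain ⟨b, hb⟩ : ∃ b, 2 * n = b + 3 := ⟨2 * n - 3, by omega⟩
  have hnb : (2 * n : ℝ) = (b : ℝ) + 3 := by exact_mod_cast hb
  rw [hnb, hb, show b + 3 - 2 = b + 1 by omega]
  have hfc : Continuous f := hf.smooth_f.continuous
  have hhc : Continuous h := hf.smooth_h.continuous
  have hfm : Measurable f := hfc.measurable
  have hhm : Measurable h := hhc.measurable
  set J1 := ∫ x in (0 : ℝ)..1, √(1 - x ^ 2) * x ^ b with hJ1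
  set K := J1 * SC 0 (b + 3) with hK
  set μ : Measure ℝ := volume.restrict (Ioo 0 L) with hμ
  set ν : Measure (ℝ × ℝ) := volume.restrict (Reg R) with hν
  have hTfin : volume (Reg R) ≠ ⊤ := by
    have h1 : volume (Icc (0 : ℝ) R ×ˢ Icc (0 : ℝ) R) < ⊤ :=
      (isCompact_Icc.prod isCompact_Icc).measure_lt_top
    exact ((measure_mono ((Reg_subset_Ioc R).trans
      (prod_mono Ioc_subset_Icc_self Ioc_subset_Icc_self))).trans_lt h1).ne
  have : IsFiniteMeasure ν := ⟨by rw [hν, Measure.restrict_apply_univ]; exact lt_top_iff_ne_top.2 hTfin⟩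
  have : IsFiniteMeasure μ := ⟨by rw [hμ, Measure.restrict_apply_univ]; simp⟩
  -- Fubini
  have hmeas : Measurable (fun p : ℝ × (ℝ × ℝ) => gg (f p.1) (h p.1) 0 b p.2) := by
    unfold gg
    fun_prop
  have hint : Integrable (fun p : ℝ × (ℝ × ℝ) => gg (f p.1) (h p.1) 0 b p.2) (μ.prod ν) := by
    have hb : ∀ᵐ p ∂(μ.prod ν), ‖gg (f p.1) (h p.1) 0 b p.2‖ ≤ R ^ 0 * R ^ b := by
      have e : μ.prod ν = (volume.prod volume).restrict (Ioo 0 L ×ˢ Reg R) := by
        rw [hμ, hν, Measure.prod_restrict]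
      rw [e]
      filter_upwards [ae_restrict_mem (measurableSet_Ioo.prod (Reg_measurable R))] with p hp
      have h1 := (Reg_subset_Ioc R) hp.2
      exact gg_bound 0 b hp.2.1 hp.2.2.1 h1.1.2 h1.2.2
    exact Integrable.of_bound hmeas.aestronglyMeasurable _ hb
  have hswap := integral_integral_swap (f := fun r c => gg (f r) (h r) 0 b c) (μ := μ) (ν := ν) hint
  -- lower bound
  have hact : ∀ c : ℝ × ℝ, (2 * ∫ r in Ioo 0 L, √(1 - Veff f h c.1 c.2 r)) * (c.1 ^ 0 * c.2 ^ b) =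
      2 * ∫ r, gg (f r) (h r) 0 b c ∂μ := by
    intro c
    rw [mul_assoc, ← integral_mul_const]
    rfl
  have h1 : π * (R ^ (b + 3) / (((b : ℝ) + 1) * ((b : ℝ) + 3) ^ 2)) ≤
      2 * ∫ c, ∫ r, gg (f r) (h r) 0 b c ∂μ ∂ν := by
    rw [← lower_int hR, ← integral_const_mul]
    apply setIntegral_mono_on _ _ (Reg_measurable R)
    · intro c hc
      rw [← hact]
      apply mul_le_mul_of_nonneg_right (hA c hc)
      have := hc.1
      have := hc.2.1
      positivity
    · have h2 : IntegrableOn (fun c : ℝ × ℝ =>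
          π * (R - c.1 - √(c.1 ^ 2 + c.2 ^ 2)) * (c.1 ^ 0 * c.2 ^ b))
          (Icc (0 : ℝ) R ×ˢ Icc (0 : ℝ) R) :=
        (Continuous.continuousOn (by fun_prop)).integrableOn_compact (isCompact_Icc.prod isCompact_Icc)
      exact h2.mono_set ((Reg_subset_Ioc R).trans
        (prod_mono Ioc_subset_Icc_self Ioc_subset_Icc_self))
    · exact (hint.integral_prod_right).const_mul 2
  rw [← hswap] at h1
  -- comparison
  have hIm : Integrable (fun r => ∫ c, gg (f r) (h r) 0 b c ∂ν) μ := hint.integral_prod_left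
  have hfi : Integrable (fun r => f r ^ (0 + 1) * h r ^ (b + 1) * K) μ := by
    have h3 : IntegrableOn (fun r => f r ^ (0 + 1) * h r ^ (b + 1) * K) (Icc 0 L) :=
      (Continuous.continuousOn (by fun_prop)).integrableOn_Icc
    exact h3.mono_set Ioo_subset_Icc_self
  have h3 : ∫ r, ∫ c, gg (f r) (h r) 0 b c ∂ν ∂μ < ∫ r, f r ^ (0 + 1) * h r ^ (b + 1) * K ∂μ := by
    rw [← sub_pos, ← integral_sub hfi hIm]
    rw [integral_pos_iff_support_of_nonneg_ae]
    · obtain ⟨r₀, hr0, hrL, hrR⟩ := hbig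
      have hopen : IsOpen (Ioo 0 L ∩ {r | R < 2 * f r}) :=
        isOpen_Ioo.inter (isOpen_lt continuous_const (by fun_prop))
      have hpos : 0 < volume (Ioo 0 L ∩ {r | R < 2 * f r}) :=
        hopen.measure_pos volume ⟨r₀, ⟨hr0, hrL⟩, hrR⟩
      have hμpos : 0 < μ (Ioo 0 L ∩ {r | R < 2 * f r}) := by
        rw [hμ, Measure.restrict_apply hopen.measurableSet]
        have : Ioo 0 L ∩ {r | R < 2 * f r} ∩ Ioo 0 L = Ioo 0 L ∩ {r | R < 2 * f r} := by
          ext x; simp; tauto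
        rwa [this]
      refine hμpos.trans_le (measure_mono ?_)
      intro r hr
      rw [Function.mem_support]
      have h5 := gg_lt (hf.f_pos r hr.1.1 hr.1.2) (hf.h_pos r hr.1.1 hr.1.2.le) hR hr.2 0 b
      exact (sub_pos.mpr h5).ne'
    · have hae : ∀ᵐ r ∂μ, r ∈ Ioo 0 L := ae_restrict_mem measurableSet_Ioo
      filter_upwards [hae] with r hr
      have h5 := gg_le (R := R) (hf.f_pos r hr.1 hr.2) (hf.h_pos r hr.1 hr.2.le) 0 b
      simp only [Pi.zero_apply]
      exact sub_nonneg.2 h5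
    · exact hfi.sub hIm
  have h4 : ∫ r, f r ^ (0 + 1) * h r ^ (b + 1) * K ∂μ = K * ∫ r in (0 : ℝ)..L, f r * h r ^ (b + 1) := by
    rw [integral_mul_const, intervalIntegral.integral_of_le hf.pos.le, hμ,
      integral_Ioc_eq_integral_Ioo, mul_comm]
    simp only [zero_add, pow_one]
  -- constants
  have hid := Pool.Agent.H206R2.Rot2.TI.beta_id 0 b
  have hB : J1 = (1 / ((b : ℝ) + 2)) * ∫ x in (0 : ℝ)..(π / 2), Real.sin x ^ b :=
    Pool.Agent.H206R2.Rot.TE.B_eq b
  rw [← hB, ← hK, zero_add, Pool.Agent.H206R2.Rot2.TI.SC_one] at hid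
  have h5 : ((0 + b + 3).factorial : ℝ) = ((b : ℝ) + 3) * ((b : ℝ) + 2) * ((b : ℝ) + 1) * b.factorial := by
    rw [show 0 + b + 3 = b + 1 + 1 + 1 by ring, Nat.factorial_succ, Nat.factorial_succ, Nat.factorial_succ]
    push_cast
    ring
  have hKv : K = π / (2 * (((b : ℝ) + 1) * ((b : ℝ) + 3))) := by
    have hfac : (b.factorial : ℝ) ≠ 0 := by positivity
    rw [show (((0 + b + 3).factorial : ℕ) : ℝ) = _ from h5] at hid
    push_cast at hid
    have q1 : (b : ℝ) + 1 ≠ 0 := by positivity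
    have q2 : (b : ℝ) + 2 ≠ 0 := by positivity
    have q3 : (b : ℝ) + 3 ≠ 0 := by positivity
    have q4 : (b : ℝ) + 1 + 1 ≠ 0 := by positivity
    have q5 : (b : ℝ) + 1 + 1 = b + 2 := by ring
    rw [q5] at hid
    rw [eq_div_iff (by positivity)]
    have : 2 * K * (1 / ((b : ℝ) + 2)) * (((b : ℝ) + 2) * (((b : ℝ) + 1) * ((b : ℝ) + 3))) =
        π := by
      rw [hid]
      field_simp
      simp
    rw [← this]
    field_simp
  rw [h4] at h3
  have h6 : π * (R ^ (b + 3) / (((b : ℝ) + 1) * ((b : ℝ) + 3) ^ 2)) =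
      2 * K / ((b : ℝ) + 3) * R ^ (b + 3) := by
    rw [hKv]
    field_simp
  rw [h6] at h1
  have hKpos : 0 < K := by
    rw [hKv]
    positivity
  have h7 : 2 * K / ((b : ℝ) + 3) * R ^ (b + 3) <
      2 * K / ((b : ℝ) + 3) * (((b : ℝ) + 3) * ∫ r in (0 : ℝ)..L, f r * h r ^ (b + 1)) := by
    calc _ ≤ _ := h1
      _ < 2 * (K * ∫ r in (0 : ℝ)..L, f r * h r ^ (b + 1)) := by linarith
      _ = _ := by field_simp
  exact lt_of_mul_lt_mul_left h7 (by positivity)

end H738CP.VB
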