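import Pool.Agent.H738R3.CP.PR
import Pool.Agent.H738R3.CP.WS
import Pool.Agent.H738R3.CP.CL
import Pool.Agent.H738R3.CP.CG
import Pool.Agent.H738R3.CP.ST
import Pool.Agent.H738R3.CP.SE
import Pool.Agent.H738R3.CP.EM
import Pool.Agent.H738R3.CP.E0
import Pool.Agent.H738R3.CP.VB
import Pool.Agent.H738R3.CP.GP
import Pool.Agent.H738R3.CP.TOm
import Pool.Agent.H738R3.CP.CF
import Pool.Agent.H738R3.CP.GR
import Pool.Agent.H738R3.CP.EQ
import Pool.Agent.H738R3.CP.ME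
import Pool.Agent.H738R3.CP.LI
import Pool.Agent.H738R3.CP.FP
import Pool.Agent.H738R3.CP.FL

/-!
# Short periodic geodesics for `U(n)`-invariant metrics on `ℂP^n`

If all periodic geodesics are longer than `π R`, the radial action satisfies
`A(P, Q) ≥ π (R - P - √(P² + Q²))` (`action_bound`): otherwise the minimum of the difference is attained
at an interior point, where both angles close up after one oscillation, and the periodic geodesic
obtained is shorter than `π R`.  Integration gives the volume bound (`short_geodesicCP`).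
-/

open Real Set MeasureTheory Filter Topology
open scoped ContDiff
open Pool.Agent.H206R2.Rot2 (Veff well actW)
open Pool.Agent.H206R2

namespace H738CP.Main

open CL (crit_le)
open CG (crit_ge)
open ST (structureCP)
open SE (selectionCP)
open EM (exists_minCP)
open E0 (edge_zero)
open VB (volume_boundCP)
open GP (geodesic_of_planarCP)
open TO (torusCP)
open CF (circleCP)
open GR (geodesic_of_real)
open EQ (equatorCP)
open ME (meridianCP)
open LI (lift_line)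

lemma well_subset {L : ℝ} (V : ℝ → ℝ) (s : ℝ) : well L V s ⊆ Ioo 0 L := fun r hr =>
  ⟨(hr r right_mem_uIcc).1, (hr r right_mem_uIcc).2.1⟩

lemma actW_le {L : ℝ} {f h : ℝ → ℝ} (hf : IsProfileCP L f h) (c₁ c₂ s : ℝ) :
    actW L (Veff f h c₁ c₂) s ≤ 2 * ∫ r in Ioo 0 L, √(1 - Veff f h c₁ c₂ r) := by
  rw [actW]
  refine mul_le_mul_of_nonneg_left ?_ (by norm_num)
  have hmeas : Measurable fun r => √(1 - Veff f h c₁ c₂ r) := by
    have h1 := hf.smooth_f.continuous.measurable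
    have h2 := hf.smooth_h.continuous.measurable
    unfold Veff
    fun_prop
  have hb : ∀ r, |√(1 - Veff f h c₁ c₂ r)| ≤ 1 := by
    intro r
    rw [abs_of_nonneg (Real.sqrt_nonneg _)]
    exact Real.sqrt_le_one.2 (by unfold Veff; nlinarith [sq_nonneg (c₁ / f r), sq_nonneg (c₂ / h r)])
  refine setIntegral_mono_set ?_ (Filter.Eventually.of_forall fun r => Real.sqrt_nonneg _)
    (Filter.Eventually.of_forall (well_subset _ s))
  exact Measure.integrableOn_of_bounded (by simp) hmeas.aestronglyMeasurable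
      (Filter.Eventually.of_forall fun r => by simpa using hb r)

lemma isOpen_Reg (R : ℝ) : IsOpen (Reg R) := by
  have h1 : IsOpen {c : ℝ × ℝ | 0 < c.1} := isOpen_lt continuous_const continuous_fst
  have h2 : IsOpen {c : ℝ × ℝ | 0 < c.2} := isOpen_lt continuous_const continuous_snd
  have h3 : IsOpen {c : ℝ × ℝ | c.1 + √(c.1 ^ 2 + c.2 ^ 2) < R} :=
    isOpen_lt (continuous_fst.add ((continuous_fst.pow 2).add (continuous_snd.pow 2)).sqrt)
      continuous_const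
  exact h1.inter (h2.inter h3)

lemma isOpen_Q : IsOpen {c : ℝ × ℝ | 0 < c.1 ∧ 0 < c.2} := by
  have h1 : IsOpen {c : ℝ × ℝ | 0 < c.1} := isOpen_lt continuous_const continuous_fst
  have h2 : IsOpen {c : ℝ × ℝ | 0 < c.2} := isOpen_lt continuous_const continuous_snd
  exact h1.inter h2

/-- The angle functions: primitives of `c / g(r)²`, with their increments over a period of `r`. -/
lemma angle2 {f h r : ℝ → ℝ} {p q T c d : ℝ} (hr : ContDiff ℝ 2 r) (hrI : ∀ t, p ≤ r t ∧ r t ≤ q)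
    (hf : ContDiff ℝ ∞ f) (hf0 : ∀ x ∈ Icc p q, f x ≠ 0) (hh : ContDiff ℝ ∞ h)
    (hh0 : ∀ x ∈ Icc p q, h x ≠ 0) (hrT : ∀ t, r (t + T) = r t) :
    ∃ θ : ℝ → ℝ, ContDiff ℝ 2 θ ∧ (∀ t, deriv θ t = c / f (r t) ^ 2 + d / h (r t) ^ 2) ∧
      ∀ t, θ (t + T) = θ t + ((∫ s in (0 : ℝ)..T, c / f (r s) ^ 2) +
        ∫ s in (0 : ℝ)..T, d / h (r s) ^ 2) := by
  obtain ⟨θ₁, h1, h2, h3⟩ := Rot2.Pre.angle (c := c) hr hrI hf hf0 hrT
  obtain ⟨θ₂, k1, k2, k3⟩ := Rot2.Pre.angle (c := d) hr hrI hh hh0 hrT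
  refine ⟨fun t => θ₁ t + θ₂ t, h1.add k1, fun t => ?_, fun t => ?_⟩
  · have e1 : DifferentiableAt ℝ θ₁ t := (h1.differentiable (by norm_num)).differentiableAt
    have e2 : DifferentiableAt ℝ θ₂ t := (k1.differentiable (by norm_num)).differentiableAt
    rw [show (fun t => θ₁ t + θ₂ t) = θ₁ + θ₂ from rfl, deriv_add e1 e2, h2, k2]
  · simp only
    rw [h3, k3]
    ring

/-- If all periodic geodesics are longer than `π R`, the radial action is at least that of the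
Fubini-Study metric scaled by `R`. -/
theorem action_bound {L : ℝ} {f h : ℝ → ℝ} (hf : IsProfileCP L f h) {n : ℕ} (hn : 2 ≤ n) {R : ℝ}
    (hR : 0 < R)
    (hno : ∀ (γ : ℝ → Submodule ℂ (ℂ × EuclideanSpace ℂ (Fin n))) (T : ℝ), 0 < T →
      IsGeodesicCP L f h 1 γ → (∀ t, γ (t + T) = γ t) → π * R < T) :
    (∀ c ∈ Reg R, π * (R - c.1 - √(c.1 ^ 2 + c.2 ^ 2)) ≤
      2 * ∫ r in Ioo 0 L, √(1 - Veff f h c.1 c.2 r)) ∧ ∃ r, 0 < r ∧ r < L ∧ R < 2 * f r := by
  have hfc : Continuous f := hf.smooth_f.continuous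
  have hhc : Continuous h := hf.smooth_h.continuous
  have hLpos := hf.pos
  have hpi := Real.pi_pos
  have hPair := PR.pair_of_profile hf
  -- critical circles, tori, equator, meridian
  have hcf : ∀ r, 0 < r → r < L → deriv f r = 0 → R < 2 * f r := by
    intro r h0 h1 h2
    obtain ⟨γ, hγ, hper⟩ := circleCP hf hn h0 h1 h2
    have hfr := hf.f_pos r h0 h1
    have := hno γ _ (by positivity) hγ hper
    have h3 : π * R < π * (2 * f r) := by linarith
    exact lt_of_mul_lt_mul_left h3 hpi.le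
  have hct : ∀ r, 0 < r → r < L → 2 * f r ^ 2 ≤ h r ^ 2 →
      h r * f r * deriv f r + deriv h r * (h r ^ 2 - 2 * f r ^ 2) = 0 →
      R ^ 2 * (h r ^ 2 - f r ^ 2) < h r ^ 4 := by
    intro r h0 h1 h2 h3
    obtain ⟨γ, hγ, hper⟩ := torusCP hf hn h0 h1 h2 h3
    have hfr := hf.f_pos r h0 h1
    have hhr := hf.h_pos r h0 h1.le
    have hd : 0 < h r ^ 2 - f r ^ 2 := by nlinarith [sq_nonneg (f r), pow_pos hfr 2]
    have hsd := Real.sqrt_pos.2 hd
    have h4 := hno γ _ (by positivity) hγ hper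
    have h5 : R < h r ^ 2 / √(h r ^ 2 - f r ^ 2) := lt_of_mul_lt_mul_left h4 hpi.le
    rw [lt_div_iff₀ hsd] at h5
    have h6 := Real.sq_sqrt hd.le
    have h7 : (R * √(h r ^ 2 - f r ^ 2)) ^ 2 < (h r ^ 2) ^ 2 :=
      pow_lt_pow_left₀ h5 (by positivity) (by norm_num)
    calc R ^ 2 * (h r ^ 2 - f r ^ 2) = (R * √(h r ^ 2 - f r ^ 2)) ^ 2 := by rw [mul_pow, h6]
      _ < (h r ^ 2) ^ 2 := h7
      _ = h r ^ 4 := by ring
  have hhL := hf.h_pos L hLpos le_rfl
  have hRL : R < h L := by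
    obtain ⟨γ, hγ, hper⟩ := equatorCP hf hn
    exact lt_of_mul_lt_mul_left (hno γ _ (by positivity) hγ hper) hpi.le
  have hmer : π * R < 2 * L := by
    obtain ⟨γ, hγ, hper⟩ := meridianCP hf hn
    exact hno γ _ (by positivity) hγ hper
  obtain ⟨S, a, b, hRS, hwall, hS⟩ := structureCP hf hR hcf hct hRL
  obtain ⟨s, ρ, lo, hi, η, b₂, hρ, hlo, hhi, hη, hs, hsI, hsρ, hhi', hsη, hb₂, hb₂L, hfb₂, hsb⟩ :=
    selectionCP hf hR hRS hwall hS
  -- the edges
  have hEd : ∀ c, 0 ≤ c → 2 * c ≤ R →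
      π * (R - 2 * c) ≤ 2 * ∫ r in Ioo 0 L, √(1 - (c / f r) ^ 2) := by
    intro c hc0 hcR
    have h1 := Rot2.Edge.rot_edge (PR.profile_f hf) (n := 2) le_rfl (R₀ := R / 2) (by linarith)
      (fun γ T hT hγ hper => by
        obtain ⟨γ', hγ', hper'⟩ := lift_line hf hn hγ
        have := hno γ' T hT hγ' (hper' T hper)
        linarith) c hc0 (by linarith)
    rw [Rot.actA] at h1
    linarith
  have hlohi : lo ≤ hi := by
    have := hsI (1, 1) one_pos one_pos
    exact this.1.trans this.2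
  have hhi0 : 0 < hi := hlo.trans_le hlohi
  have hE0 := edge_zero hf hR hRL hmer (fun r θ J T hT hr hθ hpos h1 h2 h3 hrT hθT => by
    obtain ⟨γ, hγ, hper⟩ := geodesic_of_real hf hn hr hθ hpos h1 h2 h3 hrT hθT
    exact hno γ T hT hγ hper) hhi0 hhi hhi'
  have hbL : b < L := hwall.bL
  have hb0 : 0 < b := hwall.apos.trans_le hwall.ab
  by_cases hneg : ∃ c ∈ Reg R, actW L (Veff f h c.1 c.2) (s c) <
      π * (R - c.1 - √(c.1 ^ 2 + c.2 ^ 2))
  swap
  · push Not at hneg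
    exact ⟨fun c hc => (hneg c hc).trans (actW_le hf _ _ _), b₂, hb0.trans_le hb₂, hb₂L, hfb₂⟩
  obtain ⟨c, hc, hDneg, hmin⟩ := exists_minCP hf hR hRS hwall hρ hlo hhi hη hs hsI hsρ hhi' hsη hb₂
    hb₂L hfb₂ hsb hEd hE0 hneg
  obtain ⟨hc1, hc2, hc3⟩ := id hc
  set J : ℝ := √(c.1 ^ 2 + c.2 ^ 2) with hJ
  have hJ2 : J ^ 2 = c.1 ^ 2 + c.2 ^ 2 := Real.sq_sqrt (by positivity)
  have hJpos : 0 < J := Real.sqrt_pos.2 (by positivity)
  have hs1 : Veff f h c.1 c.2 (s c) < 1 := (hsρ c hc).trans_lt hρ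
  have hsc0 : 0 < s c := hlo.trans_le (hsI c hc1 hc2).1
  have hscL : s c < L := (hsI c hc1 hc2).2.trans_lt hhi
  obtain ⟨p, q, hp, hps, hsq, hq, hVp, hVq, hw, hin⟩ := WS.well_spec hPair hc1 hc2 hsc0 hscL hs1
  -- the target function
  have hΓ1 : HasDerivAt (fun x => (fun c : ℝ × ℝ => π * (R - c.1 - √(c.1 ^ 2 + c.2 ^ 2))) (x, c.2))
      (-(π * (1 + c.1 / J))) c.1 := by
    have h1 : HasDerivAt (fun x : ℝ => x ^ 2 + c.2 ^ 2) (2 * c.1) c.1 := by
      have := (hasDerivAt_pow 2 c.1).add_const (c.2 ^ 2)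
      simpa using this
    have h2 := h1.sqrt (by positivity)
    have h3 := (((hasDerivAt_id c.1).const_sub R).sub h2).const_mul π
    refine h3.congr_deriv ?_
    rw [← hJ]
    field_simp
    ring
  have hΓ2 : HasDerivAt (fun x => (fun c : ℝ × ℝ => π * (R - c.1 - √(c.1 ^ 2 + c.2 ^ 2))) (c.1, x))
      (-(π * (c.2 / J))) c.2 := by
    have h1 : HasDerivAt (fun x : ℝ => c.1 ^ 2 + x ^ 2) (2 * c.2) c.2 := by
      have := (hasDerivAt_pow 2 c.2).const_add (c.1 ^ 2)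
      simpa using this
    have h2 := h1.sqrt (by positivity)
    have h3 := (h2.const_sub (R - c.1)).const_mul π
    refine h3.congr_deriv ?_
    rw [← hJ]
    field_simp
  have hscont : ContinuousAt s c := hs.continuousAt (isOpen_Q.mem_nhds ⟨hc1, hc2⟩)
  have hmin' : ∀ᶠ c' in 𝓝 c, actW L (Veff f h c.1 c.2) (s c) -
      (fun c : ℝ × ℝ => π * (R - c.1 - √(c.1 ^ 2 + c.2 ^ 2))) c ≤
      actW L (Veff f h c'.1 c'.2) (s c') -
      (fun c : ℝ × ℝ => π * (R - c.1 - √(c.1 ^ 2 + c.2 ^ 2))) c' := by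
    filter_upwards [(isOpen_Reg R).mem_nhds hc] with c' hc'
    exact hmin c' hc'
  obtain ⟨hint, hΦ1, hΦ2, hp', hq'⟩ := crit_le
    (Γ := fun c : ℝ × ℝ => π * (R - c.1 - √(c.1 ^ 2 + c.2 ^ 2))) hPair hc1 hc2 hscont hΓ1 hΓ2 hmin'
    hp hps hsq hq hVp hVq hw hin
  obtain ⟨hΨ1, hΨ2⟩ := crit_ge
    (Γ := fun c : ℝ × ℝ => π * (R - c.1 - √(c.1 ^ 2 + c.2 ^ 2))) hPair hc1 hc2 hscont hΓ1 hΓ2 hmin'
    hp hps hsq hq hVp hVq hw hin hint hp' hq'
  have hE1 := le_antisymm hΦ1 hΨ1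
  have hE2 := le_antisymm hΦ2 hΨ2
  have hpq : p < q := hps.trans hsq
  have hsubL : ∀ x ∈ Icc p q, 0 < x ∧ x < L := fun x hx => ⟨hp.trans_le hx.1, hx.2.trans_lt hq⟩
  have hfne : ∀ x ∈ Icc p q, f x ≠ 0 := fun x hx =>
    (hf.f_pos x (hsubL x hx).1 (hsubL x hx).2).ne'
  have hhne : ∀ x ∈ Icc p q, h x ≠ 0 := fun x hx =>
    (hf.h_pos x (hsubL x hx).1 (hsubL x hx).2.le).ne'
  have hVsm : ContDiffOn ℝ ∞ (Veff f h c.1 c.2) (Ioo 0 L) := by
    have h1 : ContDiffOn ℝ ∞ (fun r => c.1 / f r) (Ioo 0 L) :=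
      contDiffOn_const.div hf.smooth_f.contDiffOn fun x hx => (hf.f_pos x hx.1 hx.2).ne'
    have h2 : ContDiffOn ℝ ∞ (fun r => c.2 / h r) (Ioo 0 L) :=
      contDiffOn_const.div hf.smooth_h.contDiffOn fun x hx => (hf.h_pos x hx.1 hx.2.le).ne'
    exact (h1.pow 2).add (h2.pow 2)
  obtain ⟨r, T, hT, hTeq, hr, hrI, hr2, hr1, hrT, hrint⟩ :=
    Rot2.TH.oscillator hp hpq hq hVsm hVp hVq hp' hq' hin
  have hrpos : ∀ t, 0 < r t ∧ r t < L := fun t => hsubL (r t) ⟨(hrI t).1, (hrI t).2⟩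
  obtain ⟨θ₁, hθ₁, hθ₁d, hθ₁T⟩ := angle2 (c := c.1) (d := J - c.1) hr hrI hf.smooth_f hfne
    hf.smooth_h hhne hrT
  obtain ⟨θ₂, hθ₂, hθ₂d, hθ₂T⟩ := angle2 (c := c.1) (d := -(J + c.1)) hr hrI hf.smooth_f hfne
    hf.smooth_h hhne hrT
  have hA1 : ∫ t in (0 : ℝ)..T, c.1 / f (r t) ^ 2 = π * (1 + c.1 / J) := by
    rw [hrint (fun x => c.1 / f x ^ 2)
      (continuousOn_const.div (hfc.continuousOn.pow 2) fun x hx => pow_ne_zero 2 (hfne x hx))]
    simp only [div_div]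
    exact hE1
  have hA2 : ∫ t in (0 : ℝ)..T, c.2 / h (r t) ^ 2 = π * (c.2 / J) := by
    rw [hrint (fun x => c.2 / h x ^ 2)
      (continuousOn_const.div (hhc.continuousOn.pow 2) fun x hx => pow_ne_zero 2 (hhne x hx))]
    simp only [div_div]
    exact hE2
  have hA3 : ∀ d : ℝ, ∫ t in (0 : ℝ)..T, d / h (r t) ^ 2 = π * (d / J) := by
    intro d
    have e : ∀ t, d / h (r t) ^ 2 = (d / c.2) * (c.2 / h (r t) ^ 2) := by
      intro t
      have := hhne (r t) ⟨(hrI t).1, (hrI t).2⟩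
      field_simp
    simp only [e]
    rw [intervalIntegral.integral_const_mul, hA2]
    field_simp
  -- the length of one oscillation
  have hTlt : T < π * R := by
    have e : ∀ x ∈ Ioo p q, 1 / √(1 - Veff f h c.1 c.2 x) = √(1 - Veff f h c.1 c.2 x)
        + (c.1 * (c.1 / (f x ^ 2 * √(1 - Veff f h c.1 c.2 x)))
        + c.2 * (c.2 / (h x ^ 2 * √(1 - Veff f h c.1 c.2 x)))) := by
      intro x hx
      have hx1 : 0 < 1 - Veff f h c.1 c.2 x := by linarith [hin x hx]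
      have hsq := Real.sq_sqrt hx1.le
      have hsp := Real.sqrt_pos.2 hx1
      have hfx := hfne x ⟨hx.1.le, hx.2.le⟩
      have hhx := hhne x ⟨hx.1.le, hx.2.le⟩
      have hVx : Veff f h c.1 c.2 x = (c.1 / f x) ^ 2 + (c.2 / h x) ^ 2 := rfl
      set y := √(1 - Veff f h c.1 c.2 x) with hy
      have h3 : y ^ 2 = 1 - ((c.1 / f x) ^ 2 + (c.2 / h x) ^ 2) := by rw [hsq, hVx]
      have h4 : 1 = y ^ 2 + (c.1 ^ 2 / f x ^ 2 + c.2 ^ 2 / h x ^ 2) := by
        rw [h3, div_pow, div_pow]; ring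
      have h5 : 1 / y = (y ^ 2 + (c.1 ^ 2 / f x ^ 2 + c.2 ^ 2 / h x ^ 2)) / y := by rw [← h4]
      rw [h5]
      field_simp
    have hbd : ∀ {g : ℝ → ℝ} (d : ℝ), Continuous g → (∀ x ∈ Icc p q, g x ≠ 0) →
        IntegrableOn (fun x => d / (g x ^ 2 * √(1 - Veff f h c.1 c.2 x))) (Ioo p q) := by
      intro g d hg hg0
      have hcont : ContinuousOn (fun x => d / g x ^ 2) (Icc p q) :=
        continuousOn_const.div (hg.continuousOn.pow 2) fun x hx => pow_ne_zero 2 (hg0 x hx)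
      obtain ⟨M, hM⟩ := isCompact_Icc.exists_bound_of_continuousOn hcont
      have h1 : IntegrableOn (fun x => (d / g x ^ 2) * (1 / √(1 - Veff f h c.1 c.2 x)))
          (Ioo p q) := by
        refine Integrable.bdd_mul (c := M) hint
          ((hcont.mono Ioo_subset_Icc_self).aestronglyMeasurable measurableSet_Ioo) ?_
        exact (ae_restrict_iff' measurableSet_Ioo).2 (Filter.Eventually.of_forall fun x hx =>
          hM x (Ioo_subset_Icc_self hx))
      refine h1.congr_fun (fun x _ => ?_) measurableSet_Ioo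
      simp only [mul_one_div, div_div]
    have i1 := hbd c.1 hfc hfne
    have i2 := hbd c.2 hhc hhne
    have i0 : IntegrableOn (fun x => √(1 - Veff f h c.1 c.2 x)) (Ioo p q) := by
      have h1 := (hint.sub ((i1.const_mul c.1).add (i2.const_mul c.2)))
      refine h1.congr_fun (fun x hx => ?_) measurableSet_Ioo
      simp only [Pi.sub_apply, Pi.add_apply]
      linarith [e x hx]
    have h1 : ∫ x in Ioo p q, 1 / √(1 - Veff f h c.1 c.2 x) =
        (∫ x in Ioo p q, √(1 - Veff f h c.1 c.2 x)) +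
        (c.1 * (∫ x in Ioo p q, c.1 / (f x ^ 2 * √(1 - Veff f h c.1 c.2 x))) +
        c.2 * (∫ x in Ioo p q, c.2 / (h x ^ 2 * √(1 - Veff f h c.1 c.2 x)))) := by
      have j12 : IntegrableOn (fun x => c.1 * (c.1 / (f x ^ 2 * √(1 - Veff f h c.1 c.2 x)))
          + c.2 * (c.2 / (h x ^ 2 * √(1 - Veff f h c.1 c.2 x)))) (Ioo p q) :=
        (i1.const_mul c.1).add (i2.const_mul c.2)
      rw [setIntegral_congr_fun measurableSet_Ioo e, integral_add i0 j12,
        integral_add (i1.const_mul c.1) (i2.const_mul c.2), integral_const_mul, integral_const_mul]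
    have h2 : actW L (Veff f h c.1 c.2) (s c) = 2 * ∫ x in Ioo p q, √(1 - Veff f h c.1 c.2 x) := by
      rw [actW, hw]
    rw [h2] at hDneg
    rw [hTeq, h1]
    have g1 : c.1 * (2 * ∫ x in Ioo p q, c.1 / (f x ^ 2 * √(1 - Veff f h c.1 c.2 x))) =
        c.1 * (π * (1 + c.1 / J)) := by rw [hE1]
    have g2 : c.2 * (2 * ∫ x in Ioo p q, c.2 / (h x ^ 2 * √(1 - Veff f h c.1 c.2 x))) =
        c.2 * (π * (c.2 / J)) := by rw [hE2]
    have g3 : c.1 * (π * (1 + c.1 / J)) + c.2 * (π * (c.2 / J)) = π * (c.1 + J) := by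
      have : c.1 * (π * (1 + c.1 / J)) + c.2 * (π * (c.2 / J)) =
          π * (c.1 + (c.1 ^ 2 + c.2 ^ 2) / J) := by field_simp; ring
      rw [this, ← hJ2]
      field_simp
    nlinarith
  -- the closed geodesic
  obtain ⟨γ, hγ, hper⟩ := geodesic_of_planarCP hf hn (P := c.1) (Q := c.2) (J := J) (T := T) hc1
    hc2.le hJ hr hθ₁ hθ₂ hrpos (fun t => by
      have hfx := hfne (r t) ⟨(hrI t).1, (hrI t).2⟩
      have hhx := hhne (r t) ⟨(hrI t).1, (hrI t).2⟩
      have d1 : HasDerivAt (fun r => c.1 / f r) (-(c.1 * deriv f (r t)) / f (r t) ^ 2) (r t) := by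
        have := (hasDerivAt_const (r t) c.1).div
          ((hf.smooth_f.differentiable (by simp)).differentiableAt (x := r t)).hasDerivAt hfx
        refine this.congr_deriv ?_
        ring
      have d2 : HasDerivAt (fun r => c.2 / h r) (-(c.2 * deriv h (r t)) / h (r t) ^ 2) (r t) := by
        have := (hasDerivAt_const (r t) c.2).div
          ((hf.smooth_h.differentiable (by simp)).differentiableAt (x := r t)).hasDerivAt hhx
        refine this.congr_deriv ?_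
        ring
      have d3 : HasDerivAt (Veff f h c.1 c.2) (2 * (c.1 / f (r t)) * (-(c.1 * deriv f (r t)) / f (r t) ^ 2)
          + 2 * (c.2 / h (r t)) * (-(c.2 * deriv h (r t)) / h (r t) ^ 2)) (r t) := by
        have := (d1.pow 2).add (d2.pow 2)
        refine this.congr_deriv ?_
        norm_num
      rw [hr2, d3.deriv]
      field_simp
      ring)
    (fun t => hθ₁d t) (fun t => by rw [hθ₂d t]; ring)
    (fun t => by rw [hr1]; ring) hrT
    (fun t => by
      rw [hθ₁T, hA1, hA3]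
      field_simp
      ring)
    (Or.inr (fun t => by
      rw [hθ₂T, hA1, hA3]
      field_simp
      ring))
  exact absurd (hno γ T hT hγ hper) (not_lt.2 hTlt.le)

theorem short_geodesicCP {L : ℝ} {f h : ℝ → ℝ} (hf : IsProfileCP L f h) {n : ℕ} (hn : 2 ≤ n) :
    ∃ (γ : ℝ → Submodule ℂ (ℂ × EuclideanSpace ℂ (Fin n))) (T : ℝ), 0 < T ∧
      IsGeodesicCP L f h 1 γ ∧ (∀ t, γ (t + T) = γ t) ∧
      T ^ (2 * n) ≤ 2 * n * π ^ (2 * n) * ∫ r in (0 : ℝ)..L, f r * h r ^ (2 * n - 2) := by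
  have hfc : Continuous f := hf.smooth_f.continuous
  have hhc : Continuous h := hf.smooth_h.continuous
  have hLpos := hf.pos
  have hpi := Real.pi_pos
  have hPair := PR.pair_of_profile hf
  have hn0 : 2 * n ≠ 0 := by omega
  have hnpos : (0 : ℝ) < n := by exact_mod_cast (by omega : 0 < n)
  set V : ℝ := ∫ r in (0 : ℝ)..L, f r * h r ^ (2 * n - 2) with hVdef
  have hV : 0 < V := by
    refine intervalIntegral.intervalIntegral_pos_of_pos_on
      ((hfc.mul (hhc.pow _)).intervalIntegrable _ _) (fun x hx => ?_) hLpos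
    exact mul_pos (hf.f_pos x hx.1 hx.2) (pow_pos (hf.h_pos x hx.1 hx.2.le) _)
  obtain ⟨R, hR, hRn⟩ : ∃ R : ℝ, 0 < R ∧ R ^ (2 * n) = 2 * n * V := by
    refine ⟨(2 * n * V) ^ (((2 * n : ℕ) : ℝ)⁻¹), Real.rpow_pos_of_pos (by positivity) _, ?_⟩
    rw [Real.rpow_inv_natCast_pow (by positivity) hn0]
  suffices hmain : ∃ (γ : ℝ → Submodule ℂ (ℂ × EuclideanSpace ℂ (Fin n))) (T : ℝ),
      0 < T ∧ IsGeodesicCP L f h 1 γ ∧ (∀ t, γ (t + T) = γ t) ∧ T ≤ π * R by
    obtain ⟨γ, T, hT, hγ, hper, hle⟩ := hmain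
    refine ⟨γ, T, hT, hγ, hper, ?_⟩
    have h1 : T ^ (2 * n) ≤ (π * R) ^ (2 * n) := pow_le_pow_left₀ hT.le hle _
    calc T ^ (2 * n) ≤ (π * R) ^ (2 * n) := h1
      _ = π ^ (2 * n) * R ^ (2 * n) := mul_pow _ _ _
      _ = 2 * n * π ^ (2 * n) * V := by rw [hRn]; ring
  by_contra hcon
  have hno : ∀ (γ : ℝ → Submodule ℂ (ℂ × EuclideanSpace ℂ (Fin n))) (T : ℝ), 0 < T →
      IsGeodesicCP L f h 1 γ → (∀ t, γ (t + T) = γ t) → π * R < T := by
    intro γ T hT hγ hper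
    by_contra hle
    exact hcon ⟨γ, T, hT, hγ, hper, not_lt.1 hle⟩
  obtain ⟨hA, hbig⟩ := action_bound hf hn hR hno
  have h1 := volume_boundCP hf hn hR hA hbig
  rw [← hVdef, hRn] at h1
  exact lt_irrefl _ h1

end H738CP.Main
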