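import Pool.Agent.H738R3.CP.Defs

open Real Set MeasureTheory Filter Topology
open scoped ContDiff

namespace H738CP.PR

/-- PR: profiles of `ℂP^n` are pairs. -/
theorem pair_of_profile {L : ℝ} {f h : ℝ → ℝ} (hf : IsProfileCP L f h) : Pair L f h := by
  refine ⟨hf.pos, hf.smooth_f, hf.smooth_h, hf.f_pos, fun r h1 h2 => hf.h_pos r h1 h2.le, ?_, ?_⟩
  · left
    have := hf.f_odd 0
    rw [neg_zero] at this
    linarith
  · left
    have := hf.f_odd_L 0
    rw [add_zero, sub_zero] at this
    linarith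

/-- PR: the double of `h`. -/
theorem pair_double {L : ℝ} {f h : ℝ → ℝ} (hf : IsProfileCP L f h) : Pair (2 * L) h h := by
  have e1 : ∀ r, h (2 * L - r) = h r := by
    intro r
    have := hf.h_even_L (L - r)
    rw [show L + (L - r) = 2 * L - r by ring, show L - (L - r) = r by ring] at this
    exact this
  have h0 : h 0 = 0 := by
    have := hf.h_odd 0
    rw [neg_zero] at this
    linarith
  have hp : ∀ r, 0 < r → r < 2 * L → 0 < h r := by
    intro r h1 h2
    rcases le_total r L with h3 | h3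
    · exact hf.h_pos r h1 h3
    · rw [← e1]
      exact hf.h_pos _ (by linarith) (by linarith)
  refine ⟨by linarith [hf.pos], hf.smooth_h, hf.smooth_h, hp, hp, Or.inl h0, Or.inl ?_⟩
  rw [← e1, sub_self]
  exact h0

/-- PR: the totally geodesic `ℂP¹`. -/
theorem profile_f {L : ℝ} {f h : ℝ → ℝ} (hf : IsProfileCP L f h) :
    Pool.Agent.H206R2.Rot.IsProfile L f :=
  ⟨hf.pos, hf.smooth_f, hf.f_odd, hf.f_odd_L, hf.f_pos, hf.f_deriv, hf.f_deriv_L⟩

end H738CP.PR
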