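import Pool.Agent.H738R3.CP.Defs

open Real Set MeasureTheory Filter Topology
open scoped ContDiff
open Pool.Agent.H206R2 (Rot.Wall)
open Pool.Agent.H206R2.Rot2 (Veff well actW)

namespace H738CP.Stubs

/-- PR: profiles of `ℂP^n` are pairs. -/
theorem pair_of_profile {L : ℝ} {f h : ℝ → ℝ} (hf : IsProfileCP L f h) : Pair L f h := by
  sorry

/-- PR: the double of `h`. -/
theorem pair_double {L : ℝ} {f h : ℝ → ℝ} (hf : IsProfileCP L f h) : Pair (2 * L) h h := by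
  sorry

/-- PR: the totally geodesic `ℂP¹`. -/
theorem profile_f {L : ℝ} {f h : ℝ → ℝ} (hf : IsProfileCP L f h) :
    Pool.Agent.H206R2.Rot.IsProfile L f := by
  sorry

/-- WS. -/
theorem well_spec {L : ℝ} {f h : ℝ → ℝ} (hf : Pair L f h) {c₁ c₂ : ℝ} (h1 : 0 < c₁)
    (h2 : 0 < c₂) {s : ℝ} (hs0 : 0 < s) (hsL : s < L) (hs : Veff f h c₁ c₂ s < 1) :
    ∃ p q, 0 < p ∧ p < s ∧ s < q ∧ q < L ∧ Veff f h c₁ c₂ p = 1 ∧ Veff f h c₁ c₂ q = 1 ∧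
      well L (Veff f h c₁ c₂) s = Ioo p q ∧ ∀ x ∈ Ioo p q, Veff f h c₁ c₂ x < 1 := by
  sorry

/-- LS: lower semicontinuity of the action. -/
theorem lsc_act {L : ℝ} {f h : ℝ → ℝ} (hf : Pair L f h) {s : ℝ × ℝ → ℝ}
    {c₀ : ℝ × ℝ} {c : ℕ → ℝ × ℝ} (hc : Tendsto c atTop (𝓝 c₀)) {m : ℝ}
    (hA : Tendsto (fun n => actW L (Veff f h (c n).1 (c n).2) (s (c n))) atTop (𝓝 m))
    {p q x' y' : ℝ} (hp : 0 ≤ p) (hq : q ≤ L)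
    (hV : ∀ r ∈ Ioo p q, Veff f h c₀.1 c₀.2 r < 1) (hx : p < x') (hxy : x' ≤ y') (hy : y' < q)
    (hs : ∀ᶠ n in atTop, s (c n) ∈ Icc x' y') :
    2 * (∫ r in Ioo p q, √(1 - Veff f h c₀.1 c₀.2 r)) ≤ m := by
  sorry

/-- CL: first half of the critical point equations, for a general target function `Γ`. -/
theorem crit_le {L : ℝ} {f h : ℝ → ℝ} (hf : Pair L f h) {s : ℝ × ℝ → ℝ} {Γ : ℝ × ℝ → ℝ}
    {c : ℝ × ℝ} (hc1 : 0 < c.1) (hc2 : 0 < c.2) (hs : ContinuousAt s c) {m₁ m₂ : ℝ}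
    (hΓ1 : HasDerivAt (fun x => Γ (x, c.2)) (-m₁) c.1)
    (hΓ2 : HasDerivAt (fun x => Γ (c.1, x)) (-m₂) c.2)
    (hmin : ∀ᶠ c' in 𝓝 c, actW L (Veff f h c.1 c.2) (s c) - Γ c ≤
      actW L (Veff f h c'.1 c'.2) (s c') - Γ c')
    {p q : ℝ} (hp : 0 < p) (hps : p < s c) (hsq : s c < q) (hq : q < L)
    (hVp : Veff f h c.1 c.2 p = 1) (hVq : Veff f h c.1 c.2 q = 1)
    (hw : well L (Veff f h c.1 c.2) (s c) = Ioo p q)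
    (hin : ∀ x ∈ Ioo p q, Veff f h c.1 c.2 x < 1) :
    IntegrableOn (fun r => 1 / √(1 - Veff f h c.1 c.2 r)) (Ioo p q) ∧
    2 * ∫ r in Ioo p q, c.1 / (f r ^ 2 * √(1 - Veff f h c.1 c.2 r)) ≤ m₁ ∧
    2 * ∫ r in Ioo p q, c.2 / (h r ^ 2 * √(1 - Veff f h c.1 c.2 r)) ≤ m₂ ∧
    deriv (Veff f h c.1 c.2) p < 0 ∧ 0 < deriv (Veff f h c.1 c.2) q := by
  sorry

/-- CG: second half of the critical point equations, for a general target function `Γ`. -/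
theorem crit_ge {L : ℝ} {f h : ℝ → ℝ} (hf : Pair L f h) {s : ℝ × ℝ → ℝ} {Γ : ℝ × ℝ → ℝ}
    {c : ℝ × ℝ} (hc1 : 0 < c.1) (hc2 : 0 < c.2) (hs : ContinuousAt s c) {m₁ m₂ : ℝ}
    (hΓ1 : HasDerivAt (fun x => Γ (x, c.2)) (-m₁) c.1)
    (hΓ2 : HasDerivAt (fun x => Γ (c.1, x)) (-m₂) c.2)
    (hmin : ∀ᶠ c' in 𝓝 c, actW L (Veff f h c.1 c.2) (s c) - Γ c ≤
      actW L (Veff f h c'.1 c'.2) (s c') - Γ c')
    {p q : ℝ} (hp : 0 < p) (hps : p < s c) (hsq : s c < q) (hq : q < L)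
    (hVp : Veff f h c.1 c.2 p = 1) (hVq : Veff f h c.1 c.2 q = 1)
    (hw : well L (Veff f h c.1 c.2) (s c) = Ioo p q)
    (hin : ∀ x ∈ Ioo p q, Veff f h c.1 c.2 x < 1)
    (hint : IntegrableOn (fun r => 1 / √(1 - Veff f h c.1 c.2 r)) (Ioo p q))
    (hp' : deriv (Veff f h c.1 c.2) p < 0) (hq' : 0 < deriv (Veff f h c.1 c.2) q) :
    m₁ ≤ 2 * ∫ r in Ioo p q, c.1 / (f r ^ 2 * √(1 - Veff f h c.1 c.2 r)) ∧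
    m₂ ≤ 2 * ∫ r in Ioo p q, c.2 / (h r ^ 2 * √(1 - Veff f h c.1 c.2 r)) := by
  sorry

/-- OS: the periodic oscillation in a well, with the half period symmetry. -/
theorem oscillator_sym {M : ℝ} {V : ℝ → ℝ} {p : ℝ} (hp : 0 < p) (hpM : p < M / 2)
    (hV : ContDiffOn ℝ ∞ V (Ioo 0 M)) (hsym : ∀ x, V (M - x) = V x) (hVp : V p = 1)
    (hp' : deriv V p < 0) (hin : ∀ x ∈ Ioo p (M - p), V x < 1) :
    ∃ (r : ℝ → ℝ) (T : ℝ), 0 < T ∧ T = 2 * ∫ x in Ioo p (M - p), 1 / √(1 - V x) ∧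
      ContDiff ℝ 2 r ∧ (∀ t, p ≤ r t ∧ r t ≤ M - p) ∧
      (∀ t, deriv (deriv r) t = -deriv V (r t) / 2) ∧
      (∀ t, deriv r t ^ 2 = 1 - V (r t)) ∧ (∀ t, r (t + T / 2) = M - r t) ∧
      (∀ g : ℝ → ℝ, ContinuousOn g (Icc p (M - p)) →
        ∫ t in (0 : ℝ)..T, g (r t) = 2 * ∫ x in Ioo p (M - p), g x / √(1 - V x)) := by
  sorry

/-- ST: the structure of the profile when there are no short closed geodesics. -/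
theorem structureCP {L : ℝ} {f h : ℝ → ℝ} (hf : IsProfileCP L f h) {R : ℝ} (hR : 0 < R)
    (hcf : ∀ r, 0 < r → r < L → deriv f r = 0 → R < 2 * f r)
    (hct : ∀ r, 0 < r → r < L → 2 * f r ^ 2 ≤ h r ^ 2 →
      h r * f r * deriv f r + deriv h r * (h r ^ 2 - 2 * f r ^ 2) = 0 →
      R ^ 2 * (h r ^ 2 - f r ^ 2) < h r ^ 4)
    (hL : R < h L) :
    ∃ S a b, R < S ∧ Pool.Agent.H206R2.Rot.Wall L f (S / 2) a b ∧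
      ∀ r ∈ Icc b L, 2 * f r ^ 2 ≤ h r ^ 2 ∧ S ^ 2 * (h r ^ 2 - f r ^ 2) ≤ h r ^ 4 := by
  sorry

/-- SE: the continuous selection of a point deep in a well. -/
theorem selectionCP {L : ℝ} {f h : ℝ → ℝ} (hf : IsProfileCP L f h) {R S a b : ℝ} (hR : 0 < R)
    (hRS : R < S) (hwall : Pool.Agent.H206R2.Rot.Wall L f (S / 2) a b)
    (hS : ∀ r ∈ Icc b L, 2 * f r ^ 2 ≤ h r ^ 2 ∧ S ^ 2 * (h r ^ 2 - f r ^ 2) ≤ h r ^ 4) :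
    ∃ (s : ℝ × ℝ → ℝ) (ρ lo hi η b₂ : ℝ), ρ < 1 ∧ 0 < lo ∧ hi < L ∧ 0 < η ∧
      ContinuousOn s {c | 0 < c.1 ∧ 0 < c.2} ∧
      (∀ c : ℝ × ℝ, 0 < c.1 → 0 < c.2 → lo ≤ s c ∧ s c ≤ hi) ∧
      (∀ c ∈ Reg R, Veff f h c.1 c.2 (s c) ≤ ρ) ∧
      (∀ x ∈ Icc hi L, R < h x) ∧
      (∀ c : ℝ × ℝ, 0 < c.1 → 0 < c.2 → c.1 ≤ η * c.2 → s c = hi) ∧
      b ≤ b₂ ∧ b₂ < L ∧ R < 2 * f b₂ ∧
      (∀ c : ℝ × ℝ, 0 < c.1 → 0 < c.2 → c.2 ≤ η * c.1 → b ≤ s c ∧ s c ≤ b₂) := by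
  sorry

/-- EM: existence of the minimum of the action defect. -/
theorem exists_minCP {L : ℝ} {f h : ℝ → ℝ} (hf : IsProfileCP L f h) {R S a b : ℝ} (hR : 0 < R)
    (hRS : R < S) (hwall : Pool.Agent.H206R2.Rot.Wall L f (S / 2) a b)
    {s : ℝ × ℝ → ℝ} {ρ lo hi η b₂ : ℝ} (hρ : ρ < 1) (hlo : 0 < lo) (hhi : hi < L) (hη : 0 < η)
    (hs : ContinuousOn s {c | 0 < c.1 ∧ 0 < c.2})
    (hsI : ∀ c : ℝ × ℝ, 0 < c.1 → 0 < c.2 → lo ≤ s c ∧ s c ≤ hi)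
    (hsρ : ∀ c ∈ Reg R, Veff f h c.1 c.2 (s c) ≤ ρ)
    (hhi' : ∀ x ∈ Icc hi L, R < h x)
    (hsη : ∀ c : ℝ × ℝ, 0 < c.1 → 0 < c.2 → c.1 ≤ η * c.2 → s c = hi)
    (hb₂ : b ≤ b₂) (hb₂L : b₂ < L) (hfb₂ : R < 2 * f b₂)
    (hsb : ∀ c : ℝ × ℝ, 0 < c.1 → 0 < c.2 → c.2 ≤ η * c.1 → b ≤ s c ∧ s c ≤ b₂)
    (hEd : ∀ c, 0 ≤ c → 2 * c ≤ R → π * (R - 2 * c) ≤ 2 * ∫ r in Ioo 0 L, √(1 - (c / f r) ^ 2))
    (hE0 : ∀ J, 0 < J → J < R → π * (R - J) ≤ actW L (fun r => (J / h r) ^ 2) hi)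
    (hneg : ∃ c ∈ Reg R, actW L (Veff f h c.1 c.2) (s c) <
      π * (R - c.1 - √(c.1 ^ 2 + c.2 ^ 2))) :
    ∃ c ∈ Reg R, actW L (Veff f h c.1 c.2) (s c) < π * (R - c.1 - √(c.1 ^ 2 + c.2 ^ 2)) ∧
      ∀ c' ∈ Reg R, actW L (Veff f h c.1 c.2) (s c) - π * (R - c.1 - √(c.1 ^ 2 + c.2 ^ 2)) ≤
        actW L (Veff f h c'.1 c'.2) (s c') - π * (R - c'.1 - √(c'.1 ^ 2 + c'.2 ^ 2)) := by
  sorry

/-- E0: the edge `P = 0`. -/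
theorem edge_zero {L : ℝ} {f h : ℝ → ℝ} (hf : IsProfileCP L f h) {R : ℝ} (hR : 0 < R)
    (hL : R < h L) (hmer : π * R < 2 * L)
    (hno : ∀ (r θ : ℝ → ℝ) (J T : ℝ), 0 < T → ContDiff ℝ 2 r → ContDiff ℝ 2 θ →
      (∀ t, 0 < r t ∧ r t < 2 * L) →
      (∀ t, deriv (deriv r) t = h (r t) * deriv h (r t) * deriv θ t ^ 2) →
      (∀ t, h (r t) ^ 2 * deriv θ t = J) →
      (∀ t, deriv r t ^ 2 + h (r t) ^ 2 * deriv θ t ^ 2 = 1) →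
      (∀ t, r (t + T) = 2 * L - r t) → (∀ t, θ (t + T) = θ t + π) → π * R < T)
    {s₁ : ℝ} (h0 : 0 < s₁) (h1 : s₁ < L) (hs : ∀ x ∈ Icc s₁ L, R < h x) :
    ∀ J, 0 < J → J < R → π * (R - J) ≤ actW L (fun r => (J / h r) ^ 2) s₁ := by
  sorry

/-- VB: the volume bound. -/
theorem volume_boundCP {L : ℝ} {f h : ℝ → ℝ} (hf : IsProfileCP L f h) {n : ℕ} (hn : 2 ≤ n)
    {R : ℝ} (hR : 0 < R)
    (hA : ∀ c ∈ Reg R, π * (R - c.1 - √(c.1 ^ 2 + c.2 ^ 2)) ≤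
      2 * ∫ r in Ioo 0 L, √(1 - Veff f h c.1 c.2 r))
    (hbig : ∃ r, 0 < r ∧ r < L ∧ R < 2 * f r) :
    R ^ (2 * n) < 2 * n * ∫ r in (0 : ℝ)..L, f r * h r ^ (2 * n - 2) := by
  sorry

/-- GP: closed geodesics from planar solutions with both constants. -/
theorem geodesic_of_planarCP {L : ℝ} {f h : ℝ → ℝ} (hf : IsProfileCP L f h) {n : ℕ} (hn : 2 ≤ n)
    {r θ₁ θ₂ : ℝ → ℝ} {P Q J T : ℝ} (hP : 0 < P) (hQ : 0 ≤ Q) (hJ : J = √(P ^ 2 + Q ^ 2))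
    (hr : ContDiff ℝ 2 r) (hθ₁ : ContDiff ℝ 2 θ₁) (hθ₂ : ContDiff ℝ 2 θ₂)
    (hpos : ∀ t, 0 < r t ∧ r t < L)
    (h1 : ∀ t, deriv (deriv r) t = f (r t) * deriv f (r t) * (P / f (r t) ^ 2) ^ 2
      + h (r t) * deriv h (r t) * (Q / h (r t) ^ 2) ^ 2)
    (h2 : ∀ t, deriv θ₁ t = P / f (r t) ^ 2 + (J - P) / h (r t) ^ 2)
    (h3 : ∀ t, deriv θ₂ t = P / f (r t) ^ 2 - (J + P) / h (r t) ^ 2)
    (h4 : ∀ t, deriv r t ^ 2 + Veff f h P Q (r t) = 1)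
    (hrT : ∀ t, r (t + T) = r t) (hθ₁T : ∀ t, θ₁ (t + T) = θ₁ t + 2 * π)
    (hθ₂T : Q = 0 ∨ ∀ t, θ₂ (t + T) = θ₂ t) :
    ∃ γ : ℝ → Submodule ℂ (ℂ × EuclideanSpace ℂ (Fin n)), IsGeodesicCP L f h 1 γ ∧
      ∀ t, γ (t + T) = γ t := by
  sorry

/-- TO: critical tori. -/
theorem torusCP {L : ℝ} {f h : ℝ → ℝ} (hf : IsProfileCP L f h) {n : ℕ} (hn : 2 ≤ n) {r₀ : ℝ}
    (h0 : 0 < r₀) (hL : r₀ < L) (h2 : 2 * f r₀ ^ 2 ≤ h r₀ ^ 2)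
    (hd : h r₀ * f r₀ * deriv f r₀ + deriv h r₀ * (h r₀ ^ 2 - 2 * f r₀ ^ 2) = 0) :
    ∃ γ : ℝ → Submodule ℂ (ℂ × EuclideanSpace ℂ (Fin n)), IsGeodesicCP L f h 1 γ ∧
      ∀ t, γ (t + π * (h r₀ ^ 2 / √(h r₀ ^ 2 - f r₀ ^ 2))) = γ t := by
  sorry

/-- CF: critical Hopf circles. -/
theorem circleCP {L : ℝ} {f h : ℝ → ℝ} (hf : IsProfileCP L f h) {n : ℕ} (hn : 2 ≤ n) {r₀ : ℝ}
    (h0 : 0 < r₀) (hL : r₀ < L) (hd : deriv f r₀ = 0) :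
    ∃ γ : ℝ → Submodule ℂ (ℂ × EuclideanSpace ℂ (Fin n)), IsGeodesicCP L f h 1 γ ∧
      ∀ t, γ (t + 2 * π * f r₀) = γ t := by
  sorry

/-- GR: closed geodesics in the totally geodesic real projective planes. -/
theorem geodesic_of_real {L : ℝ} {f h : ℝ → ℝ} (hf : IsProfileCP L f h) {n : ℕ} (hn : 2 ≤ n)
    {r θ : ℝ → ℝ} {T : ℝ} (hr : ContDiff ℝ 2 r) (hθ : ContDiff ℝ 2 θ)
    (hpos : ∀ t, 0 < r t ∧ r t < 2 * L)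
    (h1 : ∀ t, deriv (deriv r) t = h (r t) * deriv h (r t) * deriv θ t ^ 2)
    {J : ℝ} (h2 : ∀ t, h (r t) ^ 2 * deriv θ t = J)
    (h3 : ∀ t, deriv r t ^ 2 + h (r t) ^ 2 * deriv θ t ^ 2 = 1)
    (hrT : ∀ t, r (t + T) = 2 * L - r t) (hθT : ∀ t, θ (t + T) = θ t + π) :
    ∃ γ : ℝ → Submodule ℂ (ℂ × EuclideanSpace ℂ (Fin n)), IsGeodesicCP L f h 1 γ ∧
      ∀ t, γ (t + T) = γ t := by
  sorry

/-- EQ: the closed geodesic in `ℂP^{n-1}`. -/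
theorem equatorCP {L : ℝ} {f h : ℝ → ℝ} (hf : IsProfileCP L f h) {n : ℕ} (hn : 2 ≤ n) :
    ∃ γ : ℝ → Submodule ℂ (ℂ × EuclideanSpace ℂ (Fin n)), IsGeodesicCP L f h 1 γ ∧
      ∀ t, γ (t + π * h L) = γ t := by
  sorry

/-- ME: the closed geodesics through the fixed point. -/
theorem meridianCP {L : ℝ} {f h : ℝ → ℝ} (hf : IsProfileCP L f h) {n : ℕ} (hn : 2 ≤ n) :
    ∃ γ : ℝ → Submodule ℂ (ℂ × EuclideanSpace ℂ (Fin n)), IsGeodesicCP L f h 1 γ ∧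
      ∀ t, γ (t + 2 * L) = γ t := by
  sorry

/-- LI: geodesics of the totally geodesic `ℂP¹`. -/
theorem lift_line {L : ℝ} {f h : ℝ → ℝ} (hf : IsProfileCP L f h) {n : ℕ} (hn : 2 ≤ n) {v : ℝ}
    {γ : ℝ → EuclideanSpace ℝ (Fin 2) × ℝ} (hγ : Pool.Agent.H206R2.Rot.IsGeodesic L f v γ) :
    ∃ γ' : ℝ → Submodule ℂ (ℂ × EuclideanSpace ℂ (Fin n)), IsGeodesicCP L f h v γ' ∧
      ∀ T, (∀ t, γ (t + T) = γ t) → ∀ t, γ' (t + T) = γ' t := by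
  sorry

/-- FP: the Fubini-Study metric. -/
theorem profile_FS : IsProfileCP (π / 2) (fun r => Real.sin r * Real.cos r) Real.sin := by
  sorry

/-- FL: closed geodesics of the Fubini-Study metric have length at least `π`. -/
theorem length_FS {n : ℕ} {v T : ℝ} (hv : 0 < v) (hT : 0 < T)
    {γ : ℝ → Submodule ℂ (ℂ × EuclideanSpace ℂ (Fin n))}
    (hγ : IsGeodesicCP (π / 2) (fun r => Real.sin r * Real.cos r) Real.sin v γ)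
    (hper : ∀ t, γ (t + T) = γ t) : π ≤ v * T := by
  sorry

end H738CP.Stubs
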