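import Pool.Agent.H738R3.CP.Defs
import Pool.Agent.H738R3.CP.GP

/-!
# TO: critical tori
-/

open Real Set MeasureTheory Filter Topology
open scoped ContDiff
open Pool.Agent.H206R2.Rot2 (Veff well actW)

namespace H738CP.TO

theorem torusCP {L : ℝ} {f h : ℝ → ℝ} (hf : IsProfileCP L f h) {n : ℕ} (hn : 2 ≤ n) {r₀ : ℝ}
    (h0 : 0 < r₀) (hL : r₀ < L) (h2 : 2 * f r₀ ^ 2 ≤ h r₀ ^ 2)
    (hd : h r₀ * f r₀ * deriv f r₀ + deriv h r₀ * (h r₀ ^ 2 - 2 * f r₀ ^ 2) = 0) :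
    ∃ γ : ℝ → Submodule ℂ (ℂ × EuclideanSpace ℂ (Fin n)), IsGeodesicCP L f h 1 γ ∧
      ∀ t, γ (t + π * (h r₀ ^ 2 / √(h r₀ ^ 2 - f r₀ ^ 2))) = γ t := by
  have hF : 0 < f r₀ := hf.f_pos r₀ h0 hL
  have hH : 0 < h r₀ := hf.h_pos r₀ h0 hL.le
  set F := f r₀ with hFd
  set H := h r₀ with hHd
  have hW : 0 < H ^ 2 - F ^ 2 := by nlinarith [sq_nonneg F, mul_pos hF hF]
  set J := √(H ^ 2 - F ^ 2) with hJd
  have hJ : 0 < J := Real.sqrt_pos.2 hW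
  have hJ2 : J ^ 2 = H ^ 2 - F ^ 2 := Real.sq_sqrt hW.le
  have hK : 0 ≤ H ^ 2 - 2 * F ^ 2 := by linarith
  obtain ⟨K, hK0, hK2⟩ : ∃ K : ℝ, 0 ≤ K ∧ K ^ 2 = H ^ 2 - 2 * F ^ 2 :=
    ⟨√(H ^ 2 - 2 * F ^ 2), Real.sqrt_nonneg _, Real.sq_sqrt hK⟩
  have hF0 : F ≠ 0 := hF.ne'
  have hH0 : H ≠ 0 := hH.ne'
  have hJ0 : J ≠ 0 := hJ.ne'
  have hJe : J = √((F ^ 2 / J) ^ 2 + (H * K / J) ^ 2) := by
    have e : (F ^ 2 / J) ^ 2 + (H * K / J) ^ 2 = J ^ 2 := by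
      have e1 : (F ^ 2 / J) ^ 2 + (H * K / J) ^ 2 = (F ^ 4 + H ^ 2 * K ^ 2) / J ^ 2 := by
        field_simp
      rw [e1, hK2, div_eq_iff (pow_ne_zero 2 hJ0), hJ2]
      ring
    rw [e, Real.sqrt_sq hJ.le]
  have hH2 : H ^ 2 = J ^ 2 + F ^ 2 := by linarith
  refine H738CP.GP.geodesic_of_planarCP hf hn (r := fun _ => r₀)
    (θ₁ := fun t => (F ^ 2 / J / F ^ 2 + (J - F ^ 2 / J) / H ^ 2) * t) (θ₂ := fun _ => 0)
    (P := F ^ 2 / J) (Q := H * K / J) (J := J) (by positivity) (by positivity) hJe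
    contDiff_const (contDiff_const.mul contDiff_id) contDiff_const (fun _ => ⟨h0, hL⟩)
    ?_ ?_ ?_ ?_ (fun _ => rfl) ?_ (Or.inr fun _ => rfl)
  · intro t
    have e1 : deriv (deriv (fun _ : ℝ => r₀)) t = 0 := by simp
    rw [e1, ← hFd, ← hHd]
    have e2 : F * deriv f r₀ * (F ^ 2 / J / F ^ 2) ^ 2 +
        H * deriv h r₀ * (H * K / J / H ^ 2) ^ 2 =
        (H * F * deriv f r₀ + deriv h r₀ * K ^ 2) / (H * J ^ 2) := by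
      field_simp
    rw [e2, hK2, hd, zero_div]
  · intro t
    rw [← hFd, ← hHd]
    have h3 : HasDerivAt (fun t : ℝ => (F ^ 2 / J / F ^ 2 + (J - F ^ 2 / J) / H ^ 2) * t)
        ((F ^ 2 / J / F ^ 2 + (J - F ^ 2 / J) / H ^ 2) * 1) t :=
      (hasDerivAt_id t).const_mul _
    rw [h3.deriv, mul_one]
  · intro t
    rw [← hFd, ← hHd]
    have e1 : deriv (fun _ : ℝ => (0 : ℝ)) t = 0 := by simp
    rw [e1]
    have e2 : F ^ 2 / J / F ^ 2 - (J + F ^ 2 / J) / H ^ 2 =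
        (H ^ 2 - (J ^ 2 + F ^ 2)) / (J * H ^ 2) := by
      field_simp
    rw [e2, hH2, sub_self, zero_div]
  · intro t
    have e1 : deriv (fun _ : ℝ => r₀) t = 0 := by simp
    rw [e1]
    unfold Veff
    rw [← hFd, ← hHd]
    have e2 : (0 : ℝ) ^ 2 + ((F ^ 2 / J / F) ^ 2 + (H * K / J / H) ^ 2) =
        (F ^ 2 + K ^ 2) / J ^ 2 := by
      field_simp
      ring
    rw [e2, hK2, hJ2, div_eq_one_iff_eq hW.ne']
    ring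
  · intro t
    have e2 : F ^ 2 / J / F ^ 2 + (J - F ^ 2 / J) / H ^ 2 = 2 * J / H ^ 2 := by
      have e3 : F ^ 2 / J / F ^ 2 + (J - F ^ 2 / J) / H ^ 2 =
          (H ^ 2 + (J ^ 2 - F ^ 2)) / (J * H ^ 2) := by
        field_simp
      rw [e3, div_eq_div_iff (mul_ne_zero hJ0 (pow_ne_zero 2 hH0)) (pow_ne_zero 2 hH0), hJ2]
      have : H ^ 2 + (H ^ 2 - F ^ 2 - F ^ 2) = 2 * J ^ 2 := by rw [hJ2]; ring
      rw [this]
      ring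
    show (F ^ 2 / J / F ^ 2 + (J - F ^ 2 / J) / H ^ 2) * (t + π * (H ^ 2 / J)) =
      (F ^ 2 / J / F ^ 2 + (J - F ^ 2 / J) / H ^ 2) * t + 2 * π
    rw [e2]
    field_simp
    try ring

end H738CP.TO
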